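import Mathlib

/-! Definitions used in the statements about Brauer-Severi varieties. -/

open TensorProduct

namespace Pool.Agent.MP12f267

universe u

/-- `[B] = r [A]` in the Brauer group of `F`: the `r`-th tensor power of `A` and the algebra `B`
have isomorphic matrix algebras. -/
def IsBrauerMultiple (F A B : Type u) [Field F] [Ring A] [Algebra F A] [Ring B] [Algebra F B]
    (r : ℕ) : Prop :=
  ∃ k l : ℕ, k ≠ 0 ∧ l ≠ 0 ∧
    Nonempty (Matrix (Fin k) (Fin k) (⨂[F] _ : Fin r, A) ≃ₐ[F] Matrix (Fin l) (Fin l) B)

/-- The classes of `A` and `B` generate the same (cyclic) subgroup of the Brauer group. -/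
def SameSubgroup (F A B : Type u) [Field F] [Ring A] [Algebra F A] [Ring B] [Algebra F B] : Prop :=
  (∃ r : ℕ, IsBrauerMultiple F A B r) ∧ ∃ s : ℕ, IsBrauerMultiple F B A s

/-- The subspace `I` of `K ⊗ A` is defined over the intermediate field `E`: it is spanned by its
elements coming from `E ⊗ A`. -/
def DefinedOver (F A K : Type u) [Field F] [Ring A] [Algebra F A] [Field K] [Algebra F K]
    (I : Submodule K (K ⊗[F] A)) (E : IntermediateField F K) : Prop :=
  Submodule.span K {x | x ∈ I ∧ ∃ y : E ⊗[F] A,
    x = Algebra.TensorProduct.map E.val (AlgHom.id F A) y} = I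

/-- `K` is the function field of the Brauer-Severi variety `X_A` of the central simple algebra `A`
of degree `n` over `F`: there is a generic point of `X_A` with values in `K`, that is a right ideal
`I` of `K ⊗ A` of dimension `n` over `K` whose field of definition is all of `K`, and `K` has
transcendence degree `n - 1` over `F`. -/
def IsFunctionField (F A K : Type u) [Field F] [Ring A] [Algebra F A] [Field K]
    [Algebra F K] : Prop :=
  ∃ (n : ℕ) (I : Submodule K (K ⊗[F] A)), Module.finrank F A = n ^ 2 ∧
    (∀ x ∈ I, ∀ y : K ⊗[F] A, x * y ∈ I) ∧ Module.finrank K I = n ∧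
    (∀ E : IntermediateField F K, DefinedOver F A K I E → E = ⊤) ∧
    Algebra.trdeg F K + 1 = (n : Cardinal)

/-- The Brauer-Severi varieties of `A` and `B` are birational over `F`: they have the same function
field. -/
def Birational (F A B : Type u) [Field F] [Ring A] [Algebra F A] [Ring B] [Algebra F B] : Prop :=
  ∃ (K : Type u) (_ : Field K) (_ : Algebra F K), IsFunctionField F A K ∧ IsFunctionField F B K

/-- Every integer prime to `m` is `± 2^j` modulo `m`. -/
def GoodDegree (m : ℕ) : Prop :=
  ∀ r : ℕ, r.Coprime m → ∃ j : ℕ, (m : ℤ) ∣ (r : ℤ) - 2 ^ j ∨ (m : ℤ) ∣ (r : ℤ) + 2 ^ j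

/-- All prime powers exactly dividing `m` are good. -/
def GoodPeriod (m : ℕ) : Prop :=
  ∀ p e : ℕ, p.Prime → p ^ e ∣ m → ¬ p ^ (e + 1) ∣ m → GoodDegree (p ^ e)

/-- A good step of a tower of intermediate fields of `E/F`: the degree is good, or the step is a
cyclic Galois extension. -/
def GoodFieldStep (F E : Type u) [Field F] [Field E] [Algebra F E] (M M' : IntermediateField F E) :
    Prop :=
  ∃ h : M ≤ M', GoodDegree (Module.finrank M (IntermediateField.extendScalars h)) ∨
    (IsGalois M (IntermediateField.extendScalars h) ∧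
      IsCyclic (IntermediateField.extendScalars h ≃ₐ[M] IntermediateField.extendScalars h))

/-- `E/F` has a tower of intermediate fields all of whose steps are good. -/
def HasFieldTower (F E : Type u) [Field F] [Field E] [Algebra F E] : Prop :=
  ∃ (k : ℕ) (M : ℕ → IntermediateField F E), M 0 = ⊥ ∧ M k = ⊤ ∧
    ∀ i < k, GoodFieldStep F E (M i) (M (i + 1))

end Pool.Agent.MP12f267
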