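import Mathlib
import Pool.Agent.Work.MP_12f267_ag.Statement

/-! Projective semilinear modules, monomial modules, generic points. -/

open TensorProduct

namespace Pool.Agent.MP12f267

universe u

/-! ### Fields with a group action -/

/-- `K` is a `G`-field over the `G`-field `L`. -/
class GField (G L K : Type u) [Group G] [Field L] [Field K] [Algebra L K]
    [MulSemiringAction G L] [MulSemiringAction G K] : Prop where
  smul_algebraMap : ∀ (g : G) (l : L), g • algebraMap L K l = algebraMap L K (g • l)

/-- The fixed field of `G` in `L` is infinite. -/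
def InfFix (G : Type u) (L : Type u) [Group G] [Field L] [MulSemiringAction G L] : Prop :=
  Set.Infinite {x : L | ∀ g : G, g • x = x}

/-- The subfield generated over `L` by the ratios of the coordinates of `v`. -/
def projField (L : Type u) {K : Type u} [Field L] [Field K] [Algebra L K] {ι : Type u}
    (x : ι → K) : IntermediateField L K :=
  IntermediateField.adjoin L {z | ∃ i j, z = x i / x j}

/-- Two 2-cochains with values in `L*` are cohomologous. -/
def Cohom (G : Type u) (L : Type u) [Group G] [Field L] [MulSemiringAction G L]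
    (a b : G → G → L) : Prop :=
  ∃ ν : G → L, (∀ g, ν g ≠ 0) ∧ ∀ g h, b g h * ν (g * h) = a g h * (ν g * g • ν h)

/-! ### Projective modules in matrix form -/

/-- A projective semilinear representation of `G` on `L^ι`: `φ_g (x) = P_g (g x)` with
`φ_g φ_h = a(g,h) φ_{gh}`. -/
structure PMod (G : Type u) (L : Type u) (ι : Type u) [Group G] [Field L]
    [MulSemiringAction G L] [Fintype ι] [DecidableEq ι] where
  P : G → Matrix ι ι L
  a : G → G → L
  a_ne : ∀ g h, a g h ≠ 0
  det_ne : ∀ g, (P g).det ≠ 0
  mul : ∀ g h, P g * (P h).map (fun x => g • x) = a g h • P (g * h)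

section PMod

variable {G : Type u} {L : Type u} {ι : Type u} [Group G] [Field L] [MulSemiringAction G L]
  [Fintype ι] [DecidableEq ι]

/-- `x` is a point: its line is stable under `G`. -/
def PMod.IsPt (M : PMod G L ι) (K : Type u) [Field K] [Algebra L K] [MulSemiringAction G K]
    (x : ι → K) : Prop :=
  x ≠ 0 ∧ ∀ g : G, ∃ μ : K, μ ≠ 0 ∧
    ((M.P g).map (algebraMap L K)).mulVec (fun i => g • x i) = μ • x

/-- `x` is a generic point with values in `K`. -/
def PMod.Gen (M : PMod G L ι) (K : Type u) [Field K] [Algebra L K] [MulSemiringAction G K]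
    (x : ι → K) : Prop :=
  M.IsPt K x ∧ projField L x = ⊤ ∧ Algebra.trdeg L K + 1 = (Fintype.card ι : Cardinal)

/-- Each field with a generic point of `M` has a generic point of `M'`. -/
def PMod.BirTo {κ : Type u} [Fintype κ] [DecidableEq κ] (M : PMod G L ι) (M' : PMod G L κ) :
    Prop :=
  ∀ (K : Type u) [Field K] [Algebra L K] [MulSemiringAction G K] [GField G L K] (x : ι → K),
    M.Gen K x → ∃ y : κ → K, M'.Gen K y

/-- Isomorphism of projective modules. -/
def PMod.Iso {κ : Type u} [Fintype κ] [DecidableEq κ] (M : PMod G L ι) (M' : PMod G L κ) : Prop :=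
  ∃ (S : Matrix κ ι L) (T : Matrix ι κ L) (μ : G → L), S * T = 1 ∧ T * S = 1 ∧
    (∀ g, μ g ≠ 0) ∧ ∀ g, M'.P g * S.map (fun x => g • x) = μ g • (S * M.P g)

/-- Inflation, restriction and base change. -/
def PMod.infl {G' : Type u} {L' : Type u} [Group G'] [Field L'] [MulSemiringAction G' L']
    (M : PMod G L ι) (π : G' →* G) (j : L →+* L') (hj : ∀ (g : G') (l : L), g • j l = j (π g • l)) :
    PMod G' L' ι where
  P g := (M.P (π g)).map j
  a g h := j (M.a (π g) (π h))
  a_ne g h := by simpa using M.a_ne (π g) (π h)
  det_ne g := by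
    have h := M.det_ne (π g)
    rw [← RingHom.mapMatrix_apply, ← RingHom.map_det]
    simpa using h
  mul g h := by
    have e := M.mul (π g) (π h)
    have e2 := congrArg (fun N : Matrix ι ι L => N.map j) e
    rw [Matrix.map_mul] at e2
    rw [map_mul π]
    ext i k
    have e3 := congrFun (congrFun e2 i) k
    simp only [Matrix.mul_apply, Matrix.map_apply, Matrix.smul_apply, smul_eq_mul, map_mul] at e3 ⊢
    rw [← e3]
    refine Finset.sum_congr rfl (fun l _ => ?_)
    rw [hj]

end PMod

/-- There is a projective module with class `a` and dimension `d`. -/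
def HasMod (G : Type u) (L : Type u) [Group G] [Field L] [MulSemiringAction G L]
    (a : G → G → L) (d : ℕ) : Prop :=
  ∃ (ι : Type u) (_ : Fintype ι) (_ : DecidableEq ι) (M : PMod G L ι),
    Fintype.card ι = d ∧ Cohom G L M.a a

/-! ### Monomial modules -/

/-- A monomial projective module on the `G`-set `X`: `φ_g e_x = c_g(x) e_{gx}`. -/
structure Mono (G : Type u) (L : Type u) (X : Type u) [Group G] [Field L]
    [MulSemiringAction G L] [MulAction G X] where
  c : G → X → L
  a : G → G → L
  c_ne : ∀ g x, c g x ≠ 0
  a_ne : ∀ g h, a g h ≠ 0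
  mul : ∀ g h x, c g (h • x) * (g • c h x) = a g h * c (g * h) x

section Mono

variable {G : Type u} {L : Type u} {X : Type u} [Group G] [Field L] [MulSemiringAction G L]
  [MulAction G X]

/-- `x` is a point of the monomial module. -/
def Mono.IsPt (c : Mono G L X) (K : Type u) [Field K] [Algebra L K] [MulSemiringAction G K]
    (v : X → K) : Prop :=
  (∀ x, v x ≠ 0) ∧ ∀ g : G, ∃ μ : K, μ ≠ 0 ∧
    ∀ x, algebraMap L K (c.c g x) * g • v x = μ * v (g • x)

/-- `v` is a generic point with values in `K`. -/
def Mono.Gen (c : Mono G L X) (K : Type u) [Field K] [Algebra L K] [MulSemiringAction G K]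
    (v : X → K) : Prop :=
  c.IsPt K v ∧ projField L v = ⊤ ∧ Algebra.trdeg L K + 1 = (Nat.card X : Cardinal)

/-- Each field with a generic point of `c` has a generic point of `c'`. -/
def Mono.BirTo {X' : Type u} [MulAction G X'] (c : Mono G L X) (c' : Mono G L X') : Prop :=
  ∀ (K : Type u) [Field K] [Algebra L K] [MulSemiringAction G K] [GField G L K] (v : X → K),
    c.Gen K v → ∃ v' : X' → K, c'.Gen K v'

/-- The matrix form of a monomial module. -/
def Mono.toPMod [Fintype X] [DecidableEq X] (c : Mono G L X) : PMod G L X where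
  P g := Matrix.of fun x' x => if x' = g • x then c.c g x else 0
  a := c.a
  a_ne := c.a_ne
  det_ne g := by
    have hunit : (Matrix.of fun x' x => if x' = g • x then c.c g x else 0 : Matrix X X L) *
        (Matrix.of fun x x' => if x' = g • x then (c.c g x)⁻¹ else 0) = 1 := by
      ext i k
      simp only [Matrix.mul_apply, Matrix.of_apply, Matrix.one_apply]
      rw [Finset.sum_eq_single (g⁻¹ • i)]
      · by_cases h : i = k
        · subst h
          simp [c.c_ne]
        · have h2 : ¬ k = i := fun hk => h hk.symm
          simp [h, h2]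
      · intro b _ hb
        have : i ≠ g • b := fun h => hb (by rw [h]; simp)
        simp [this]
      · simp
    intro h0
    have := congrArg Matrix.det hunit
    rw [Matrix.det_mul, h0] at this
    simp at this
  mul g h := by
    ext i k
    simp only [Matrix.mul_apply, Matrix.map_apply, Matrix.of_apply, Matrix.smul_apply, smul_eq_mul]
    rw [Finset.sum_eq_single (h • k)]
    · have hm := c.mul g h k
      by_cases hi : i = g • h • k
      · have hi2 : i = (g * h) • k := by rw [hi, mul_smul]
        simp [hi, mul_smul, hm]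
      · have hi2 : ¬ i = (g * h) • k := by rw [mul_smul]; exact hi
        simp [hi, hi2]
    · intro b _ hb
      simp [hb]
    · simp

/-- Integral powers of a monomial module. -/
def Mono.zpow (c : Mono G L X) (k : ℤ) : Mono G L X where
  c g x := c.c g x ^ k
  a g h := c.a g h ^ k
  c_ne g x := zpow_ne_zero _ (c.c_ne g x)
  a_ne g h := zpow_ne_zero _ (c.a_ne g h)
  mul g h x := by
    have e : g • (c.c h x ^ k) = (g • c.c h x) ^ k :=
      map_zpow₀ (MulSemiringAction.toRingHom G L g) (c.c h x) k
    rw [e, ← mul_zpow, c.mul, mul_zpow]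

end Mono

/-! ### Fibres of equivariant maps -/

/-- The fibre of an equivariant map. -/
def Fib {G : Type u} {X Y : Type u} [Group G] [MulAction G X] [MulAction G Y] (π : X →[G] Y)
    (y : Y) : Type u := {x : X // π x = y}

instance {G : Type u} {X Y : Type u} [Group G] [MulAction G X] [MulAction G Y] (π : X →[G] Y)
    (y : Y) : MulAction (MulAction.stabilizer G y) (Fib π y) where
  smul g x := ⟨(g : G) • x.1, by rw [map_smul, x.2]; exact g.2⟩
  one_smul x := Subtype.ext (one_smul G x.1)
  mul_smul g h x := Subtype.ext (mul_smul (g : G) (h : G) x.1)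

/-- Restriction of a monomial module to a fibre. -/
def Mono.fib {G : Type u} {L : Type u} {X Y : Type u} [Group G] [Field L] [MulSemiringAction G L]
    [MulAction G X] [MulAction G Y] (c : Mono G L X) (π : X →[G] Y) (y : Y) :
    Mono (MulAction.stabilizer G y) L (Fib π y) where
  c g x := c.c (g : G) x.1
  a g h := c.a (g : G) (h : G)
  c_ne _ _ := c.c_ne _ _
  a_ne _ _ := c.a_ne _ _
  mul g h x := c.mul (g : G) (h : G) x.1

/-! ### Towers of `G`-sets -/

/-- A step of a tower of `G`-sets: the size is prime to `r` and the size is a good degree or the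
action is by a regular cyclic group (there is a transitive permutation commuting with `G`). -/
def GoodStep (r : ℕ) (G : Type u) (Y : Type u) [Group G] [MulAction G Y] : Prop :=
  Finite Y ∧ Nonempty Y ∧ r.Coprime (Nat.card Y) ∧ (GoodDegree (Nat.card Y) ∨
    ∃ σ : Equiv.Perm Y, (∀ (g : G) (y : Y), σ (g • y) = g • σ y) ∧
      ∀ y y' : Y, ∃ k : ℤ, (σ ^ k) y = y')

/-- Towers of `G`-sets all of whose steps are good. -/
inductive HasTower (r : ℕ) : ∀ (G : Type u) [Group G] (X : Type u) [MulAction G X], Prop
  | point (G : Type u) [Group G] (X : Type u) [MulAction G X] (h : Subsingleton X)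
      (h' : Nonempty X) : HasTower r G X
  | step (G : Type u) [Group G] (X Y : Type u) [MulAction G X] [MulAction G Y] (π : X →[G] Y)
      (hY : GoodStep r G Y)
      (h : ∀ y : Y, HasTower r (MulAction.stabilizer G y) (Fib π y)) : HasTower r G X

/-! ### Models of algebras -/

/-- The Galois group acts on `L` (this is the standard action). A model of the `F`-algebra `A`
over the Galois extension `L/F`: an isomorphism of `L ⊗ A` with the matrix algebra such that the
Galois action is given by the projective module `M`. -/
structure Model (F L A : Type u) {ι : Type u} [Field F] [Field L] [Algebra F L] [Ring A]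
    [Algebra F A] [Fintype ι] [DecidableEq ι] (M : PMod (L ≃ₐ[F] L) L ι) where
  θ : A →ₐ[F] Matrix ι ι L
  span : Submodule.span L (Set.range θ) = ⊤
  dim : Module.finrank F A = Fintype.card ι ^ 2
  comm : ∀ (g : L ≃ₐ[F] L) (x : A), θ x * M.P g = M.P g * (θ x).map (fun z => g • z)

/-- The fixed field of the Galois group of `L/F` in a `G`-field `K` over `L`. -/
def fixedIF (F L K : Type u) [Field F] [Field L] [Algebra F L] [Field K] [Algebra L K]
    [Algebra F K] [IsScalarTower F L K] [MulSemiringAction (L ≃ₐ[F] L) K]
    [GField (L ≃ₐ[F] L) L K] : IntermediateField F K where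
  carrier := {x | ∀ g : L ≃ₐ[F] L, g • x = x}
  mul_mem' {a b} ha hb g := by rw [smul_mul', ha g, hb g]
  add_mem' {a b} ha hb g := by rw [smul_add, ha g, hb g]
  algebraMap_mem' r g := by
    rw [IsScalarTower.algebraMap_apply F L K, GField.smul_algebraMap]
    congr 1
    exact g.commutes r
  inv_mem' x hx g := by
    rw [smul_inv'', hx g]

/-- The roots of a polynomial over `F` in the extension `L`. -/
def Roots (F L : Type u) [Field F] [Field L] [Algebra F L] (p : Polynomial F) : Type u :=
  {x : L // Polynomial.aeval x p = 0}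

instance (F L : Type u) [Field F] [Field L] [Algebra F L] (p : Polynomial F) :
    MulAction (L ≃ₐ[F] L) (Roots F L p) where
  smul g x := ⟨g x.1, by
    have h : Polynomial.aeval (g x.1) p = g (Polynomial.aeval x.1 p) :=
      Polynomial.aeval_algHom_apply g.toAlgHom x.1 p
    rw [h, x.2, map_zero]⟩
  one_smul x := Subtype.ext rfl
  mul_smul g h x := Subtype.ext rfl

/-- Inflation of a projective module from `Gal(L₀/F)` to `Gal(L/F)`. -/
noncomputable def PMod.inflGal {F L₀ ι : Type u} [Field F] [Field L₀] [Algebra F L₀] [Normal F L₀]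
    [Fintype ι] [DecidableEq ι] (M : PMod (L₀ ≃ₐ[F] L₀) L₀ ι) (L : Type u) [Field L] [Algebra F L]
    [Algebra L₀ L] [IsScalarTower F L₀ L] : PMod (L ≃ₐ[F] L) L ι :=
  M.infl (AlgEquiv.restrictNormalHom L₀) (algebraMap L₀ L)
    (fun g l => (AlgEquiv.restrictNormal_commutes g L₀ l).symm)

end Pool.Agent.MP12f267
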