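import Mathlib
import Pool.Agent.Work.MP_12f267_ag.Defs

/-! Basic API: cohomology relation, fixed fields, base change. -/

open TensorProduct

namespace Pool.Agent.MP12f267

universe u

section Act

variable {G L : Type u} [Group G] [Field L] [MulSemiringAction G L]

lemma smul_inv_field (g : G) (x : L) : g • x⁻¹ = (g • x)⁻¹ := smul_inv'' g x

lemma smul_zpow_field (g : G) (x : L) (k : ℤ) : g • (x ^ k) = (g • x) ^ k :=
  map_zpow₀ (MulSemiringAction.toRingHom G L g) x k

lemma smul_div_field (g : G) (x y : L) : g • (x / y) = g • x / g • y := by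
  rw [div_eq_mul_inv, smul_mul', smul_inv'', div_eq_mul_inv]

lemma smul_ne_zero_field (g : G) {x : L} (hx : x ≠ 0) : g • x ≠ 0 := by
  intro h
  apply hx
  have := congrArg (fun y => g⁻¹ • y) h
  simpa using this

/-! ### The cohomology relation -/

lemma Cohom.refl (a : G → G → L) : Cohom G L a a :=
  ⟨fun _ => 1, fun _ => one_ne_zero, fun g h => by simp⟩

lemma Cohom.of_eq {a b : G → G → L} (h : ∀ x y, a x y = b x y) : Cohom G L a b := by
  have : a = b := funext fun x => funext fun y => h x y
  rw [this]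
  exact Cohom.refl b

lemma Cohom.symm {a b : G → G → L} (h : Cohom G L a b) : Cohom G L b a := by
  obtain ⟨ν, hν, h⟩ := h
  refine ⟨fun g => (ν g)⁻¹, fun g => inv_ne_zero (hν g), fun g k => ?_⟩
  have h1 := h g k
  have h2 := hν g
  have h3 := hν k
  have h4 := hν (g * k)
  have h5 : g • ν k ≠ 0 := smul_ne_zero_field g h3
  rw [smul_inv'']
  field_simp
  linear_combination -h1

lemma Cohom.trans {a b c : G → G → L} (h : Cohom G L a b) (h' : Cohom G L b c) :
    Cohom G L a c := by
  obtain ⟨ν, hν, h⟩ := h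
  obtain ⟨ν', hν', h'⟩ := h'
  refine ⟨fun g => ν g * ν' g, fun g => mul_ne_zero (hν g) (hν' g), fun g k => ?_⟩
  rw [smul_mul']
  have h1 := h g k
  have h2 := h' g k
  linear_combination ν (g * k) * h2 + ν' g * (g • ν' k) * h1

lemma Cohom.mul {a b c d : G → G → L} (h : Cohom G L a b) (h' : Cohom G L c d) :
    Cohom G L (fun g k => a g k * c g k) (fun g k => b g k * d g k) := by
  obtain ⟨ν, hν, h⟩ := h
  obtain ⟨ν', hν', h'⟩ := h'
  refine ⟨fun g => ν g * ν' g, fun g => mul_ne_zero (hν g) (hν' g), fun g k => ?_⟩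
  rw [smul_mul']
  have h1 := h g k
  have h2 := h' g k
  linear_combination d g k * ν' (g * k) * h1 + a g k * (ν g * (g • ν k)) * h2

lemma Cohom.inv {a b : G → G → L} (ha : ∀ g k, a g k ≠ 0) (hb : ∀ g k, b g k ≠ 0)
    (h : Cohom G L a b) :
    Cohom G L (fun g k => (a g k)⁻¹) (fun g k => (b g k)⁻¹) := by
  obtain ⟨ν, hν, h⟩ := h
  refine ⟨fun g => (ν g)⁻¹, fun g => inv_ne_zero (hν g), fun g k => ?_⟩
  have h1 := h g k
  have h2 := hν g
  have h3 := hν k
  have h4 := hν (g * k)
  have h5 : g • ν k ≠ 0 := smul_ne_zero_field g h3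
  have h6 := ha g k
  have h7 := hb g k
  rw [smul_inv'']
  field_simp
  linear_combination -h1

lemma Cohom.zpow {a b : G → G → L} (h : Cohom G L a b) (n : ℤ) :
    Cohom G L (fun g k => a g k ^ n) (fun g k => b g k ^ n) := by
  obtain ⟨ν, hν, h⟩ := h
  refine ⟨fun g => ν g ^ n, fun g => zpow_ne_zero _ (hν g), fun g k => ?_⟩
  rw [smul_zpow_field, ← mul_zpow, ← mul_zpow, ← mul_zpow, h g k]

/-- If `a ^ n` and `a ^ m` are coboundaries, so is `a ^ (n x + m y)`. -/
lemma Cohom.one_zpow_comb {a : G → G → L} (ha : ∀ g k, a g k ≠ 0) {n m : ℤ}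
    (hn : Cohom G L (fun _ _ => 1) (fun g k => a g k ^ n))
    (hm : Cohom G L (fun _ _ => 1) (fun g k => a g k ^ m)) (x y : ℤ) :
    Cohom G L (fun _ _ => 1) (fun g k => a g k ^ (n * x + m * y)) := by
  have h1 := hn.zpow x
  have h2 := hm.zpow y
  have h3 := h1.mul h2
  refine Cohom.trans (Cohom.of_eq fun g k => ?_) (h3.trans (Cohom.of_eq fun g k => ?_))
  · simp
  · rw [zpow_add₀ (ha g k), zpow_mul, zpow_mul]

/-- Changing the exponent by a multiple of a period. -/
lemma Cohom.zpow_congr {a : G → G → L} (ha : ∀ g k, a g k ≠ 0) {n : ℤ}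
    (hn : Cohom G L (fun _ _ => 1) (fun g k => a g k ^ n)) {r s : ℤ} (hrs : n ∣ s - r) :
    Cohom G L (fun g k => a g k ^ r) (fun g k => a g k ^ s) := by
  obtain ⟨t, ht⟩ := hrs
  have h1 := (Cohom.refl (fun g k => a g k ^ r)).mul (hn.zpow t)
  refine Cohom.trans (Cohom.of_eq fun g k => ?_) (h1.trans (Cohom.of_eq fun g k => ?_))
  · simp
  · have : s = r + n * t := by linarith
    rw [this, zpow_add₀ (ha g k), zpow_mul]

end Act

/-! ### Base change and restriction -/

section Base

variable {G L K : Type u} [Group G] [Field L] [Field K] [Algebra L K] [MulSemiringAction G L]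
  [MulSemiringAction G K] [GField G L K]

lemma Cohom.map {a b : G → G → L} (h : Cohom G L a b) :
    Cohom G K (fun g k => algebraMap L K (a g k)) (fun g k => algebraMap L K (b g k)) := by
  obtain ⟨ν, hν, h⟩ := h
  refine ⟨fun g => algebraMap L K (ν g), fun g => by simpa using hν g, fun g k => ?_⟩
  rw [GField.smul_algebraMap, ← map_mul, h g k, map_mul, map_mul]

omit [Field K] [Algebra L K] [MulSemiringAction G K] [GField G L K] in
lemma Cohom.comp {G' : Type u} [Group G'] [MulSemiringAction G' L] (π : G' →* G)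
    (hπ : ∀ (g : G') (l : L), g • l = π g • l) {a b : G → G → L} (h : Cohom G L a b) :
    Cohom G' L (fun g k => a (π g) (π k)) (fun g k => b (π g) (π k)) := by
  obtain ⟨ν, hν, h⟩ := h
  refine ⟨fun g => ν (π g), fun g => hν _, fun g k => ?_⟩
  show b (π g) (π k) * ν (π (g * k)) = a (π g) (π k) * (ν (π g) * g • ν (π k))
  rw [map_mul, h, hπ]

omit [Field K] [Algebra L K] [MulSemiringAction G K] [GField G L K] in
lemma Cohom.restrict (N : Subgroup G) {a b : G → G → L} (h : Cohom G L a b) :
    Cohom N L (fun g k => a (g : G) (k : G)) (fun g k => b (g : G) (k : G)) :=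
  Cohom.comp N.subtype (fun _ _ => rfl) h

lemma InfFix.map (h : InfFix G L) : InfFix G K := by
  refine Set.Infinite.mono ?_ (Set.Infinite.image (f := algebraMap L K)
    (fun x _ y _ e => (algebraMap L K).injective e) h)
  rintro _ ⟨x, hx, rfl⟩ g
  rw [GField.smul_algebraMap, hx g]

omit [Field K] [Algebra L K] [MulSemiringAction G K] [GField G L K] in
lemma InfFix.restrict (h : InfFix G L) (N : Subgroup G) : InfFix N L := by
  unfold InfFix at *
  refine Set.Infinite.mono ?_ h
  intro x hx g
  exact hx (g : G)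

variable (G L K) in
lemma faithful_of_gField [FaithfulSMul G L] : FaithfulSMul G K := by
  constructor
  intro g h hgh
  refine FaithfulSMul.eq_of_smul_eq_smul (M := G) (α := L) (fun l => ?_)
  have := hgh (algebraMap L K l)
  rw [GField.smul_algebraMap, GField.smul_algebraMap] at this
  exact (algebraMap L K).injective this

omit [Field K] [Algebra L K] [MulSemiringAction G K] [GField G L K] in
lemma faithful_restrict [FaithfulSMul G L] (N : Subgroup G) : FaithfulSMul N L := by
  constructor
  intro g h hgh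
  exact Subtype.ext (FaithfulSMul.eq_of_smul_eq_smul (M := G) (α := L) (fun l => hgh l))

end Base

/-! ### Cocycle identity -/

section Cocycle

variable {G L X : Type u} [Group G] [Field L] [MulSemiringAction G L] [MulAction G X]

lemma Mono.cocycle [Nonempty X] (c : Mono G L X) (g h k : G) :
    c.a g h * c.a (g * h) k = (g • c.a h k) * c.a g (h * k) := by
  obtain ⟨x⟩ := (inferInstance : Nonempty X)
  have h1 := c.mul g h (k • x)
  have h2 := c.mul (g * h) k x
  have h3 := c.mul h k x
  have h4 := c.mul g (h * k) x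
  have h3' := congrArg (fun y => g • y) h3
  simp only [smul_mul'] at h3'
  rw [mul_smul] at h4
  rw [mul_assoc] at h2
  have e : (g * h) • c.c k x = g • h • c.c k x := mul_smul g h _
  rw [e] at h2
  have hne : c.c (g * (h * k)) x ≠ 0 := c.c_ne _ _
  have hne2 : c.c (g * h) (k • x) * (g • h • c.c k x) ≠ 0 := by
    rw [h2]
    exact mul_ne_zero (c.a_ne _ _) hne
  apply mul_right_cancel₀ hne
  have key : c.c g (h • k • x) * (g • c.c h (k • x)) * (g • h • c.c k x) =
      c.a g h * c.a (g * h) k * c.c (g * (h * k)) x := by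
    rw [h1, mul_assoc, h2, mul_assoc]
  rw [← key]
  have e2 : c.c g (h • k • x) * (g • c.c h (k • x)) * (g • h • c.c k x) =
      c.c g (h • k • x) * (g • c.c h (k • x) * (g • h • c.c k x)) := by ring
  rw [e2, h3']
  have e3 : c.c g (h • k • x) * (g • c.a h k * g • c.c (h * k) x) =
      g • c.a h k * (c.c g (h • k • x) * g • c.c (h * k) x) := by ring
  rw [e3, h4]
  ring

end Cocycle

end Pool.Agent.MP12f267
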