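import Mathlib
import Pool.Agent.Work.MP_12f267_ag.Basic

/-! Exact statements of the blocks (see BLUEPRINT.md). -/

open TensorProduct

namespace Pool.Agent.MP12f267

universe u

/-! ### Block DENS: Galois descent and density -/

/-- Galois descent: a semilinear action on a finite-dimensional space has a spanning set of fixed
vectors. -/
def Stmt_DESC : Prop :=
  ∀ (G L V : Type u) [Group G] [Finite G] [Field L] [MulSemiringAction G L] [FaithfulSMul G L]
    [AddCommGroup V] [Module L V] [FiniteDimensional L V] (ρ : G → V → V),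
    (∀ g x y, ρ g (x + y) = ρ g x + ρ g y) → (∀ g (c : L) x, ρ g (c • x) = (g • c) • ρ g x) →
    (∀ g h x, ρ g (ρ h x) = ρ (g * h) x) → (∀ x, ρ 1 x = x) →
    Submodule.span L {x : V | ∀ g, ρ g x = x} = ⊤

/-- Density of the fixed vectors, for an infinite fixed field. -/
def Stmt_DENS : Prop :=
  ∀ (G L κ : Type u) [Group G] [Finite G] [Field L] [MulSemiringAction G L] [FaithfulSMul G L]
    [Finite κ] (ρ : G → (κ → L) → (κ → L)), InfFix G L →
    (∀ g x y, ρ g (x + y) = ρ g x + ρ g y) → (∀ g (c : L) x, ρ g (c • x) = (g • c) • ρ g x) →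
    (∀ g h x, ρ g (ρ h x) = ρ (g * h) x) → (∀ x, ρ 1 x = x) →
    ∀ (p : MvPolynomial κ L) (x₀ : κ → L), MvPolynomial.eval x₀ p ≠ 0 →
      ∃ x : κ → L, (∀ g, ρ g x = x) ∧ MvPolynomial.eval x p ≠ 0

/-! ### Block UNIQ: uniqueness of modules -/

def Stmt_UNIQ : Prop :=
  ∀ (G L ι κ : Type u) [Group G] [Finite G] [Field L] [MulSemiringAction G L] [FaithfulSMul G L]
    [Fintype ι] [DecidableEq ι] [Fintype κ] [DecidableEq κ] (M : PMod G L ι) (M' : PMod G L κ)
    (ν : G → L),
    InfFix G L → Fintype.card ι = Fintype.card κ → (∀ g, ν g ≠ 0) →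
    (∀ g h, M'.a g h * ν (g * h) = M.a g h * (ν g * g • ν h)) →
    ∃ (S : Matrix κ ι L) (T : Matrix ι κ L), S * T = 1 ∧ T * S = 1 ∧
      ∀ g, M'.P g * S.map (fun x => g • x) = ν g • (S * M.P g)

/-! ### Block ISO: isomorphic modules have the same generic points; monomial versus matrix form -/

def Stmt_ISO : Prop :=
  ∀ (G L ι κ : Type u) [Group G] [Field L] [MulSemiringAction G L]
    [Fintype ι] [DecidableEq ι] [Fintype κ] [DecidableEq κ] (M : PMod G L ι) (M' : PMod G L κ),
    M.Iso M' → M.BirTo M'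

def Stmt_ISOCOH : Prop :=
  ∀ (G L ι κ : Type u) [Group G] [Field L] [MulSemiringAction G L]
    [Fintype ι] [DecidableEq ι] [Fintype κ] [DecidableEq κ] [Nonempty ι]
    (M : PMod G L ι) (M' : PMod G L κ), M.Iso M' → Cohom G L M.a M'.a

def Stmt_BRIDGE : Prop :=
  ∀ (G L X : Type u) [Group G] [Field L] [MulSemiringAction G L] [MulAction G X] [Fintype X]
    [DecidableEq X] [Nonempty X] (c : Mono G L X) (K : Type u) [Field K] [Algebra L K]
    [MulSemiringAction G K] [GField G L K] (v : X → K), c.Gen K v ↔ c.toPMod.Gen K v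

/-- Monomial modules of the same size with cohomologous cocycles. (Consequence of UNIQ, ISO and
BRIDGE.) -/
def Stmt_UNIQM : Prop :=
  ∀ (G L X X' : Type u) [Group G] [Finite G] [Field L] [MulSemiringAction G L] [FaithfulSMul G L]
    [MulAction G X] [MulAction G X'] [Finite X] [Finite X'] [Nonempty X]
    (c : Mono G L X) (c' : Mono G L X'), InfFix G L → Nat.card X = Nat.card X' →
    Cohom G L c.a c'.a → c.BirTo c'

/-! ### Block DIM: dimensions of modules -/

def Stmt_DIM : Prop :=
  ∀ (G L : Type u) [Group G] [Field L] [MulSemiringAction G L],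
    -- tensor products
    (∀ (a b : G → G → L) (d e : ℕ), HasMod G L a d → HasMod G L b e →
      HasMod G L (fun g h => a g h * b g h) (d * e)) ∧
    -- duals
    (∀ (a : G → G → L) (d : ℕ), (∀ g h, a g h ≠ 0) → HasMod G L a d →
      HasMod G L (fun g h => (a g h)⁻¹) d) ∧
    -- direct sums
    (∀ (a : G → G → L) (d e : ℕ), HasMod G L a d → HasMod G L a e → HasMod G L a (d + e)) ∧
    -- determinants
    (∀ (a : G → G → L) (d : ℕ), HasMod G L a d →
      Cohom G L (fun _ _ => 1) (fun g h => a g h ^ (d : ℤ)))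

/-- Monomial modules are modules. -/
def Stmt_DIMM : Prop :=
  ∀ (G L X : Type u) [Group G] [Field L] [MulSemiringAction G L] [MulAction G X] [Finite X]
    (c : Mono G L X), HasMod G L c.a (Nat.card X) ∧
      Cohom G L (fun _ _ => 1) (fun g h => c.a g h ^ (Nat.card X : ℤ))

/-- Quotients: dimensions may be subtracted. -/
def Stmt_SUB : Prop :=
  ∀ (G L : Type u) [Group G] [Finite G] [Field L] [MulSemiringAction G L] [FaithfulSMul G L]
    (a : G → G → L) (d e : ℕ), InfFix G L → (∀ g h, a g h ≠ 0) →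
    HasMod G L a (d + e) → HasMod G L a e → HasMod G L a d

/-- Induction from a Sylow subgroup: if a power of the class prime to `l` vanishes there is a
module of dimension prime to `l`. -/
def Stmt_IND : Prop :=
  ∀ (G L : Type u) [Group G] [Finite G] [Field L] [MulSemiringAction G L]
    (a : G → G → L) (d l t : ℕ), (∀ g h, a g h ≠ 0) → l.Prime → 0 < d → HasMod G L a d →
    ¬ l ∣ t → Cohom G L (fun _ _ => 1) (fun g h => a g h ^ (t : ℤ)) →
    ∃ e : ℕ, ¬ l ∣ e ∧ HasMod G L a e

/-! ### Block PRIM: primary parts -/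

def Stmt_PRIM : Prop :=
  ∀ (G L : Type u) [Group G] [Finite G] [Field L] [MulSemiringAction G L] [FaithfulSMul G L]
    (a : G → G → L) (p e m : ℕ) (k : ℤ), InfFix G L → (∀ g h, a g h ≠ 0) → p.Prime →
    ¬ p ∣ m → 0 < m → HasMod G L a (p ^ e * m) → ((p ^ e : ℕ) : ℤ) ∣ k - 1 → (m : ℤ) ∣ k →
    HasMod G L (fun g h => a g h ^ k) (p ^ e)

/-! ### Block ORD: making the exponent prime to the degree -/

def Stmt_ORD : Prop :=
  ∀ (G L : Type u) [Group G] [Field L] [MulSemiringAction G L] (a b : G → G → L) (r s n : ℕ),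
    (∀ g h, a g h ≠ 0) → (∀ g h, b g h ≠ 0) → 0 < n →
    Cohom G L (fun g h => a g h ^ (r : ℤ)) b → Cohom G L (fun g h => b g h ^ (s : ℤ)) a →
    Cohom G L (fun _ _ => 1) (fun g h => a g h ^ (n : ℤ)) →
    ∃ r' : ℕ, r'.Coprime n ∧ Cohom G L (fun g h => a g h ^ (r' : ℤ)) b

/-! ### Block EX: existence of the function field -/

def Stmt_EX : Prop :=
  ∀ (G L ι : Type u) [Group G] [Field L] [MulSemiringAction G L] [Fintype ι] [DecidableEq ι]
    [Nonempty ι] (M : PMod G L ι),
    ∃ (K : Type u) (_ : Field K) (_ : Algebra L K) (_ : MulSemiringAction G K)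
      (_ : GField G L K) (x : ι → K), M.Gen K x

/-! ### Block MONO: inversion and cyclic monomial maps -/

def Stmt_INV : Prop :=
  ∀ (G L X : Type u) [Group G] [Field L] [MulSemiringAction G L] [MulAction G X]
    (c : Mono G L X), c.BirTo (c.zpow (-1))

def Stmt_CYC : Prop :=
  ∀ (G L X : Type u) [Group G] [Finite G] [Field L] [MulSemiringAction G L] [FaithfulSMul G L]
    [MulAction G X] [Finite X] [Nonempty X] (c c' : Mono G L X) (r : ℕ) (σ : Equiv.Perm X),
    InfFix G L → (∀ (g : G) (x : X), σ (g • x) = g • σ x) →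
    (∀ x y : X, ∃ k : ℤ, (σ ^ k) x = y) → r.Coprime (Nat.card X) →
    Cohom G L (fun g h => c.a g h ^ (r : ℤ)) c'.a → c.BirTo c'

/-! ### Block DBL: doubling for odd size -/

def Stmt_DBL : Prop :=
  ∀ (G L X : Type u) [Group G] [Finite G] [Field L] [MulSemiringAction G L] [FaithfulSMul G L]
    [MulAction G X] [Finite X] (c : Mono G L X), InfFix G L → Odd (Nat.card X) →
    (c.zpow (-1)).BirTo (c.zpow 2)

/-! ### Block GD: good degrees -/

def Stmt_GD : Prop :=
  ∀ (G L X : Type u) [Group G] [Finite G] [Field L] [MulSemiringAction G L] [FaithfulSMul G L]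
    [MulAction G X] [Finite X] [Nonempty X] (c c' : Mono G L X) (r : ℕ),
    InfFix G L → GoodDegree (Nat.card X) → r.Coprime (Nat.card X) →
    Cohom G L (fun g h => c.a g h ^ (r : ℤ)) c'.a → c.BirTo c'

/-! ### Block FIB: fibrations -/

def Stmt_FIB : Prop :=
  ∀ (G L X Y : Type u) [Group G] [Field L] [MulSemiringAction G L]
    [MulAction G X] [MulAction G Y] [Finite X] [Finite Y] (π : X →[G] Y)
    (c c' : Mono G L X), Function.Surjective π →
    (∀ y : Y, (c.fib π y).BirTo (c'.fib π y)) →
    (∀ (M : Type u) [Field M] [Algebra L M] [MulSemiringAction G M] [GField G L M]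
      (R R' : Mono G M Y), Cohom G M (fun g h => algebraMap L M (c.a g h)) R.a →
        Cohom G M (fun g h => algebraMap L M (c'.a g h)) R'.a → R.BirTo R') →
    c.BirTo c'

/-! ### Block PROD: products of coprime good degrees -/

/-- The product of monomial modules on the product set. -/
def Mono.pi {G L : Type u} {J : Type} {X : J → Type u} [Group G] [Field L] [MulSemiringAction G L]
    [∀ j, MulAction G (X j)] [Fintype J] (c : ∀ j, Mono G L (X j)) : Mono G L (∀ j, X j) where
  c g x := ∏ j, (c j).c g (x j)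
  a g h := ∏ j, (c j).a g h
  c_ne g x := Finset.prod_ne_zero_iff.mpr fun j _ => (c j).c_ne g (x j)
  a_ne g h := Finset.prod_ne_zero_iff.mpr fun j _ => (c j).a_ne g h
  mul g h x := by
    have e : g • ∏ j, (c j).c h (x j) = ∏ j, g • (c j).c h (x j) :=
      map_prod (MulSemiringAction.toRingHom G L g) _ _
    rw [e, ← Finset.prod_mul_distrib, ← Finset.prod_mul_distrib]
    exact Finset.prod_congr rfl fun j _ => (c j).mul g h (x j)

def Stmt_PROD : Prop :=
  ∀ (G L : Type u) (J : Type) (X : J → Type u) [Group G] [Finite G] [Field L] [MulSemiringAction G L]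
    [FaithfulSMul G L] [∀ j, MulAction G (X j)] [Fintype J] [∀ j, Finite (X j)]
    [∀ j, Nonempty (X j)] (c : ∀ j, Mono G L (X j)) (r : ℕ), InfFix G L →
    (∀ j, GoodDegree (Nat.card (X j))) → (∀ j, r.Coprime (Nat.card (X j))) →
    (∀ i j, i ≠ j → (Nat.card (X i)).Coprime (Nat.card (X j))) →
    (Mono.pi c).BirTo (Mono.pi fun j => (c j).zpow (r : ℤ))

/-! ### Block TOW: towers -/

def Stmt_TOW : Prop :=
  ∀ (r : ℕ) (G X : Type u) [Group G] [MulAction G X], HasTower r G X →
    ∀ (L : Type u) [Finite G] [Field L] [MulSemiringAction G L] [FaithfulSMul G L] [Finite X]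
    (c c' : Mono G L X), InfFix G L → Cohom G L (fun g h => c.a g h ^ (r : ℤ)) c'.a → c.BirTo c'

/-! ### Block SUM: enlarging the dimension -/

def Stmt_SUM : Prop :=
  ∀ (G L ι κ ι' κ' : Type u) [Group G] [Finite G] [Field L] [MulSemiringAction G L]
    [FaithfulSMul G L] [Fintype ι] [DecidableEq ι] [Fintype κ] [DecidableEq κ] [Fintype ι']
    [DecidableEq ι'] [Fintype κ'] [DecidableEq κ'] [Nonempty ι]
    (M : PMod G L ι) (M' : PMod G L κ) (N : PMod G L ι') (N' : PMod G L κ'),
    InfFix G L → M.BirTo M' → Fintype.card ι = Fintype.card κ →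
    Fintype.card ι' = Fintype.card κ' → Fintype.card ι ≤ Fintype.card ι' →
    Cohom G L M.a N.a → Cohom G L M'.a N'.a → N.BirTo N'

/-! ### Algebras -/

/-- Block SIMPLE. -/
def Stmt_SIMPLE : Prop :=
  ∀ (F K A : Type u) [Field F] [Field K] [Algebra F K] [Ring A] [Algebra F A]
    [Algebra.IsCentral F A] [IsSimpleRing A] [FiniteDimensional F A], IsSimpleRing (K ⊗[F] A)

/-- Block SEP: a separable element of full degree. -/
def Stmt_SEP : Prop :=
  ∀ (F A : Type u) [Field F] [Infinite F] [Ring A] [Algebra F A] [Algebra.IsCentral F A]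
    [IsSimpleRing A] [FiniteDimensional F A] (n : ℕ), Module.finrank F A = n ^ 2 →
    ∃ f : A, (minpoly F f).Separable ∧ (minpoly F f).natDegree = n

/-- Block MODEL: a separable element of full degree gives a monomial model over every finite Galois
extension containing its eigenvalues. -/
def Stmt_MODEL : Prop :=
  ∀ (F A L : Type u) [Field F] [Ring A] [Algebra F A] [Algebra.IsCentral F A]
    [IsSimpleRing A] [FiniteDimensional F A] [Field L] [Algebra F L] [FiniteDimensional F L]
    [IsGalois F L] (n : ℕ) (f : A), 0 < n → Module.finrank F A = n ^ 2 →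
    (minpoly F f).Separable → (minpoly F f).natDegree = n →
    ((minpoly F f).map (algebraMap F L)).Splits →
    ∀ [Fintype (Roots F L (minpoly F f))] [DecidableEq (Roots F L (minpoly F f))],
    ∃ c : Mono (L ≃ₐ[F] L) L (Roots F L (minpoly F f)), Nonempty (Model F L A c.toPMod)

/-- Block CMP: two models of the same algebra. -/
def Stmt_CMP : Prop :=
  ∀ (F L A ι κ : Type u) [Field F] [Field L] [Algebra F L] [FiniteDimensional F L] [IsGalois F L]
    [Ring A] [Algebra F A] [FiniteDimensional F A] [Fintype ι] [DecidableEq ι] [Fintype κ]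
    [DecidableEq κ] [Nonempty ι]
    (M : PMod (L ≃ₐ[F] L) L ι) (M' : PMod (L ≃ₐ[F] L) L κ), Nonempty (Model F L A M) →
    Nonempty (Model F L A M') → M.Iso M' ∧ Cohom (L ≃ₐ[F] L) L M.a M'.a

/-- Block BRAUER: Brauer multiples and cocycles. -/
def Stmt_BRAUER : Prop :=
  ∀ (F L A B ι κ : Type u) [Field F] [Field L] [Algebra F L] [FiniteDimensional F L]
    [IsGalois F L] [Ring A] [Algebra F A] [FiniteDimensional F A] [Ring B] [Algebra F B]
    [FiniteDimensional F B] [Fintype ι] [DecidableEq ι] [Fintype κ] [DecidableEq κ] [Nonempty ι]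
    [Nonempty κ] (M : PMod (L ≃ₐ[F] L) L ι) (M' : PMod (L ≃ₐ[F] L) L κ) (r : ℕ),
    Nonempty (Model F L A M) → Nonempty (Model F L B M') → IsBrauerMultiple F A B r →
    Cohom (L ≃ₐ[F] L) L (fun g h => M.a g h ^ (r : ℤ)) M'.a

/-- Block MINF: models and inflation. -/
def Stmt_MINF : Prop :=
  ∀ (F L₀ L A ι : Type u) [Field F] [Field L₀] [Algebra F L₀] [FiniteDimensional F L₀]
    [IsGalois F L₀] [Field L] [Algebra F L] [Algebra L₀ L] [IsScalarTower F L₀ L] [Ring A]
    [Algebra F A] [Fintype ι] [DecidableEq ι] (M : PMod (L₀ ≃ₐ[F] L₀) L₀ ι),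
    Nonempty (Model F L₀ A M) → Nonempty (Model F L A (M.inflGal L))

/-- Block FIN: the fixed field of a `G`-field with a generic point is the function field. -/
def Stmt_FIN : Prop :=
  ∀ (F L A ι K : Type u) [Field F] [Field L] [Algebra F L] [FiniteDimensional F L] [IsGalois F L]
    [Ring A] [Algebra F A] [FiniteDimensional F A] [Fintype ι] [DecidableEq ι] [Nonempty ι]
    (M : PMod (L ≃ₐ[F] L) L ι) [Field K] [Algebra L K] [Algebra F K] [IsScalarTower F L K]
    [MulSemiringAction (L ≃ₐ[F] L) K] [GField (L ≃ₐ[F] L) L K] (x : ι → K),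
    Nonempty (Model F L A M) → M.Gen K x → IsFunctionField F A (fixedIF F L K)

/-- Block SPLIT: finite fields, transport of the function field. -/
def Stmt_SPLIT : Prop :=
  ∀ (F A : Type u) [Field F] [Finite F] [Ring A] [Algebra F A] [Algebra.IsCentral F A]
    [IsSimpleRing A] [FiniteDimensional F A] (n : ℕ), Module.finrank F A = n ^ 2 →
    Nonempty (A ≃ₐ[F] Matrix (Fin n) (Fin n) F)

def Stmt_TRANS : Prop :=
  ∀ (F A B K : Type u) [Field F] [Ring A] [Algebra F A] [Ring B] [Algebra F B] [Field K]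
    [Algebra F K], Nonempty (A ≃ₐ[F] B) → IsFunctionField F A K → IsFunctionField F B K

/-- The split algebra has a function field. -/
def Stmt_EXSPLIT : Prop :=
  ∀ (F A : Type u) [Field F] [Ring A] [Algebra F A] (n : ℕ), 0 < n →
    Nonempty (A ≃ₐ[F] Matrix (Fin n) (Fin n) F) →
    ∃ (K : Type u) (_ : Field K) (_ : Algebra F K), IsFunctionField F A K

/-! ### Block ENL: enlarging the Galois extension -/

/-- Every projective module becomes monomial over a larger extension. -/
def Stmt_ENLA : Prop :=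
  ∀ (F L₀ ι : Type u) [Field F] [Infinite F] [Field L₀] [Algebra F L₀] [FiniteDimensional F L₀]
    [IsGalois F L₀] [Fintype ι] [DecidableEq ι] [Nonempty ι] (M : PMod (L₀ ≃ₐ[F] L₀) L₀ ι),
    ∃ χ : Polynomial F, χ.Separable ∧
      ∀ (L : Type u) [Field L] [Algebra F L] [FiniteDimensional F L] [IsGalois F L]
        [Algebra L₀ L] [IsScalarTower F L₀ L], (χ.map (algebraMap F L)).Splits →
        ∃ (X : Type u) (_ : MulAction (L ≃ₐ[F] L) X) (_ : Finite X)
          (c : Mono (L ≃ₐ[F] L) L X), Nat.card X = Fintype.card ι ∧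
            Cohom (L ≃ₐ[F] L) L (M.inflGal L).a c.a

/-- Existence of larger finite Galois extensions. -/
def Stmt_ENLB : Prop :=
  ∀ (F L₀ : Type u) [Field F] [Field L₀] [Algebra F L₀] [FiniteDimensional F L₀]
    [IsGalois F L₀] (J : Type) [Finite J] (χ : J → Polynomial F), (∀ j, (χ j).Separable) →
    ∃ (L : Type u) (_ : Field L) (_ : Algebra F L) (_ : FiniteDimensional F L) (_ : IsGalois F L)
      (_ : Algebra L₀ L) (_ : IsScalarTower F L₀ L), ∀ j, ((χ j).map (algebraMap F L)).Splits

/-! ### Block TOWF: towers of fields give towers of `G`-sets -/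

def Stmt_TOWF : Prop :=
  ∀ (F E L : Type u) [Field F] [Field E] [Algebra F E] [FiniteDimensional F E]
    [Algebra.IsSeparable F E] [Field L] [Algebra F L] [FiniteDimensional F L] [IsGalois F L]
    (α : E) (r : ℕ), IntermediateField.adjoin F {α} = ⊤ →
    ((minpoly F α).map (algebraMap F L)).Splits → HasFieldTower F E →
    r.Coprime (Module.finrank F E) → HasTower r (L ≃ₐ[F] L) (Roots F L (minpoly F α))

/-! ### Block NIL: nilpotent groups -/

def Stmt_NIL : Prop :=
  ∀ (r : ℕ) (G X : Type u) [Group G] [Finite G] [Group.IsNilpotent G] [MulAction G X]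
    [MulAction.IsPretransitive G X] [Finite X] [Nonempty X], r.Coprime (Nat.card X) →
    HasTower r G X

/-! ### The three theorems -/

/-- Theorem A: the conjecture holds in degree `n` if all prime powers exactly dividing `n` are good
degrees. -/
def Stmt_THMA : Prop :=
  ∀ (F A B : Type u) [Field F] [Ring A] [Algebra F A] [Algebra.IsCentral F A] [IsSimpleRing A]
    [FiniteDimensional F A] [Ring B] [Algebra F B] [Algebra.IsCentral F B] [IsSimpleRing B]
    [FiniteDimensional F B] (n : ℕ),
    (∀ p e : ℕ, p.Prime → p ^ e ∣ n → ¬ p ^ (e + 1) ∣ n → GoodDegree (p ^ e)) →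
    Module.finrank F A = n ^ 2 → Module.finrank F B = n ^ 2 → SameSubgroup F A B →
    Birational F A B

/-- Theorem B: towers. -/
def Stmt_THMB : Prop :=
  ∀ (F A B E : Type u) [Field F] [Ring A] [Algebra F A] [Algebra.IsCentral F A] [IsSimpleRing A]
    [FiniteDimensional F A] [Ring B] [Algebra F B] [Algebra.IsCentral F B] [IsSimpleRing B]
    [FiniteDimensional F B] [Field E] [Algebra F E] [FiniteDimensional F E]
    [Algebra.IsSeparable F E] (n : ℕ) (_ : E →ₐ[F] A),
    Module.finrank F A = n ^ 2 → Module.finrank F B = n ^ 2 → Module.finrank F E = n →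
    HasFieldTower F E → SameSubgroup F A B → Birational F A B

/-- Theorem C: fields all of whose finite Galois groups are nilpotent. -/
def Stmt_THMC : Prop :=
  ∀ (F A B : Type u) [Field F] [Ring A] [Algebra F A] [Algebra.IsCentral F A] [IsSimpleRing A]
    [FiniteDimensional F A] [Ring B] [Algebra F B] [Algebra.IsCentral F B] [IsSimpleRing B]
    [FiniteDimensional F B] (n : ℕ),
    (∀ (L : Type u) [Field L] [Algebra F L] [FiniteDimensional F L] [IsGalois F L],
      Group.IsNilpotent (L ≃ₐ[F] L)) →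
    Module.finrank F A = n ^ 2 → Module.finrank F B = n ^ 2 → SameSubgroup F A B →
    Birational F A B

end Pool.Agent.MP12f267
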