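import Mathlib
import Pool.Agent.Work.MP_12f267_ag.Interface

/-! Block DIM: dimensions of modules (tensor products, duals, direct sums, determinants). -/

open TensorProduct Matrix Kronecker

namespace Pool.Agent.MP12f267

universe u

section DIM

variable {G : Type u} {L : Type u} [Group G] [Field L] [MulSemiringAction G L]

lemma Matrix.map_smul_mul' {ι κ μ : Type u} [Fintype κ] (g : G) (A : Matrix ι κ L)
    (B : Matrix κ μ L) :
    (A * B).map (fun x => g • x) = A.map (fun x => g • x) * B.map (fun x => g • x) := by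
  ext i j
  simp only [Matrix.mul_apply, Matrix.map_apply, Finset.smul_sum, smul_mul']

lemma Matrix.map_smul_one' {ι : Type u} [DecidableEq ι] (g : G) :
    (1 : Matrix ι ι L).map (fun x => g • x) = 1 := by
  ext i j
  by_cases h : i = j
  · subst h; simp
  · simp [Matrix.one_apply_ne h]

lemma Matrix.map_smul_smul' {ι κ : Type u} (g : G) (c : L) (A : Matrix ι κ L) :
    (c • A).map (fun x => g • x) = (g • c) • A.map (fun x => g • x) := by
  ext i j
  simp [smul_mul']

lemma Matrix.det_map_smul' {ι : Type u} [Fintype ι] [DecidableEq ι] (g : G) (A : Matrix ι ι L) :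
    (A.map (fun x => g • x)).det = g • A.det := by
  have := RingHom.map_det (MulSemiringAction.toRingHom G L g) A
  exact this.symm

lemma Matrix.map_smul_inv' {ι : Type u} [Fintype ι] [DecidableEq ι] (g : G) (A : Matrix ι ι L)
    (hA : A.det ≠ 0) :
    (A⁻¹).map (fun x => g • x) = (A.map (fun x => g • x))⁻¹ := by
  have h : (A⁻¹).map (fun x => g • x) * A.map (fun x => g • x) = 1 := by
    rw [← Matrix.map_smul_mul', Matrix.nonsing_inv_mul _ (isUnit_iff_ne_zero.mpr hA),
      Matrix.map_smul_one']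
  exact (Matrix.inv_eq_left_inv h).symm

/-- Rescaling a module. -/
def PMod.rescale {ι : Type u} [Fintype ι] [DecidableEq ι] (M : PMod G L ι) (ν : G → L)
    (b : G → G → L) (hν : ∀ g, ν g ≠ 0) (hb : ∀ g h, b g h ≠ 0)
    (h : ∀ g h, b g h * ν (g * h) = M.a g h * (ν g * g • ν h)) : PMod G L ι where
  P g := ν g • M.P g
  a := b
  a_ne := hb
  det_ne g := by
    rw [Matrix.det_smul]
    exact mul_ne_zero (pow_ne_zero _ (hν g)) (M.det_ne g)
  mul g k := by
    rw [Matrix.map_smul_smul', Matrix.smul_mul, Matrix.mul_smul, M.mul, smul_smul, smul_smul,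
      smul_smul, h]
    congr 1
    ring

/-- Tensor products of modules. -/
def PMod.tensor {ι κ : Type u} [Fintype ι] [DecidableEq ι] [Fintype κ] [DecidableEq κ]
    (M : PMod G L ι) (N : PMod G L κ) : PMod G L (ι × κ) where
  P g := M.P g ⊗ₖ N.P g
  a g h := M.a g h * N.a g h
  a_ne g h := mul_ne_zero (M.a_ne g h) (N.a_ne g h)
  det_ne g := by
    rw [Matrix.det_kronecker]
    exact mul_ne_zero (pow_ne_zero _ (M.det_ne g)) (pow_ne_zero _ (N.det_ne g))
  mul g h := by
    have e : (M.P h ⊗ₖ N.P h).map (fun x => g • x) =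
        (M.P h).map (fun x => g • x) ⊗ₖ (N.P h).map (fun x => g • x) := by
      ext ⟨i, i'⟩ ⟨j, j'⟩
      simp [Matrix.kroneckerMap_apply, smul_mul']
    rw [e, ← Matrix.mul_kronecker_mul, M.mul, N.mul, Matrix.smul_kronecker, Matrix.kronecker_smul,
      smul_smul]

/-- The dual module. -/
noncomputable def PMod.dual {ι : Type u} [Fintype ι] [DecidableEq ι] (M : PMod G L ι) :
    PMod G L ι where
  P g := ((M.P g)⁻¹)ᵀ
  a g h := (M.a g h)⁻¹
  a_ne g h := inv_ne_zero (M.a_ne g h)
  det_ne g := by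
    rw [Matrix.det_transpose, Matrix.det_nonsing_inv]
    simpa using M.det_ne g
  mul g h := by
    have e : (((M.P h)⁻¹)ᵀ).map (fun x => g • x) = (((M.P h)⁻¹).map (fun x => g • x))ᵀ := by
      ext i j; simp
    rw [e, ← Matrix.transpose_mul, Matrix.map_smul_inv' g _ (M.det_ne h), ← Matrix.mul_inv_rev,
      M.mul]
    rw [← Matrix.transpose_smul]
    congr 1
    have h1 : (M.a g h • M.P (g * h)) * ((M.a g h)⁻¹ • (M.P (g * h))⁻¹) = 1 := by
      rw [Matrix.smul_mul, Matrix.mul_smul, smul_smul, mul_inv_cancel₀ (M.a_ne g h), one_smul,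
        Matrix.mul_nonsing_inv _ (isUnit_iff_ne_zero.mpr (M.det_ne _))]
    exact Matrix.inv_eq_right_inv h1

/-- The direct sum of modules with the same cocycle. -/
def PMod.sum {ι κ : Type u} [Fintype ι] [DecidableEq ι] [Fintype κ] [DecidableEq κ]
    (M : PMod G L ι) (N : PMod G L κ) (hMN : ∀ g h, N.a g h = M.a g h) : PMod G L (ι ⊕ κ) where
  P g := Matrix.fromBlocks (M.P g) 0 0 (N.P g)
  a := M.a
  a_ne := M.a_ne
  det_ne g := by
    rw [Matrix.det_fromBlocks_zero₂₁]
    exact mul_ne_zero (M.det_ne g) (N.det_ne g)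
  mul g h := by
    have e0 : ∀ {α β : Type u}, (0 : Matrix α β L).map (fun x => g • x) = 0 := by
      intro α β; ext i j; simp
    rw [Matrix.fromBlocks_map, Matrix.fromBlocks_multiply, e0, e0, M.mul, N.mul, hMN]
    simp [Matrix.fromBlocks_smul]

lemma PMod.cohom_det {ι : Type u} [Fintype ι] [DecidableEq ι] (M : PMod G L ι) :
    Cohom G L (fun _ _ => 1) (fun g h => M.a g h ^ ((Fintype.card ι : ℕ) : ℤ)) := by
  refine ⟨fun g => (M.P g).det, M.det_ne, fun g h => ?_⟩
  have e := congrArg Matrix.det (M.mul g h)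
  rw [Matrix.det_mul, Matrix.det_smul, Matrix.det_map_smul'] at e
  show M.a g h ^ ((Fintype.card ι : ℕ) : ℤ) * (M.P (g * h)).det =
    1 * ((M.P g).det * g • (M.P h).det)
  rw [zpow_natCast, one_mul, e]

end DIM

theorem stmt_DIM : Stmt_DIM.{u} := by
  intro G L _ _ _
  refine ⟨?_, ?_, ?_, ?_⟩
  · rintro a b d e ⟨ι, _, _, M, rfl, hM⟩ ⟨κ, _, _, N, rfl, hN⟩
    exact ⟨ι × κ, inferInstance, inferInstance, M.tensor N, Fintype.card_prod ι κ, hM.mul hN⟩
  · rintro a d ha ⟨ι, _, _, M, rfl, hM⟩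
    exact ⟨ι, inferInstance, inferInstance, M.dual, rfl, hM.inv M.a_ne ha⟩
  · rintro a d e ⟨ι, _, _, M, rfl, hM⟩ ⟨κ, _, _, N, rfl, hN⟩
    obtain ⟨ν, hν, h⟩ := hN.trans hM.symm
    exact ⟨ι ⊕ κ, inferInstance, inferInstance,
      M.sum (N.rescale ν M.a hν M.a_ne h) (fun _ _ => rfl), Fintype.card_sum, hM⟩
  · rintro a d ⟨ι, _, _, M, rfl, hM⟩
    exact M.cohom_det.trans (hM.zpow _)

theorem stmt_DIMM : Stmt_DIMM.{u} := by
  classical
  intro G L X _ _ _ _ _ c
  have := Fintype.ofFinite X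
  refine ⟨⟨X, inferInstance, inferInstance, c.toPMod, (Nat.card_eq_fintype_card).symm,
    Cohom.refl _⟩, ?_⟩
  rw [Nat.card_eq_fintype_card]
  exact c.toPMod.cohom_det

end Pool.Agent.MP12f267
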