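import Mathlib
import Pool.Agent.Work.MP_12f267_ag.Interface

/-! Block ENLB (helper26). -/

open TensorProduct

namespace Pool.Agent.MP12f267

universe u

theorem stmt_ENLB : Stmt_ENLB.{u} := by
  intro F L₀ _ _ _ _ _ J _ χ hχ
  classical
  cases nonempty_fintype J
  obtain ⟨α, hα⟩ := Field.exists_primitive_element F L₀
  let M : Type u := AlgebraicClosure L₀
  have hint : IsIntegral F α := IsIntegral.of_finite F α
  have hp0 : minpoly F α ≠ 0 := minpoly.ne_zero hint
  have hχ0 : ∀ j, χ j ≠ 0 := fun j => (hχ j).ne_zero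
  let q : Polynomial F := minpoly F α * ∏ j, χ j
  have hq0 : q ≠ 0 := mul_ne_zero hp0 (Finset.prod_ne_zero_iff.mpr fun j _ => hχ0 j)
  have hsplit : (q.map (algebraMap F M)).Splits := IsAlgClosed.splits _
  let L : IntermediateField F M := IntermediateField.adjoin F (q.rootSet M)
  haveI hSF : q.IsSplittingField F L := IntermediateField.adjoin_rootSet_isSplittingField hsplit
  haveI : FiniteDimensional F L := Polynomial.IsSplittingField.finiteDimensional L q
  haveI : Normal F L := Normal.of_isSplittingField q
  have hαsep : IsSeparable F α := Algebra.IsSeparable.isSeparable F α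
  haveI : Algebra.IsSeparable F L := by
    rw [IntermediateField.isSeparable_adjoin_iff_isSeparable]
    intro x hx
    have hx0 : Polynomial.aeval x q = 0 := Polynomial.aeval_eq_zero_of_mem_rootSet hx
    rw [map_mul, map_prod, mul_eq_zero, Finset.prod_eq_zero_iff] at hx0
    rcases hx0 with h | ⟨j, _, h⟩
    · exact hαsep.of_dvd (minpoly.dvd F x h)
    · exact (hχ j).of_dvd (minpoly.dvd F x h)
  haveI : IsGalois F L := {}
  let jL : L₀ →ₐ[F] M := IsScalarTower.toAlgHom F L₀ M
  have hmem : ∀ x : L₀, jL x ∈ L := by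
    intro x
    have hx : x ∈ IntermediateField.adjoin F {α} := by rw [hα]; trivial
    have h1 : jL x ∈ (IntermediateField.adjoin F {α}).map jL := ⟨x, hx, rfl⟩
    rw [IntermediateField.adjoin_map, Set.image_singleton] at h1
    refine (IntermediateField.adjoin_le_iff.mpr ?_ : _ ≤ L) h1
    rintro _ rfl
    refine IntermediateField.subset_adjoin F _ ?_
    rw [Polynomial.mem_rootSet]
    refine ⟨hq0, ?_⟩
    rw [Polynomial.aeval_algHom_apply]
    show jL (Polynomial.aeval α (minpoly F α * ∏ j, χ j)) = 0
    rw [map_mul, minpoly.aeval, zero_mul, map_zero]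
  let jL' : L₀ →ₐ[F] L := AlgHom.codRestrict jL L.toSubalgebra hmem
  letI : Algebra L₀ L := jL'.toRingHom.toAlgebra
  haveI : IsScalarTower F L₀ L := IsScalarTower.of_algebraMap_eq' jL'.comp_algebraMap.symm
  refine ⟨L, inferInstance, inferInstance, inferInstance, inferInstance, inferInstance,
    inferInstance, fun j => ?_⟩
  have hs : (q.map (algebraMap F L)).Splits := hSF.splits'
  refine hs.of_dvd ?_ ?_
  · exact (Polynomial.map_ne_zero_iff (algebraMap F L).injective).mpr hq0
  · exact Polynomial.map_dvd _ (Dvd.dvd.mul_left (Finset.dvd_prod_of_mem χ (Finset.mem_univ j)) _)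

end Pool.Agent.MP12f267
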