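import Mathlib
import Pool.Agent.Work.MP_12f267_ag.Interface

/-! Block EXSPLIT (helper26). -/

open TensorProduct

namespace Pool.Agent.MP12f267

universe u

/-- The trivial projective module of the trivial group. -/
noncomputable def trivPMod (F ι : Type u) [Field F] [Fintype ι] [DecidableEq ι] :
    PMod (F ≃ₐ[F] F) F ι where
  P _ := 1
  a _ _ := 1
  a_ne _ _ := one_ne_zero
  det_ne _ := by simp
  mul g h := by
    ext i j
    have : ∀ x : F, g • x = x := fun x => g.commutes x
    simp [Matrix.one_apply, this]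

theorem stmt_EXSPLIT (hEX : Stmt_EX.{u}) (hFIN : Stmt_FIN.{u}) : Stmt_EXSPLIT.{u} := by
  intro F A _ _ _ n hn he
  obtain ⟨e⟩ := he
  let ι : Type u := ULift.{u} (Fin n)
  haveI : NeZero n := ⟨by omega⟩
  haveI : Nonempty ι := ⟨⟨0⟩⟩
  let e' : A ≃ₐ[F] Matrix ι ι F :=
    e.trans (Matrix.reindexAlgEquiv F F (Equiv.ulift.{u} (α := Fin n)).symm)
  haveI : FiniteDimensional F A := Module.Finite.equiv e'.symm.toLinearEquiv
  let M : PMod (F ≃ₐ[F] F) F ι := trivPMod F ι
  obtain ⟨K, _, _, _, _, x, hx⟩ := hEX (F ≃ₐ[F] F) F ι M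
  have hmodel : Nonempty (Model F F A M) := by
    refine ⟨⟨e'.toAlgHom, ?_, ?_, ?_⟩⟩
    · have : Set.range (e'.toAlgHom) = Set.univ := by
        ext y
        simp only [Set.mem_range, Set.mem_univ, iff_true]
        exact ⟨e'.symm y, e'.apply_symm_apply y⟩
      rw [this, Submodule.span_univ]
    · rw [e'.toLinearEquiv.finrank_eq, Module.finrank_matrix]
      simp [sq]
    · intro g y
      have : ∀ x : F, g • x = x := fun x => g.commutes x
      show e' y * 1 = 1 * (e' y).map (fun z => g • z)
      rw [mul_one, one_mul]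
      ext i j
      simp [this]
  exact ⟨fixedIF F F K, inferInstance, inferInstance, hFIN F F A ι K M x hmodel hx⟩

end Pool.Agent.MP12f267
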