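import Mathlib
import Pool.Agent.Work.MP_12f267_ag.Interface

/-! Block GD: good degrees. -/

open TensorProduct

namespace Pool.Agent.MP12f267

universe u

section

variable {G L : Type u} [Group G] [Field L] [MulSemiringAction G L]

lemma Mono.BirTo.trans {X X' X'' : Type u} [MulAction G X] [MulAction G X'] [MulAction G X'']
    {c : Mono G L X} {c' : Mono G L X'} {c'' : Mono G L X''} (h : c.BirTo c')
    (h' : c'.BirTo c'') : c.BirTo c'' := by
  intro K _ _ _ _ v hv
  obtain ⟨v', hv'⟩ := h K v hv
  exact h' K v' hv'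

end

/-- Block GD. -/
theorem stmt_GD (hINV : Stmt_INV.{u}) (hDBL : Stmt_DBL.{u}) (hUNIQM : Stmt_UNIQM.{u})
    (hDIMM : Stmt_DIMM.{u}) : Stmt_GD.{u} := by
  intro G L X _ _ _ _ _ _ _ _ c c' r hinf hgood hco hcoh
  obtain ⟨j, hj⟩ := hgood r hco
  have hper := (hDIMM G L X c).2
  -- repeated doubling in odd degree
  have key : Odd (Nat.card X) → ∀ (j : ℕ) (d : Mono G L X), d.BirTo (d.zpow (2 ^ j)) := by
    intro hodd j
    induction j with
    | zero =>
      intro d
      apply hUNIQM G L X X d _ hinf rfl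
      apply Cohom.of_eq
      intro g h
      show d.a g h = d.a g h ^ ((2 : ℤ) ^ 0)
      simp
    | succ j ih =>
      intro d
      refine (ih d).trans ((hINV G L X (d.zpow (2 ^ j))).trans
        ((hDBL G L X (d.zpow (2 ^ j)) hinf hodd).trans ?_))
      apply hUNIQM G L X X _ _ hinf rfl
      apply Cohom.of_eq
      intro g h
      show (d.a g h ^ ((2 : ℤ) ^ j)) ^ (2 : ℤ) = d.a g h ^ ((2 : ℤ) ^ (j + 1))
      rw [← zpow_mul, pow_succ]
  -- the exponent is a sign times a power of two, trivial if the degree is even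
  have two : ∀ j : ℕ, (Even (Nat.card X) → j = 0) → c.BirTo (c.zpow (2 ^ j)) := by
    intro j hj
    rcases Nat.even_or_odd (Nat.card X) with he | ho
    · rw [hj he]
      apply hUNIQM G L X X c _ hinf rfl
      apply Cohom.of_eq
      intro g h
      show c.a g h = c.a g h ^ ((2 : ℤ) ^ 0)
      simp
    · exact key ho j c
  have hj0 : Even (Nat.card X) → j = 0 := by
    intro he
    by_contra hne
    have h2 : (2 : ℤ) ∣ (Nat.card X : ℤ) := by exact_mod_cast even_iff_two_dvd.mp he
    have h2j : (2 : ℤ) ∣ 2 ^ j := dvd_pow_self 2 hne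
    have h2r : (2 : ℤ) ∣ (r : ℤ) := by
      rcases hj with hj | hj
      · have := dvd_add (h2.trans hj) h2j
        simpa using this
      · have := dvd_sub (h2.trans hj) h2j
        simpa using this
    have h2r' : 2 ∣ r := by exact_mod_cast h2r
    have h2c' : 2 ∣ Nat.card X := even_iff_two_dvd.mp he
    have := Nat.dvd_gcd h2r' h2c'
    rw [hco] at this
    omega
  rcases hj with hj | hj
  · refine (two j hj0).trans ?_
    apply hUNIQM G L X X _ c' hinf rfl
    refine Cohom.trans ?_ hcoh
    exact Cohom.zpow_congr c.a_ne hper hj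
  · refine (two j hj0).trans ((hINV G L X (c.zpow (2 ^ j))).trans ?_)
    apply hUNIQM G L X X _ c' hinf rfl
    refine Cohom.trans ?_ hcoh
    refine Cohom.trans (Cohom.of_eq (b := fun g h => c.a g h ^ (-(2 : ℤ) ^ j)) ?_) ?_
    · intro g h
      show (c.a g h ^ ((2 : ℤ) ^ j)) ^ (-1 : ℤ) = _
      rw [← zpow_mul]
      congr 1
      ring
    · apply Cohom.zpow_congr c.a_ne hper
      rw [sub_neg_eq_add]
      exact hj

end Pool.Agent.MP12f267
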