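import Mathlib
import Pool.Agent.Work.MP_12f267_ag.Interface

/-! Blocks DESC and DENS (helper45): Galois descent and density of fixed vectors. -/

namespace Pool.Agent.MP12f267

universe u

/-- Dedekind: the vectors `(g • c)_g` span `L^G`. -/
lemma span_smul_eq_top (G L : Type u) [Group G] [Finite G] [Field L] [MulSemiringAction G L]
    [FaithfulSMul G L] :
    Submodule.span L (Set.range fun (c : L) (g : G) => g • c) = ⊤ := by
  classical
  have := Fintype.ofFinite G
  by_contra hne
  obtain ⟨f, f0, hf⟩ := Submodule.exists_le_ker_of_lt_top _ (lt_top_iff_ne_top.mpr hne)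
  apply f0
  have hinj : Function.Injective
      (fun g : G => (MulSemiringAction.toRingHom G L g : L →* L)) := by
    intro g h e
    refine FaithfulSMul.eq_of_smul_eq_smul (M := G) (α := L) (fun l => ?_)
    exact DFunLike.congr_fun e l
  have hli := (linearIndependent_monoidHom L L).comp _ hinj
  rw [Fintype.linearIndependent_iff] at hli
  have key : ∀ w : G → L, f w = ∑ g, w g * f (Pi.single g 1) := by
    intro w
    conv_lhs => rw [← Finset.univ_sum_single w]
    rw [map_sum]
    refine Finset.sum_congr rfl (fun g _ => ?_)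
    have : (Pi.single g (w g) : G → L) = w g • (Pi.single g 1 : G → L) := by
      rw [← Pi.single_smul, smul_eq_mul, mul_one]
    rw [this, map_smul, smul_eq_mul]
  have h0 : ∀ g, f (Pi.single g 1) = 0 := by
    apply hli (fun g => f (Pi.single g 1))
    funext c
    have h1 : (fun g : G => g • c) ∈
        Submodule.span L (Set.range fun (c : L) (g : G) => g • c) :=
      Submodule.subset_span ⟨c, rfl⟩
    have h2 := hf h1
    rw [LinearMap.mem_ker, key] at h2
    simp only [Finset.sum_apply, Pi.smul_apply, Function.comp_apply, smul_eq_mul, Pi.zero_apply]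
    rw [← h2]
    refine Finset.sum_congr rfl (fun g _ => ?_)
    rw [mul_comm]
    rfl
  ext w
  simp [h0]

theorem stmt_DESC : Stmt_DESC.{u} := by
  classical
  intro G L V _ _ _ _ _ _ _ _ ρ hadd hsmul hmul hone
  have := Fintype.ofFinite G
  rw [eq_top_iff]
  rintro x -
  let R : G → V →+ V := fun g => AddMonoidHom.mk' (ρ g) (hadd g)
  let Φ : (G → L) →ₗ[L] V :=
    { toFun := fun w => ∑ g, w g • ρ g x
      map_add' := fun w w' => by
        simp only [Pi.add_apply, add_smul, Finset.sum_add_distrib]
      map_smul' := fun c w => by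
        simp only [Pi.smul_apply, smul_eq_mul, mul_smul, RingHom.id_apply, Finset.smul_sum] }
  have hΦ : ∀ w : G → L, Φ w ∈ Submodule.span L {x : V | ∀ g, ρ g x = x} := by
    intro w
    have hw : w ∈ Submodule.span L (Set.range fun (c : L) (g : G) => g • c) := by
      rw [span_smul_eq_top]; trivial
    induction hw using Submodule.span_induction with
    | mem w hw =>
      obtain ⟨c, rfl⟩ := hw
      apply Submodule.subset_span
      intro h
      show ρ h (∑ g, (g • c) • ρ g x) = ∑ g, (g • c) • ρ g x
      have e1 : (∑ g, (g • c) • ρ g x) = ∑ g, ρ g (c • x) :=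
        Finset.sum_congr rfl (fun g _ => (hsmul g c x).symm)
      rw [e1]
      show R h (∑ g, ρ g (c • x)) = _
      rw [map_sum]
      show ∑ g, ρ h (ρ g (c • x)) = _
      simp only [hmul]
      exact Fintype.sum_equiv (Equiv.mulLeft h) _ _ (fun g => rfl)
    | zero => rw [map_zero]; exact Submodule.zero_mem _
    | add w w' _ _ h1 h2 => rw [map_add]; exact Submodule.add_mem _ h1 h2
    | smul c w _ h1 => rw [map_smul]; exact Submodule.smul_mem _ _ h1
  have h := hΦ (Pi.single 1 1)
  have e : Φ (Pi.single 1 1) = x := by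
    show ∑ g, (Pi.single 1 1 : G → L) g • ρ g x = x
    rw [Finset.sum_eq_single 1]
    · rw [Pi.single_eq_same, one_smul, hone]
    · intro g _ hg
      rw [Pi.single_eq_of_ne hg, zero_smul]
    · intro h; exact absurd (Finset.mem_univ _) h
  rwa [e] at h

theorem stmt_DENS : Stmt_DENS.{u} := by
  classical
  intro G L κ _ _ _ _ _ _ ρ hinf hadd hsmul hmul hone p x₀ hp
  have := Fintype.ofFinite κ
  have hx : x₀ ∈ Submodule.span L {x : κ → L | ∀ g, ρ g x = x} := by
    rw [stmt_DESC G L (κ → L) ρ hadd hsmul hmul hone]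
    trivial
  obtain ⟨n, f, h, hfh⟩ := (Submodule.mem_span_set' ).mp hx
  let q : MvPolynomial (Fin n) L :=
    MvPolynomial.bind₁ (fun k => ∑ j, MvPolynomial.C ((h j : κ → L) k) * MvPolynomial.X j) p
  have hq : ∀ s : Fin n → L, MvPolynomial.eval s q =
      MvPolynomial.eval (∑ j, s j • (h j : κ → L)) p := by
    intro s
    show MvPolynomial.eval s (MvPolynomial.bind₁ _ p) = _
    rw [← MvPolynomial.coe_aeval_eq_eval, ← MvPolynomial.coe_aeval_eq_eval]
    show MvPolynomial.aeval s (MvPolynomial.bind₁ _ p) = MvPolynomial.aeval _ p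
    rw [MvPolynomial.aeval_bind₁]
    congr 2
    funext k
    simp only [map_sum, map_mul, MvPolynomial.aeval_X, Finset.sum_apply, Pi.smul_apply,
      smul_eq_mul]
    refine Finset.sum_congr rfl (fun j _ => ?_)
    rw [MvPolynomial.aeval_C, mul_comm]
    rfl
  have hq0 : q ≠ 0 := by
    intro h0
    apply hp
    rw [← hfh, ← hq, h0, map_zero]
  have : ∃ s : Fin n → L, (∀ j g, (g : G) • s j = s j) ∧ MvPolynomial.eval s q ≠ 0 := by
    by_contra hcon
    push Not at hcon
    apply hq0
    refine MvPolynomial.funext_set (fun _ => {x : L | ∀ g : G, g • x = x}) (fun _ => hinf) ?_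
    intro s hs
    rw [map_zero]
    exact hcon s (fun j g => hs j (Set.mem_univ j) g)
  obtain ⟨s, hs, hsq⟩ := this
  refine ⟨∑ j, s j • (h j : κ → L), fun g => ?_, ?_⟩
  · let R : (κ → L) →+ (κ → L) := AddMonoidHom.mk' (ρ g) (hadd g)
    show R (∑ j, s j • (h j : κ → L)) = _
    rw [map_sum]
    refine Finset.sum_congr rfl (fun j _ => ?_)
    show ρ g (s j • (h j : κ → L)) = _
    rw [hsmul, hs j g, (h j).2 g]
  · rw [← hq]; exact hsq

end Pool.Agent.MP12f267
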