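import Mathlib
import Pool.Agent.Work.MP_12f267_ag.DENS

/-! Block UNIQ (helper45): uniqueness of projective modules with a given cocycle. -/

namespace Pool.Agent.MP12f267

universe u

section aux

variable {G L : Type u} [Group G] [Field L] [MulSemiringAction G L]

/-- Galois action on matrices is compatible with products. -/
lemma map_smul_mul {l m n : Type u} [Fintype m] (g : G) (A : Matrix l m L) (B : Matrix m n L) :
    (A * B).map (fun x => g • x) = A.map (fun x => g • x) * B.map (fun x => g • x) := by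
  exact Matrix.map_mul (L := A) (M := B) (f := MulSemiringAction.toRingHom G L g)

lemma map_smul_smul_mat {l m : Type u} (g : G) (c : L) (A : Matrix l m L) :
    (c • A).map (fun x => g • x) = (g • c) • A.map (fun x => g • x) := by
  ext i j
  simp only [Matrix.map_apply, Matrix.smul_apply, smul_eq_mul, smul_mul']

lemma map_smul_add_mat {l m : Type u} (g : G) (A B : Matrix l m L) :
    (A + B).map (fun x => g • x) = A.map (fun x => g • x) + B.map (fun x => g • x) := by
  ext i j
  simp only [Matrix.map_apply, Matrix.add_apply, smul_add]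

lemma map_smul_map_mat {l m : Type u} (g h : G) (A : Matrix l m L) :
    (A.map (fun x => h • x)).map (fun x => g • x) = A.map (fun x => (g * h) • x) := by
  ext i j
  simp only [Matrix.map_apply, mul_smul]

lemma map_smul_one_mat {m : Type u} [DecidableEq m] (g : G) :
    (1 : Matrix m m L).map (fun x => g • x) = 1 := by
  have := Matrix.map_one (n := m) (fun x : L => g • x) (smul_zero g) (smul_one g)
  exact this

lemma map_one_smul_mat {l m : Type u} (A : Matrix l m L) :
    A.map (fun x => (1 : G) • x) = A := by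
  ext i j
  simp only [Matrix.map_apply, one_smul]

lemma map_smul_inv_mat {m : Type u} [Fintype m] [DecidableEq m] (g : G) (A : Matrix m m L)
    (hA : A.det ≠ 0) :
    (A⁻¹).map (fun x => g • x) = (A.map (fun x => g • x))⁻¹ := by
  have h1 : A * A⁻¹ = 1 := Matrix.mul_nonsing_inv _ (isUnit_iff_ne_zero.mpr hA)
  have h2 := congrArg (fun B : Matrix m m L => B.map (fun x => g • x)) h1
  simp only [map_smul_mul, map_smul_one_mat] at h2
  exact (Matrix.inv_eq_right_inv h2).symm

variable {ι : Type u} [Fintype ι] [DecidableEq ι]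

lemma PMod.P_one (M : PMod G L ι) : M.P 1 = M.a 1 1 • (1 : Matrix ι ι L) := by
  have h := M.mul 1 1
  rw [map_one_smul_mat, mul_one] at h
  have hu : IsUnit (M.P 1).det := isUnit_iff_ne_zero.mpr (M.det_ne 1)
  have h2 := congrArg (fun B => B * (M.P 1)⁻¹) h
  simp only [Matrix.mul_assoc, Matrix.mul_nonsing_inv _ hu, Matrix.mul_one, Matrix.smul_mul] at h2
  exact h2

lemma PMod.P_mul_inv (M : PMod G L ι) (g : G) : M.P g * (M.P g)⁻¹ = 1 :=
  Matrix.mul_nonsing_inv _ (isUnit_iff_ne_zero.mpr (M.det_ne g))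

lemma PMod.P_inv_mul (M : PMod G L ι) (g : G) : (M.P g)⁻¹ * M.P g = 1 :=
  Matrix.nonsing_inv_mul _ (isUnit_iff_ne_zero.mpr (M.det_ne g))

lemma PMod.inv_mul_rule (M : PMod G L ι) (g h : G) :
    ((M.P h)⁻¹).map (fun x => g • x) * (M.P g)⁻¹ = (M.a g h)⁻¹ • (M.P (g * h))⁻¹ := by
  rw [map_smul_inv_mat g _ (M.det_ne h), ← Matrix.mul_inv_rev, M.mul]
  have hu : IsUnit (M.P (g * h)).det := isUnit_iff_ne_zero.mpr (M.det_ne (g * h))
  apply Matrix.inv_eq_right_inv
  rw [Matrix.smul_mul, Matrix.mul_smul, smul_smul, mul_inv_cancel₀ (M.a_ne g h), one_smul,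
    Matrix.mul_nonsing_inv _ hu]

end aux

section rho

variable {G L : Type u} [Group G] [Field L] [MulSemiringAction G L]
variable {ι κ : Type u} [Fintype ι] [DecidableEq ι] [Fintype κ] [DecidableEq κ]

/-- The action on `Hom(M, M')`. -/
noncomputable def homAct (M : PMod G L ι) (M' : PMod G L κ) (ν : G → L) (g : G)
    (S : Matrix κ ι L) : Matrix κ ι L :=
  (ν g)⁻¹ • (M'.P g * S.map (fun x => g • x) * (M.P g)⁻¹)

lemma homAct_add (M : PMod G L ι) (M' : PMod G L κ) (ν : G → L) (g : G) (S S' : Matrix κ ι L) :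
    homAct M M' ν g (S + S') = homAct M M' ν g S + homAct M M' ν g S' := by
  simp only [homAct, map_smul_add_mat, Matrix.mul_add, Matrix.add_mul, smul_add]

lemma homAct_smul (M : PMod G L ι) (M' : PMod G L κ) (ν : G → L) (g : G) (c : L)
    (S : Matrix κ ι L) :
    homAct M M' ν g (c • S) = (g • c) • homAct M M' ν g S := by
  simp only [homAct, map_smul_smul_mat, Matrix.mul_smul, Matrix.smul_mul, smul_smul, mul_comm]

lemma homAct_mul (M : PMod G L ι) (M' : PMod G L κ) (ν : G → L) (hν : ∀ g, ν g ≠ 0)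
    (hc : ∀ g h, M'.a g h * ν (g * h) = M.a g h * (ν g * g • ν h)) (g h : G)
    (S : Matrix κ ι L) :
    homAct M M' ν g (homAct M M' ν h S) = homAct M M' ν (g * h) S := by
  unfold homAct
  rw [map_smul_smul_mat, map_smul_mul, map_smul_mul, map_smul_map_mat]
  rw [Matrix.mul_smul, Matrix.smul_mul, smul_smul]
  have e : M'.P g * ((M'.P h).map (fun x => g • x) * S.map (fun x => (g * h) • x) *
      ((M.P h)⁻¹).map (fun x => g • x)) * (M.P g)⁻¹ =
      (M'.P g * (M'.P h).map (fun x => g • x)) * S.map (fun x => (g * h) • x) *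
      (((M.P h)⁻¹).map (fun x => g • x) * (M.P g)⁻¹) := by
    simp only [Matrix.mul_assoc]
  rw [e, M'.mul, M.inv_mul_rule]
  rw [Matrix.smul_mul, Matrix.smul_mul, Matrix.mul_smul, smul_smul, smul_smul]
  congr 1
  have h1 := hc g h
  have h2 := hν g
  have h3 := hν h
  have h4 := hν (g * h)
  have h5 : g • ν h ≠ 0 := smul_ne_zero_field g h3
  have h6 := M.a_ne g h
  rw [smul_inv'']
  field_simp
  linear_combination h1

lemma homAct_one (M : PMod G L ι) (M' : PMod G L κ) (ν : G → L) (hν : ∀ g, ν g ≠ 0)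
    (hc : ∀ g h, M'.a g h * ν (g * h) = M.a g h * (ν g * g • ν h)) (S : Matrix κ ι L) :
    homAct M M' ν 1 S = S := by
  unfold homAct
  rw [map_one_smul_mat, M.P_one, M'.P_one]
  have hinv : (M.a 1 1 • (1 : Matrix ι ι L))⁻¹ = (M.a 1 1)⁻¹ • (1 : Matrix ι ι L) := by
    apply Matrix.inv_eq_right_inv
    rw [Matrix.smul_mul, Matrix.one_mul, smul_smul, mul_inv_cancel₀ (M.a_ne 1 1), one_smul]
  rw [hinv, Matrix.smul_mul, Matrix.one_mul, Matrix.mul_smul, Matrix.mul_one, smul_smul,
    smul_smul]
  have h1 := hc 1 1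
  rw [mul_one, one_smul] at h1
  have h2 := hν 1
  have h6 := M.a_ne 1 1
  have : (ν 1)⁻¹ * ((M.a 1 1)⁻¹ * M'.a 1 1) = 1 := by
    have h3 : M'.a 1 1 = M.a 1 1 * ν 1 := by
      apply mul_right_cancel₀ h2
      linear_combination h1
    rw [h3]
    field_simp
  rw [mul_assoc, this, one_smul]

lemma homAct_fixed (M : PMod G L ι) (M' : PMod G L κ) (ν : G → L) (hν : ∀ g, ν g ≠ 0)
    (S : Matrix κ ι L) (g : G) (h : homAct M M' ν g S = S) :
    M'.P g * S.map (fun x => g • x) = ν g • (S * M.P g) := by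
  have h2 := congrArg (fun B => ν g • (B * M.P g)) h
  simp only [homAct] at h2
  rw [Matrix.smul_mul, smul_smul, mul_inv_cancel₀ (hν g), one_smul, Matrix.mul_assoc,
    M.P_inv_mul, Matrix.mul_one] at h2
  exact h2

end rho

theorem stmt_UNIQ : Stmt_UNIQ.{u} := by
  intro G L ι κ _ _ _ _ _ _ _ _ _ M M' ν hinf hcard hν hc
  obtain ⟨e⟩ := Fintype.card_eq.mp hcard
  -- the polynomial
  let p : MvPolynomial (κ × ι) L :=
    (Matrix.of fun i j : ι => (MvPolynomial.X (e i, j) : MvPolynomial (κ × ι) L)).det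
  have hp : ∀ x : κ × ι → L, MvPolynomial.eval x p =
      (Matrix.of fun i j : ι => x (e i, j)).det := by
    intro x
    show MvPolynomial.eval x (Matrix.det _) = _
    rw [RingHom.map_det]
    congr 1
    ext i j
    simp
  let toM : (κ × ι → L) → Matrix κ ι L := fun x => Matrix.of fun k i => x (k, i)
  let ρ : G → (κ × ι → L) → (κ × ι → L) := fun g x ki => homAct M M' ν g (toM x) ki.1 ki.2
  have htoM : ∀ g x, toM (ρ g x) = homAct M M' ν g (toM x) := fun g x => rfl
  have hinj : Function.Injective toM := by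
    intro x y h
    funext ki
    exact congrFun (congrFun h ki.1) ki.2
  have h1 := stmt_DENS G L (κ × ι) ρ hinf
    (fun g x y => hinj (by
      rw [htoM]
      show homAct M M' ν g (toM x + toM y) = toM (ρ g x) + toM (ρ g y)
      rw [homAct_add, htoM, htoM]))
    (fun g c x => hinj (by
      rw [htoM]
      show homAct M M' ν g (c • toM x) = (g • c) • toM (ρ g x)
      rw [homAct_smul, htoM]))
    (fun g h x => hinj (by rw [htoM, htoM, htoM, homAct_mul M M' ν hν hc]))
    (fun x => hinj (by rw [htoM, homAct_one M M' ν hν hc])) p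
    (fun ki => if ki.1 = e ki.2 then 1 else 0) (by
      rw [hp]
      have : (Matrix.of fun i j : ι => (if (e i, j).1 = e (e i, j).2 then (1 : L) else 0)) = 1 := by
        ext i j
        simp [Matrix.one_apply]
      rw [this, Matrix.det_one]
      exact one_ne_zero)
  obtain ⟨x, hx, hdet⟩ := h1
  rw [hp] at hdet
  let S' : Matrix ι ι L := Matrix.of fun i j : ι => x (e i, j)
  have hS' : S' * S'⁻¹ = 1 := Matrix.mul_nonsing_inv _ (isUnit_iff_ne_zero.mpr hdet)
  have hS'2 : S'⁻¹ * S' = 1 := Matrix.nonsing_inv_mul _ (isUnit_iff_ne_zero.mpr hdet)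
  have hS : toM x = S'.submatrix e.symm id := by
    ext k i
    simp [toM, S']
  refine ⟨toM x, S'⁻¹.submatrix id e.symm, ?_, ?_, fun g => ?_⟩
  · rw [hS]
    have : S'.submatrix e.symm id * S'⁻¹.submatrix id e.symm =
        (S' * S'⁻¹).submatrix e.symm e.symm :=
      (Matrix.submatrix_mul_equiv S' S'⁻¹ e.symm (Equiv.refl ι) e.symm)
    rw [this, hS']
    exact Matrix.submatrix_one_equiv _
  · rw [hS]
    have : S'⁻¹.submatrix id e.symm * S'.submatrix e.symm id = (S'⁻¹ * S').submatrix id id :=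
      (Matrix.submatrix_mul_equiv S'⁻¹ S' id e.symm id)
    rw [this, hS'2]
    rfl
  · apply homAct_fixed M M' ν hν
    rw [← htoM, hx g]

end Pool.Agent.MP12f267
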