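import Mathlib
import Pool.Agent.Work.MP_12f267_ag.UNIQ

/-! Blocks ISO, ISOCOH, BRIDGE, UNIQM (helper45). -/

namespace Pool.Agent.MP12f267

universe u

section proj

variable {L K : Type u} [Field L] [Field K] [Algebra L K]

/-- The transcendence degree is at most the number of generators. -/
lemma trdeg_le_mk_of_adjoin_eq_top (S : Set K) (h : IntermediateField.adjoin L S = ⊤) :
    Algebra.trdeg L K ≤ Cardinal.mk S := by
  have halg : Algebra.IsAlgebraic (Algebra.adjoin L S) K := by
    constructor
    intro z
    have hz : z ∈ IntermediateField.adjoin L S := by rw [h]; trivial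
    rw [IntermediateField.mem_adjoin_iff_div] at hz
    obtain ⟨a, ha, b, hb, rfl⟩ := hz
    by_cases hb0 : b = 0
    · subst hb0
      rw [div_zero]
      exact isAlgebraic_zero
    · refine ⟨Polynomial.C ⟨b, hb⟩ * Polynomial.X - Polynomial.C ⟨a, ha⟩, ?_, ?_⟩
      · intro h0
        have h1 := congrArg (fun p => Polynomial.coeff p 1) h0
        simp only [Polynomial.coeff_sub, Polynomial.coeff_C_mul, Polynomial.coeff_X_one, mul_one,
          Polynomial.coeff_zero] at h1
        rw [Polynomial.coeff_C_succ, sub_zero] at h1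
        exact hb0 (congrArg Subtype.val h1)
      · simp only [map_sub, map_mul, Polynomial.aeval_C, Polynomial.aeval_X]
        show b * (a / b) - a = 0
        field_simp
        ring
  exact Algebra.IsAlgebraic.trdeg_le_cardinalMk L S

lemma div_mem_projField {ι : Type u} (x : ι → K) (i j : ι) : x i / x j ∈ projField L x :=
  IntermediateField.subset_adjoin _ _ ⟨i, j, rfl⟩

lemma projField_le {ι : Type u} (x : ι → K) (F : IntermediateField L K) (j : ι) (hj : x j ≠ 0)
    (h : ∀ i, x i / x j ∈ F) : projField L x ≤ F := by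
  unfold projField
  rw [IntermediateField.adjoin_le_iff]
  rintro z ⟨i, k, rfl⟩
  have : x i / x k = (x i / x j) / (x k / x j) := by
    by_cases hk : x k = 0
    · simp [hk]
    · field_simp
  rw [this]
  exact F.div_mem (h i) (h k)

/-- Scaling does not change the field generated by the ratios. -/
lemma projField_smul {ι : Type u} (x : ι → K) (c : K) (hc : c ≠ 0) :
    projField L (c • x) = projField L x := by
  unfold projField
  congr 1
  ext z
  constructor
  · rintro ⟨i, j, rfl⟩
    refine ⟨i, j, ?_⟩
    simp only [Pi.smul_apply, smul_eq_mul]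
    rw [mul_div_mul_left _ _ hc]
  · rintro ⟨i, j, rfl⟩
    refine ⟨i, j, ?_⟩
    simp only [Pi.smul_apply, smul_eq_mul]
    rw [mul_div_mul_left _ _ hc]

/-- A linear map over `L` does not enlarge the field of ratios. -/
lemma projField_mulVec_le {ι κ : Type u} [Fintype κ] (T : Matrix ι κ L) (y : κ → K) :
    projField L ((T.map (algebraMap L K)).mulVec y) ≤ projField L y := by
  by_cases hy : y = 0
  · subst hy
    rw [Matrix.mulVec_zero]
    unfold projField
    rw [IntermediateField.adjoin_le_iff]
    rintro z ⟨i, j, rfl⟩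
    simp
  obtain ⟨k, hk⟩ := Function.ne_iff.mp hy
  simp only [Pi.zero_apply] at hk
  have key : ∀ i, ((T.map (algebraMap L K)).mulVec y) i / y k ∈ projField L y := by
    intro i
    rw [Matrix.mulVec, dotProduct, Finset.sum_div]
    refine sum_mem (fun l _ => ?_)
    rw [mul_div_assoc]
    exact (projField L y).mul_mem ((projField L y).algebraMap_mem _) (div_mem_projField y l k)
  unfold projField
  rw [IntermediateField.adjoin_le_iff]
  rintro z ⟨i, j, rfl⟩
  have : ((T.map (algebraMap L K)).mulVec y) i / ((T.map (algebraMap L K)).mulVec y) j =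
      (((T.map (algebraMap L K)).mulVec y) i / y k) /
      (((T.map (algebraMap L K)).mulVec y) j / y k) := by
    rw [div_div_div_cancel_right₀ hk]
  rw [this]
  exact (projField L y).div_mem (key i) (key j)

end proj

lemma card_eq_of_inv {L : Type u} [Field L] {ι κ : Type u} [Fintype ι] [DecidableEq ι] [Fintype κ]
    [DecidableEq κ] {S : Matrix κ ι L} {T : Matrix ι κ L} (h1 : S * T = 1) (h2 : T * S = 1) :
    Fintype.card ι = Fintype.card κ := by
  have e := (Matrix.toLin'OfInv h1 h2).finrank_eq
  simpa using e.symm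

theorem stmt_ISO : Stmt_ISO.{u} := by
  intro G L ι κ _ _ _ _ _ _ _ M M' hiso K _ _ _ _ x hx
  obtain ⟨S, T, μ, hST, hTS, hμ, hP⟩ := hiso
  obtain ⟨⟨hx0, hpt⟩, hgen, htr⟩ := hx
  let φ := algebraMap L K
  let S' : Matrix κ ι K := S.map φ
  let T' : Matrix ι κ K := T.map φ
  have hTS' : T' * S' = 1 := by
    show T.map φ * S.map φ = 1
    rw [← Matrix.map_mul, hTS]
    exact Matrix.map_one _ (map_zero φ) (map_one φ)
  have hTy : T'.mulVec (S'.mulVec x) = x := by
    rw [Matrix.mulVec_mulVec, hTS', Matrix.one_mulVec]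
  refine ⟨S'.mulVec x, ⟨?_, ?_⟩, ?_, ?_⟩
  · intro h0
    apply hx0
    rw [← hTy, h0, Matrix.mulVec_zero]
  · intro g
    obtain ⟨ν, hν0, hν⟩ := hpt g
    refine ⟨φ (μ g) * ν, mul_ne_zero (by simpa [φ] using hμ g) hν0, ?_⟩
    have e1 : (fun i => g • (S'.mulVec x) i) =
        ((S.map (fun z => g • z)).map φ).mulVec (fun i => g • x i) := by
      funext i
      simp only [Matrix.mulVec, dotProduct, Matrix.map_apply, S', φ]
      rw [Finset.smul_sum]
      refine Finset.sum_congr rfl (fun l _ => ?_)
      rw [smul_mul', GField.smul_algebraMap]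
    rw [e1, Matrix.mulVec_mulVec, ← Matrix.map_mul, hP g]
    have e2 : (μ g • (S * M.P g)).map φ = φ (μ g) • (S' * (M.P g).map φ) := by
      show _ = φ (μ g) • (S.map φ * (M.P g).map φ)
      rw [← Matrix.map_mul]
      ext i j
      simp only [Matrix.map_apply, Matrix.smul_apply, smul_eq_mul, map_mul]
    rw [e2, Matrix.smul_mulVec, ← Matrix.mulVec_mulVec, hν, Matrix.mulVec_smul, smul_smul]
  · rw [eq_top_iff, ← hgen]
    have h3 := projField_mulVec_le (K := K) T (S'.mulVec x)
    have h4 : (T.map (algebraMap L K)).mulVec (S'.mulVec x) = x := hTy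
    rw [h4] at h3
    exact h3
  · rw [htr, card_eq_of_inv hST hTS]

theorem stmt_ISOCOH : Stmt_ISOCOH.{u} := by
  intro G L ι κ _ _ _ _ _ _ _ _ M M' hiso
  obtain ⟨S, T, μ, hST, hTS, hμ, hP⟩ := hiso
  refine ⟨μ, hμ, fun g h => ?_⟩
  have e1 : M'.P g * ((M'.P h) * S.map (fun x => h • x)).map (fun x => g • x) =
      (M'.a g h * μ (g * h)) • (S * M.P (g * h)) := by
    rw [map_smul_mul, map_smul_map_mat, ← Matrix.mul_assoc, M'.mul, Matrix.smul_mul, hP,
      smul_smul]
  have e2 : M'.P g * ((M'.P h) * S.map (fun x => h • x)).map (fun x => g • x) =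
      (M.a g h * (μ g * g • μ h)) • (S * M.P (g * h)) := by
    rw [hP h, map_smul_smul_mat, map_smul_mul, Matrix.mul_smul, ← Matrix.mul_assoc, hP g,
      Matrix.smul_mul, Matrix.mul_assoc, M.mul, Matrix.mul_smul, smul_smul, smul_smul]
    congr 1
    ring
  have e3 := e1.symm.trans e2
  have hne : T * (S * M.P (g * h)) ≠ 0 := by
    rw [← Matrix.mul_assoc, hTS, Matrix.one_mul]
    intro h0
    have := M.det_ne (g * h)
    rw [h0] at this
    exact this Matrix.det_zero
  have hne2 : S * M.P (g * h) ≠ 0 := by
    intro h0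
    apply hne
    rw [h0, Matrix.mul_zero]
  exact smul_left_injective L hne2 e3

theorem stmt_BRIDGE : Stmt_BRIDGE.{u} := by
  intro G L X _ _ _ _ _ _ _ c K _ _ _ _ v
  have key : ∀ (g : G) (x : X), (((c.toPMod.P g).map (algebraMap L K)).mulVec
      (fun i => g • v i)) (g • x) = algebraMap L K (c.c g x) * g • v x := by
    intro g x
    simp only [Matrix.mulVec, dotProduct, Matrix.map_apply, Mono.toPMod, Matrix.of_apply]
    rw [Finset.sum_eq_single x]
    · simp
    · intro b _ hb
      have : ¬ (g • x = g • b) := fun h => hb ((MulAction.injective g h).symm)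
      simp [this]
    · intro h; exact absurd (Finset.mem_univ _) h
  constructor
  · rintro ⟨⟨hv, hpt⟩, hgen, htr⟩
    refine ⟨⟨?_, fun g => ?_⟩, hgen, ?_⟩
    · obtain ⟨x⟩ := (inferInstance : Nonempty X)
      intro h0
      exact hv x (congrFun h0 x)
    · obtain ⟨μ, hμ, h⟩ := hpt g
      refine ⟨μ, hμ, ?_⟩
      funext x'
      have e : x' = g • (g⁻¹ • x') := by rw [smul_inv_smul]
      rw [e, key, h]
      rfl
    · rw [htr, Nat.card_eq_fintype_card]
  · rintro ⟨⟨hv, hpt⟩, hgen, htr⟩
    obtain ⟨y, hy⟩ := Function.ne_iff.mp hv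
    simp only [Pi.zero_apply] at hy
    refine ⟨⟨?_, fun g => ?_⟩, hgen, ?_⟩
    · intro x0 hx0
      have hne : y ≠ x0 := fun h => hy (h ▸ hx0)
      let s : Finset K := by
        classical
        exact ((Finset.univ.erase x0).erase y).image (fun x => v x / v y)
      have hs : s.card + 2 ≤ Fintype.card X := by
        classical
        have h1 : s.card ≤ ((Finset.univ.erase x0).erase y).card := by
          simp only [s]
          exact Finset.card_image_le
        have h2 : ((Finset.univ.erase x0).erase y).card + 2 = Fintype.card X := by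
          have h3 : y ∈ (Finset.univ.erase x0 : Finset X) := by simp [hne]
          have h4 := Finset.card_erase_add_one h3
          have h5 := Finset.card_erase_add_one (Finset.mem_univ x0)
          rw [Finset.card_univ] at h5
          omega
        omega
      have hadj : IntermediateField.adjoin L (s : Set K) = ⊤ := by
        rw [eq_top_iff, ← hgen]
        apply projField_le v _ y hy
        intro x
        by_cases h1 : x = y
        · subst h1
          rw [div_self hy]
          exact one_mem _
        by_cases h2 : x = x0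
        · subst h2
          rw [hx0, zero_div]
          exact zero_mem _
        · apply IntermediateField.subset_adjoin
          simp only [s, Finset.coe_image, Finset.coe_erase, Finset.coe_univ]
          refine ⟨x, ?_, rfl⟩
          simp [h1, h2]
      have h1 := trdeg_le_mk_of_adjoin_eq_top (L := L) (s : Set K) hadj
      have h2 : Algebra.trdeg L K ≤ (s.card : Cardinal) := by
        refine h1.trans (le_of_eq ?_)
        exact Cardinal.mk_coe_finset
      have h3 : (Fintype.card X : Cardinal) ≤ (s.card + 1 : ℕ) := by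
        rw [← htr]
        push_cast
        gcongr
      have h4 : Fintype.card X ≤ s.card + 1 := by exact_mod_cast h3
      omega
    · obtain ⟨μ, hμ, h⟩ := hpt g
      refine ⟨μ, hμ, fun x => ?_⟩
      rw [← key, h]
      rfl
    · rw [htr, Nat.card_eq_fintype_card]

theorem stmt_UNIQM : Stmt_UNIQM.{u} := by
  intro G L X X' _ _ _ _ _ _ _ _ _ _ c c' hinf hcard hcoh K _ _ _ _ v hv
  classical
  have := Fintype.ofFinite X
  have := Fintype.ofFinite X'
  have hne : Nonempty X' := by
    apply (Nat.card_pos_iff.mp _).1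
    rw [← hcard]
    exact Nat.card_pos
  obtain ⟨ν, hν, hc⟩ := hcoh
  obtain ⟨S, T, hST, hTS, hP⟩ := stmt_UNIQ G L X X' c.toPMod c'.toPMod ν hinf
    (by rw [← Nat.card_eq_fintype_card, ← Nat.card_eq_fintype_card, hcard]) hν hc
  have hiso : c.toPMod.Iso c'.toPMod := ⟨S, T, ν, hST, hTS, hν, hP⟩
  obtain ⟨y, hy⟩ := stmt_ISO G L X X' c.toPMod c'.toPMod hiso K v
    ((stmt_BRIDGE G L X c K v).mp hv)
  exact ⟨y, (stmt_BRIDGE G L X' c' K y).mpr hy⟩

end Pool.Agent.MP12f267
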