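import Mathlib
import Pool.Agent.Work.MP_12f267_ag.Interface

/-! Block MINF (helper26). -/

open TensorProduct

namespace Pool.Agent.MP12f267

universe u

theorem stmt_MINF : Stmt_MINF.{u} := by
  intro F L₀ L A ι _ _ _ _ _ _ _ _ _ _ _ _ _ M hM
  obtain ⟨⟨θ, hspan, hdim, hcomm⟩⟩ := hM
  let J : Matrix ι ι L₀ →ₐ[F] Matrix ι ι L := (IsScalarTower.toAlgHom F L₀ L).mapMatrix
  have hJ : ∀ N : Matrix ι ι L₀, J N = N.map (algebraMap L₀ L) := fun N => rfl
  refine ⟨⟨J.comp θ, ?_, hdim, ?_⟩⟩
  · -- every matrix over L₀ has image in the span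
    have h1 : ∀ N : Matrix ι ι L₀, J N ∈ Submodule.span L (Set.range (J.comp θ)) := by
      intro N
      have hN : N ∈ Submodule.span L₀ (Set.range θ) := by rw [hspan]; trivial
      induction hN using Submodule.span_induction with
      | mem x hx =>
        obtain ⟨a, rfl⟩ := hx
        exact Submodule.subset_span ⟨a, rfl⟩
      | zero => rw [map_zero]; exact Submodule.zero_mem _
      | add x y _ _ hx hy => rw [map_add]; exact Submodule.add_mem _ hx hy
      | smul c x _ hx =>
        have : J (c • x) = algebraMap L₀ L c • J x := by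
          ext i j
          simp [hJ]
        rw [this]
        exact Submodule.smul_mem _ _ hx
    rw [eq_top_iff]
    intro N _
    rw [Matrix.matrix_eq_sum_single N]
    refine Submodule.sum_mem _ fun i _ => Submodule.sum_mem _ fun j _ => ?_
    have : Matrix.single i j (N i j) = N i j • J (Matrix.single i j 1) := by
      rw [hJ, Matrix.map_single _ _ _ (algebraMap L₀ L), map_one, Matrix.smul_single, smul_eq_mul, mul_one]
    rw [this]
    exact Submodule.smul_mem _ _ (h1 _)
  · intro g x
    have h := hcomm (AlgEquiv.restrictNormalHom L₀ g) x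
    have h2 := congrArg J h
    rw [map_mul, map_mul] at h2
    show J (θ x) * J (M.P (AlgEquiv.restrictNormalHom L₀ g)) =
      J (M.P (AlgEquiv.restrictNormalHom L₀ g)) * (J (θ x)).map (fun z => g • z)
    rw [h2]
    congr 1
    ext i j
    simp only [hJ, Matrix.map_apply]
    exact AlgEquiv.restrictNormal_commutes g L₀ _

end Pool.Agent.MP12f267
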