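import Mathlib
import Pool.Agent.Work.MP_12f267_ag.GD

/-! Block PROD: products of monomial modules of coprime good sizes. -/

open TensorProduct

namespace Pool.Agent.MP12f267

universe u

section

variable {G L : Type u} [Group G] [Field L] [MulSemiringAction G L]

/-- The class of a monomial module is trivial on the stabiliser of a point. -/
lemma Mono.trivial_on {X : Type u} [MulAction G X] (c : Mono G L X) (N : Subgroup G) (x : X)
    (hx : ∀ g : N, (g : G) • x = x) :
    Cohom N L (fun _ _ => 1) (fun g h => c.a (g : G) (h : G)) := by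
  refine ⟨fun g => (c.c (g : G) x), fun g => c.c_ne _ _, fun g h => ?_⟩
  have h1 := c.mul (g : G) (h : G) x
  rw [hx h] at h1
  show c.a (g : G) (h : G) * c.c ((g : G) * (h : G)) x = 1 * (c.c (g : G) x * (g : G) • c.c (h : G) x)
  rw [one_mul, h1]

/-- A finite product of trivial classes is trivial. -/
lemma Cohom.one_prod {J : Type} (S : Finset J) (b : J → G → G → L)
    (h : ∀ j ∈ S, Cohom G L (fun _ _ => 1) (b j)) :
    Cohom G L (fun _ _ => 1) (fun g k => ∏ j ∈ S, b j g k) := by
  classical
  induction S using Finset.induction_on with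
  | empty => exact Cohom.of_eq fun g k => by simp
  | insert i S hi ih =>
    have h1 := h i (Finset.mem_insert_self i S)
    have h2 := ih fun j hj => h j (Finset.mem_insert_of_mem hj)
    refine Cohom.trans (Cohom.of_eq fun g k => ?_) ((h1.mul h2).trans (Cohom.of_eq fun g k => ?_))
    · simp
    · rw [Finset.prod_insert hi]

/-- Two classes agree if their quotient is killed by two coprime exponents. -/
lemma Cohom.of_coprime {a b : G → G → L} (ha : ∀ g k, a g k ≠ 0) (hb : ∀ g k, b g k ≠ 0)
    {m n : ℕ} (hmn : m.Coprime n)
    (hm : Cohom G L (fun _ _ => 1) (fun g k => (b g k * (a g k)⁻¹) ^ (m : ℤ)))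
    (hn : Cohom G L (fun _ _ => 1) (fun g k => (b g k * (a g k)⁻¹) ^ (n : ℤ))) :
    Cohom G L a b := by
  have hne : ∀ g k, b g k * (a g k)⁻¹ ≠ 0 := fun g k => mul_ne_zero (hb g k) (inv_ne_zero (ha g k))
  obtain ⟨x, y, hxy⟩ : ∃ x y : ℤ, (m : ℤ) * x + (n : ℤ) * y = 1 := by
    refine ⟨Nat.gcdA m n, Nat.gcdB m n, ?_⟩
    rw [← Nat.gcd_eq_gcd_ab, hmn]
    rfl
  have h1 := Cohom.one_zpow_comb hne hm hn x y
  rw [hxy] at h1
  have h2 := (Cohom.refl a).mul h1
  refine Cohom.trans (Cohom.of_eq fun g k => ?_) (h2.trans (Cohom.of_eq fun g k => ?_))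
  · simp
  · show a g k * (b g k * (a g k)⁻¹) ^ (1 : ℤ) = b g k
    rw [zpow_one]
    field_simp [ha g k]

end

/-- The restriction map to all coordinates except `j0`. -/
def restrMap {G : Type u} {J : Type} (X : J → Type u) [Group G] [∀ j, MulAction G (X j)] (j0 : J) :
    (∀ j, X j) →[G] (∀ j : {j : J // j ≠ j0}, X j) where
  toFun x j := x j
  map_smul' _ _ := rfl

section

variable {G L : Type u} [Group G] [Field L] [MulSemiringAction G L]

open Classical in
/-- Partial powers. -/
noncomputable def partPow {J : Type} [Fintype J] {X : J → Type u} [∀ j, MulAction G (X j)]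
    (c : ∀ j, Mono G L (X j)) (r : ℕ) (S : Finset J) : Mono G L (∀ j, X j) :=
  Mono.pi fun j => (c j).zpow (if j ∈ S then (r : ℤ) else 1)

open Classical in
lemma partPow_a {J : Type} [Fintype J] {X : J → Type u} [∀ j, MulAction G (X j)]
    (c : ∀ j, Mono G L (X j)) (r : ℕ) (S : Finset J) (g h : G) :
    (partPow c r S).a g h = ∏ j, (c j).a g h ^ (if j ∈ S then (r : ℤ) else 1) := rfl

open Classical in
lemma partPow_split {J : Type} [Fintype J] {X : J → Type u} [∀ j, MulAction G (X j)]
    (c : ∀ j, Mono G L (X j)) (r : ℕ) (S : Finset J) (j0 : J) (g h : G) :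
    (partPow c r S).a g h = (∏ j ∈ Finset.univ.erase j0,
        (c j).a g h ^ (if j ∈ S then (r : ℤ) else 1)) *
      (c j0).a g h ^ (if j0 ∈ S then (r : ℤ) else 1) := by
  rw [partPow_a, Finset.prod_erase_mul _ _ (Finset.mem_univ j0)]

end

open Classical in
/-- Extension of a family by one more coordinate. -/
noncomputable def extFun {J : Type} {X : J → Type u} (j0 : J) (t : X j0)
    (y : ∀ j : {j : J // j ≠ j0}, X j) : ∀ j, X j :=
  fun j => if h : j = j0 then cast (congrArg X h.symm) t else y ⟨j, h⟩

lemma extFun_self {J : Type} {X : J → Type u} (j0 : J) (t : X j0)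
    (y : ∀ j : {j : J // j ≠ j0}, X j) : extFun j0 t y j0 = t := by
  simp [extFun]

lemma extFun_ne {J : Type} {X : J → Type u} (j0 : J) (t : X j0)
    (y : ∀ j : {j : J // j ≠ j0}, X j) (j : {j : J // j ≠ j0}) : extFun j0 t y j = y j := by
  simp [extFun, j.2]

/-- The fibre of the restriction map. -/
lemma card_fib_restr {G : Type u} {J : Type} (X : J → Type u) [Group G] [∀ j, MulAction G (X j)]
    (j0 : J) (y : ∀ j : {j : J // j ≠ j0}, X j) :
    Nat.card (Fib (restrMap (G := G) X j0) y) = Nat.card (X j0) := by
  refine Nat.card_congr ⟨fun x => x.1 j0, fun t => ⟨extFun j0 t y, funext fun j =>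
    extFun_ne j0 t y j⟩, ?_, fun t => extFun_self j0 t y⟩
  intro x
  apply Subtype.ext
  funext j
  by_cases h : j = j0
  · subst h
    exact extFun_self _ _ _
  · exact (extFun_ne j0 _ y ⟨j, h⟩).trans (congrFun x.2 ⟨j, h⟩).symm

open Classical in
/-- Block PROD. -/
theorem stmt_PROD (hGD : Stmt_GD.{u}) (hFIB : Stmt_FIB.{u}) (hUNIQM : Stmt_UNIQM.{u})
    (hDIMM : Stmt_DIMM.{u}) : Stmt_PROD.{u} := by
  intro G L J X _ _ _ _ _ _ _ _ _ c r hinf hgood hco hpair
  have main : ∀ S : Finset J, (Mono.pi c).BirTo (partPow c r S) := by
    intro S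
    induction S using Finset.induction_on with
    | empty =>
      apply hUNIQM G L (∀ j, X j) (∀ j, X j) _ _ hinf rfl
      apply Cohom.of_eq
      intro g h
      rw [partPow_a]
      show ∏ j, (c j).a g h = _
      simp
    | insert j0 S hj0 ih =>
      refine ih.trans ?_
      apply hFIB G L (∀ j, X j) (∀ j : {j : J // j ≠ j0}, X j) (restrMap X j0)
      · intro y
        obtain ⟨t⟩ := (inferInstance : Nonempty (X j0))
        exact ⟨extFun j0 t y, funext fun j => extFun_ne j0 t y j⟩
      · intro y
        have := faithful_restrict (L := L) (MulAction.stabilizer G y)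
        have : Finite (Fib (restrMap (G := G) X j0) y) :=
          Finite.of_injective (β := ∀ j, X j) (fun x => x.1) Subtype.val_injective
        have hcard := card_fib_restr (G := G) X j0 y
        have : Nonempty (Fib (restrMap (G := G) X j0) y) := by
          have h1 : Nat.card (Fib (restrMap (G := G) X j0) y) ≠ 0 := by
            rw [hcard]
            exact Nat.card_pos.ne'
          exact (Nat.card_pos_iff.mp (Nat.pos_of_ne_zero h1)).1
        apply hGD (MulAction.stabilizer G y) L (Fib (restrMap (G := G) X j0) y) _ _ r
          (hinf.restrict _)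
        · rw [hcard]; exact hgood j0
        · rw [hcard]; exact hco j0
        · -- the other factors are trivial on the stabiliser
          have hother : ∀ e : J → ℤ, Cohom (MulAction.stabilizer G y) L (fun _ _ => 1)
              (fun g h => ∏ j ∈ Finset.univ.erase j0, (c j).a (g : G) (h : G) ^ e j) := by
            intro e
            apply Cohom.one_prod
            intro j hj
            have hj' : j ≠ j0 := Finset.ne_of_mem_erase hj
            have h1 := (c j).trivial_on (MulAction.stabilizer G y) (y ⟨j, hj'⟩) (by
              intro g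
              have := g.2
              exact congrFun this ⟨j, hj'⟩)
            have h2 := h1.zpow (e j)
            exact Cohom.trans (Cohom.of_eq fun g k => by simp) h2
          have hA : Cohom (MulAction.stabilizer G y) L (fun g h => (c j0).a (g : G) (h : G))
              (fun g h => (partPow c r S).a (g : G) (h : G)) := by
            have h2 := (hother (fun j => if j ∈ S then (r : ℤ) else 1)).mul
              (Cohom.refl (fun g h : MulAction.stabilizer G y => (c j0).a (g : G) (h : G)))
            refine Cohom.trans (Cohom.of_eq fun g k => ?_) (h2.trans (Cohom.of_eq fun g k => ?_))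
            · simp
            · rw [partPow_split c r S j0, if_neg hj0, zpow_one]
          have hB : Cohom (MulAction.stabilizer G y) L
              (fun g h => (c j0).a (g : G) (h : G) ^ (r : ℤ))
              (fun g h => (partPow c r (insert j0 S)).a (g : G) (h : G)) := by
            have h2 := (hother (fun j => if j ∈ insert j0 S then (r : ℤ) else 1)).mul
              (Cohom.refl (fun g h : MulAction.stabilizer G y =>
                (c j0).a (g : G) (h : G) ^ (r : ℤ)))
            refine Cohom.trans (Cohom.of_eq fun g k => ?_) (h2.trans (Cohom.of_eq fun g k => ?_))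
            · simp
            · rw [partPow_split c r (insert j0 S) j0, if_pos (Finset.mem_insert_self j0 S)]
          exact (hA.symm.zpow (r : ℤ)).trans hB
      · intro M _ _ _ _ R R' hR hR'
        have := faithful_of_gField G L M
        have : Nonempty (∀ j : {j : J // j ≠ j0}, X j) := inferInstance
        apply hUNIQM G M _ _ R R' hinf.map rfl
        have hcop : (Nat.card (X j0)).Coprime (Nat.card (∀ j : {j : J // j ≠ j0}, X j)) := by
          rw [Nat.card_pi]
          apply Nat.Coprime.prod_right
          intro j _
          exact hpair j0 j (Ne.symm j.2)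
        apply Cohom.of_coprime R.a_ne R'.a_ne hcop
        · -- killed by the size of `X j0`
          have h1 : Cohom G M (fun g h => algebraMap L M ((c j0).a g h ^ ((r : ℤ) - 1)))
              (fun g h => R'.a g h * (R.a g h)⁻¹) := by
            have h2 := hR'.mul (hR.inv (fun g h => by simpa using (partPow c r S).a_ne g h) R.a_ne)
            refine Cohom.trans (Cohom.of_eq fun g h => ?_) h2
            show _ = algebraMap L M _ * (algebraMap L M _)⁻¹
            rw [← map_inv₀, ← map_mul]
            congr 1
            rw [partPow_split c r (insert j0 S) j0, partPow_split c r S j0,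
              if_pos (Finset.mem_insert_self j0 S), if_neg hj0, zpow_one]
            have e : (∏ j ∈ Finset.univ.erase j0,
                (c j).a g h ^ (if j ∈ insert j0 S then (r : ℤ) else 1)) =
                ∏ j ∈ Finset.univ.erase j0, (c j).a g h ^ (if j ∈ S then (r : ℤ) else 1) := by
              apply Finset.prod_congr rfl
              intro j hj
              have hj' : j ≠ j0 := Finset.ne_of_mem_erase hj
              simp [Finset.mem_insert, hj']
            rw [e]
            have hP : (∏ j ∈ Finset.univ.erase j0,
                (c j).a g h ^ (if j ∈ S then (r : ℤ) else 1)) ≠ 0 :=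
              Finset.prod_ne_zero_iff.mpr fun j _ => zpow_ne_zero _ ((c j).a_ne g h)
            have ha := (c j0).a_ne g h
            rw [zpow_sub₀ ha, zpow_one]
            field_simp
          have h3 := (hDIMM G L (X j0) (c j0)).2
          have h4 := (h3.zpow ((r : ℤ) - 1)).map (K := M)
          refine Cohom.trans ?_ (h1.zpow (Nat.card (X j0) : ℤ))
          refine Cohom.trans (Cohom.of_eq fun g h => ?_) (h4.trans (Cohom.of_eq fun g h => ?_))
          · simp
          · rw [← map_zpow₀, ← zpow_mul, ← zpow_mul, mul_comm]
        · -- killed by the size of the base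
          have h1 := (hDIMM G M _ R).2
          have h2 := (hDIMM G M _ R').2
          have h3 := h2.mul (h1.inv (fun _ _ => one_ne_zero) (fun g h => zpow_ne_zero _ (R.a_ne g h)))
          refine Cohom.trans (Cohom.of_eq fun g h => ?_) (h3.trans (Cohom.of_eq fun g h => ?_))
          · simp
          · rw [mul_zpow, inv_zpow]
  refine (main Finset.univ).trans ?_
  have : Finite (∀ j, X j) := inferInstance
  apply hUNIQM G L (∀ j, X j) (∀ j, X j) _ _ hinf rfl
  apply Cohom.of_eq
  intro g h
  rw [partPow_a]
  show _ = ∏ j, (c j).a g h ^ (r : ℤ)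
  simp

end Pool.Agent.MP12f267
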