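import Mathlib
import Pool.Agent.Work.MP_12f267_ag.Interface

/-! Blocks SPLIT, TRANS (helper26). -/

open TensorProduct

namespace Pool.Agent.MP12f267

universe u

theorem stmt_SPLIT : Stmt_SPLIT.{u} := by
  intro F A _ _ _ _ _ _ _ n hn
  classical
  haveI : IsArtinianRing A := IsArtinianRing.of_finite F A
  obtain ⟨m, hm, D, _, _, _, ⟨e⟩⟩ := IsSimpleRing.exists_algEquiv_matrix_divisionRing_finite F A
  haveI : Finite D := Module.finite_of_finite F
  -- D is commutative
  have hcomm : ∀ x y : D, x * y = y * x := by
    intro x y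
    letI : Field D := littleWedderburn D
    exact (mul_comm x y : x * y = y * x)
  haveI : Algebra.IsCentral F (Matrix (Fin m) (Fin m) D) := Algebra.IsCentral.of_algEquiv F A _ e
  have hsurj : Function.Surjective (algebraMap F D) := by
    intro d
    have hd : Matrix.scalar (Fin m) d ∈ Subalgebra.center F (Matrix (Fin m) (Fin m) D) := by
      rw [Subalgebra.mem_center_iff]
      intro b
      ext i j
      simp [Matrix.scalar_apply, Matrix.mul_apply, Matrix.diagonal_apply, hcomm]
    obtain ⟨a, ha⟩ := Algebra.IsCentral.mem_center_iff (K := F) |>.mp hd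
    refine ⟨a, ?_⟩
    have h0 := congrFun (congrFun ha 0) 0
    simp [Matrix.scalar_apply, Matrix.algebraMap_matrix_apply] at h0
    exact h0.symm
  have hbij : Function.Bijective (Algebra.ofId F D) :=
    ⟨(algebraMap F D).injective, hsurj⟩
  let eD : F ≃ₐ[F] D := AlgEquiv.ofBijective (Algebra.ofId F D) hbij
  have hfin : Module.finrank F A = m ^ 2 := by
    rw [(e.trans (eD.symm.mapMatrix (m := Fin m))).toLinearEquiv.finrank_eq, Module.finrank_matrix]
    simp [sq]
  have hmn : m = n := by
    have := hfin.symm.trans hn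
    exact Nat.pow_left_injective (n := 2) (by norm_num) this
  subst hmn
  exact ⟨e.trans (eD.symm.mapMatrix (m := Fin m))⟩

theorem stmt_TRANS : Stmt_TRANS.{u} := by
  intro F A B K _ _ _ _ _ _ _ he h
  obtain ⟨e⟩ := he
  obtain ⟨n, I, hn, hI, hfin, hdef, htr⟩ := h
  let E : K ⊗[F] A ≃ₐ[K] K ⊗[F] B := Algebra.TensorProduct.congr (AlgEquiv.refl) e
  have hE : ∀ x, E x = Algebra.TensorProduct.map (AlgHom.id F K) e.toAlgHom x := fun x => rfl
  refine ⟨n, I.map E.toLinearEquiv.toLinearMap, ?_, ?_, ?_, ?_, htr⟩
  · rw [← hn, e.toLinearEquiv.finrank_eq]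
  · rintro _ ⟨x, hx, rfl⟩ y
    refine ⟨x * E.symm y, hI x hx _, ?_⟩
    show E (x * E.symm y) = E x * y
    rw [map_mul, AlgEquiv.apply_symm_apply]
  · rw [← hfin]
    exact LinearEquiv.finrank_map_eq E.toLinearEquiv I
  · intro M hM
    apply hdef M
    unfold DefinedOver at hM ⊢
    have hcompat : ∀ y : M ⊗[F] A,
        E (Algebra.TensorProduct.map M.val (AlgHom.id F A) y) =
          Algebra.TensorProduct.map M.val (AlgHom.id F B)
            (Algebra.TensorProduct.map (AlgHom.id F M) e.toAlgHom y) := by
      intro y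
      induction y using TensorProduct.induction_on with
      | zero => simp
      | tmul a b => rfl
      | add a b ha hb => rw [map_add, map_add, ha, hb, map_add, map_add]
    have hcompat' : ∀ y : M ⊗[F] B,
        E.symm (Algebra.TensorProduct.map M.val (AlgHom.id F B) y) =
          Algebra.TensorProduct.map M.val (AlgHom.id F A)
            (Algebra.TensorProduct.map (AlgHom.id F M) e.symm.toAlgHom y) := by
      intro y
      induction y using TensorProduct.induction_on with
      | zero => simp
      | tmul a b => rfl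
      | add a b ha hb => rw [map_add, map_add, ha, hb, map_add, map_add]
    have hset : {x | x ∈ I ∧ ∃ y : M ⊗[F] A,
        x = Algebra.TensorProduct.map M.val (AlgHom.id F A) y} =
        E.symm.toLinearEquiv.toLinearMap '' {x | x ∈ I.map E.toLinearEquiv.toLinearMap ∧
          ∃ y : M ⊗[F] B, x = Algebra.TensorProduct.map M.val (AlgHom.id F B) y} := by
      ext x
      constructor
      · rintro ⟨hx, y, rfl⟩
        refine ⟨E (Algebra.TensorProduct.map M.val (AlgHom.id F A) y), ⟨⟨_, hx, rfl⟩, _,
          hcompat y⟩, ?_⟩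
        exact E.symm_apply_apply _
      · rintro ⟨_, ⟨⟨z, hz, rfl⟩, y, hy⟩, rfl⟩
        have hz' : E.symm.toLinearEquiv.toLinearMap (E.toLinearEquiv.toLinearMap z) = z :=
          E.symm_apply_apply z
        refine ⟨by rw [hz']; exact hz, ?_⟩
        rw [hy]
        exact ⟨_, hcompat' y⟩
    rw [hset, Submodule.span_image, hM, ← Submodule.map_comp]
    have : E.symm.toLinearEquiv.toLinearMap ∘ₗ E.toLinearEquiv.toLinearMap = LinearMap.id := by
      ext x
      simp
    rw [this, Submodule.map_id]

end Pool.Agent.MP12f267
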