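import Mathlib
import Pool.Agent.Work.MP_12f267_ag.GD

/-! Block TOW: towers. -/

open TensorProduct

namespace Pool.Agent.MP12f267

universe u

lemma HasTower.nonempty {r : ℕ} {G : Type u} [Group G] {X : Type u} [MulAction G X]
    (h : HasTower r G X) : Nonempty X := by
  induction h with
  | point G X _ h' => exact h'
  | step G X Y π hY _ ih =>
    obtain ⟨y⟩ := hY.2.1
    obtain ⟨x⟩ := ih y
    exact ⟨x.1⟩

/-- Block TOW. -/
theorem stmt_TOW (hGD : Stmt_GD.{u}) (hCYC : Stmt_CYC.{u}) (hFIB : Stmt_FIB.{u})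
    (hUNIQM : Stmt_UNIQM.{u}) (hDIMM : Stmt_DIMM.{u}) : Stmt_TOW.{u} := by
  intro r G X _ _ h
  induction h with
  | point G X hs h' =>
    intro L _ _ _ _ _ c c' hinf hcoh
    apply hUNIQM G L X X c c' hinf rfl
    have h1 : Nat.card X = 1 := Nat.card_eq_one_iff_unique.mpr ⟨hs, h'⟩
    have h2 := (hDIMM G L X c).2
    rw [h1] at h2
    have h3 : Cohom G L (fun g k => c.a g k ^ (1 : ℤ)) (fun g k => c.a g k ^ (r : ℤ)) :=
      Cohom.zpow_congr c.a_ne (n := 1) h2 (one_dvd _)
    exact (Cohom.trans (Cohom.of_eq fun g k => by simp) h3).trans hcoh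
  | step G X Y π hY h ih =>
    intro L _ _ _ _ _ c c' hinf hcoh
    obtain ⟨hYf, hYn, hYc, hstep⟩ := hY
    apply hFIB G L X Y π c c'
    · intro y
      obtain ⟨x⟩ := (h y).nonempty
      exact ⟨x.1, x.2⟩
    · intro y
      have := faithful_restrict (L := L) (MulAction.stabilizer G y)
      have : Finite (Fib π y) := Finite.of_injective (β := X) (fun x => x.1) Subtype.val_injective
      exact ih y L (c.fib π y) (c'.fib π y) (hinf.restrict _)
        (hcoh.restrict (MulAction.stabilizer G y))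
    · intro M _ _ _ _ R R' hR hR'
      have := faithful_of_gField G L M
      have hRR : Cohom G M (fun g k => R.a g k ^ (r : ℤ)) R'.a := by
        refine (hR.symm.zpow (r : ℤ)).trans (Cohom.trans ?_ hR')
        refine Cohom.trans (Cohom.of_eq fun g k => ?_) hcoh.map
        rw [map_zpow₀]
      rcases hstep with hg | ⟨σ, hσ, htr⟩
      · exact hGD G M Y R R' r hinf.map hg hYc hRR
      · exact hCYC G M Y R R' r σ hinf.map hσ htr hYc hRR

end Pool.Agent.MP12f267
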