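import Mathlib
import Pool.Agent.Work.MP_12f267_ag.ISO
import Pool.Agent.Work.MP_12f267_ag.SPLIT
import Pool.Agent.Work.MP_12f267_ag.EXSPLIT
import Pool.Agent.Work.MP_12f267_ag.MINF
import Pool.Agent.Work.MP_12f267_ag.ENLB
import Pool.Agent.Work.MP_12f267_ag.DIM
import Pool.Agent.Work.MP_12f267_ag.GD
import Pool.Agent.Work.MP_12f267_ag.PROD
import Pool.Agent.Work.MP_12f267_ag.TOW

/-! General lemmas for the assemblies. -/

open TensorProduct

namespace Pool.Agent.MP12f267

universe u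

section

variable {G L : Type u} [Group G] [Field L] [MulSemiringAction G L]

lemma PMod.BirTo.trans {ι κ τ : Type u} [Fintype ι] [DecidableEq ι] [Fintype κ] [DecidableEq κ]
    [Fintype τ] [DecidableEq τ] {M : PMod G L ι} {M' : PMod G L κ} {M'' : PMod G L τ}
    (h : M.BirTo M') (h' : M'.BirTo M'') : M.BirTo M'' := by
  intro K _ _ _ _ v hv
  obtain ⟨v', hv'⟩ := h K v hv
  exact h' K v' hv'

/-- Modules of the same dimension with cohomologous cocycles. -/
lemma PMod.birTo_of_cohom [Finite G] [FaithfulSMul G L] {ι κ : Type u} [Fintype ι]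
    [DecidableEq ι] [Fintype κ] [DecidableEq κ] (M : PMod G L ι) (M' : PMod G L κ)
    (hinf : InfFix G L) (hcard : Fintype.card ι = Fintype.card κ) (h : Cohom G L M.a M'.a) :
    M.BirTo M' := by
  obtain ⟨ν, hν, hc⟩ := h
  obtain ⟨S, T, hST, hTS, hP⟩ := stmt_UNIQ G L ι κ M M' ν hinf hcard hν hc
  exact stmt_ISO G L ι κ M M' ⟨S, T, ν, hST, hTS, hν, hP⟩

/-- Monomial and matrix form of the birationality relation. -/
lemma Mono.BirTo.toPMod {X X' : Type u} [MulAction G X] [MulAction G X'] [Fintype X]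
    [DecidableEq X] [Nonempty X] [Fintype X'] [DecidableEq X'] [Nonempty X'] {c : Mono G L X}
    {c' : Mono G L X'} (h : c.BirTo c') : c.toPMod.BirTo c'.toPMod := by
  intro K _ _ _ _ v hv
  obtain ⟨v', hv'⟩ := h K v ((stmt_BRIDGE G L X c K v).mpr hv)
  exact ⟨v', (stmt_BRIDGE G L X' c' K v').mp hv'⟩

end

/-! ### Inflation -/

section Infl

variable {F L₀ : Type u} [Field F] [Field L₀] [Algebra F L₀] [Normal F L₀]
  (L : Type u) [Field L] [Algebra F L] [Algebra L₀ L] [IsScalarTower F L₀ L]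

/-- Inflation of cochains. -/
noncomputable def inflC (a : (L₀ ≃ₐ[F] L₀) → (L₀ ≃ₐ[F] L₀) → L₀) :
    (L ≃ₐ[F] L) → (L ≃ₐ[F] L) → L := fun g h =>
  algebraMap L₀ L (a (AlgEquiv.restrictNormalHom L₀ g) (AlgEquiv.restrictNormalHom L₀ h))

lemma inflGal_a {ι : Type u} [Fintype ι] [DecidableEq ι] (M : PMod (L₀ ≃ₐ[F] L₀) L₀ ι) :
    (M.inflGal L).a = inflC L M.a := rfl

lemma Cohom.infl {a b : (L₀ ≃ₐ[F] L₀) → (L₀ ≃ₐ[F] L₀) → L₀}
    (h : Cohom (L₀ ≃ₐ[F] L₀) L₀ a b) : Cohom (L ≃ₐ[F] L) L (inflC L a) (inflC L b) := by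
  obtain ⟨ν, hν, h⟩ := h
  refine ⟨fun g => algebraMap L₀ L (ν (AlgEquiv.restrictNormalHom L₀ g)),
    fun g => by simpa using hν _, fun g k => ?_⟩
  have e : g • algebraMap L₀ L (ν (AlgEquiv.restrictNormalHom L₀ k)) =
      algebraMap L₀ L ((AlgEquiv.restrictNormalHom L₀ g) • ν (AlgEquiv.restrictNormalHom L₀ k)) :=
    (AlgEquiv.restrictNormal_commutes g L₀ _).symm
  rw [e]
  unfold inflC
  show _ * algebraMap L₀ L (ν (AlgEquiv.restrictNormalHom L₀ (g * k))) =
    _ * (algebraMap L₀ L (ν (AlgEquiv.restrictNormalHom L₀ g)) * _)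
  rw [map_mul (AlgEquiv.restrictNormalHom L₀), ← map_mul, h, map_mul, map_mul]

end Infl

/-! ### The final step -/

/-- The Galois group acts faithfully. -/
lemma infFix_gal (F L : Type u) [Field F] [Infinite F] [Field L] [Algebra F L] :
    InfFix (L ≃ₐ[F] L) L := by
  refine Set.Infinite.mono ?_ (Set.infinite_range_of_injective (algebraMap F L).injective)
  rintro _ ⟨x, rfl⟩ g
  exact g.commutes x

theorem finish (hEX : Stmt_EX.{u}) (hFIN : Stmt_FIN.{u}) (F L A B ι κ : Type u) [Field F]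
    [Field L] [Algebra F L] [FiniteDimensional F L] [IsGalois F L] [Ring A] [Algebra F A]
    [FiniteDimensional F A] [Ring B] [Algebra F B] [FiniteDimensional F B] [Fintype ι]
    [DecidableEq ι] [Nonempty ι] [Fintype κ] [DecidableEq κ] [Nonempty κ]
    (M : PMod (L ≃ₐ[F] L) L ι) (M' : PMod (L ≃ₐ[F] L) L κ) (hA : Nonempty (Model F L A M))
    (hB : Nonempty (Model F L B M')) (h : M.BirTo M') : Birational F A B := by
  obtain ⟨K, _, _, _, _, x, hx⟩ := hEX (L ≃ₐ[F] L) L ι M
  letI : Algebra F K := ((algebraMap L K).comp (algebraMap F L)).toAlgebra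
  have : IsScalarTower F L K := IsScalarTower.of_algebraMap_eq fun _ => rfl
  obtain ⟨y, hy⟩ := h K x hx
  exact ⟨fixedIF F L K, inferInstance, inferInstance, hFIN F L A ι K M x hA hx,
    hFIN F L B κ K M' y hB hy⟩

/-! ### Finite fields -/

lemma deg_pos {F A : Type u} [Field F] [Ring A] [Algebra F A] [IsSimpleRing A]
    [FiniteDimensional F A] {n : ℕ} (hn : Module.finrank F A = n ^ 2) : 0 < n := by
  rcases Nat.eq_zero_or_pos n with h | h
  · subst h
    have h2 : 0 < Module.finrank F A := Module.finrank_pos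
    omega
  · exact h

theorem finite_case (hEX : Stmt_EX.{u}) (hFIN : Stmt_FIN.{u}) (F A B : Type u) [Field F]
    [Finite F] [Ring A] [Algebra F A] [Algebra.IsCentral F A] [IsSimpleRing A]
    [FiniteDimensional F A] [Ring B] [Algebra F B] [Algebra.IsCentral F B] [IsSimpleRing B]
    [FiniteDimensional F B] (n : ℕ) (hA : Module.finrank F A = n ^ 2)
    (hB : Module.finrank F B = n ^ 2) : Birational F A B := by
  have hn : 0 < n := deg_pos hA
  obtain ⟨eA⟩ := stmt_SPLIT F A n hA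
  obtain ⟨eB⟩ := stmt_SPLIT F B n hB
  obtain ⟨K, _, _, hK⟩ := stmt_EXSPLIT hEX hFIN F A n hn ⟨eA⟩
  exact ⟨K, inferInstance, inferInstance, hK, stmt_TRANS F A B K ⟨eA.trans eB.symm⟩ hK⟩

lemma finite_roots (F L : Type u) [Field F] [Field L] [Algebra F L] {p : Polynomial F}
    (hp : p ≠ 0) : Finite (Roots F L p) := by
  have h := p.rootSet_finite L
  have : Finite (p.rootSet L) := h
  exact Finite.of_injective (β := p.rootSet L)
    (fun x => ⟨x.1, Polynomial.mem_rootSet.mpr ⟨hp, x.2⟩⟩)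
    (fun x y h => Subtype.ext (Subtype.mk.inj h))

/-! ### Models have the right dimension -/

lemma Model.card_eq {F L A ι : Type u} [Field F] [Field L] [Algebra F L] [Ring A] [Algebra F A]
    [Fintype ι] [DecidableEq ι] {M : PMod (L ≃ₐ[F] L) L ι} (h : Nonempty (Model F L A M)) {n : ℕ}
    (hn : Module.finrank F A = n ^ 2) : Fintype.card ι = n := by
  obtain ⟨m⟩ := h
  have h1 := m.dim
  rw [hn] at h1
  exact (Nat.pow_left_injective (n := 2) (by norm_num) h1).symm

end Pool.Agent.MP12f267
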