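import Mathlib
import Pool.Agent.Work.MP_12f267_ag.Interface

/-! Block ORD (helper80): making the exponent prime to the degree. -/

open TensorProduct

namespace Pool.Agent.MP12f267

universe u

theorem stmt_ORD : Stmt_ORD.{u} := by
  intro G L _ _ _ a b r s n ha hb hn hab hba hone
  -- `a ^ (r s - 1)` is a coboundary
  have h1 : Cohom G L (fun g h => a g h ^ ((r : ℤ) * s)) a := by
    refine Cohom.trans (Cohom.of_eq fun g h => ?_) ((hab.zpow (s : ℤ)).trans hba)
    rw [zpow_mul]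
  have h2 : Cohom G L (fun _ _ => 1) (fun g h => a g h ^ ((r : ℤ) * s - 1)) := by
    have h3 := h1.mul (Cohom.refl (fun g h => (a g h)⁻¹))
    refine Cohom.symm (Cohom.trans (Cohom.of_eq fun g h => ?_)
      (h3.trans (Cohom.of_eq fun g h => ?_)))
    · rw [zpow_sub_one₀ (ha g h)]
    · exact mul_inv_cancel₀ (ha g h)
  -- `a ^ q` is a coboundary, `q = gcd (r s - 1) n`
  set q : ℕ := Int.gcd ((r : ℤ) * s - 1) n with hq
  have h4 : Cohom G L (fun _ _ => 1) (fun g h => a g h ^ (q : ℤ)) := by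
    have h5 := Cohom.one_zpow_comb ha h2 hone (Int.gcdA ((r : ℤ) * s - 1) n)
      (Int.gcdB ((r : ℤ) * s - 1) n)
    rwa [← Int.gcd_eq_gcd_ab] at h5
  have hqn : q ∣ n := by
    have := Int.gcd_dvd_right (a := (r : ℤ) * s - 1) (b := (n : ℤ))
    exact_mod_cast this
  have hqrs : (q : ℤ) ∣ (r : ℤ) * s - 1 := Int.gcd_dvd_left ..
  have hq0 : q ≠ 0 := by
    intro h0
    rw [h0] at hqn
    exact hn.ne' (Nat.eq_zero_of_zero_dvd hqn)
  -- `r` is a unit modulo `q`
  have hrq : r.Coprime q := by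
    rw [← Nat.isCoprime_iff_coprime]
    obtain ⟨c, hc⟩ := hqrs
    exact ⟨s, -c, by linear_combination hc⟩
  have := NeZero.mk hn.ne'
  obtain ⟨w, hw⟩ := ZMod.unitsMap_surjective hqn (ZMod.unitOfCoprime r hrq)
  refine ⟨(w : ZMod n).val, ZMod.val_coe_unit_coprime w, ?_⟩
  have hcong : (q : ℤ) ∣ (r : ℤ) - ((w : ZMod n).val : ℤ) := by
    rw [← ZMod.intCast_zmod_eq_zero_iff_dvd]
    push_cast
    have h6 := congrArg (fun z : (ZMod q)ˣ => (z : ZMod q)) hw
    simp only [ZMod.unitsMap_val, ZMod.coe_unitOfCoprime] at h6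
    rw [← h6]
    have h7 : (((w : ZMod n).val : ℕ) : ZMod q) = (w : ZMod n).cast := by
      rw [ZMod.natCast_val]
    rw [h7, sub_self]
  exact (Cohom.zpow_congr ha h4 hcong).trans hab

end Pool.Agent.MP12f267
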