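import Mathlib
import Pool.Agent.Work.MP_12f267_ag.Interface

/-! Matrices over a field with a group action: basic API (helper80). -/

open TensorProduct

namespace Pool.Agent.MP12f267

universe u

section MatAct

variable {G : Type u} {L : Type u} [Group G] [Field L] [MulSemiringAction G L]
variable {ι κ μ : Type u}

lemma ma_mul [Fintype κ] (g : G) (A : Matrix ι κ L) (B : Matrix κ μ L) :
    (A * B).map (fun x => g • x) = A.map (fun x => g • x) * B.map (fun x => g • x) :=
  Matrix.map_mul (f := MulSemiringAction.toRingHom G L g)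

lemma ma_one [DecidableEq ι] (g : G) :
    (1 : Matrix ι ι L).map (fun x => g • x) = 1 :=
  Matrix.map_one _ (smul_zero g) (smul_one g)

lemma ma_smul (g : G) (c : L) (A : Matrix ι κ L) :
    (c • A).map (fun x => g • x) = (g • c) • A.map (fun x => g • x) := by
  ext i j
  simp [smul_mul']

lemma ma_add (g : G) (A B : Matrix ι κ L) :
    (A + B).map (fun x => g • x) = A.map (fun x => g • x) + B.map (fun x => g • x) := by
  ext i j
  simp

lemma ma_map (g h : G) (A : Matrix ι κ L) :
    (A.map (fun x => h • x)).map (fun x => g • x) = A.map (fun x => (g * h) • x) := by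
  ext i j
  simp [mul_smul]

lemma ma_one_smul (A : Matrix ι κ L) : A.map (fun x => (1 : G) • x) = A := by
  ext i j
  simp

lemma ma_det [Fintype ι] [DecidableEq ι] (g : G) (A : Matrix ι ι L) :
    (A.map (fun x => g • x)).det = g • A.det :=
  ((MulSemiringAction.toRingHom G L g).map_det A).symm

variable [Fintype ι] [DecidableEq ι] [Fintype κ] [DecidableEq κ]

lemma PMod.isUnit_det (M : PMod G L ι) (g : G) : IsUnit (M.P g).det :=
  isUnit_iff_ne_zero.2 (M.det_ne g)

/-- Rescaling: a cohomologous cocycle can be realised. -/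
lemma PMod.exists_rescale (M : PMod G L ι) {b : G → G → L} (hb : ∀ g h, b g h ≠ 0)
    (h : Cohom G L M.a b) : ∃ M' : PMod G L ι, M'.a = b := by
  obtain ⟨ν, hν, h⟩ := h
  refine ⟨⟨fun g => ν g • M.P g, b, hb, fun g => ?_, fun g k => ?_⟩, rfl⟩
  · rw [Matrix.det_smul]
    exact mul_ne_zero (pow_ne_zero _ (hν g)) (M.det_ne g)
  · rw [ma_smul, Matrix.smul_mul, Matrix.mul_smul, M.mul, smul_smul, smul_smul, smul_smul]
    congr 1
    have := h g k
    linear_combination -this

/-- Reindexing. -/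
def PMod.reindex (M : PMod G L ι) (e : ι ≃ κ) : PMod G L κ where
  P g := Matrix.reindex e e (M.P g)
  a := M.a
  a_ne := M.a_ne
  det_ne g := by
    rw [Matrix.det_reindex_self]
    exact M.det_ne g
  mul g h := by
    have h1 := M.mul g h
    have h2 : (Matrix.reindex e e (M.P h)).map (fun x => g • x) =
        Matrix.reindex e e ((M.P h).map (fun x => g • x)) := rfl
    rw [h2]
    simp only [Matrix.reindex_apply]
    rw [Matrix.submatrix_mul_equiv, h1]
    rfl

lemma hasMod_iff {a : G → G → L} (ha : ∀ g h, a g h ≠ 0) (d : ℕ) :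
    HasMod G L a d ↔ ∃ (ι : Type u) (_ : Fintype ι) (_ : DecidableEq ι) (M : PMod G L ι),
      Fintype.card ι = d ∧ M.a = a := by
  constructor
  · rintro ⟨ι, _, _, M, hd, h⟩
    obtain ⟨M', hM'⟩ := M.exists_rescale ha h
    exact ⟨ι, _, _, M', hd, hM'⟩
  · rintro ⟨ι, _, _, M, hd, h⟩
    refine ⟨ι, _, _, M, hd, ?_⟩
    rw [h]
    exact Cohom.refl a

/-- `P_1` is a scalar matrix. -/
lemma PMod.P_one (M : PMod G L ι) : M.P 1 = M.a 1 1 • (1 : Matrix ι ι L) := by
  have h := M.mul 1 1
  rw [ma_one_smul, mul_one] at h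
  have hu := M.isUnit_det 1
  have h2 : M.P 1 * M.P 1 * (M.P 1)⁻¹ = M.a 1 1 • M.P 1 * (M.P 1)⁻¹ := by rw [h]
  rwa [Matrix.mul_nonsing_inv_cancel_right _ _ hu, Matrix.smul_mul,
    Matrix.mul_nonsing_inv _ hu] at h2

lemma ma_inv (g : G) (A : Matrix ι ι L) (hA : IsUnit A.det) :
    (A⁻¹).map (fun x => g • x) = (A.map (fun x => g • x))⁻¹ := by
  symm
  apply Matrix.inv_eq_right_inv
  rw [← ma_mul, Matrix.mul_nonsing_inv _ hA, ma_one]

omit [Fintype κ] [DecidableEq κ] [MulSemiringAction G L] [Group G] in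
lemma ma_smul_inv (c : L) (hc : c ≠ 0) (A : Matrix ι ι L) (hA : IsUnit A.det) :
    (c • A)⁻¹ = c⁻¹ • A⁻¹ := by
  apply Matrix.inv_eq_right_inv
  rw [Matrix.smul_mul, Matrix.mul_smul, smul_smul, mul_inv_cancel₀ hc, one_smul,
    Matrix.mul_nonsing_inv _ hA]

end MatAct

end Pool.Agent.MP12f267
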