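import Mathlib
import Pool.Agent.Work.MP_12f267_ag.MatAct

/-! Block IND (helper80): induction from a Sylow subgroup. -/

open TensorProduct

namespace Pool.Agent.MP12f267

universe u

section Ind

variable {G : Type u} {L : Type u} [Group G] [Field L] [MulSemiringAction G L]

/-- The cocycle identity. -/
def IsCocyc (a : G → G → L) : Prop :=
  ∀ g h k : G, a g h * a (g * h) k = (g • a h k) * a g (h * k)

lemma PMod.cocycle {ι : Type u} [Fintype ι] [DecidableEq ι] [Nonempty ι] (M : PMod G L ι) :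
    IsCocyc M.a := by
  intro g h k
  have h1 : M.P g * (M.P h).map (fun x => g • x) * (M.P k).map (fun x => (g * h) • x) =
      (M.a g h * M.a (g * h) k) • M.P (g * h * k) := by
    rw [M.mul, Matrix.smul_mul, M.mul, smul_smul]
  have h2 : M.P g * ((M.P h) * (M.P k).map (fun x => h • x)).map (fun x => g • x) =
      ((g • M.a h k) * M.a g (h * k)) • M.P (g * (h * k)) := by
    rw [M.mul, ma_smul, Matrix.mul_smul, M.mul, smul_smul]
  rw [ma_mul, ma_map, ← Matrix.mul_assoc, h1, mul_assoc g h k] at h2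
  have h3 : M.P (g * (h * k)) ≠ 0 := by
    intro h0
    have := M.det_ne (g * (h * k))
    rw [h0, Matrix.det_zero] at this
    exact this rfl
  rw [← sub_eq_zero, ← sub_smul] at h2
  rcases smul_eq_zero.1 h2 with h4 | h4
  · exact sub_eq_zero.1 h4
  · exact absurd h4 h3

/-- The class is killed by the order of the group. -/
lemma cohom_card [Finite G] {a : G → G → L} (hc : IsCocyc a) (ha : ∀ g h, a g h ≠ 0) :
    Cohom G L (fun _ _ => 1) (fun g h => a g h ^ (Nat.card G : ℤ)) := by
  classical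
  have := Fintype.ofFinite G
  refine ⟨fun g => ∏ h : G, a g h, fun g => Finset.prod_ne_zero_iff.2 fun h _ => ha g h,
    fun g h => ?_⟩
  have e : g • ∏ k, a h k = ∏ k, g • a h k := map_prod (MulSemiringAction.toRingHom G L g) _ _
  have h2 : ∏ k, a g k = ∏ k, a g (h * k) :=
    (Fintype.prod_equiv (Equiv.mulLeft h) _ _ fun k => rfl).symm
  show a g h ^ (Nat.card G : ℤ) * ∏ k, a (g * h) k = 1 * ((∏ k, a g k) * g • ∏ k, a h k)
  rw [one_mul, e, h2, mul_comm (∏ k, a g (h * k)), ← Finset.prod_mul_distrib,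
    Nat.card_eq_fintype_card, zpow_natCast, ← Finset.card_univ, ← Finset.prod_const,
    ← Finset.prod_mul_distrib]
  exact Finset.prod_congr rfl fun k _ => hc g h k

/-- A cocycle that is trivial on a subgroup gives a monomial module on the cosets. -/
lemma exists_mono_quotient (P : Subgroup G) {b : G → G → L} (hc : IsCocyc b)
    (hb : ∀ g h, b g h ≠ 0) (hP : ∀ p q : P, b p q = 1) :
    ∃ c : Mono G L (G ⧸ P), c.a = b := by
  let s : G ⧸ P → G := Quotient.out
  have hs : ∀ x : G ⧸ P, (s x : G ⧸ P) = x := fun x => Quotient.out_eq x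
  let p : G → G ⧸ P → G := fun g x => (s (g • x))⁻¹ * (g * s x)
  have hp : ∀ g x, p g x ∈ P := by
    intro g x
    show (s (g • x))⁻¹ * (g * s x) ∈ P
    rw [← QuotientGroup.eq, hs]
    conv_lhs => rw [← hs x]
    rfl
  have hsp : ∀ g x, s (g • x) * p g x = g * s x := fun g x => by
    show s (g • x) * ((s (g • x))⁻¹ * (g * s x)) = g * s x
    rw [mul_inv_cancel_left]
  refine ⟨⟨fun g x => b g (s x) / b (s (g • x)) (p g x), b,
    fun g x => div_ne_zero (hb _ _) (hb _ _), hb, fun g h x => ?_⟩, rfl⟩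
  have e1 := hc g h (s x)
  have e2 := hc g (s (h • x)) (p h x)
  have e3 := hc (s (g • h • x)) (p g (h • x)) (p h x)
  have e4 : b (p g (h • x)) (p h x) = 1 := hP ⟨_, hp _ _⟩ ⟨_, hp _ _⟩
  have e5 : p (g * h) x = p g (h • x) * p h x := by
    show (s ((g * h) • x))⁻¹ * (g * h * s x) =
      (s (g • h • x))⁻¹ * (g * s (h • x)) * ((s (h • x))⁻¹ * (h * s x))
    rw [mul_smul]
    group
  rw [hsp] at e2 e3
  rw [e4, smul_one, one_mul] at e3
  show b g (s (h • x)) / b (s (g • h • x)) (p g (h • x)) *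
      g • (b h (s x) / b (s (h • x)) (p h x)) =
    b g h * (b (g * h) (s x) / b (s ((g * h) • x)) (p (g * h) x))
  rw [smul_div_field, e5, mul_smul g h x, ← e3]
  have n2 := hb (s (g • h • x)) (p g (h • x))
  have n4 := smul_ne_zero_field g (hb (s (h • x)) (p h x))
  have n5 := hb (g * s (h • x)) (p h x)
  rw [div_mul_div_comm, ← mul_div_assoc, div_eq_div_iff (mul_ne_zero n2 n4) (mul_ne_zero n2 n5)]
  linear_combination (b (s (g • h • x)) (p g (h • x)) * (g • b h (s x))) * e2 -
    (b (s (g • h • x)) (p g (h • x)) * (g • b (s (h • x)) (p h x))) * e1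

end Ind

theorem stmt_IND : Stmt_IND.{u} := by
  classical
  intro G L _ _ _ _ a d l t ha hl hd hM ht hat
  have := Fact.mk hl
  rw [hasMod_iff ha] at hM
  obtain ⟨ι, _, _, M, hcard, hMa⟩ := hM
  have hne : Nonempty ι := Fintype.card_pos_iff.1 (by omega)
  have hc : IsCocyc a := hMa ▸ M.cocycle
  obtain ⟨P⟩ : Nonempty (Sylow l G) := inferInstance
  let Q : Subgroup G := (P : Subgroup G)
  -- the restriction to the Sylow subgroup is trivial
  have hcQ : IsCocyc (fun g h : Q => a g h) := fun g h k => hc g h k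
  have h1 := cohom_card hcQ (fun g h => ha g h)
  have h2 := hat.restrict Q
  obtain ⟨n, hn⟩ : ∃ n, Nat.card Q = l ^ n := P.isPGroup'.exists_card_eq
  have hcop : IsCoprime (Nat.card Q : ℤ) (t : ℤ) := by
    rw [Nat.isCoprime_iff_coprime, hn]
    exact Nat.Coprime.pow_left _ ((Nat.Prime.coprime_iff_not_dvd hl).2 ht)
  obtain ⟨x, y, hxy⟩ := hcop
  have h3 := Cohom.one_zpow_comb (fun g h : Q => ha g h) h1 h2 x y
  have h4 : (Nat.card Q : ℤ) * x + (t : ℤ) * y = 1 := by rw [← hxy]; ring
  rw [h4] at h3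
  simp only [zpow_one] at h3
  obtain ⟨μ, hμ, hμ'⟩ := h3
  -- the modified cocycle
  let ν : G → L := fun g => if h : g ∈ Q then μ ⟨g, h⟩ else 1
  have hν : ∀ g, ν g ≠ 0 := by
    intro g
    by_cases h : g ∈ Q
    · simp only [ν, dif_pos h]
      exact hμ _
    · simp only [ν, dif_neg h]
      exact one_ne_zero
  have hνQ : ∀ g : Q, ν g = μ g := fun g => by
    simp only [ν, dif_pos g.2]
  let b : G → G → L := fun g h => a g h * ν (g * h) / (ν g * g • ν h)
  have hb : ∀ g h, b g h ≠ 0 := fun g h =>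
    div_ne_zero (mul_ne_zero (ha _ _) (hν _)) (mul_ne_zero (hν _) (smul_ne_zero_field g (hν _)))
  have hab : Cohom G L b a := by
    refine ⟨ν, hν, fun g h => ?_⟩
    show a g h * ν (g * h) = a g h * ν (g * h) / (ν g * g • ν h) * (ν g * g • ν h)
    rw [div_mul_cancel₀]
    exact mul_ne_zero (hν _) (smul_ne_zero_field g (hν _))
  obtain ⟨M', hM'⟩ := M.exists_rescale hb (hMa ▸ hab.symm)
  have hcb : IsCocyc b := hM' ▸ M'.cocycle
  have hbQ : ∀ p q : Q, b p q = 1 := by
    intro p q
    show a p q * ν ((p : G) * q) / (ν p * (p : G) • ν q) = 1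
    have e := hμ' p q
    have e2 : ν ((p : G) * q) = μ (p * q) := hνQ (p * q)
    rw [hνQ p, hνQ q, e2, e, one_mul]
    exact div_self (mul_ne_zero (hμ _) (smul_ne_zero_field (p : G) (hμ _)))
  obtain ⟨c, hca⟩ := exists_mono_quotient Q hcb hb hbQ
  have := Fintype.ofFinite (G ⧸ Q)
  refine ⟨Nat.card (G ⧸ Q), ?_, G ⧸ Q, inferInstance, inferInstance, c.toPMod, ?_, ?_⟩
  · exact P.not_dvd_index
  · rw [Nat.card_eq_fintype_card]
  · show Cohom G L c.a a
    rw [hca]
    exact hab

end Pool.Agent.MP12f267
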