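import Mathlib
import Pool.Agent.Work.MP_12f267_ag.IND

/-! Block PRIM (helper80): primary parts. Uses DIM, SUB. -/

open TensorProduct

namespace Pool.Agent.MP12f267

universe u

section Prim

variable {G : Type u} {L : Type u} [Group G] [Field L] [MulSemiringAction G L]

lemma hasMod_of_cohom {a b : G → G → L} {d : ℕ} (h : HasMod G L a d) (hab : Cohom G L a b) :
    HasMod G L b d := by
  obtain ⟨ι, _, _, M, hd, hM⟩ := h
  exact ⟨ι, _, _, M, hd, hM.trans hab⟩

/-- The trivial module of dimension one. -/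
lemma hasMod_one : HasMod G L (fun _ _ => 1) 1 :=
  ⟨PUnit, inferInstance, inferInstance, ⟨fun _ => 1, fun _ _ => 1, fun _ _ => one_ne_zero,
    fun _ => by rw [Matrix.det_one]; exact one_ne_zero, fun g _ => by
      rw [ma_one, one_smul, Matrix.mul_one]⟩, by simp, Cohom.refl _⟩

lemma hasMod_pow (hDIM : Stmt_DIM.{u}) {a : G → G → L} {d : ℕ} (h : HasMod G L a d) (n : ℕ) :
    HasMod G L (fun g h => a g h ^ (n : ℤ)) (d ^ n) := by
  induction n with
  | zero =>
    rw [pow_zero]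
    exact hasMod_of_cohom hasMod_one (Cohom.of_eq fun g h => by simp)
  | succ n ih =>
    rw [pow_succ]
    refine hasMod_of_cohom ((hDIM G L).1 _ _ _ _ ih h) (Cohom.of_eq fun g k => ?_)
    rw [zpow_natCast, zpow_natCast, pow_succ]

lemma hasMod_zpow (hDIM : Stmt_DIM.{u}) {a : G → G → L} (ha : ∀ g h, a g h ≠ 0) {d : ℕ}
    (hd : 0 < d) (h : HasMod G L a d) (j : ℤ) :
    ∃ D : ℕ, 0 < D ∧ HasMod G L (fun g h => a g h ^ j) D := by
  obtain ⟨n, rfl | rfl⟩ := j.eq_nat_or_neg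
  · exact ⟨d ^ n, pow_pos hd n, hasMod_pow hDIM h n⟩
  · refine ⟨d ^ n, pow_pos hd n, ?_⟩
    refine hasMod_of_cohom ((hDIM G L).2.1 _ _ (fun g k => zpow_ne_zero _ (ha g k))
      (hasMod_pow hDIM h n)) (Cohom.of_eq fun g k => ?_)
    rw [zpow_neg]

/-- The dimensions of the modules of a class form the set of multiples of their gcd. -/
lemma exists_gen (hDIM : Stmt_DIM.{u}) (hSUB : Stmt_SUB.{u}) [Finite G] [FaithfulSMul G L]
    (hinf : InfFix G L) {b : G → G → L} (hb : ∀ g h, b g h ≠ 0) {d : ℕ} (hd : 0 < d)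
    (h : HasMod G L b d) :
    ∃ q : ℕ, 0 < q ∧ HasMod G L b q ∧ ∀ e, HasMod G L b e → q ∣ e := by
  classical
  have hex : ∃ q : ℕ, 0 < q ∧ HasMod G L b q := ⟨d, hd, h⟩
  let q := Nat.find hex
  obtain ⟨hq, hbq⟩ := Nat.find_spec hex
  refine ⟨q, hq, hbq, fun e he => ?_⟩
  -- subtract multiples of `q`
  have hsub : ∀ (k m : ℕ), HasMod G L b (k * q + m) → HasMod G L b m := by
    intro k
    induction k with
    | zero =>
      intro m hm
      simpa using hm
    | succ k ih =>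
      intro m hm
      refine ih m (hSUB G L b (k * q + m) q hinf hb ?_ hbq)
      have : (k + 1) * q + m = k * q + m + q := by ring
      rwa [this] at hm
  have hmod : HasMod G L b (e % q) := by
    apply hsub (e / q)
    rw [Nat.mul_comm, Nat.div_add_mod]
    exact he
  by_contra hnd
  have hpos : 0 < e % q := Nat.pos_of_ne_zero fun h0 => hnd (Nat.dvd_of_mod_eq_zero h0)
  have := Nat.find_min' hex ⟨hpos, hmod⟩
  have hlt : e % q < q := Nat.mod_lt _ hq
  exact absurd this (not_le.2 hlt)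

end Prim

theorem stmt_PRIM (hDIM : Stmt_DIM.{u}) (hSUB : Stmt_SUB.{u}) : Stmt_PRIM.{u} := by
  classical
  intro G L _ _ _ _ _ a p e m k hinf ha hp hpm hm hM hk1 hk2
  have hdpos : 0 < p ^ e * m := Nat.mul_pos (pow_pos hp.pos e) hm
  have hdet : Cohom G L (fun _ _ => 1) (fun g h => a g h ^ ((p ^ e * m : ℕ) : ℤ)) :=
    (hDIM G L).2.2.2 a _ hM
  have hkill : ∀ j : ℤ, ((p ^ e * m : ℕ) : ℤ) ∣ j →
      Cohom G L (fun _ _ => 1) (fun g h => a g h ^ j) := by
    intro j hj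
    have h1 := Cohom.zpow_congr ha hdet (r := 0) (s := j) (by rwa [sub_zero])
    refine Cohom.trans (Cohom.of_eq fun g h => ?_) h1
    simp
  set b : G → G → L := fun g h => a g h ^ k with hbdef
  have hb : ∀ g h, b g h ≠ 0 := fun g h => zpow_ne_zero _ (ha g h)
  -- the module of dimension prime to `p` for `a ^ (1 - k)`
  obtain ⟨D, hD, hcD⟩ := hasMod_zpow hDIM ha hdpos hM (1 - k)
  have hcm : Cohom G L (fun _ _ => 1) (fun g h => (a g h ^ (1 - k)) ^ (m : ℤ)) := by
    refine Cohom.trans (hkill ((1 - k) * m) ?_) (Cohom.of_eq fun g h => zpow_mul _ _ _)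
    push_cast at hk1 ⊢
    exact mul_dvd_mul (by rw [← dvd_neg]; simpa using hk1) dvd_rfl
  obtain ⟨e', he', hce'⟩ := stmt_IND G L _ D p m (fun g h => zpow_ne_zero _ (ha g h)) hp hD hcD
    hpm hcm
  have he'pos : 0 < e' := Nat.pos_of_ne_zero fun h0 => he' (h0 ▸ dvd_zero p)
  have hbmod : HasMod G L b (p ^ e * m * e') := by
    have h1 := (hDIM G L).2.1 _ _ (fun g h => zpow_ne_zero _ (ha g h)) hce'
    refine hasMod_of_cohom ((hDIM G L).1 _ _ _ _ hM h1) (Cohom.of_eq fun g h => ?_)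
    show a g h * (a g h ^ (1 - k))⁻¹ = a g h ^ k
    rw [← zpow_neg, ← zpow_one_add₀ (ha g h)]
    congr 1
    ring
  have hbpos : 0 < p ^ e * m * e' := Nat.mul_pos hdpos he'pos
  obtain ⟨q, hq, hbq, hqdvd⟩ := exists_gen hDIM hSUB hinf hb hbpos hbmod
  -- `q` is a power of `p`
  have hqp : ∀ l : ℕ, l.Prime → l ∣ q → l = p := by
    intro l hl hlq
    by_contra hne
    have hb2 : Cohom G L (fun _ _ => 1) (fun g h => b g h ^ ((p ^ e : ℕ) : ℤ)) := by
      refine Cohom.trans (hkill (k * (p ^ e : ℕ)) ?_) (Cohom.of_eq fun g h => zpow_mul _ _ _)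
      push_cast
      rw [mul_comm]
      exact mul_dvd_mul hk2 dvd_rfl
    have hlp : ¬ l ∣ p ^ e := fun h => hne ((Nat.prime_dvd_prime_iff_eq hl hp).1
      (hl.dvd_of_dvd_pow h))
    obtain ⟨e₁, he₁, hmod₁⟩ := stmt_IND G L b _ l (p ^ e) hb hl hbpos hbmod hlp hb2
    exact he₁ (hlq.trans (hqdvd _ hmod₁))
  obtain ⟨i, hi⟩ : ∃ i, q = p ^ i :=
    ⟨_, Nat.eq_prime_pow_of_unique_prime_dvd hq.ne' fun {l} hl hlq => hqp l hl hlq⟩
  have hqpe : q ∣ p ^ e := by
    have h1 := hqdvd _ hbmod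
    rw [hi, mul_assoc] at h1
    rw [hi]
    refine Nat.Coprime.dvd_of_dvd_mul_right (Nat.Coprime.pow_left _ ?_) h1
    rw [Nat.Prime.coprime_iff_not_dvd hp, hp.dvd_mul]
    rintro (h | h)
    · exact hpm h
    · exact he' h
  obtain ⟨j, hj⟩ := hqpe
  rw [hj]
  -- direct sums
  have hsum : ∀ j : ℕ, HasMod G L b (q * (j + 1)) := by
    intro j
    induction j with
    | zero => simpa using hbq
    | succ j ih =>
      have := (hDIM G L).2.2.1 b _ _ ih hbq
      have h2 : q * (j + 1 + 1) = q * (j + 1) + q := by ring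
      rwa [h2]
  have hj0 : j ≠ 0 := by
    rintro rfl
    rw [Nat.mul_zero] at hj
    exact absurd hj (pow_pos hp.pos e).ne'
  obtain ⟨j', rfl⟩ := Nat.exists_eq_succ_of_ne_zero hj0
  exact hsum j'

end Pool.Agent.MP12f267
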