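import Mathlib
import Pool.Agent.Work.MP_12f267_ag.Interface

/-! Block CMP (helper4): two models of the same algebra are isomorphic. -/

open TensorProduct

namespace Pool.Agent.MP12f267

universe u

namespace CmpBlock

/-- The `L`-algebra isomorphism attached to a spanning homomorphism. -/
lemma exists_equiv {F L A ι : Type u} [Field F] [Field L] [Algebra F L] [Ring A] [Algebra F A]
    [FiniteDimensional F A] [Fintype ι] [DecidableEq ι] (θ : A →ₐ[F] Matrix ι ι L)
    (span : Submodule.span L (Set.range θ) = ⊤)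
    (dim : Module.finrank F A = Fintype.card ι ^ 2) :
    ∃ Θ : (L ⊗[F] A) ≃ₐ[L] Matrix ι ι L, ∀ (c : L) (a : A), Θ (c ⊗ₜ[F] a) = c • θ a := by
  let Θ₀ : (L ⊗[F] A) →ₐ[L] Matrix ι ι L :=
    Algebra.TensorProduct.lift (Algebra.ofId L (Matrix ι ι L)) θ
      (fun c a => Algebra.commutes c (θ a))
  have h0 : ∀ (c : L) (a : A), Θ₀ (c ⊗ₜ[F] a) = c • θ a := by
    intro c a
    rw [Algebra.smul_def]
    exact Algebra.TensorProduct.lift_tmul _ _ _ c a
  have hsurj : Function.Surjective Θ₀.toLinearMap := by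
    rw [← LinearMap.range_eq_top, eq_top_iff, ← span, Submodule.span_le]
    rintro _ ⟨a, rfl⟩
    refine ⟨(1 : L) ⊗ₜ[F] a, ?_⟩
    have := h0 1 a
    rw [one_smul] at this
    exact this
  have hfin : Module.finrank L (L ⊗[F] A) = Module.finrank L (Matrix ι ι L) := by
    rw [Module.finrank_baseChange, dim, Module.finrank_matrix, Module.finrank_self]
    ring
  have hinj : Function.Injective Θ₀.toLinearMap :=
    (LinearMap.injective_iff_surjective_of_finrank_eq_finrank hfin).mpr hsurj
  exact ⟨AlgEquiv.ofBijective Θ₀ ⟨hinj, hsurj⟩, h0⟩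

/-- Skolem-Noether for matrix algebras. -/
lemma skolem {L ι κ : Type u} [Field L] [Fintype ι] [DecidableEq ι] [Fintype κ] [DecidableEq κ]
    (Ψ : Matrix ι ι L ≃ₐ[L] Matrix κ κ L) :
    ∃ (S : Matrix κ ι L) (T : Matrix ι κ L), S * T = 1 ∧ T * S = 1 ∧
      ∀ X, Ψ X * S = S * X := by
  obtain ⟨T, hT⟩ := AlgEquiv.eq_linearEquivConjAlgEquiv
    ((Matrix.toLinAlgEquiv'.symm.trans Ψ).trans Matrix.toLinAlgEquiv' :
      Module.End L (ι → L) ≃ₐ[L] Module.End L (κ → L))
  refine ⟨LinearMap.toMatrix' T.toLinearMap, LinearMap.toMatrix' T.symm.toLinearMap, ?_, ?_, ?_⟩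
  · rw [← LinearMap.toMatrix'_comp]
    simp
  · rw [← LinearMap.toMatrix'_comp]
    simp
  · intro X
    have h := congrArg (fun f => f (Matrix.toLinAlgEquiv' X)) hT
    simp only [AlgEquiv.trans_apply, AlgEquiv.symm_apply_apply] at h
    apply Matrix.toLin'.injective
    rw [Matrix.toLin'_mul, Matrix.toLin'_mul, Matrix.toLin'_toMatrix']
    ext v : 1
    have h1 : Matrix.toLin' (Ψ X) = Matrix.toLinAlgEquiv' (Ψ X) := rfl
    rw [h1, h]
    ext i
    simp

lemma map_smul_mul {G L l m n : Type*} [Group G] [Field L] [MulSemiringAction G L] [Fintype m]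
    (g : G) (X : Matrix l m L) (Y : Matrix m n L) :
    (X * Y).map (fun x => g • x) = X.map (fun x => g • x) * Y.map (fun x => g • x) := by
  ext i j
  simp only [Matrix.map_apply, Matrix.mul_apply, Finset.smul_sum, smul_mul']

/-- A matrix commuting with a spanning set is scalar. -/
lemma scalar_of_commute {L ι : Type*} [Field L] [Fintype ι] [DecidableEq ι] {s : Set (Matrix ι ι L)}
    (hs : Submodule.span L s = ⊤) {W : Matrix ι ι L} (hW : ∀ X ∈ s, X * W = W * X) :
    ∃ μ : L, W = μ • (1 : Matrix ι ι L) := by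
  have hall : ∀ X : Matrix ι ι L, X * W = W * X := by
    intro X
    have hX : X ∈ Submodule.span L s := by rw [hs]; trivial
    induction hX using Submodule.span_induction with
    | mem x hx => exact hW x hx
    | zero => simp
    | add x y _ _ hx hy => rw [add_mul, mul_add, hx, hy]
    | smul c x _ hx => rw [smul_mul_assoc, mul_smul_comm, hx]
  obtain ⟨μ, hμ⟩ := Matrix.mem_range_scalar_iff_commute_single'.mpr
    (fun i j => (hall (Matrix.single i j 1) : Commute (Matrix.single i j (1 : L)) W))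
  refine ⟨μ, ?_⟩
  rw [← hμ, Matrix.smul_one_eq_diagonal]
  rfl

lemma main {F L A ι κ : Type u} [Field F] [Field L] [Algebra F L]
    [Ring A] [Algebra F A] [FiniteDimensional F A] [Fintype ι] [DecidableEq ι] [Fintype κ]
    [DecidableEq κ] [Nonempty ι]
    (M : PMod (L ≃ₐ[F] L) L ι) (M' : PMod (L ≃ₐ[F] L) L κ) (m : Model F L A M)
    (m' : Model F L A M') : M.Iso M' := by
  obtain ⟨Θ, hΘ⟩ := exists_equiv m.θ m.span m.dim
  obtain ⟨Θ', hΘ'⟩ := exists_equiv m'.θ m'.span m'.dim
  obtain ⟨S, T, hST, hTS, hS⟩ := skolem (Θ.symm.trans Θ')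
  have h1 : ∀ a, m'.θ a * S = S * m.θ a := by
    intro a
    have e1 : Θ ((1 : L) ⊗ₜ[F] a) = m.θ a := by rw [hΘ, one_smul]
    have e2 : Θ' ((1 : L) ⊗ₜ[F] a) = m'.θ a := by rw [hΘ', one_smul]
    have e3 := hS (m.θ a)
    rw [AlgEquiv.trans_apply, ← e1, AlgEquiv.symm_apply_apply, e2, e1] at e3
    exact e3
  have h2 : ∀ a, m.θ a * T = T * m'.θ a := by
    intro a
    calc m.θ a * T = (T * S) * m.θ a * T := by rw [hTS, one_mul]
      _ = T * (S * m.θ a) * T := by rw [Matrix.mul_assoc T S]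
      _ = T * (m'.θ a * S) * T := by rw [h1]
      _ = T * m'.θ a * (S * T) := by simp only [Matrix.mul_assoc]
      _ = T * m'.θ a := by rw [hST, Matrix.mul_one]
  have h3 : ∀ g : L ≃ₐ[F] L, ∃ μ : L, μ ≠ 0 ∧
      M'.P g * S.map (fun x => g • x) = μ • (S * M.P g) := by
    intro g
    have hu : IsUnit (M.P g).det := (M.det_ne g).isUnit
    have hu' : IsUnit (M'.P g).det := (M'.det_ne g).isUnit
    have hPQ : M.P g * (M.P g)⁻¹ = 1 := Matrix.mul_nonsing_inv _ hu
    have hQP : (M.P g)⁻¹ * M.P g = 1 := Matrix.nonsing_inv_mul _ hu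
    have hQP' : (M'.P g)⁻¹ * M'.P g = 1 := Matrix.nonsing_inv_mul _ hu'
    set Q := (M.P g)⁻¹ with hQ
    have hY : ∀ a, m'.θ a * (M'.P g * S.map (fun x => g • x)) =
        (M'.P g * S.map (fun x => g • x)) * (m.θ a).map (fun x => g • x) := by
      intro a
      rw [← Matrix.mul_assoc, m'.comm, Matrix.mul_assoc, ← map_smul_mul, h1, map_smul_mul,
        ← Matrix.mul_assoc]
    have hQa : ∀ a, (m.θ a).map (fun x => g • x) * Q = Q * m.θ a := by
      intro a
      calc (m.θ a).map (fun x => g • x) * Q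
          = (Q * M.P g) * (m.θ a).map (fun x => g • x) * Q := by rw [hQP, one_mul]
        _ = Q * (M.P g * (m.θ a).map (fun x => g • x)) * Q := by rw [mul_assoc Q]
        _ = Q * (m.θ a * M.P g) * Q := by rw [m.comm]
        _ = Q * m.θ a * (M.P g * Q) := by simp only [Matrix.mul_assoc]
        _ = Q * m.θ a := by rw [hPQ, mul_one]
    obtain ⟨μ, hμ⟩ := scalar_of_commute (W := (M'.P g * S.map (fun x => g • x)) * (Q * T))
      m'.span (by
        rintro _ ⟨a, rfl⟩
        rw [← Matrix.mul_assoc, hY, Matrix.mul_assoc, ← Matrix.mul_assoc _ Q T, hQa,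
          Matrix.mul_assoc Q, h2]
        simp only [Matrix.mul_assoc])
    have hfin : M'.P g * S.map (fun x => g • x) = μ • (S * M.P g) := by
      calc M'.P g * S.map (fun x => g • x)
          = (M'.P g * S.map (fun x => g • x)) * (Q * T) * (S * M.P g) := by
            have : (Q * T) * (S * M.P g) = 1 := by
              calc (Q * T) * (S * M.P g) = Q * (T * S) * M.P g := by simp only [Matrix.mul_assoc]
                _ = 1 := by rw [hTS, Matrix.mul_one, hQP]
            rw [Matrix.mul_assoc, this, Matrix.mul_one]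
        _ = μ • (S * M.P g) := by rw [hμ, Matrix.smul_mul, Matrix.one_mul]
    refine ⟨μ, ?_, hfin⟩
    rintro rfl
    rw [zero_smul] at hfin
    have h4 : S.map (fun x => g • x) = 0 := by
      calc S.map (fun x => g • x) = ((M'.P g)⁻¹ * M'.P g) * S.map (fun x => g • x) := by
            rw [hQP', Matrix.one_mul]
        _ = 0 := by rw [Matrix.mul_assoc, hfin, Matrix.mul_zero]
    have h5 : S = 0 := by
      ext i j
      have := congrFun (congrFun h4 i) j
      simp only [Matrix.map_apply, Matrix.zero_apply] at this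
      by_contra hne
      exact smul_ne_zero_field g hne this
    rw [h5, Matrix.mul_zero] at hTS
    obtain ⟨i⟩ := ‹Nonempty ι›
    have := congrFun (congrFun hTS i) i
    simp at this
  choose μ hμ hfin using h3
  exact ⟨S, T, μ, hST, hTS, hμ, hfin⟩

end CmpBlock

/-- Block CMP, from block ISOCOH. -/
theorem stmt_CMP (hI : Stmt_ISOCOH.{u}) : Stmt_CMP.{u} := by
  intro F L A ι κ _ _ _ _ _ _ _ _ _ _ _ _ _ M M' hm hm'
  obtain ⟨m⟩ := hm
  obtain ⟨m'⟩ := hm'
  have h := CmpBlock.main M M' m m'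
  exact ⟨h, hI _ _ _ _ M M' h⟩

end Pool.Agent.MP12f267
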