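import Mathlib
import Pool.Agent.Work.MP_12f267_ag.ISO
import Pool.Agent.Work.MP_12f267_ag.CMP

/-! Block BRAUER (helper45): Brauer multiples and cocycles. -/

open TensorProduct Kronecker

namespace Pool.Agent.MP12f267

universe u

section prodMat

variable {L ι : Type u} [Field L] [Fintype ι] [DecidableEq ι]

/-- The multilinear map `(m_i) ↦ ⊗ m_i`. -/
def prodMat (L ι : Type u) [Field L] (r : ℕ) :
    MultilinearMap L (fun _ : Fin r => Matrix ι ι L) (Matrix (Fin r → ι) (Fin r → ι) L) where
  toFun m := Matrix.of fun f f' => ∏ i, m i (f i) (f' i)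
  map_update_add' m i x y := by
    ext f f'
    simp only [Matrix.of_apply, Matrix.add_apply]
    rw [← Finset.mul_prod_erase _ _ (Finset.mem_univ i), ← Finset.mul_prod_erase _ _ (Finset.mem_univ i),
      ← Finset.mul_prod_erase _ _ (Finset.mem_univ i)]
    simp only [Function.update_self, Matrix.add_apply]
    have h : ∀ z : Matrix ι ι L, ∏ j ∈ Finset.univ.erase i, (Function.update m i z) j (f j) (f' j) =
        ∏ j ∈ Finset.univ.erase i, m j (f j) (f' j) := by
      intro z
      refine Finset.prod_congr rfl (fun j hj => ?_)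
      rw [Function.update_of_ne (Finset.ne_of_mem_erase hj)]
    rw [h, h, h, add_mul]
  map_update_smul' m i c x := by
    ext f f'
    simp only [Matrix.of_apply, Matrix.smul_apply, smul_eq_mul]
    rw [← Finset.mul_prod_erase _ _ (Finset.mem_univ i), ← Finset.mul_prod_erase _ _ (Finset.mem_univ i)]
    simp only [Function.update_self, Matrix.smul_apply, smul_eq_mul]
    have h : ∀ z : Matrix ι ι L, ∏ j ∈ Finset.univ.erase i, (Function.update m i z) j (f j) (f' j) =
        ∏ j ∈ Finset.univ.erase i, m j (f j) (f' j) := by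
      intro z
      refine Finset.prod_congr rfl (fun j hj => ?_)
      rw [Function.update_of_ne (Finset.ne_of_mem_erase hj)]
    rw [h, h, mul_assoc]

omit [Fintype ι] [DecidableEq ι] in
lemma prodMat_apply (r : ℕ) (m : Fin r → Matrix ι ι L) (f f' : Fin r → ι) :
    prodMat L ι r m f f' = ∏ i, m i (f i) (f' i) := rfl

omit [Fintype ι] in
lemma prodMat_single (r : ℕ) (f f' : Fin r → ι) :
    prodMat L ι r (fun i => Matrix.single (f i) (f' i) 1) = Matrix.single f f' 1 := by
  ext g g'
  rw [prodMat_apply]
  by_cases h : f = g ∧ f' = g'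
  · obtain ⟨rfl, rfl⟩ := h
    rw [Matrix.single_apply_same]
    exact Finset.prod_eq_one (fun i _ => Matrix.single_apply_same _ _ _)
  · rw [Matrix.single_apply_of_ne _ _ _ _ _ h]
    have : ∃ i, ¬ (f i = g i ∧ f' i = g' i) := by
      by_contra hcon
      push Not at hcon
      exact h ⟨funext fun i => (hcon i).1, funext fun i => (hcon i).2⟩
    obtain ⟨i, hi⟩ := this
    exact Finset.prod_eq_zero (Finset.mem_univ i) (Matrix.single_apply_of_ne _ _ _ _ _ hi)

omit [Fintype ι] in
lemma prodMat_one (r : ℕ) : prodMat L ι r (fun _ => 1) = 1 := by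
  ext g g'
  rw [prodMat_apply]
  by_cases h : g = g'
  · subst h
    rw [Matrix.one_apply_eq]
    exact Finset.prod_eq_one (fun i _ => Matrix.one_apply_eq _)
  · rw [Matrix.one_apply_ne h]
    obtain ⟨i, hi⟩ := Function.ne_iff.mp h
    exact Finset.prod_eq_zero (Finset.mem_univ i) (Matrix.one_apply_ne hi)

omit [DecidableEq ι] in
lemma prodMat_mul (r : ℕ) (m m' : Fin r → Matrix ι ι L) :
    prodMat L ι r (fun i => m i * m' i) = prodMat L ι r m * prodMat L ι r m' := by
  ext f f'
  rw [prodMat_apply, Matrix.mul_apply]
  simp only [Matrix.mul_apply, prodMat_apply]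
  rw [Finset.prod_univ_sum, Fintype.piFinset_univ]
  exact Finset.sum_congr rfl (fun g _ => Finset.prod_mul_distrib)

end prodMat

section tpow

variable {G L ι : Type u} [Group G] [Field L] [MulSemiringAction G L] [Fintype ι] [DecidableEq ι]

omit [Fintype ι] [DecidableEq ι] in
lemma prodMat_map_smul (r : ℕ) (g : G) (m : Fin r → Matrix ι ι L) :
    (prodMat L ι r m).map (fun x => g • x) =
      prodMat L ι r (fun i => (m i).map (fun x => g • x)) := by
  ext f f'
  simp only [Matrix.map_apply, prodMat_apply]
  exact map_prod (MulSemiringAction.toRingHom G L g) _ _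

/-- Tensor powers of a module. -/
noncomputable def PMod.tpow (M : PMod G L ι) (r : ℕ) : PMod G L (Fin r → ι) where
  P g := prodMat L ι r (fun _ => M.P g)
  a g h := M.a g h ^ r
  a_ne g h := pow_ne_zero _ (M.a_ne g h)
  det_ne g := by
    have h : prodMat L ι r (fun _ => M.P g) * prodMat L ι r (fun _ => (M.P g)⁻¹) = 1 := by
      rw [← prodMat_mul]
      simp only [M.P_mul_inv]
      exact prodMat_one r
    intro h0
    have h2 := congrArg Matrix.det h
    rw [Matrix.det_mul, h0, zero_mul, Matrix.det_one] at h2
    exact zero_ne_one h2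
  mul g h := by
    rw [prodMat_map_smul, ← prodMat_mul]
    simp only [M.mul]
    have := (prodMat L ι r).map_smul_univ (fun _ => M.a g h) (fun _ => M.P (g * h))
    rw [this, Finset.prod_const, Finset.card_univ, Fintype.card_fin]

/-- Amplification of a module. -/
noncomputable def PMod.amp (M : PMod G L ι) (k : ℕ) : PMod G L (Fin k × ι) where
  P g := (1 : Matrix (Fin k) (Fin k) L) ⊗ₖ M.P g
  a g h := M.a g h
  a_ne g h := M.a_ne g h
  det_ne g := by
    rw [Matrix.det_kronecker, Matrix.det_one, one_pow, one_mul]
    exact pow_ne_zero _ (M.det_ne g)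
  mul g h := by
    have e : ((1 : Matrix (Fin k) (Fin k) L) ⊗ₖ M.P h).map (fun x => g • x) =
        (1 : Matrix (Fin k) (Fin k) L) ⊗ₖ (M.P h).map (fun x => g • x) := by
      ext ⟨i, i'⟩ ⟨j, j'⟩
      simp only [Matrix.map_apply, Matrix.kroneckerMap_apply, smul_mul']
      by_cases hij : i = j
      · subst hij; simp
      · simp [Matrix.one_apply_ne hij]
    rw [e, ← Matrix.mul_kronecker_mul, M.mul, Matrix.mul_one, Matrix.kronecker_smul]

end tpow

section models

variable {F L A B ι : Type u} [Field F] [Field L] [Algebra F L] [Ring A] [Algebra F A] [Ring B]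
  [Algebra F B] [Fintype ι] [DecidableEq ι]

/-- Transport of a model. -/
def Model.ofEquiv {M : PMod (L ≃ₐ[F] L) L ι} (m : Model F L B M) (e : A ≃ₐ[F] B) :
    Model F L A M where
  θ := m.θ.comp e.toAlgHom
  span := by
    have : Set.range (m.θ.comp e.toAlgHom) = Set.range m.θ := by
      ext x
      constructor
      · rintro ⟨a, rfl⟩
        exact ⟨e a, rfl⟩
      · rintro ⟨b, rfl⟩
        exact ⟨e.symm b, congrArg m.θ (e.apply_symm_apply b)⟩
    rw [this, m.span]
  dim := by rw [← m.dim]; exact e.toLinearEquiv.finrank_eq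
  comm g x := m.comm g (e x)

/-- The algebra homomorphism of the tensor power. -/
noncomputable def thetaPow (θ : A →ₐ[F] Matrix ι ι L) (r : ℕ) :
    (⨂[F] _ : Fin r, A) →ₐ[F] Matrix (Fin r → ι) (Fin r → ι) L :=
  PiTensorProduct.liftAlgHom
    (((prodMat L ι r).restrictScalars F).compLinearMap (fun _ => θ.toLinearMap))
    (by
      show prodMat L ι r (fun _ => θ 1) = 1
      simp only [map_one]
      exact prodMat_one r)
    (fun x y => by
      show prodMat L ι r (fun i => θ (x i * y i)) =
        prodMat L ι r (fun i => θ (x i)) * prodMat L ι r (fun i => θ (y i))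
      rw [← prodMat_mul]
      simp only [map_mul])

lemma thetaPow_tprod (θ : A →ₐ[F] Matrix ι ι L) (r : ℕ) (x : Fin r → A) :
    thetaPow θ r (PiTensorProduct.tprod F x) = prodMat L ι r (fun i => θ (x i)) := by
  show PiTensorProduct.lift _ (PiTensorProduct.tprod F x) = _
  rw [PiTensorProduct.lift.tprod]
  rfl

lemma thetaPow_span (θ : A →ₐ[F] Matrix ι ι L) (hθ : Submodule.span L (Set.range θ) = ⊤) (r : ℕ) :
    Submodule.span L (Set.range (thetaPow θ r)) = ⊤ := by
  have key : ∀ s : Finset (Fin r), ∀ m : Fin r → Matrix ι ι L,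
      (∀ i, i ∉ s → m i ∈ Set.range θ) →
      prodMat L ι r m ∈ Submodule.span L (Set.range (thetaPow θ r)) := by
    intro s
    induction s using Finset.induction_on with
    | empty =>
      intro m hm
      choose x hx using fun i => hm i (Finset.notMem_empty i)
      apply Submodule.subset_span
      refine ⟨PiTensorProduct.tprod F x, ?_⟩
      rw [thetaPow_tprod]
      simp only [hx]
    | insert a s ha ih =>
      intro m hm
      have hy : m a ∈ Submodule.span L (Set.range θ) := by rw [hθ]; trivial
      have hP : ∀ y ∈ Submodule.span L (Set.range θ),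
          prodMat L ι r (Function.update m a y) ∈
            Submodule.span L (Set.range (thetaPow θ r)) := by
        intro y hy
        induction hy using Submodule.span_induction with
        | mem y hy2 =>
          apply ih
          intro i hi
          by_cases h : i = a
          · subst h
            rw [Function.update_self]
            exact hy2
          · rw [Function.update_of_ne h]
            apply hm
            rw [Finset.mem_insert]
            tauto
        | zero =>
          rw [MultilinearMap.map_update_zero]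
          exact Submodule.zero_mem _
        | add x y _ _ hx hy =>
          rw [MultilinearMap.map_update_add]
          exact Submodule.add_mem _ hx hy
        | smul c x _ hx =>
          rw [MultilinearMap.map_update_smul]
          exact Submodule.smul_mem _ _ hx
      have h := hP (m a) hy
      rwa [Function.update_eq_self] at h
  rw [eq_top_iff]
  rintro X -
  rw [Matrix.matrix_eq_sum_single X]
  refine Submodule.sum_mem _ (fun f _ => Submodule.sum_mem _ (fun f' _ => ?_))
  have e : Matrix.single f f' (X f f') = X f f' • Matrix.single f f' (1 : L) := by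
    rw [Matrix.smul_single, smul_eq_mul, mul_one]
  rw [e, ← prodMat_single]
  apply Submodule.smul_mem
  apply key Finset.univ
  intro i hi
  exact absurd (Finset.mem_univ i) hi

/-- The model of the tensor power. -/
noncomputable def Model.tpow {M : PMod (L ≃ₐ[F] L) L ι} [FiniteDimensional F A]
    (m : Model F L A M) (r : ℕ) : Model F L (⨂[F] _ : Fin r, A) (M.tpow r) where
  θ := thetaPow m.θ r
  span := thetaPow_span m.θ m.span r
  dim := by
    let b := Module.finBasis F A
    rw [Module.finrank_eq_card_basis (Basis.piTensorProduct (fun _ : Fin r => b))]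
    rw [Fintype.card_fun, Fintype.card_fin, Fintype.card_fun, Fintype.card_fin, m.dim,
      ← pow_mul, ← pow_mul, mul_comm]
  comm g x := by
    induction x using PiTensorProduct.induction_on with
    | smul_tprod c x =>
      have e : ((c • thetaPow m.θ r (PiTensorProduct.tprod F x)).map (fun z => g • z)) =
          c • (thetaPow m.θ r (PiTensorProduct.tprod F x)).map (fun z => g • z) := by
        ext i j
        simp only [Matrix.map_apply, Matrix.smul_apply]
        exact map_smul g c _
      rw [map_smul, e, Matrix.smul_mul, Matrix.mul_smul]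
      congr 1
      rw [thetaPow_tprod, prodMat_map_smul]
      show _ * prodMat L ι r (fun _ => M.P g) = prodMat L ι r (fun _ => M.P g) * _
      rw [← prodMat_mul, ← prodMat_mul]
      simp only [m.comm]
    | add x y hx hy =>
      rw [map_add, Matrix.add_mul, map_smul_add_mat, Matrix.mul_add, hx, hy]

/-- The algebra homomorphism of the matrix algebra. -/
noncomputable def thetaAmp (θ : A →ₐ[F] Matrix ι ι L) (k : ℕ) :
    Matrix (Fin k) (Fin k) A →ₐ[F] Matrix (Fin k × ι) (Fin k × ι) L :=
  (Matrix.compAlgEquiv (Fin k) ι L F).toAlgHom.comp θ.mapMatrix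

lemma thetaAmp_apply (θ : A →ₐ[F] Matrix ι ι L) (k : ℕ) (X : Matrix (Fin k) (Fin k) A)
    (a b : Fin k) (i j : ι) : thetaAmp θ k X (a, i) (b, j) = θ (X a b) i j := rfl

/-- The model of the matrix algebra. -/
noncomputable def Model.amp {M : PMod (L ≃ₐ[F] L) L ι} (m : Model F L A M) (k : ℕ) :
    Model F L (Matrix (Fin k) (Fin k) A) (M.amp k) where
  θ := thetaAmp m.θ k
  span := by
    rw [eq_top_iff]
    rintro X -
    have key : ∀ (a b : Fin k) (Y : Matrix ι ι L),
        (Matrix.single a b (1 : L)) ⊗ₖ Y ∈
          Submodule.span L (Set.range (thetaAmp m.θ k)) := by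
      intro a b Y
      have hY : Y ∈ Submodule.span L (Set.range m.θ) := by rw [m.span]; trivial
      induction hY using Submodule.span_induction with
      | mem Y hY =>
        obtain ⟨x, rfl⟩ := hY
        apply Submodule.subset_span
        refine ⟨Matrix.single a b x, ?_⟩
        ext ⟨c, i⟩ ⟨d, j⟩
        rw [thetaAmp_apply, Matrix.kroneckerMap_apply]
        by_cases h : a = c ∧ b = d
        · obtain ⟨rfl, rfl⟩ := h
          rw [Matrix.single_apply_same, Matrix.single_apply_same, one_mul]
        · rw [Matrix.single_apply_of_ne _ _ _ _ _ h, Matrix.single_apply_of_ne _ _ _ _ _ h,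
            map_zero, Matrix.zero_apply, zero_mul]
      | zero =>
        rw [Matrix.kronecker_zero]
        exact Submodule.zero_mem _
      | add x y _ _ hx hy =>
        rw [Matrix.kronecker_add]
        exact Submodule.add_mem _ hx hy
      | smul c x _ hx =>
        rw [Matrix.kronecker_smul]
        exact Submodule.smul_mem _ _ hx
    rw [Matrix.matrix_eq_sum_single X]
    refine Submodule.sum_mem _ (fun p _ => Submodule.sum_mem _ (fun q _ => ?_))
    have e : Matrix.single p q (X p q) =
        (Matrix.single p.1 q.1 (1 : L)) ⊗ₖ (Matrix.single p.2 q.2 (X p q)) := by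
      ext ⟨c, i⟩ ⟨d, j⟩
      rw [Matrix.kroneckerMap_apply]
      simp only [Matrix.single_apply, Prod.ext_iff]
      by_cases h1 : p.1 = c <;> by_cases h2 : q.1 = d <;> by_cases h3 : p.2 = i <;>
        by_cases h4 : q.2 = j <;> simp [h1, h2, h3, h4]
    rw [e]
    exact key _ _ _
  dim := by
    rw [Module.finrank_matrix, m.dim, Fintype.card_prod, Fintype.card_fin]
    ring
  comm g X := by
    ext ⟨a, i⟩ ⟨b, j⟩
    have h := congrFun (congrFun (m.comm g (X a b)) i) j
    simp only [Matrix.mul_apply] at h ⊢
    simp only [Fintype.sum_prod_type, PMod.amp, Matrix.map_apply, thetaAmp_apply,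
      Matrix.kroneckerMap_apply] at h ⊢
    rw [Finset.sum_eq_single b, Finset.sum_eq_single a]
    · simpa using h
    · intro c _ hc
      simp [Matrix.one_apply_ne (Ne.symm hc)]
    · intro h; exact absurd (Finset.mem_univ _) h
    · intro c _ hc
      simp [Matrix.one_apply_ne hc]
    · intro h; exact absurd (Finset.mem_univ _) h

end models

theorem stmt_BRAUER : Stmt_BRAUER.{u} := by
  intro F L A B ι κ _ _ _ _ _ _ _ _ _ _ _ _ _ _ _ _ _ M M' r hM hM' hB
  obtain ⟨mA⟩ := hM
  obtain ⟨mB⟩ := hM'
  obtain ⟨k, l, hk, hl, ⟨e⟩⟩ := hB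
  have : Nonempty (Fin k) := ⟨⟨0, Nat.pos_of_ne_zero hk⟩⟩
  have h1 : Model F L (Matrix (Fin k) (Fin k) (⨂[F] _ : Fin r, A)) ((M.tpow r).amp k) :=
    (mA.tpow r).amp k
  have h2 : Model F L (Matrix (Fin k) (Fin k) (⨂[F] _ : Fin r, A)) (M'.amp l) :=
    (mB.amp l).ofEquiv e
  have h3 := (stmt_CMP stmt_ISOCOH F L (Matrix (Fin k) (Fin k) (⨂[F] _ : Fin r, A)) _ _
    ((M.tpow r).amp k) (M'.amp l) ⟨h1⟩ ⟨h2⟩).2
  refine Cohom.trans (Cohom.of_eq fun g h => ?_) h3
  show M.a g h ^ (r : ℤ) = M.a g h ^ r
  exact zpow_natCast _ _

end Pool.Agent.MP12f267
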