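import Mathlib
import Pool.Agent.Work.MP_12f267_ag.Interface

/-! Block NIL: transitive `G`-sets of nilpotent groups have good towers. -/

open TensorProduct

namespace Pool.Agent.MP12f267

universe u

namespace Tow

section Fibres

variable {G X Y : Type u} [Group G] [MulAction G X] [MulAction G Y]

/-- The stabilizer acts transitively on the fibres of a transitive `G`-set. -/
lemma fib_pretransitive [MulAction.IsPretransitive G X] (π : X →[G] Y) (y : Y) :
    MulAction.IsPretransitive (MulAction.stabilizer G y) (Fib π y) := by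
  constructor
  rintro ⟨x, hx⟩ ⟨x', hx'⟩
  obtain ⟨g, hg⟩ := MulAction.exists_smul_eq G x x'
  refine ⟨⟨g, ?_⟩, Subtype.ext hg⟩
  rw [MulAction.mem_stabilizer_iff]
  rw [← hx, ← map_smul, hg, hx', hx]

lemma fib_nonempty [MulAction.IsPretransitive G Y] [Nonempty X] (π : X →[G] Y) (y : Y) :
    Nonempty (Fib π y) := by
  obtain ⟨x⟩ := (inferInstance : Nonempty X)
  obtain ⟨g, hg⟩ := MulAction.exists_smul_eq G (π x) y
  exact ⟨⟨g • x, by rw [map_smul, hg]⟩⟩

/-- All fibres have the same size. -/
lemma card_fib [MulAction.IsPretransitive G X] [MulAction.IsPretransitive G Y] [Nonempty X]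
    (π : X →[G] Y) (y : Y) : Nat.card (Fib π y) * Nat.card Y = Nat.card X := by
  obtain ⟨x'⟩ := fib_nonempty π y
  have := fib_pretransitive π y
  set x := x'.1 with hxx
  have hx : π x = y := x'.2
  have h1 : MulAction.stabilizer G x ≤ MulAction.stabilizer G y := by
    intro g hg
    rw [MulAction.mem_stabilizer_iff] at hg ⊢
    rw [← hx, ← map_smul, hg]
  have h2 := MulAction.index_stabilizer_of_transitive G x
  have h3 := MulAction.index_stabilizer_of_transitive G y
  have h4 := MulAction.index_stabilizer_of_transitive (MulAction.stabilizer G y) x'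
  have h5 : MulAction.stabilizer (MulAction.stabilizer G y) x' =
      (MulAction.stabilizer G x).subgroupOf (MulAction.stabilizer G y) := by
    ext g
    rw [MulAction.mem_stabilizer_iff, Subgroup.mem_subgroupOf, MulAction.mem_stabilizer_iff]
    constructor
    · intro h
      exact congrArg Subtype.val h
    · intro h
      exact Subtype.ext h
  rw [← h2, ← h3, ← h4, h5]
  exact Subgroup.relIndex_mul_index h1

end Fibres

lemma nil_aux (r : ℕ) : ∀ (n : ℕ) (G X : Type u) [Group G] [Finite G] [Group.IsNilpotent G]
    [MulAction G X] [MulAction.IsPretransitive G X] [Finite X] [Nonempty X], Nat.card X = n →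
    r.Coprime (Nat.card X) → HasTower r G X := by
  intro n
  induction n using Nat.strong_induction_on with
  | _ n ih =>
  intro G X _ _ _ _ _ _ _ hn hr
  by_cases hX : Subsingleton X
  · exact HasTower.point G X hX inferInstance
  obtain ⟨x0⟩ := (inferInstance : Nonempty X)
  have hH : MulAction.stabilizer G x0 ≠ ⊤ := by
    intro h
    apply hX
    constructor
    intro a b
    have key : ∀ a : X, a = x0 := by
      intro a
      obtain ⟨g, hg⟩ := MulAction.exists_smul_eq G x0 a
      have : g ∈ MulAction.stabilizer G x0 := by rw [h]; trivial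
      rw [MulAction.mem_stabilizer_iff] at this
      rw [← hg, this]
    rw [key a, key b]
  obtain ⟨N, hN, hHN⟩ := (eq_top_or_exists_le_coatom (MulAction.stabilizer G x0)).resolve_left hH
  have hnorm : N.Normal :=
    Subgroup.NormalizerCondition.normal_of_coatom N Group.normalizerCondition_of_isNilpotent hN
  -- the map
  let f : X → G := fun x => Classical.choose (MulAction.exists_smul_eq G x0 x)
  have hf : ∀ x, f x • x0 = x := fun x => Classical.choose_spec (MulAction.exists_smul_eq G x0 x)
  let π : X →[G] (G ⧸ N) :=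
    { toFun := fun x => (f x : G ⧸ N)
      map_smul' := fun g x => by
        show ((f (g • x) : G) : G ⧸ N) = ((g * f x : G) : G ⧸ N)
        rw [QuotientGroup.eq]
        apply hHN
        rw [MulAction.mem_stabilizer_iff, mul_smul, mul_smul, hf, inv_smul_eq_iff, hf] }
  have hcard := fun y => card_fib π y
  have hY2 : 2 ≤ Nat.card (G ⧸ N) := by
    have h1 : N.index ≠ 1 := fun h => hN.1 (Subgroup.index_eq_one.mp h)
    have h2 : N.index ≠ 0 := Subgroup.index_ne_zero_of_finite
    have h3 : Nat.card (G ⧸ N) = N.index := rfl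
    omega
  obtain ⟨t, ht⟩ : ∃ t : G, t ∉ N := by
    by_contra h
    push Not at h
    exact hN.1 (eq_top_iff.mpr fun x _ => h x)
  have hgen : Subgroup.zpowers (t : G ⧸ N) = ⊤ := by
    have h1 : (Subgroup.zpowers (t : G ⧸ N)).comap (QuotientGroup.mk' N) = ⊤ := by
      apply hN.2
      constructor
      · intro x hx
        rw [Subgroup.mem_comap]
        have : QuotientGroup.mk' N x = 1 := by
          rw [← MonoidHom.mem_ker, QuotientGroup.ker_mk']
          exact hx
        rw [this]
        exact one_mem _
      · intro h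
        apply ht
        apply h
        rw [Subgroup.mem_comap]
        exact Subgroup.mem_zpowers _
    rw [eq_top_iff]
    intro q _
    obtain ⟨a, rfl⟩ := QuotientGroup.mk'_surjective N q
    have : a ∈ (Subgroup.zpowers (t : G ⧸ N)).comap (QuotientGroup.mk' N) := by rw [h1]; trivial
    exact this
  have hX0 : 0 < Nat.card X := Nat.card_pos
  refine HasTower.step G X (G ⧸ N) π ⟨inferInstance, inferInstance, ?_, Or.inr ?_⟩ fun y => ?_
  · exact Nat.Coprime.coprime_dvd_right ⟨_, (by rw [mul_comm]; exact (hcard (1 : G)).symm)⟩ hr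
  · refine ⟨Equiv.mulRight (t : G ⧸ N), fun g y => ?_, fun y y' => ?_⟩
    · obtain ⟨a, rfl⟩ := QuotientGroup.mk'_surjective N y
      show (((g * a : G) : G ⧸ N)) * (t : G ⧸ N) = ((g * (a * t) : G) : G ⧸ N)
      rw [← QuotientGroup.mk_mul, mul_assoc]
    · have : y⁻¹ * y' ∈ Subgroup.zpowers (t : G ⧸ N) := by rw [hgen]; trivial
      obtain ⟨k, hk⟩ := Subgroup.mem_zpowers_iff.mp this
      refine ⟨k, ?_⟩
      rw [Equiv.zpow_mulRight, Equiv.coe_mulRight, hk]
      group
  · have := fib_pretransitive π y
    have := fib_nonempty π y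
    have hfin : Finite (Fib π y) := Subtype.finite
    have h1 := hcard y
    have h2 : 0 < Nat.card (Fib π y) := Nat.card_pos
    refine ih (Nat.card (Fib π y)) ?_ (MulAction.stabilizer G y) (Fib π y) rfl ?_
    · rw [← hn, ← h1]
      nlinarith
    · exact Nat.Coprime.coprime_dvd_right ⟨_, h1.symm⟩ hr

end Tow

theorem stmt_NIL : Stmt_NIL.{u} := by
  intro r G X _ _ _ _ _ _ _ hr
  exact Tow.nil_aux r _ G X rfl hr

end Pool.Agent.MP12f267
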