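import Mathlib
import Pool.Agent.Work.MP_12f267_ag.Basic

/-! Stable subfields of `G`-fields, transcendence degrees of subfields. -/

open TensorProduct Cardinal

namespace Pool.Agent.MP12f267

universe u

section Stable

variable {H L K : Type u} [Group H] [Field L] [Field K] [Algebra L K] [MulSemiringAction H L]
  [MulSemiringAction H K]

/-- The action on a stable subfield. -/
@[reducible] def stabAct (E : IntermediateField L K) (hE : ∀ (g : H) (z : K), z ∈ E → g • z ∈ E) :
    MulSemiringAction H E where
  smul g z := ⟨g • (z : K), hE g z z.2⟩
  one_smul z := Subtype.ext (one_smul H (z : K))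
  mul_smul g h z := Subtype.ext (mul_smul g h (z : K))
  smul_zero g := Subtype.ext (smul_zero g)
  smul_add g x y := Subtype.ext (smul_add g (x : K) (y : K))
  smul_one g := Subtype.ext (smul_one g)
  smul_mul g x y := Subtype.ext (smul_mul' g (x : K) (y : K))

lemma stabAct_coe (E : IntermediateField L K) (hE : ∀ (g : H) (z : K), z ∈ E → g • z ∈ E)
    (g : H) (z : E) :
    ((@HSMul.hSMul H E E (@instHSMul H E (stabAct E hE).toSMul) g z : E) : K) =
      g • (z : K) := rfl

lemma stabAct_gField [GField H L K] (E : IntermediateField L K)
    (hE : ∀ (g : H) (z : K), z ∈ E → g • z ∈ E) :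
    @GField H L E _ _ _ _ _ (stabAct E hE) := by
  letI := stabAct E hE
  constructor
  intro g l
  apply Subtype.ext
  exact GField.smul_algebraMap (K := K) g l

lemma stabAct_gField_top (E : IntermediateField L K)
    (hE : ∀ (g : H) (z : K), z ∈ E → g • z ∈ E) :
    @GField H E K _ _ _ _ (stabAct E hE) _ := by
  letI := stabAct E hE
  constructor
  intro g l
  rfl

/-- To check stability it is enough to check generators. -/
lemma smul_mem_of_adjoin [GField H L K] (g : H) (S : Set K) (E : IntermediateField L K)
    (h : ∀ z ∈ S, g • z ∈ E) : ∀ z ∈ IntermediateField.adjoin L S, g • z ∈ E := by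
  intro z hz
  induction hz using IntermediateField.adjoin_induction with
  | mem x hx => exact h x hx
  | algebraMap x =>
    rw [GField.smul_algebraMap]
    exact E.algebraMap_mem _
  | add x y _ _ hx hy =>
    rw [smul_add]
    exact E.add_mem hx hy
  | inv x _ hx =>
    rw [smul_inv'']
    exact E.inv_mem hx
  | mul x y _ _ hx hy =>
    rw [smul_mul']
    exact E.mul_mem hx hy

end Stable

section Trdeg

variable {L K : Type u} [Field L] [Field K] [Algebra L K]

/-- The subset of a subfield generating it, seen in the subfield. -/
lemma adjoin_in_adjoin (S : Set K) :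
    IntermediateField.adjoin L {z : IntermediateField.adjoin L S | (z : K) ∈ S} = ⊤ := by
  rw [eq_top_iff]
  intro z _
  have key : ∀ w (hw : w ∈ IntermediateField.adjoin L S),
      (⟨w, hw⟩ : IntermediateField.adjoin L S) ∈
        IntermediateField.adjoin L {z : IntermediateField.adjoin L S | (z : K) ∈ S} := by
    intro w hw
    induction hw using IntermediateField.adjoin_induction with
    | mem x hx => exact IntermediateField.subset_adjoin _ _ hx
    | algebraMap x => exact IntermediateField.algebraMap_mem _ x
    | add x y _ _ hx hy => exact IntermediateField.add_mem _ hx hy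
    | inv x _ hx => exact IntermediateField.inv_mem _ hx
    | mul x y _ _ hx hy => exact IntermediateField.mul_mem _ hx hy
  exact key z z.2

/-- A generating family has at least `trdeg` members. -/
lemma trdeg_le_of_adjoin_eq_top {σ : Type u} (s : σ → K)
    (h : IntermediateField.adjoin L (Set.range s) = ⊤) : Algebra.trdeg L K ≤ #σ := by
  have alg : Algebra.IsAlgebraic (Algebra.adjoin L (Set.range s)) K := by
    rw [← IntermediateField.isAlgebraic_adjoin_iff_top, h]
    constructor
    intro x
    exact isAlgebraic_algebraMap (⟨x, IntermediateField.mem_top⟩ : (⊤ : IntermediateField L K))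
  exact (Algebra.IsAlgebraic.trdeg_le_cardinalMk L (Set.range s)).trans mk_range_le

/-- A generating family with exactly `trdeg` members is algebraically independent. -/
lemma algInd_of_adjoin_eq_top {σ : Type u} [Finite σ] (s : σ → K)
    (h : IntermediateField.adjoin L (Set.range s) = ⊤) (h' : #σ ≤ Algebra.trdeg L K) :
    AlgebraicIndependent L s := by
  have alg : Algebra.IsAlgebraic (Algebra.adjoin L (Set.range s)) K := by
    rw [← IntermediateField.isAlgebraic_adjoin_iff_top, h]
    constructor
    intro x
    exact isAlgebraic_algebraMap (⟨x, IntermediateField.mem_top⟩ : (⊤ : IntermediateField L K))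
  exact (Algebra.IsAlgebraic.isTranscendenceBasis_of_le_trdeg_of_finite (R := L) s h').1

/-- The transcendence degree of the field generated by an algebraically independent family. -/
lemma trdeg_adjoin_of_algInd {σ : Type u} (s : σ → K) (h : AlgebraicIndependent L s) :
    Algebra.trdeg L (IntermediateField.adjoin L (Set.range s)) = #σ := by
  let E := IntermediateField.adjoin L (Set.range s)
  let s' : σ → E := fun i => ⟨s i, IntermediateField.subset_adjoin _ _ ⟨i, rfl⟩⟩
  have hs' : AlgebraicIndependent L s' := AlgebraicIndependent.of_comp E.val h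
  refine le_antisymm ?_ hs'.cardinalMk_le_trdeg
  apply trdeg_le_of_adjoin_eq_top s'
  rw [← adjoin_in_adjoin (L := L) (Set.range s)]
  congr 1
  ext z
  constructor
  · rintro ⟨i, rfl⟩
    exact ⟨i, rfl⟩
  · rintro ⟨i, hi⟩
    exact ⟨i, Subtype.ext hi⟩

end Trdeg

end Pool.Agent.MP12f267
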