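import Mathlib
import Pool.Agent.Work.MP_12f267_ag.ISO
import Pool.Agent.Work.MP_12f267_ag.DIM
import Pool.Agent.Work.MP_12f267_ag.Sub

/-! Block SUM (helper45): enlarging the dimension. -/

namespace Pool.Agent.MP12f267

universe u

section scal

variable {G F : Type u} [Group G] [Field F] [MulSemiringAction G F]

/-- The scalar module `λ_g • 1`. -/
def scalMod (ι : Type u) [Fintype ι] [DecidableEq ι] (l : G → F) (a : G → G → F)
    (hl : ∀ g, l g ≠ 0) (ha : ∀ g h, a g h ≠ 0)
    (h : ∀ g k, l g * g • l k = a g k * l (g * k)) : PMod G F ι where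
  P g := l g • (1 : Matrix ι ι F)
  a := a
  a_ne := ha
  det_ne g := by
    rw [Matrix.det_smul, Matrix.det_one, mul_one]
    exact pow_ne_zero _ (hl g)
  mul g k := by
    rw [map_smul_smul_mat, map_smul_one_mat, Matrix.smul_mul, Matrix.one_mul, smul_smul, smul_smul,
      h]

variable {L : Type u} [Field L] [Algebra L F] [MulSemiringAction G L] [GField G L F]

lemma smul_mulVec_map {ι κ : Type u} [Fintype κ] (g : G) (A : Matrix ι κ L) (x : κ → F) :
    (fun i => g • ((A.map (algebraMap L F)).mulVec x) i) =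
      ((A.map (fun z => g • z)).map (algebraMap L F)).mulVec (fun i => g • x i) := by
  funext i
  simp only [Matrix.mulVec, dotProduct, Matrix.map_apply]
  rw [Finset.smul_sum]
  refine Finset.sum_congr rfl (fun l _ => ?_)
  rw [smul_mul', GField.smul_algebraMap]

lemma smul_mulVec' {ι κ : Type u} [Fintype κ] (g : G) (A : Matrix ι κ F) (x : κ → F) :
    (fun i => g • (A.mulVec x) i) =
      (A.map (fun z => g • z)).mulVec (fun i => g • x i) := by
  funext i
  simp only [Matrix.mulVec, dotProduct, Matrix.map_apply]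
  rw [Finset.smul_sum]
  refine Finset.sum_congr rfl (fun l _ => ?_)
  rw [smul_mul']

/-- The scalars by which the group acts on a line form a 1-cochain with boundary `a`. -/
lemma PMod.pt_cocycle {ι : Type u} [Fintype ι] [DecidableEq ι] (M : PMod G L ι) (x : ι → F)
    (hx : x ≠ 0) (l : G → F)
    (hl : ∀ g, ((M.P g).map (algebraMap L F)).mulVec (fun i => g • x i) = l g • x) (g k : G) :
    l g * g • l k = algebraMap L F (M.a g k) * l (g * k) := by
  obtain ⟨j, hj⟩ := Function.ne_iff.mp hx
  simp only [Pi.zero_apply] at hj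
  have e1 : ((M.P g).map (algebraMap L F)).mulVec
      (fun i => g • (((M.P k).map (algebraMap L F)).mulVec (fun i => k • x i)) i) =
      (l g * g • l k) • x := by
    rw [hl k]
    have : (fun i => g • (l k • x) i) = (g • l k) • (fun i => g • x i) := by
      funext i
      simp only [Pi.smul_apply, smul_eq_mul, smul_mul']
    rw [this, Matrix.mulVec_smul, hl g, smul_smul, mul_comm]
  have e2 : ((M.P g).map (algebraMap L F)).mulVec
      (fun i => g • (((M.P k).map (algebraMap L F)).mulVec (fun i => k • x i)) i) =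
      (algebraMap L F (M.a g k) * l (g * k)) • x := by
    rw [smul_mulVec_map, Matrix.mulVec_mulVec, ← Matrix.map_mul, M.mul]
    have e3 : (M.a g k • M.P (g * k)).map (algebraMap L F) =
        algebraMap L F (M.a g k) • (M.P (g * k)).map (algebraMap L F) := by
      ext i j
      simp only [Matrix.map_apply, Matrix.smul_apply, smul_eq_mul, map_mul]
    have e4 : (fun i => g • k • x i) = (fun i => (g * k) • x i) := by
      funext i
      rw [mul_smul]
    rw [e3, e4, Matrix.smul_mulVec, hl (g * k), smul_smul]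
  have e3 := e1.symm.trans e2
  have e4 := congrFun e3 j
  simp only [Pi.smul_apply, smul_eq_mul] at e4
  exact mul_right_cancel₀ hj e4

/-- Trivialisation: over a field with a point of `M`, a module with the same cocycle becomes
scalar. -/
lemma exists_triv [Finite G] [FaithfulSMul G F] (hinf : InfFix G F) {κ τ : Type u} [Fintype κ]
    [DecidableEq κ] [Fintype τ] [DecidableEq τ] (hcard : Fintype.card τ = Fintype.card κ)
    (E : PMod G L κ) (l : G → F) (hl : ∀ g, l g ≠ 0)
    (h : ∀ g k, l g * g • l k = algebraMap L F (E.a g k) * l (g * k)) :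
    ∃ (S : Matrix κ τ F) (T : Matrix τ κ F), S * T = 1 ∧ T * S = 1 ∧
      ∀ g, (E.P g).map (algebraMap L F) * S.map (fun x => g • x) = l g • S := by
  let M₁ : PMod G F τ := scalMod τ l (fun g k => algebraMap L F (E.a g k)) hl
    (fun g k => by simpa using E.a_ne g k) h
  let M₂ : PMod G F κ := E.infl (MonoidHom.id G) (algebraMap L F)
    (fun g z => GField.smul_algebraMap g z)
  obtain ⟨S, T, hST, hTS, hP⟩ := stmt_UNIQ G F τ κ M₁ M₂ (fun _ => 1) hinf hcard
    (fun _ => one_ne_zero) (fun g k => by
      show algebraMap L F (E.a g k) * 1 = algebraMap L F (E.a g k) * (1 * g • 1)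
      rw [smul_one, mul_one, mul_one, mul_one])
  refine ⟨S, T, hST, hTS, fun g => ?_⟩
  have h1 := hP g
  rw [one_smul] at h1
  have h2 : S * M₁.P g = l g • S := by
    show S * (l g • (1 : Matrix τ τ F)) = l g • S
    rw [Matrix.mul_smul, Matrix.mul_one]
  rw [← h2, ← h1]
  rfl

end scal

section main

variable {G L : Type u} [Group G] [Field L] [MulSemiringAction G L]

lemma PMod.IsPt.smul {ι : Type u} [Fintype ι] [DecidableEq ι] {M : PMod G L ι} {K : Type u}
    [Field K] [Algebra L K] [MulSemiringAction G K] {x : ι → K} (hx : M.IsPt K x) {c : K}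
    (hc : c ≠ 0) : M.IsPt K (c • x) := by
  obtain ⟨h0, h⟩ := hx
  refine ⟨smul_ne_zero hc h0, fun g => ?_⟩
  obtain ⟨μ, hμ, e⟩ := h g
  refine ⟨(g • c) * μ * c⁻¹, mul_ne_zero (mul_ne_zero (smul_ne_zero_field g hc) hμ)
    (inv_ne_zero hc), ?_⟩
  have : (fun i => g • (c • x) i) = (g • c) • (fun i => g • x i) := by
    funext i
    simp only [Pi.smul_apply, smul_eq_mul, smul_mul']
  rw [this, Matrix.mulVec_smul, e, smul_smul, smul_smul]
  congr 1
  field_simp

lemma PMod.Gen.smul {ι : Type u} [Fintype ι] [DecidableEq ι] {M : PMod G L ι} {K : Type u}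
    [Field K] [Algebra L K] [MulSemiringAction G K] {x : ι → K} (hx : M.Gen K x) {c : K}
    (hc : c ≠ 0) : M.Gen K (c • x) := by
  obtain ⟨h1, h2, h3⟩ := hx
  exact ⟨h1.smul hc, by rw [projField_smul _ _ hc, h2], h3⟩

/-- The field of ratios of a point is stable. -/
lemma PMod.projField_stable {ι : Type u} [Fintype ι] [DecidableEq ι] (M : PMod G L ι) {K : Type u}
    [Field K] [Algebra L K] [MulSemiringAction G K] [GField G L K] (x : ι → K)
    (h : ∀ g : G, ∃ μ : K, μ ≠ 0 ∧
      ((M.P g).map (algebraMap L K)).mulVec (fun i => g • x i) = μ • x) (g : G) (z : K)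
    (hz : z ∈ projField L x) : g • z ∈ projField L x := by
  apply smul_mem_of_adjoin g _ _ ?_ z hz
  rintro w ⟨i, j, rfl⟩
  obtain ⟨μ, hμ, e⟩ := h g
  have e1 : (fun i => g • x i) = μ • (((M.P g)⁻¹).map (algebraMap L K)).mulVec x := by
    have h1 : ((M.P g)⁻¹).map (algebraMap L K) * (M.P g).map (algebraMap L K) = 1 := by
      rw [← Matrix.map_mul, M.P_inv_mul]
      exact Matrix.map_one _ (map_zero _) (map_one _)
    have h2 := congrArg (fun v => (((M.P g)⁻¹).map (algebraMap L K)).mulVec v) e
    simp only [Matrix.mulVec_mulVec, h1, Matrix.one_mulVec, Matrix.mulVec_smul] at h2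
    exact h2
  have e2 : g • (x i / x j) = (μ • (((M.P g)⁻¹).map (algebraMap L K)).mulVec x) i /
      (μ • (((M.P g)⁻¹).map (algebraMap L K)).mulVec x) j := by
    rw [← e1, smul_div_field]
  rw [e2]
  apply projField_mulVec_le (L := L) (M.P g)⁻¹ x
  have e3 := projField_smul (L := L) ((((M.P g)⁻¹).map (algebraMap L K)).mulVec x) μ hμ
  rw [← e3]
  exact div_mem_projField _ i j

/-- The ratios of a family with a coordinate equal to one generate. -/
lemma mem_projField_of_one {K : Type u} [Field K] [Algebra L K] {ι : Type u} (x : ι → K) (j : ι)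
    (hj : x j = 1) (i : ι) : x i ∈ projField L x := by
  have := div_mem_projField (L := L) x i j
  rwa [hj, div_one] at this

/-- Bounding the transcendence degree by the number of nonzero ratios. -/
lemma trdeg_le_card_of_gen {K : Type u} [Field K] [Algebra L K] {X : Type u} [Fintype X]
    (v : X → K) (y : X) (hy : v y ≠ 0) (s : Finset X) (hs : ∀ x, x ∉ s → x = y ∨ v x = 0)
    (hgen : projField L v = ⊤) : Algebra.trdeg L K ≤ (s.card : Cardinal) := by
  classical
  have hadj : IntermediateField.adjoin L ((s.image fun x => v x / v y : Finset K) : Set K) = ⊤ := by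
    rw [eq_top_iff, ← hgen]
    apply projField_le v _ y hy
    intro x
    by_cases h1 : x ∈ s
    · apply IntermediateField.subset_adjoin
      rw [Finset.coe_image]
      exact ⟨x, h1, rfl⟩
    · rcases hs x h1 with h2 | h2
      · rw [h2, div_self hy]; exact one_mem _
      · rw [h2, zero_div]; exact zero_mem _
  refine (trdeg_le_mk_of_adjoin_eq_top (L := L) _ hadj).trans ?_
  have h := Cardinal.mk_coe_finset (s := s.image fun x => v x / v y)
  have h2 : (((s.image fun x => v x / v y).card : ℕ) : Cardinal.{u}) ≤ (s.card : Cardinal.{u}) := by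
    exact_mod_cast Finset.card_image_le
  exact le_trans (le_of_eq h) h2

variable {K : Type u} [Field K] [Algebra L K] [MulSemiringAction G K] [GField G L K]

omit [MulSemiringAction G K] [GField G L K] in
lemma sum_mulVec {ι ι₂ : Type u} [Fintype ι] [DecidableEq ι] [Fintype ι₂] [DecidableEq ι₂]
    (M : PMod G L ι) (E : PMod G L ι₂) (hE : ∀ g h, E.a g h = M.a g h) (g : G)
    (w w' : ι ⊕ ι₂ → K) :
    (((M.sum E hE).P g).map (algebraMap L K)).mulVec w = w' ↔
      (((M.P g).map (algebraMap L K)).mulVec (fun i => w (Sum.inl i)) =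
        fun i => w' (Sum.inl i)) ∧
      (((E.P g).map (algebraMap L K)).mulVec (fun i => w (Sum.inr i)) =
        fun i => w' (Sum.inr i)) := by
  have e : ((M.sum E hE).P g).map (algebraMap L K) =
      Matrix.fromBlocks ((M.P g).map (algebraMap L K)) 0 0 ((E.P g).map (algebraMap L K)) := by
    show (Matrix.fromBlocks (M.P g) 0 0 (E.P g)).map (algebraMap L K) = _
    rw [Matrix.fromBlocks_map, Matrix.map_zero _ (map_zero _), Matrix.map_zero _ (map_zero _)]
  rw [e, Matrix.fromBlocks_mulVec, Matrix.zero_mulVec, Matrix.zero_mulVec, add_zero, zero_add]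
  constructor
  · intro h
    constructor
    · funext i
      exact congrFun h (Sum.inl i)
    · funext i
      exact congrFun h (Sum.inr i)
  · rintro ⟨h1, h2⟩
    funext i
    cases i with
    | inl i => exact congrFun h1 i
    | inr i => exact congrFun h2 i

lemma coe_mulVec (F : IntermediateField L K) {ι κ : Type u} [Fintype κ] (A : Matrix ι κ L)
    (x : κ → F) (i : ι) :
    (((A.map (algebraMap L F)).mulVec x i : F) : K) =
      (A.map (algebraMap L K)).mulVec (fun k => (x k : K)) i := by
  have := RingHom.map_mulVec (algebraMap F K) (A.map (algebraMap L F)) x i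
  have e : (A.map (algebraMap L F)).map (algebraMap F K) = A.map (algebraMap L K) := by
    ext i j
    rfl
  rw [e] at this
  exact this

theorem sum_birTo [Finite G] [FaithfulSMul G L] (hinf : InfFix G L)
    {ι κ ι₂ κ₂ : Type u} [Fintype ι] [DecidableEq ι] [Fintype κ] [DecidableEq κ]
    [Fintype ι₂] [DecidableEq ι₂] [Fintype κ₂] [DecidableEq κ₂] [Nonempty ι]
    (M : PMod G L ι) (M' : PMod G L κ) (E : PMod G L ι₂) (E' : PMod G L κ₂)
    (hE : ∀ g h, E.a g h = M.a g h) (hE' : ∀ g h, E'.a g h = M'.a g h)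
    (hc : Fintype.card ι = Fintype.card κ) (hc₂ : Fintype.card ι₂ = Fintype.card κ₂)
    (hbir : M.BirTo M') : (M.sum E hE).BirTo (M'.sum E' hE') := by
  intro K _ _ _ _ x hx
  -- a nonzero coordinate in the first block
  have hj : ∃ j : ι, x (Sum.inl j) ≠ 0 := by
    by_contra hcon
    push Not at hcon
    obtain ⟨k, hk⟩ := Function.ne_iff.mp hx.1.1
    simp only [Pi.zero_apply] at hk
    rcases k with k | k
    · exact hk (hcon k)
    have h1 := trdeg_le_card_of_gen (L := L) x (Sum.inr k) hk
      ((Finset.univ.erase k).image Sum.inr) (by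
        intro z hz
        rcases z with z | z
        · exact Or.inr (hcon z)
        · left
          by_contra hne
          apply hz
          rw [Finset.mem_image]
          refine ⟨z, ?_, rfl⟩
          rw [Finset.mem_erase]
          exact ⟨fun h => hne (by rw [h]), Finset.mem_univ _⟩) hx.2.1
    have h2 : ((Finset.univ.erase k).image (Sum.inr : ι₂ → ι ⊕ ι₂)).card + 1 =
        Fintype.card ι₂ := by
      rw [Finset.card_image_of_injective _ Sum.inr_injective,
        Finset.card_erase_add_one (Finset.mem_univ k), Finset.card_univ]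
    have h3 := hx.2.2
    have h4 : (Fintype.card (ι ⊕ ι₂) : Cardinal) ≤ (Fintype.card ι₂ : ℕ) := by
      rw [← h3, ← h2]
      push_cast
      gcongr
    have h5 : Fintype.card (ι ⊕ ι₂) ≤ Fintype.card ι₂ := by exact_mod_cast h4
    rw [Fintype.card_sum] at h5
    have := Fintype.card_pos (α := ι)
    omega
  obtain ⟨j, hj⟩ := hj
  obtain ⟨w, hw, hwj⟩ : ∃ w : ι ⊕ ι₂ → K, (M.sum E hE).Gen K w ∧ w (Sum.inl j) = 1 :=
    ⟨(x (Sum.inl j))⁻¹ • x, hx.smul (inv_ne_zero hj), by
      simp only [Pi.smul_apply, smul_eq_mul]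
      exact inv_mul_cancel₀ hj⟩
  clear hj hx x
  choose μ hμ0 hμ using hw.1.2
  have hblock := fun g => (sum_mulVec M E hE g _ _).mp (hμ g)
  let w1 : ι → K := fun i => w (Sum.inl i)
  let w2 : ι₂ → K := fun i => w (Sum.inr i)
  have h1 : ∀ g, ((M.P g).map (algebraMap L K)).mulVec (fun i => g • w1 i) = μ g • w1 :=
    fun g => (hblock g).1
  have h2 : ∀ g, ((E.P g).map (algebraMap L K)).mulVec (fun i => g • w2 i) = μ g • w2 :=
    fun g => (hblock g).2
  have hw1j : w1 j = 1 := hwj
  -- the field of the first block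
  let F : IntermediateField L K := projField L w1
  have hF : ∀ (g : G) (z : K), z ∈ F → g • z ∈ F :=
    fun g z hz => M.projField_stable w1 (fun g => ⟨μ g, hμ0 g, h1 g⟩) g z hz
  let actF : MulSemiringAction G F := stabAct F hF
  have : GField G L F := stabAct_gField F hF
  have : GField G F K := stabAct_gField_top F hF
  have hcoe : ∀ (g : G) (z : F), ((g • z : F) : K) = g • (z : K) := fun g z => rfl
  let w1' : ι → F := fun i => ⟨w1 i, mem_projField_of_one w1 j hw1j i⟩
  have hw1'j : w1' j = 1 := Subtype.ext hw1j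
  have hμF : ∀ g, μ g ∈ F := by
    intro g
    have e := congrFun (h1 g) j
    have e2 : (μ g • w1) j = μ g := by
      simp only [Pi.smul_apply, smul_eq_mul]
      rw [hw1j, mul_one]
    rw [e2] at e
    rw [← e]
    simp only [Matrix.mulVec, dotProduct, Matrix.map_apply]
    exact sum_mem (fun i _ => F.mul_mem (F.algebraMap_mem _) (hF g _ (w1' i).2))
  let l : G → F := fun g => ⟨μ g, hμF g⟩
  have hl0 : ∀ g, l g ≠ 0 := fun g h => hμ0 g (congrArg Subtype.val h)
  have hpt : ∀ g, ((M.P g).map (algebraMap L F)).mulVec (fun i => g • w1' i) = l g • w1' := by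
    intro g
    funext i
    apply Subtype.ext
    rw [coe_mulVec]
    exact congrFun (h1 g) i
  have hw1'0 : w1' ≠ 0 := by
    intro h
    have := congrFun h j
    rw [hw1'j] at this
    exact one_ne_zero this
  have hgenF : projField L w1' = ⊤ := by
    have e := adjoin_in_adjoin (L := L) {z : K | ∃ i j, z = w1 i / w1 j}
    rw [eq_top_iff]
    intro z _
    have hz : z ∈ IntermediateField.adjoin L
        {z : IntermediateField.adjoin L {z : K | ∃ i j, z = w1 i / w1 j} |
          (z : K) ∈ {z : K | ∃ i j, z = w1 i / w1 j}} := by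
      rw [e]; trivial
    refine IntermediateField.adjoin.mono L _ _ ?_ hz
    rintro y ⟨i, k, hy⟩
    exact ⟨i, k, Subtype.ext hy⟩
  -- transcendence degrees
  have ht1 : Algebra.trdeg L F ≤ ((Finset.univ.erase j).card : ℕ) := by
    classical
    refine trdeg_le_card_of_gen (L := L) w1' j (by rw [hw1'j]; exact one_ne_zero) _ ?_ hgenF
    intro z hz
    left
    by_contra hne
    exact hz (Finset.mem_erase.mpr ⟨hne, Finset.mem_univ _⟩)
  have ht2 : Algebra.trdeg F K ≤ (Fintype.card ι₂ : ℕ) := by
    have : IntermediateField.adjoin F (Set.range w2) = ⊤ := by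
      have hle : projField L w ≤ (IntermediateField.adjoin F (Set.range w2)).restrictScalars L := by
        refine projField_le w _ (Sum.inl j) (by rw [hwj]; exact one_ne_zero) ?_
        intro i
        rw [hwj, div_one, IntermediateField.mem_restrictScalars]
        rcases i with i | i
        · exact IntermediateField.algebraMap_mem _ (w1' i)
        · exact IntermediateField.subset_adjoin _ _ ⟨i, rfl⟩
      rw [hw.2.1] at hle
      rw [eq_top_iff]
      intro z _
      exact hle (by trivial)
    have h3 := trdeg_le_of_adjoin_eq_top (L := F) w2 this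
    rwa [Cardinal.mk_fintype] at h3
  have ht : Algebra.trdeg L F + Algebra.trdeg F K = Algebra.trdeg L K :=
    trdeg_add_eq L F (A := K)
  have htF : Algebra.trdeg L F + 1 = (Fintype.card ι : Cardinal) := by
    obtain ⟨a, ha⟩ := Cardinal.lt_aleph0.mp (lt_of_le_of_lt ht1 (Cardinal.natCast_lt_aleph0))
    obtain ⟨b, hb⟩ := Cardinal.lt_aleph0.mp (lt_of_le_of_lt ht2 (Cardinal.natCast_lt_aleph0))
    have h3 := hw.2.2
    rw [ha] at ht1 ht ⊢
    rw [hb] at ht2 ht
    rw [← ht, Fintype.card_sum] at h3
    have h4 : a + b + 1 = Fintype.card ι + Fintype.card ι₂ := by exact_mod_cast h3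
    have h5 : a ≤ (Finset.univ.erase j).card := by exact_mod_cast ht1
    have h6 : b ≤ Fintype.card ι₂ := by exact_mod_cast ht2
    have h7 : (Finset.univ.erase j).card + 1 = Fintype.card ι := by
      rw [Finset.card_erase_add_one (Finset.mem_univ j), Finset.card_univ]
    have h8 : a + 1 = Fintype.card ι := by omega
    exact_mod_cast h8
  -- the generic point of `M'`
  obtain ⟨y', hy'⟩ := hbir F w1' ⟨⟨hw1'0, fun g => ⟨l g, hl0 g, hpt g⟩⟩, hgenF, htF⟩
  obtain ⟨j', hj'⟩ := Function.ne_iff.mp hy'.1.1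
  simp only [Pi.zero_apply] at hj'
  obtain ⟨y1, hy1, hy1j⟩ : ∃ y1 : κ → F, M'.Gen F y1 ∧ y1 j' = 1 :=
    ⟨(y' j')⁻¹ • y', hy'.smul (inv_ne_zero hj'), by
      simp only [Pi.smul_apply, smul_eq_mul]
      exact inv_mul_cancel₀ hj'⟩
  clear hj' hy' y'
  choose l' hl'0 hl' using hy1.1.2
  have hinfF : InfFix G F := InfFix.map (K := F) hinf
  have : FaithfulSMul G F := faithful_of_gField G L F
  obtain ⟨S, T, hST, hTS, hS⟩ := exists_triv hinfF (τ := ι₂) rfl E l hl0 (fun g k => by
    rw [hE]
    exact M.pt_cocycle w1' hw1'0 l hpt g k)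
  obtain ⟨S', T', hST', hTS', hS'⟩ := exists_triv hinfF (τ := ι₂) hc₂ E' l' hl'0 (fun g k => by
    rw [hE']
    exact M'.pt_cocycle y1 hy1.1.1 l' hl' g k)
  -- coercions of matrices
  let φ := algebraMap F K
  have hmul : ∀ {α β γ : Type u} [Fintype β] (A : Matrix α β F) (B : Matrix β γ F),
      (A * B).map φ = A.map φ * B.map φ := fun A B => Matrix.map_mul
  have hone : ∀ {α : Type u} [DecidableEq α], (1 : Matrix α α F).map φ = 1 :=
    Matrix.map_one _ (map_zero _) (map_one _)
  have hgm : ∀ {α β : Type u} (g : G) (A : Matrix α β F),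
      (A.map φ).map (fun z => g • z) = (A.map (fun z => g • z)).map φ := by
    intro α β g A
    ext i k
    rfl
  have hact : ∀ {α β : Type u} [Fintype β] (g : G) (A : Matrix α β F) (v : β → K),
      (fun i => g • ((A.map φ).mulVec v) i) =
        ((A.map (fun z => g • z)).map φ).mulVec (fun i => g • v i) := by
    intro α β _ g A v
    rw [smul_mulVec', hgm]
  have hLF : ∀ {α β : Type u} (A : Matrix α β L),
      A.map (algebraMap L K) = (A.map (algebraMap L F)).map φ := by
    intro α β A
    ext i k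
    rfl
  let u : ι₂ → K := (T.map φ).mulVec w2
  have hSu : (S.map φ).mulVec u = w2 := by
    show (S.map φ).mulVec ((T.map φ).mulVec w2) = w2
    rw [Matrix.mulVec_mulVec, ← hmul, hST, hone, Matrix.one_mulVec]
  have hScoe : ∀ g, (E.P g).map (algebraMap L K) * (S.map (fun z => g • z)).map φ =
      μ g • S.map φ := by
    intro g
    rw [hLF, ← hmul, hS g]
    ext i k
    rfl
  have hS'coe : ∀ g, (E'.P g).map (algebraMap L K) * (S'.map (fun z => g • z)).map φ =
      (l' g : K) • S'.map φ := by
    intro g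
    rw [hLF, ← hmul, hS' g]
    ext i k
    rfl
  have hu : ∀ g : G, (fun i => g • u i) = u := by
    intro g
    have e1 := h2 g
    rw [← hSu, hact, Matrix.mulVec_mulVec, hScoe, Matrix.smul_mulVec] at e1
    have e2 := smul_right_injective (ι₂ → K) (hμ0 g) e1
    have e3 := congrArg (fun v => (T.map φ).mulVec v) e2
    simp only [Matrix.mulVec_mulVec, ← hmul, hTS, hone, Matrix.one_mulVec] at e3
    exact e3
  let y2 : κ₂ → K := (S'.map φ).mulVec u
  have hTy : (T'.map φ).mulVec y2 = u := by
    show (T'.map φ).mulVec ((S'.map φ).mulVec u) = u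
    rw [Matrix.mulVec_mulVec, ← hmul, hTS', hone, Matrix.one_mulVec]
  let y : κ ⊕ κ₂ → K := Sum.elim (fun i => (y1 i : K)) y2
  have hyj : y (Sum.inl j') = 1 := congrArg Subtype.val hy1j
  refine ⟨y, ⟨?_, fun g => ⟨l' g, fun h => hl'0 g (Subtype.ext h), ?_⟩⟩, ?_, ?_⟩
  · intro h
    have := congrFun h (Sum.inl j')
    rw [hyj] at this
    exact one_ne_zero this
  · rw [sum_mulVec]
    constructor
    · funext i
      have e := congrArg Subtype.val (congrFun (hl' g) i)
      rw [coe_mulVec] at e
      exact e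
    · show ((E'.P g).map (algebraMap L K)).mulVec (fun i => g • ((S'.map φ).mulVec u) i) =
        (l' g : K) • y2
      rw [hact, Matrix.mulVec_mulVec, hS'coe, hu g, Matrix.smul_mulVec]
  · let P := projField L y
    have hFP : ∀ z : F, (z : K) ∈ P := by
      intro z
      have hle : projField L y1 ≤ P.comap F.val := by
        refine projField_le y1 _ j' (by rw [hy1j]; exact one_ne_zero) ?_
        intro i
        show ((y1 i / y1 j' : F) : K) ∈ P
        exact div_mem_projField y (Sum.inl i) (Sum.inl j')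
      rw [hy1.2.1] at hle
      exact hle (show z ∈ (⊤ : IntermediateField L F) by trivial)
    have hmv : ∀ {α β : Type u} [Fintype β] (A : Matrix α β F) (v : β → K), (∀ k, v k ∈ P) →
        ∀ i, (A.map φ).mulVec v i ∈ P := by
      intro α β _ A v hv i
      simp only [Matrix.mulVec, dotProduct, Matrix.map_apply]
      exact sum_mem (fun k _ => P.mul_mem (hFP _) (hv k))
    have hy2 : ∀ i, y2 i ∈ P := fun i => mem_projField_of_one y (Sum.inl j') hyj (Sum.inr i)
    have huP : ∀ i, u i ∈ P := by
      intro i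
      have := hmv T' y2 hy2 i
      rwa [hTy] at this
    have hw2 : ∀ i, w2 i ∈ P := by
      intro i
      have := hmv S u huP i
      rwa [hSu] at this
    rw [eq_top_iff, ← hw.2.1]
    refine projField_le w _ (Sum.inl j) (by rw [hwj]; exact one_ne_zero) ?_
    intro i
    rw [hwj, div_one]
    rcases i with i | i
    · exact hFP (w1' i)
    · exact hw2 i
  · rw [hw.2.2, Fintype.card_sum, Fintype.card_sum, hc, hc₂]

end main

/-- Isomorphism from cohomologous cocycles and equal dimensions. -/
lemma birTo_of_cohom {G L ι κ : Type u} [Group G] [Finite G] [Field L] [MulSemiringAction G L]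
    [FaithfulSMul G L] [Fintype ι] [DecidableEq ι] [Fintype κ] [DecidableEq κ] (M : PMod G L ι)
    (M' : PMod G L κ) (hinf : InfFix G L) (hc : Fintype.card ι = Fintype.card κ)
    (h : Cohom G L M.a M'.a) : M.BirTo M' := by
  obtain ⟨ν, hν, h⟩ := h
  obtain ⟨S, T, hST, hTS, hP⟩ := stmt_UNIQ G L ι κ M M' ν hinf hc hν h
  exact stmt_ISO G L ι κ M M' ⟨S, T, ν, hST, hTS, hν, hP⟩

/-- A complement of `M` in a module of larger dimension. -/
lemma exists_compl (hSUB : Stmt_SUB.{u}) {G L ι ι' : Type u} [Group G] [Finite G] [Field L]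
    [MulSemiringAction G L] [FaithfulSMul G L] [Fintype ι] [DecidableEq ι] [Fintype ι']
    [DecidableEq ι'] (M : PMod G L ι) (N : PMod G L ι') (hinf : InfFix G L)
    (hle : Fintype.card ι ≤ Fintype.card ι') (h : Cohom G L M.a N.a) :
    ∃ (ι₂ : Type u) (_ : Fintype ι₂) (_ : DecidableEq ι₂) (E : PMod G L ι₂),
      Fintype.card ι₂ = Fintype.card ι' - Fintype.card ι ∧ ∀ g h, E.a g h = M.a g h := by
  have h1 : HasMod G L M.a (Fintype.card ι' - Fintype.card ι + Fintype.card ι) := by
    rw [Nat.sub_add_cancel hle]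
    exact ⟨ι', inferInstance, inferInstance, N, rfl, h.symm⟩
  have h2 : HasMod G L M.a (Fintype.card ι) :=
    ⟨ι, inferInstance, inferInstance, M, rfl, Cohom.refl _⟩
  obtain ⟨ι₂, i1, i2, E₀, hcard, ν, hν, hc⟩ := hSUB G L M.a _ _ hinf M.a_ne h1 h2
  exact ⟨ι₂, i1, i2, E₀.rescale ν M.a hν M.a_ne hc, hcard, fun _ _ => rfl⟩

theorem stmt_SUM (hSUB : Stmt_SUB.{u}) : Stmt_SUM.{u} := by
  intro G L ι κ ι' κ' _ _ _ _ _ _ _ _ _ _ _ _ _ _ M M' N N' hinf hbir hc hc' hle hMN hMN'
  obtain ⟨ι₂, _, _, E, hE, hEa⟩ := exists_compl hSUB M N hinf hle hMN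
  obtain ⟨κ₂, _, _, E', hE', hEa'⟩ := exists_compl hSUB M' N' hinf (by omega) hMN'
  have h1 : N.BirTo (M.sum E hEa) := birTo_of_cohom _ _ hinf
    (by rw [Fintype.card_sum, hE]; omega) hMN.symm
  have h2 : (M'.sum E' hEa').BirTo N' := birTo_of_cohom _ _ hinf
    (by rw [Fintype.card_sum, hE']; omega) hMN'
  have h3 : (M.sum E hEa).BirTo (M'.sum E' hEa') :=
    sum_birTo hinf M M' E E' hEa hEa' hc (by rw [hE, hE', hc, hc']) hbir
  intro K _ _ _ _ x hx
  obtain ⟨y, hy⟩ := h1 K x hx
  obtain ⟨z, hz⟩ := h3 K y hy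
  exact h2 K z hz

end Pool.Agent.MP12f267
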