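import Mathlib
import Pool.Agent.Work.MP_12f267_ag.Asm0
import Pool.Agent.Work.MP_12f267_ag.ORD
import Pool.Agent.Work.MP_12f267_ag.BRAUER
import Pool.Agent.Work.MP_12f267_ag.SUM
import Pool.Agent.Work.MP_12f267_ag.NIL
import Pool.Agent.Work.MP_12f267_ag.TOW

/-! Assembly of Theorems B and C. -/

open TensorProduct

namespace Pool.Agent.MP12f267

universe u

/-- The class of a matrix algebra over `D` is the class of `D`. -/
lemma cohom_of_matrix (hCMP : Stmt_CMP.{u}) (F L A D ι κ : Type u) [Field F] [Field L]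
    [Algebra F L] [FiniteDimensional F L] [IsGalois F L] [Ring A] [Algebra F A]
    [FiniteDimensional F A] [Ring D] [Algebra F D] [FiniteDimensional F D] [Fintype ι]
    [DecidableEq ι] [Fintype κ] [DecidableEq κ] [Nonempty ι] (t : ℕ) (ht : t ≠ 0)
    (e : A ≃ₐ[F] Matrix (Fin t) (Fin t) D)
    (M : PMod (L ≃ₐ[F] L) L ι) (M' : PMod (L ≃ₐ[F] L) L κ)
    (hM : Nonempty (Model F L D M)) (hM' : Nonempty (Model F L A M')) :
    Cohom (L ≃ₐ[F] L) L M.a M'.a := by
  obtain ⟨m⟩ := hM
  have : NeZero t := ⟨ht⟩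
  have h1 : Nonempty (Model F L A (M.amp t)) := ⟨Model.ofEquiv (m.amp t) e⟩
  exact (hCMP F L A _ _ (M.amp t) M' h1 hM').2

/-- Theorem B: towers. -/
def Stmt_THMB2 : Prop :=
  ∀ (F A B D E : Type u) [Field F] [Ring A] [Algebra F A] [Algebra.IsCentral F A] [IsSimpleRing A]
    [FiniteDimensional F A] [Ring B] [Algebra F B] [Algebra.IsCentral F B] [IsSimpleRing B]
    [FiniteDimensional F B] [Ring D] [Algebra F D] [Algebra.IsCentral F D] [IsSimpleRing D]
    [FiniteDimensional F D] [Field E] [Algebra F E] [FiniteDimensional F E]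
    [Algebra.IsSeparable F E] (n d t : ℕ) (_ : E →ₐ[F] D) (_ : A ≃ₐ[F] Matrix (Fin t) (Fin t) D),
    Module.finrank F A = n ^ 2 → Module.finrank F B = n ^ 2 → Module.finrank F D = d ^ 2 →
    Module.finrank F E = d → HasFieldTower F E → SameSubgroup F A B → Birational F A B

theorem core_tower (hEX : Stmt_EX.{u}) (hFIN : Stmt_FIN.{u}) (hSEP : Stmt_SEP.{u})
    (hMODEL : Stmt_MODEL.{u}) (hBR : Stmt_BRAUER.{u}) (hCMP : Stmt_CMP.{u})
    (hTOW : Stmt_TOW.{u}) (hSUM : Stmt_SUM.{u})
    (F A B D : Type u) [Field F] [Infinite F] [Ring A] [Algebra F A] [Algebra.IsCentral F A]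
    [IsSimpleRing A] [FiniteDimensional F A] [Ring B] [Algebra F B] [Algebra.IsCentral F B]
    [IsSimpleRing B] [FiniteDimensional F B] [Ring D] [Algebra F D] [Algebra.IsCentral F D]
    [IsSimpleRing D] [FiniteDimensional F D] (n d t : ℕ) (e : A ≃ₐ[F] Matrix (Fin t) (Fin t) D)
    (hA : Module.finrank F A = n ^ 2) (hB : Module.finrank F B = n ^ 2)
    (hD : Module.finrank F D = d ^ 2) (f : D) (hf : (minpoly F f).Separable)
    (hfd : (minpoly F f).natDegree = d)
    (H : ∀ (L : Type u) [Field L] [Algebra F L] [FiniteDimensional F L] [IsGalois F L] (r : ℕ),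
      ((minpoly F f).map (algebraMap F L)).Splits → r.Coprime d →
      HasTower r (L ≃ₐ[F] L) (Roots F L (minpoly F f)))
    (hAB : SameSubgroup F A B) : Birational F A B := by
  classical
  have hn : 0 < n := deg_pos hA
  have hd : 0 < d := deg_pos hD
  have hntd : n = t * d := by
    have h1 : Module.finrank F A = Module.finrank F (Matrix (Fin t) (Fin t) D) :=
      e.toLinearEquiv.finrank_eq
    rw [hA, Module.finrank_matrix, Fintype.card_fin, hD] at h1
    have h2 : n ^ 2 = (t * d) ^ 2 := by rw [h1]; ring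
    exact Nat.pow_left_injective (n := 2) (by norm_num) h2
  have ht : t ≠ 0 := by
    rintro rfl
    simp at hntd
    omega
  obtain ⟨fA, hfA, hfA'⟩ := hSEP F A n hA
  obtain ⟨fB, hfB, hfB'⟩ := hSEP F B n hB
  obtain ⟨L, _, _, _, _, -, -, hsplit⟩ := stmt_ENLB F F (Fin 3)
    ![minpoly F fA, minpoly F fB, minpoly F f] (fun j => by fin_cases j <;> simp [hfA, hfB, hf])
  have hsA : ((minpoly F fA).map (algebraMap F L)).Splits := hsplit 0
  have hsB : ((minpoly F fB).map (algebraMap F L)).Splits := hsplit 1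
  have hsD : ((minpoly F f).map (algebraMap F L)).Splits := hsplit 2
  have := finite_roots F L (hfA.ne_zero)
  have := finite_roots F L (hfB.ne_zero)
  have := finite_roots F L (hf.ne_zero)
  have := Fintype.ofFinite (Roots F L (minpoly F fA))
  have := Fintype.ofFinite (Roots F L (minpoly F fB))
  have := Fintype.ofFinite (Roots F L (minpoly F f))
  obtain ⟨cA, hmA⟩ := hMODEL F A L n fA hn hA hfA hfA' hsA
  obtain ⟨cB, hmB⟩ := hMODEL F B L n fB hn hB hfB hfB' hsB
  obtain ⟨cD, hmD⟩ := hMODEL F D L d f hd hD hf hfd hsD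
  have hcA := Model.card_eq hmA hA
  have hcB := Model.card_eq hmB hB
  have hcD := Model.card_eq hmD hD
  have : Nonempty (Roots F L (minpoly F fA)) := Fintype.card_pos_iff.mp (by omega)
  have : Nonempty (Roots F L (minpoly F fB)) := Fintype.card_pos_iff.mp (by omega)
  have : Nonempty (Roots F L (minpoly F f)) := Fintype.card_pos_iff.mp (by omega)
  obtain ⟨⟨r, hr⟩, ⟨s, hs⟩⟩ := hAB
  have hab := hBR F L A B _ _ cA.toPMod cB.toPMod r hmA hmB hr
  have hba := hBR F L B A _ _ cB.toPMod cA.toPMod s hmB hmA hs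
  have hper := (stmt_DIMM (L ≃ₐ[F] L) L _ cA).2
  rw [Nat.card_eq_fintype_card, hcA] at hper
  obtain ⟨r', hr', hab'⟩ := stmt_ORD (L ≃ₐ[F] L) L cA.a cB.a r s n cA.a_ne cB.a_ne hn hab hba
    hper
  have hda : Cohom (L ≃ₐ[F] L) L cD.a cA.a :=
    cohom_of_matrix hCMP F L A D _ _ t ht e cD.toPMod cA.toPMod hmD hmA
  have hinf : InfFix (L ≃ₐ[F] L) L := infFix_gal F L
  have hrd : r'.Coprime d := Nat.Coprime.coprime_dvd_right ⟨t, by rw [hntd]; ring⟩ hr'
  have h1 : cD.BirTo (cD.zpow (r' : ℤ)) :=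
    hTOW r' (L ≃ₐ[F] L) _ (H L r' hsD hrd) L cD (cD.zpow (r' : ℤ)) hinf (Cohom.refl _)
  have hle : d ≤ n := by rw [hntd]; exact Nat.le_mul_of_pos_left d (Nat.pos_of_ne_zero ht)
  have h2 : cA.toPMod.BirTo cB.toPMod := by
    apply hSUM (L ≃ₐ[F] L) L _ _ _ _ cD.toPMod (cD.zpow (r' : ℤ)).toPMod cA.toPMod cB.toPMod hinf
      h1.toPMod rfl (by rw [hcA, hcB]) (by rw [hcA, hcD]; exact hle) hda
    exact (hda.zpow (r' : ℤ)).trans hab'
  exact finish hEX hFIN F L A B _ _ _ _ hmA hmB h2

theorem thmB (hEX : Stmt_EX.{u}) (hFIN : Stmt_FIN.{u}) (hSEP : Stmt_SEP.{u})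
    (hMODEL : Stmt_MODEL.{u}) (hBR : Stmt_BRAUER.{u}) (hCMP : Stmt_CMP.{u})
    (hTOW : Stmt_TOW.{u}) (hSUM : Stmt_SUM.{u}) (hTOWF : Stmt_TOWF.{u}) : Stmt_THMB2.{u} := by
  intro F A B D E _ _ _ _ _ _ _ _ _ _ _ _ _ _ _ _ _ _ _ _ n d t φ e hA hB hD hE htower hAB
  rcases finite_or_infinite F with hF | hF
  · exact finite_case hEX hFIN F A B n hA hB
  obtain ⟨α, hα⟩ := Field.exists_primitive_element F E
  have hmin : minpoly F (φ α) = minpoly F α := minpoly.algHom_eq φ φ.injective α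
  refine core_tower hEX hFIN hSEP hMODEL hBR hCMP hTOW hSUM F A B D n d t e hA hB hD (φ α) ?_ ?_
    ?_ hAB
  · rw [hmin]
    exact Algebra.IsSeparable.isSeparable F α
  · rw [hmin, ← hE]
    exact (Field.primitive_element_iff_minpoly_natDegree_eq F α).mp hα
  · intro L _ _ _ _ r hs hr
    rw [hmin] at hs ⊢
    exact hTOWF F E L α r hα hs htower (by rw [hE]; exact hr)

/-- The number of roots of a separable split polynomial. -/
lemma card_roots (F L : Type u) [Field F] [Field L] [Algebra F L] {p : Polynomial F}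
    (hsep : p.Separable) (hs : (p.map (algebraMap F L)).Splits) :
    Nat.card (Roots F L p) = p.natDegree := by
  rw [← Polynomial.card_rootSet_eq_natDegree hsep hs, ← Nat.card_eq_fintype_card]
  refine Nat.card_congr
    { toFun := fun x => ⟨x.1, Polynomial.mem_rootSet.mpr ⟨hsep.ne_zero, x.2⟩⟩
      invFun := fun x => ⟨x.1, (Polynomial.mem_rootSet.mp x.2).2⟩
      left_inv := fun x => rfl
      right_inv := fun x => rfl }

/-- The Galois group is transitive on the roots of an irreducible polynomial. -/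
lemma transitive_roots (F L : Type u) [Field F] [Field L] [Algebra F L] [IsGalois F L]
    {p : Polynomial F} (hp : Irreducible p) (hm : p.Monic) :
    MulAction.IsPretransitive (L ≃ₐ[F] L) (Roots F L p) := by
  constructor
  intro x y
  have hx : p = minpoly F x.1 := minpoly.eq_of_irreducible_of_monic hp x.2 hm
  have hy : p = minpoly F y.1 := minpoly.eq_of_irreducible_of_monic hp y.2 hm
  have h : IsConjRoot F y.1 x.1 := by
    show minpoly F y.1 = minpoly F x.1
    rw [← hx, ← hy]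
  obtain ⟨σ, hσ⟩ := isConjRoot_iff_exists_algEquiv.mp h
  refine ⟨σ, Subtype.ext ?_⟩
  exact hσ

theorem thmC (hEX : Stmt_EX.{u}) (hFIN : Stmt_FIN.{u}) (hSEP : Stmt_SEP.{u})
    (hMODEL : Stmt_MODEL.{u}) (hBR : Stmt_BRAUER.{u}) (hCMP : Stmt_CMP.{u})
    (hTOW : Stmt_TOW.{u}) (hSUM : Stmt_SUM.{u}) (hNIL : Stmt_NIL.{u}) : Stmt_THMC.{u} := by
  intro F A B _ _ _ _ _ _ _ _ _ _ _ n hnil hA hB hAB
  rcases finite_or_infinite F with hF | hF
  · exact finite_case hEX hFIN F A B n hA hB
  classical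
  have : IsArtinianRing A := IsArtinianRing.of_finite F A
  obtain ⟨t, ht, D, _, _, _, ⟨e⟩⟩ := IsSimpleRing.exists_algEquiv_matrix_divisionRing_finite F A
  have : Algebra.IsCentral F (Matrix (Fin t) (Fin t) D) := Algebra.IsCentral.of_algEquiv F A _ e
  have hcen : Algebra.IsCentral F D := by
    constructor
    intro d hd
    have hd2 : Matrix.scalar (Fin t) d ∈ Subalgebra.center F (Matrix (Fin t) (Fin t) D) := by
      rw [Subalgebra.mem_center_iff]
      intro b
      ext i j
      simp [Matrix.scalar_apply, Matrix.mul_apply, Matrix.diagonal_apply,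
        (Subalgebra.mem_center_iff.mp hd)]
    obtain ⟨a, ha⟩ := Algebra.IsCentral.mem_center_iff (K := F) |>.mp hd2
    have h0 := congrFun (congrFun ha 0) 0
    simp [Matrix.scalar_apply, Matrix.algebraMap_matrix_apply] at h0
    exact Algebra.mem_bot.mpr ⟨a, h0.symm⟩
  have hfin : n ^ 2 = t ^ 2 * Module.finrank F D := by
    rw [← hA, e.toLinearEquiv.finrank_eq, Module.finrank_matrix, Fintype.card_fin]
    ring
  obtain ⟨d, hd⟩ : t ∣ n := (Nat.pow_dvd_pow_iff (two_ne_zero)).mp (Dvd.intro _ hfin.symm)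
  have ht0 : 0 < t := Nat.pos_of_ne_zero (NeZero.ne t)
  have hD : Module.finrank F D = d ^ 2 := by
    rw [hd, mul_pow] at hfin
    exact (Nat.eq_of_mul_eq_mul_left (pow_pos ht0 2) hfin).symm
  obtain ⟨f, hf, hfd⟩ := hSEP F D d hD
  have hint : IsIntegral F f := Algebra.IsIntegral.isIntegral f
  refine core_tower hEX hFIN hSEP hMODEL hBR hCMP hTOW hSUM F A B D n d t e hA hB hD f hf hfd
    ?_ hAB
  intro L _ _ _ _ r hs hr
  have hirr : Irreducible (minpoly F f) := minpoly.irreducible hint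
  have := transitive_roots F L hirr (minpoly.monic hint)
  have := finite_roots F L hf.ne_zero
  have := hnil L
  have hcard := card_roots F L hf hs
  have hdpos : 0 < d := deg_pos hD
  have : Nonempty (Roots F L (minpoly F f)) := by
    apply (Nat.card_pos_iff.mp _).1
    rw [hcard, hfd]
    exact hdpos
  apply hNIL
  rw [hcard, hfd]
  exact hr

end Pool.Agent.MP12f267
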