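import Mathlib
import Pool.Agent.Work.MP_12f267_ag.PROD

/-! Blocks GDP, PRODP: good exponents for the period of the class. -/

open TensorProduct

namespace Pool.Agent.MP12f267

universe u

/-- The exponent `r` is good for classes of period `m` on sets of size `d`. -/
def GoodFor (r m d : ℕ) : Prop :=
  ∃ j : ℕ, (Even d → j = 0) ∧ ((m : ℤ) ∣ (r : ℤ) - 2 ^ j ∨ (m : ℤ) ∣ (r : ℤ) + 2 ^ j)

def Stmt_GDP : Prop :=
  ∀ (G L X : Type u) [Group G] [Finite G] [Field L] [MulSemiringAction G L] [FaithfulSMul G L]
    [MulAction G X] [Finite X] [Nonempty X] (c c' : Mono G L X) (r m : ℕ),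
    InfFix G L → Cohom G L (fun _ _ => 1) (fun g h => c.a g h ^ (m : ℤ)) →
    GoodFor r m (Nat.card X) →
    Cohom G L (fun g h => c.a g h ^ (r : ℤ)) c'.a → c.BirTo c'

def Stmt_PRODP : Prop :=
  ∀ (G L : Type u) (J : Type) (X : J → Type u) [Group G] [Finite G] [Field L] [MulSemiringAction G L]
    [FaithfulSMul G L] [∀ j, MulAction G (X j)] [Fintype J] [∀ j, Finite (X j)]
    [∀ j, Nonempty (X j)] (c : ∀ j, Mono G L (X j)) (r : ℕ) (m : J → ℕ), InfFix G L →
    (∀ j, Cohom G L (fun _ _ => 1) (fun g h => (c j).a g h ^ (m j : ℤ))) →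
    (∀ j, GoodFor r (m j) (Nat.card (X j))) →
    (∀ i j, i ≠ j → (Nat.card (X i)).Coprime (Nat.card (X j))) →
    (Mono.pi c).BirTo (Mono.pi fun j => (c j).zpow (r : ℤ))

/-- Block GDP. -/
theorem stmt_GDP (hINV : Stmt_INV.{u}) (hDBL : Stmt_DBL.{u}) (hUNIQM : Stmt_UNIQM.{u}) :
    Stmt_GDP.{u} := by
  intro G L X _ _ _ _ _ _ _ _ c c' r m hinf hper hgood hcoh
  obtain ⟨j, hj0, hj⟩ := hgood
  have key : Odd (Nat.card X) → ∀ (j : ℕ) (d : Mono G L X), d.BirTo (d.zpow (2 ^ j)) := by
    intro hodd j
    induction j with
    | zero =>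
      intro d
      apply hUNIQM G L X X d _ hinf rfl
      apply Cohom.of_eq
      intro g h
      show d.a g h = d.a g h ^ ((2 : ℤ) ^ 0)
      simp
    | succ j ih =>
      intro d
      refine (ih d).trans ((hINV G L X (d.zpow (2 ^ j))).trans
        ((hDBL G L X (d.zpow (2 ^ j)) hinf hodd).trans ?_))
      apply hUNIQM G L X X _ _ hinf rfl
      apply Cohom.of_eq
      intro g h
      show (d.a g h ^ ((2 : ℤ) ^ j)) ^ (2 : ℤ) = d.a g h ^ ((2 : ℤ) ^ (j + 1))
      rw [← zpow_mul, pow_succ]
  have two : c.BirTo (c.zpow (2 ^ j)) := by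
    rcases Nat.even_or_odd (Nat.card X) with he | ho
    · rw [hj0 he]
      apply hUNIQM G L X X c _ hinf rfl
      apply Cohom.of_eq
      intro g h
      show c.a g h = c.a g h ^ ((2 : ℤ) ^ 0)
      simp
    · exact key ho j c
  rcases hj with hj | hj
  · refine two.trans ?_
    apply hUNIQM G L X X _ c' hinf rfl
    refine Cohom.trans ?_ hcoh
    exact Cohom.zpow_congr c.a_ne hper hj
  · refine two.trans ((hINV G L X (c.zpow (2 ^ j))).trans ?_)
    apply hUNIQM G L X X _ c' hinf rfl
    refine Cohom.trans ?_ hcoh
    refine Cohom.trans (Cohom.of_eq (b := fun g h => c.a g h ^ (-(2 : ℤ) ^ j)) ?_) ?_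
    · intro g h
      show (c.a g h ^ ((2 : ℤ) ^ j)) ^ (-1 : ℤ) = _
      rw [← zpow_mul]
      congr 1
      ring
    · apply Cohom.zpow_congr c.a_ne hper
      rw [sub_neg_eq_add]
      exact hj

open Classical in
/-- Block PRODP. -/
theorem stmt_PRODP (hGDP : Stmt_GDP.{u}) (hFIB : Stmt_FIB.{u}) (hUNIQM : Stmt_UNIQM.{u})
    (hDIMM : Stmt_DIMM.{u}) : Stmt_PRODP.{u} := by
  intro G L J X _ _ _ _ _ _ _ _ _ c r m hinf hper hgood hpair
  have main : ∀ S : Finset J, (Mono.pi c).BirTo (partPow c r S) := by
    intro S
    induction S using Finset.induction_on with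
    | empty =>
      apply hUNIQM G L (∀ j, X j) (∀ j, X j) _ _ hinf rfl
      apply Cohom.of_eq
      intro g h
      rw [partPow_a]
      show ∏ j, (c j).a g h = _
      simp
    | insert j0 S hj0 ih =>
      refine ih.trans ?_
      apply hFIB G L (∀ j, X j) (∀ j : {j : J // j ≠ j0}, X j) (restrMap X j0)
      · intro y
        obtain ⟨t⟩ := (inferInstance : Nonempty (X j0))
        exact ⟨extFun j0 t y, funext fun j => extFun_ne j0 t y j⟩
      · intro y
        have := faithful_restrict (L := L) (MulAction.stabilizer G y)
        have : Finite (Fib (restrMap (G := G) X j0) y) :=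
          Finite.of_injective (β := ∀ j, X j) (fun x => x.1) Subtype.val_injective
        have hcard := card_fib_restr (G := G) X j0 y
        have : Nonempty (Fib (restrMap (G := G) X j0) y) := by
          have h1 : Nat.card (Fib (restrMap (G := G) X j0) y) ≠ 0 := by
            rw [hcard]
            exact Nat.card_pos.ne'
          exact (Nat.card_pos_iff.mp (Nat.pos_of_ne_zero h1)).1
        -- the other factors are trivial on the stabiliser
        have hother : ∀ e : J → ℤ, Cohom (MulAction.stabilizer G y) L (fun _ _ => 1)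
            (fun g h => ∏ j ∈ Finset.univ.erase j0, (c j).a (g : G) (h : G) ^ e j) := by
          intro e
          apply Cohom.one_prod
          intro j hj
          have hj' : j ≠ j0 := Finset.ne_of_mem_erase hj
          have h1 := (c j).trivial_on (MulAction.stabilizer G y) (y ⟨j, hj'⟩) (by
            intro g
            have := g.2
            exact congrFun this ⟨j, hj'⟩)
          have h2 := h1.zpow (e j)
          exact Cohom.trans (Cohom.of_eq fun g k => by simp) h2
        have hA : Cohom (MulAction.stabilizer G y) L (fun g h => (c j0).a (g : G) (h : G))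
            (fun g h => (partPow c r S).a (g : G) (h : G)) := by
          have h2 := (hother (fun j => if j ∈ S then (r : ℤ) else 1)).mul
            (Cohom.refl (fun g h : MulAction.stabilizer G y => (c j0).a (g : G) (h : G)))
          refine Cohom.trans (Cohom.of_eq fun g k => ?_) (h2.trans (Cohom.of_eq fun g k => ?_))
          · simp
          · rw [partPow_split c r S j0, if_neg hj0, zpow_one]
        have hB : Cohom (MulAction.stabilizer G y) L
            (fun g h => (c j0).a (g : G) (h : G) ^ (r : ℤ))
            (fun g h => (partPow c r (insert j0 S)).a (g : G) (h : G)) := by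
          have h2 := (hother (fun j => if j ∈ insert j0 S then (r : ℤ) else 1)).mul
            (Cohom.refl (fun g h : MulAction.stabilizer G y =>
              (c j0).a (g : G) (h : G) ^ (r : ℤ)))
          refine Cohom.trans (Cohom.of_eq fun g k => ?_) (h2.trans (Cohom.of_eq fun g k => ?_))
          · simp
          · rw [partPow_split c r (insert j0 S) j0, if_pos (Finset.mem_insert_self j0 S)]
        apply hGDP (MulAction.stabilizer G y) L (Fib (restrMap (G := G) X j0) y) _ _ r (m j0)
          (hinf.restrict _)
        · refine Cohom.trans ?_ (hA.zpow (m j0 : ℤ))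
          exact (hper j0).restrict (MulAction.stabilizer G y)
        · rw [hcard]; exact hgood j0
        · exact (hA.symm.zpow (r : ℤ)).trans hB
      · intro M _ _ _ _ R R' hR hR'
        have := faithful_of_gField G L M
        have : Nonempty (∀ j : {j : J // j ≠ j0}, X j) := inferInstance
        apply hUNIQM G M _ _ R R' hinf.map rfl
        have hcop : (Nat.card (X j0)).Coprime (Nat.card (∀ j : {j : J // j ≠ j0}, X j)) := by
          rw [Nat.card_pi]
          apply Nat.Coprime.prod_right
          intro j _
          exact hpair j0 j (Ne.symm j.2)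
        apply Cohom.of_coprime R.a_ne R'.a_ne hcop
        · -- killed by the size of `X j0`
          have h1 : Cohom G M (fun g h => algebraMap L M ((c j0).a g h ^ ((r : ℤ) - 1)))
              (fun g h => R'.a g h * (R.a g h)⁻¹) := by
            have h2 := hR'.mul (hR.inv (fun g h => by simpa using (partPow c r S).a_ne g h) R.a_ne)
            refine Cohom.trans (Cohom.of_eq fun g h => ?_) h2
            show _ = algebraMap L M _ * (algebraMap L M _)⁻¹
            rw [← map_inv₀, ← map_mul]
            congr 1
            rw [partPow_split c r (insert j0 S) j0, partPow_split c r S j0,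
              if_pos (Finset.mem_insert_self j0 S), if_neg hj0, zpow_one]
            have e : (∏ j ∈ Finset.univ.erase j0,
                (c j).a g h ^ (if j ∈ insert j0 S then (r : ℤ) else 1)) =
                ∏ j ∈ Finset.univ.erase j0, (c j).a g h ^ (if j ∈ S then (r : ℤ) else 1) := by
              apply Finset.prod_congr rfl
              intro j hj
              have hj' : j ≠ j0 := Finset.ne_of_mem_erase hj
              simp [Finset.mem_insert, hj']
            rw [e]
            have hP : (∏ j ∈ Finset.univ.erase j0,
                (c j).a g h ^ (if j ∈ S then (r : ℤ) else 1)) ≠ 0 :=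
              Finset.prod_ne_zero_iff.mpr fun j _ => zpow_ne_zero _ ((c j).a_ne g h)
            have ha := (c j0).a_ne g h
            rw [zpow_sub₀ ha, zpow_one]
            field_simp
          have h3 := (hDIMM G L (X j0) (c j0)).2
          have h4 := (h3.zpow ((r : ℤ) - 1)).map (K := M)
          refine Cohom.trans ?_ (h1.zpow (Nat.card (X j0) : ℤ))
          refine Cohom.trans (Cohom.of_eq fun g h => ?_) (h4.trans (Cohom.of_eq fun g h => ?_))
          · simp
          · rw [← map_zpow₀, ← zpow_mul, ← zpow_mul, mul_comm]
        · -- killed by the size of the base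
          have h1 := (hDIMM G M _ R).2
          have h2 := (hDIMM G M _ R').2
          have h3 := h2.mul (h1.inv (fun _ _ => one_ne_zero) (fun g h => zpow_ne_zero _ (R.a_ne g h)))
          refine Cohom.trans (Cohom.of_eq fun g h => ?_) (h3.trans (Cohom.of_eq fun g h => ?_))
          · simp
          · rw [mul_zpow, inv_zpow]
  refine (main Finset.univ).trans ?_
  have : Finite (∀ j, X j) := inferInstance
  apply hUNIQM G L (∀ j, X j) (∀ j, X j) _ _ hinf rfl
  apply Cohom.of_eq
  intro g h
  rw [partPow_a]
  show _ = ∏ j, (c j).a g h ^ (r : ℤ)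
  simp

end Pool.Agent.MP12f267
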