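import Mathlib
import Pool.Agent.Work.MP_12f267_ag.Asm0
import Pool.Agent.Work.MP_12f267_ag.AsmA
import Pool.Agent.Work.MP_12f267_ag.GDP

/-! Theorem A in the period form. -/

open TensorProduct

namespace Pool.Agent.MP12f267

universe u

/-- Theorem A, period form. -/
def Stmt_THMP : Prop :=
  ∀ (F A B : Type u) [Field F] [Ring A] [Algebra F A] [Algebra.IsCentral F A] [IsSimpleRing A]
    [FiniteDimensional F A] [Ring B] [Algebra F B] [Algebra.IsCentral F B] [IsSimpleRing B]
    [FiniteDimensional F B] (n m : ℕ), 0 < m → (m = n ∨ IsBrauerMultiple F A F m) →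
    GoodPeriod m →
    Module.finrank F A = n ^ 2 → Module.finrank F B = n ^ 2 → SameSubgroup F A B →
    Birational F A B

/-- The trivial one-dimensional module. -/
def trivMod (G L : Type u) [Group G] [Field L] [MulSemiringAction G L] : PMod G L PUnit.{u+1} where
  P _ := 1
  a _ _ := 1
  a_ne _ _ := one_ne_zero
  det_ne _ := by simp
  mul g h := by
    have e : (1 : Matrix PUnit.{u+1} PUnit.{u+1} L).map (fun x => g • x) = 1 := by
      ext i j
      simp
    rw [e]
    simp

/-- The trivial module is a model of the base field. -/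
lemma model_base (F L : Type u) [Field F] [Field L] [Algebra F L] :
    Nonempty (Model F L F (trivMod (L ≃ₐ[F] L) L)) := by
  refine ⟨⟨Algebra.ofId F _, ?_, ?_, ?_⟩⟩
  · rw [eq_top_iff]
    intro N _
    have : N = N PUnit.unit PUnit.unit • (Algebra.ofId F (Matrix PUnit PUnit L)) 1 := by
      ext i j
      simp
    rw [this]
    exact Submodule.smul_mem _ _ (Submodule.subset_span ⟨1, rfl⟩)
  · simp
  · intro g x
    have e : ((Algebra.ofId F (Matrix PUnit.{u+1} PUnit.{u+1} L)) x).map (fun z => g • z) =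
        (Algebra.ofId F (Matrix PUnit.{u+1} PUnit.{u+1} L)) x := by
      ext i j
      have : g (algebraMap F L x) = algebraMap F L x := g.commutes x
      simp [Algebra.ofId_apply, Matrix.algebraMap_matrix_apply, this]
    rw [e]
    show _ * (1 : Matrix PUnit.{u+1} PUnit.{u+1} L) = (1 : Matrix PUnit.{u+1} PUnit.{u+1} L) * _
    rw [one_mul, mul_one]

/-- The local step, period form. -/
theorem core_goodP (hPRODP : Stmt_PRODP.{u}) (G L : Type u) [Group G] [Finite G]
    [Field L] [MulSemiringAction G L] [FaithfulSMul G L] (hinf : InfFix G L) (J : Type)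
    [Fintype J] (X : J → Type u) [∀ j, MulAction G (X j)] [∀ j, Finite (X j)]
    [∀ j, Nonempty (X j)] (c : ∀ j, Mono G L (X j)) (r : ℕ) (m : J → ℕ)
    (hper : ∀ j, Cohom G L (fun _ _ => 1) (fun g h => (c j).a g h ^ (m j : ℤ)))
    (hgood : ∀ j, GoodFor r (m j) (Nat.card (X j)))
    (hpair : ∀ i j, i ≠ j → (Nat.card (X i)).Coprime (Nat.card (X j)))
    {ι κ : Type u} [Fintype ι] [DecidableEq ι] [Fintype κ] [DecidableEq κ]
    (M : PMod G L ι) (M' : PMod G L κ) (hι : Fintype.card ι = ∏ j, Nat.card (X j))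
    (hκ : Fintype.card κ = ∏ j, Nat.card (X j))
    (hM : Cohom G L M.a (fun g h => ∏ j, (c j).a g h))
    (hM' : Cohom G L (fun g h => M.a g h ^ (r : ℤ)) M'.a) : M.BirTo M' := by
  classical
  have := Fintype.ofFinite (∀ j, X j)
  have hcard : Fintype.card (∀ j, X j) = ∏ j, Nat.card (X j) := by
    rw [← Nat.card_eq_fintype_card, Nat.card_pi]
  have h1 : M.BirTo (Mono.pi c).toPMod :=
    M.birTo_of_cohom _ hinf (by rw [hι, hcard]) hM
  have h2 := (hPRODP G L J X c r m hinf hper hgood hpair).toPMod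
  have h3 : (Mono.pi fun j => (c j).zpow (r : ℤ)).toPMod.BirTo M' := by
    apply PMod.birTo_of_cohom _ _ hinf (by rw [hκ, hcard])
    refine Cohom.trans (Cohom.of_eq fun g h => ?_) ((hM.symm.zpow (r : ℤ)).trans hM')
    show ∏ j, (c j).a g h ^ (r : ℤ) = (∏ j, (c j).a g h) ^ (r : ℤ)
    rw [Finset.prod_zpow]
  exact h1.trans (h2.trans h3)

/-- Arithmetic of the primary parts. -/
lemma gcd_dvd_part (n m p : ℕ) (hn : 0 < n) (hm : 0 < m) (hp : p.Prime) :
    Nat.gcd n m ∣ (n / p ^ n.factorization p) * p ^ m.factorization p := by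
  have hco : Nat.Coprime (n / p ^ n.factorization p) (p ^ n.factorization p) :=
    ((Nat.coprime_ordCompl hp hn.ne').pow_left _).symm
  have h1 : (n / p ^ n.factorization p) * p ^ n.factorization p = n :=
    Nat.div_mul_cancel (Nat.ordProj_dvd n p)
  have h2 : Nat.gcd m n = Nat.gcd m (n / p ^ n.factorization p) *
      Nat.gcd m (p ^ n.factorization p) := by
    conv_lhs => rw [← h1]
    exact Nat.Coprime.gcd_mul m hco
  rw [Nat.gcd_comm, h2]
  apply Nat.mul_dvd_mul (Nat.gcd_dvd_right _ _)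
  have h3 : Nat.Coprime (m / p ^ m.factorization p) (p ^ n.factorization p) :=
    ((Nat.coprime_ordCompl hp hm.ne').pow_left _).symm
  have h4 : p ^ m.factorization p * (m / p ^ m.factorization p) = m :=
    Nat.mul_div_cancel' (Nat.ordProj_dvd m p)
  have h5 : Nat.gcd m (p ^ n.factorization p) ∣ p ^ m.factorization p * (m / p ^ m.factorization p)
      := by rw [h4]; exact Nat.gcd_dvd_left _ _
  exact Nat.Coprime.dvd_of_dvd_mul_right
    (Nat.Coprime.coprime_dvd_left (Nat.gcd_dvd_right _ _) h3.symm) h5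

lemma goodFor_part (r p f d : ℕ) (hp : p.Prime) (hrp : ¬ p ∣ r) (hd : ∃ e, d = p ^ e)
    (hgood : GoodDegree (p ^ f)) : GoodFor r (p ^ f) d := by
  obtain ⟨e, rfl⟩ := hd
  rcases Nat.eq_zero_or_pos f with hf | hf
  · subst hf
    exact ⟨0, fun _ => rfl, Or.inl (by simp)⟩
  have hco : r.Coprime (p ^ f) := ((Nat.Prime.coprime_iff_not_dvd hp).mpr hrp).symm.pow_right _
  obtain ⟨j, hj⟩ := hgood r hco
  refine ⟨j, fun hev => ?_, hj⟩
  have hp2 : p = 2 := by
    have h2 : 2 ∣ p ^ e := even_iff_two_dvd.mp hev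
    exact ((Nat.prime_dvd_prime_iff_eq Nat.prime_two hp).mp
      (Nat.prime_two.dvd_of_dvd_pow h2)).symm
  subst hp2
  by_contra hne
  have h2 : (2 : ℤ) ∣ ((2 ^ f : ℕ) : ℤ) := by
    push_cast
    exact dvd_pow_self 2 hf.ne'
  have h2j : (2 : ℤ) ∣ 2 ^ j := dvd_pow_self 2 hne
  have h2r : (2 : ℤ) ∣ (r : ℤ) := by
    rcases hj with hj | hj
    · have := dvd_add (h2.trans hj) h2j
      simpa using this
    · have := dvd_sub (h2.trans hj) h2j
      simpa using this
  exact hrp (by exact_mod_cast h2r)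

theorem thmP (hEX : Stmt_EX.{u}) (hFIN : Stmt_FIN.{u}) (hSEP : Stmt_SEP.{u})
    (hMODEL : Stmt_MODEL.{u}) (hBR : Stmt_BRAUER.{u}) (hENLA : Stmt_ENLA.{u})
    (hPRODP : Stmt_PRODP.{u}) (hSUB : Stmt_SUB.{u}) : Stmt_THMP.{u} := by
  intro F A B _ _ _ _ _ _ _ _ _ _ _ n m hm0 hm hgood hA hB hAB
  classical
  have hn : 0 < n := deg_pos hA
  rcases finite_or_infinite F with hF | hF
  · exact finite_case hEX hFIN F A B n hA hB
  obtain ⟨fA, hfA, hfA'⟩ := hSEP F A n hA
  obtain ⟨fB, hfB, hfB'⟩ := hSEP F B n hB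
  obtain ⟨L₀, _, _, _, _, -, -, hsplit⟩ := stmt_ENLB F F (Fin 2)
    ![minpoly F fA, minpoly F fB] (fun j => by fin_cases j <;> simp [hfA, hfB])
  have hsA : ((minpoly F fA).map (algebraMap F L₀)).Splits := hsplit 0
  have hsB : ((minpoly F fB).map (algebraMap F L₀)).Splits := hsplit 1
  have := finite_roots F L₀ (hfA.ne_zero)
  have := finite_roots F L₀ (hfB.ne_zero)
  have := Fintype.ofFinite (Roots F L₀ (minpoly F fA))
  have := Fintype.ofFinite (Roots F L₀ (minpoly F fB))
  obtain ⟨cA, hmA⟩ := hMODEL F A L₀ n fA hn hA hfA hfA' hsA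
  obtain ⟨cB, hmB⟩ := hMODEL F B L₀ n fB hn hB hfB hfB' hsB
  have hcA := Model.card_eq hmA hA
  have hcB := Model.card_eq hmB hB
  have : Nonempty (Roots F L₀ (minpoly F fA)) := Fintype.card_pos_iff.mp (by omega)
  have : Nonempty (Roots F L₀ (minpoly F fB)) := Fintype.card_pos_iff.mp (by omega)
  -- exponent prime to `n`
  obtain ⟨⟨r, hr⟩, ⟨s, hs⟩⟩ := hAB
  have hab := hBR F L₀ A B _ _ cA.toPMod cB.toPMod r hmA hmB hr
  have hba := hBR F L₀ B A _ _ cB.toPMod cA.toPMod s hmB hmA hs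
  have hper := (stmt_DIMM (L₀ ≃ₐ[F] L₀) L₀ _ cA).2
  rw [Nat.card_eq_fintype_card, hcA] at hper
  obtain ⟨r', hr', hab'⟩ := stmt_ORD (L₀ ≃ₐ[F] L₀) L₀ cA.a cB.a r s n cA.a_ne cB.a_ne hn hab hba
    hper
  have hinf₀ : InfFix (L₀ ≃ₐ[F] L₀) L₀ := infFix_gal F L₀
  -- the period
  have hperm : Cohom (L₀ ≃ₐ[F] L₀) L₀ (fun _ _ => 1) (fun g h => cA.a g h ^ (m : ℤ)) := by
    rcases hm with hm | hm
    · rw [hm]
      exact hper
    · have h1 := hBR F L₀ A F _ _ cA.toPMod (trivMod (L₀ ≃ₐ[F] L₀) L₀) m hmA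
        (model_base F L₀) hm
      exact h1.symm
  have hperg : Cohom (L₀ ≃ₐ[F] L₀) L₀ (fun _ _ => 1)
      (fun g h => cA.a g h ^ ((Nat.gcd n m : ℕ) : ℤ)) := by
    rw [Nat.gcd_eq_gcd_ab]
    exact Cohom.one_zpow_comb cA.a_ne hper hperm _ _
  -- primary modules
  let J : Type := {p : ℕ // p ∈ n.primeFactors}
  have hJp : ∀ j : J, (j : ℕ).Prime := fun j => Nat.prime_of_mem_primeFactors j.2
  have hmod : ∀ j : J, ∃ k : ℤ, ((((j : ℕ) ^ n.factorization j : ℕ)) : ℤ) ∣ k - 1 ∧
      ((n / (j : ℕ) ^ n.factorization j : ℕ) : ℤ) ∣ k ∧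
      HasMod (L₀ ≃ₐ[F] L₀) L₀ (fun g h => cA.a g h ^ k) ((j : ℕ) ^ n.factorization j) := by
    intro j
    obtain ⟨k, hk1, hk2⟩ := exists_exponent n j hn (hJp j)
    refine ⟨k, hk1, hk2, ?_⟩
    have hdvd : (j : ℕ) ^ n.factorization j * (n / (j : ℕ) ^ n.factorization j) = n :=
      Nat.mul_div_cancel' (Nat.ordProj_dvd n j)
    have hH := (stmt_DIMM (L₀ ≃ₐ[F] L₀) L₀ _ cA).1
    rw [Nat.card_eq_fintype_card, hcA, ← hdvd] at hH
    refine stmt_PRIM stmt_DIM hSUB (L₀ ≃ₐ[F] L₀) L₀ cA.a j (n.factorization j)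
      (n / (j : ℕ) ^ n.factorization j) k hinf₀ cA.a_ne (hJp j) ?_ ?_ hH hk1 hk2
    · exact Nat.not_dvd_ordCompl (hJp j) hn.ne'
    · exact Nat.ordCompl_pos _ hn.ne'
  choose k hk1 hk2 hkM using hmod
  choose ι' hι'1 hι'2 M' hM'card hM'coh using hkM
  have hne' : ∀ j : J, Nonempty (ι' j) := fun j => Fintype.card_pos_iff.mp (by
    rw [hM'card]; exact pow_pos (hJp j).pos _)
  have hEN : ∀ j : J, ∃ χ : Polynomial F, χ.Separable ∧
      ∀ (L : Type u) [Field L] [Algebra F L] [FiniteDimensional F L] [IsGalois F L]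
        [Algebra L₀ L] [IsScalarTower F L₀ L], (χ.map (algebraMap F L)).Splits →
        ∃ (X : Type u) (_ : MulAction (L ≃ₐ[F] L) X) (_ : Finite X)
          (c : Mono (L ≃ₐ[F] L) L X), Nat.card X = Fintype.card (ι' j) ∧
            Cohom (L ≃ₐ[F] L) L ((M' j).inflGal L).a c.a := by
    intro j
    have := hne' j
    exact hENLA F L₀ (ι' j) (M' j)
  choose χ hχ hχ2 using hEN
  obtain ⟨L, _, _, _, _, _, _, hsp⟩ := stmt_ENLB F L₀ J χ hχ
  have hX : ∀ j : J, ∃ (X : Type u) (_ : MulAction (L ≃ₐ[F] L) X) (_ : Finite X)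
          (c : Mono (L ≃ₐ[F] L) L X), Nat.card X = Fintype.card (ι' j) ∧
            Cohom (L ≃ₐ[F] L) L ((M' j).inflGal L).a c.a := fun j => hχ2 j L (hsp j)
  choose X hXact hXfin c hXcard hXcoh using hX
  have hXcard2 : ∀ j, Nat.card (X j) = (j : ℕ) ^ n.factorization j := fun j => by
    rw [hXcard, hM'card]
  have hXne : ∀ j, Nonempty (X j) := fun j => by
    have : 0 < Nat.card (X j) := by rw [hXcard2]; exact pow_pos (hJp j).pos _
    exact (Nat.card_pos_iff.mp this).1
  have hprod : ∏ j : J, (j : ℕ) ^ n.factorization j = n := by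
    have h1 := Nat.prod_factorization_pow_eq_self hn.ne'
    rw [Finsupp.prod, Nat.support_factorization] at h1
    conv_rhs => rw [← h1]
    exact Finset.prod_coe_sort n.primeFactors (fun p => p ^ n.factorization p)
  have hinf : InfFix (L ≃ₐ[F] L) L := infFix_gal F L
  have hmA' := stmt_MINF F L₀ L A _ cA.toPMod hmA
  have hmB' := stmt_MINF F L₀ L B _ cB.toPMod hmB
  apply finish hEX hFIN F L A B _ _ _ _ hmA' hmB'
  -- the sum of the exponents is 1 modulo n
  have hksum : (n : ℤ) ∣ (∑ j, k j) - 1 := by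
    have h1 : ∀ j : J, (((j : ℕ) ^ n.factorization j : ℕ) : ℤ) ∣ (∑ i, k i) - 1 := by
      intro j
      rw [← Finset.add_sum_erase _ _ (Finset.mem_univ j)]
      have h2 : (((j : ℕ) ^ n.factorization j : ℕ) : ℤ) ∣ ∑ i ∈ Finset.univ.erase j, k i := by
        apply Finset.dvd_sum
        intro i hi
        refine dvd_trans ?_ (hk2 i)
        have hij : (j : ℕ) ≠ (i : ℕ) := fun h => (Finset.ne_of_mem_erase hi) (Subtype.ext h.symm)
        have h3 : Nat.Coprime ((j : ℕ) ^ n.factorization j) ((i : ℕ) ^ n.factorization i) :=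
          Nat.Coprime.pow _ _ ((Nat.coprime_primes (hJp j) (hJp i)).mpr hij)
        have h4 : (j : ℕ) ^ n.factorization j ∣ n := Nat.ordProj_dvd n j
        have h5 : (i : ℕ) ^ n.factorization i * (n / (i : ℕ) ^ n.factorization i) = n :=
          Nat.mul_div_cancel' (Nat.ordProj_dvd n i)
        have h7 : (j : ℕ) ^ n.factorization j ∣
            (i : ℕ) ^ n.factorization i * (n / (i : ℕ) ^ n.factorization i) := by
          rw [h5]
          exact h4
        exact Int.natCast_dvd_natCast.mpr (h3.dvd_of_dvd_mul_left h7)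
      have h6 := dvd_add (hk1 j) h2
      have e : k j - 1 + ∑ i ∈ Finset.univ.erase j, k i =
          k j + ∑ i ∈ Finset.univ.erase j, k i - 1 := by ring
      rwa [e] at h6
    have hprodZ : (n : ℤ) = ∏ j : J, (((j : ℕ) ^ n.factorization j : ℕ) : ℤ) := by
      rw [← Nat.cast_prod]
      exact congrArg Nat.cast hprod.symm
    refine (dvd_of_eq hprodZ).trans ?_
    apply Finset.prod_dvd_of_coprime
    · intro i _ j _ hij
      apply Nat.isCoprime_iff_coprime.mpr
      exact Nat.Coprime.pow _ _ ((Nat.coprime_primes (hJp i) (hJp j)).mpr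
        fun h => hij (Subtype.ext h))
    · intro j _
      exact h1 j
  have hperL := hper.infl (L := L)
  have h1 : ∀ j : J, Cohom (L ≃ₐ[F] L) L (inflC L fun g h => cA.a g h ^ k j) (c j).a := by
    intro j
    exact ((hM'coh j).symm.infl (L := L)).trans (hXcoh j)
  apply core_goodP hPRODP (L ≃ₐ[F] L) L hinf J X c r' (fun j => (j : ℕ) ^ m.factorization j)
  · intro j
    have hd : (((Nat.gcd n m : ℕ)) : ℤ) ∣
        k j * (((j : ℕ) ^ m.factorization j : ℕ) : ℤ) := by
      have h5 : (((Nat.gcd n m : ℕ)) : ℤ) ∣ (((n / (j : ℕ) ^ n.factorization j : ℕ) : ℤ) *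
          (((j : ℕ) ^ m.factorization j : ℕ) : ℤ)) := by
        rw [← Nat.cast_mul]
        exact Int.natCast_dvd_natCast.mpr (gcd_dvd_part n m j hn hm0 (hJp j))
      exact h5.trans (mul_dvd_mul_right (hk2 j) _)
    have h6 := Cohom.zpow_congr (r := 0)
      (s := k j * (((j : ℕ) ^ m.factorization j : ℕ) : ℤ)) cA.a_ne hperg
      (by rw [sub_zero]; exact hd)
    have h7 := h6.infl (L := L)
    refine Cohom.trans (Cohom.of_eq fun g h => ?_)
      (h7.trans (Cohom.trans (Cohom.of_eq fun g h => ?_)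
        ((h1 j).zpow (((j : ℕ) ^ m.factorization j : ℕ) : ℤ))))
    · unfold inflC
      simp
    · unfold inflC
      rw [map_zpow₀, map_zpow₀, zpow_mul]
  · intro j
    rw [hXcard2]
    refine goodFor_part r' j _ _ (hJp j) ?_ ⟨_, rfl⟩ (hgood j _ (hJp j) (Nat.ordProj_dvd m j)
      (Nat.pow_succ_factorization_not_dvd hm0.ne' (hJp j)))
    intro hdvd
    have h8 : (j : ℕ) ∣ n := Nat.dvd_of_mem_primeFactors j.2
    exact (hJp j).one_lt.ne' (Nat.eq_one_of_dvd_one (by
      have := Nat.dvd_gcd hdvd h8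
      rwa [hr'] at this))
  · intro i j hij
    rw [hXcard2, hXcard2]
    exact Nat.Coprime.pow _ _ ((Nat.coprime_primes (hJp i) (hJp j)).mpr
        fun h => hij (Subtype.ext h))
  · refine (hcA.trans hprod.symm).trans ?_
    exact Finset.prod_congr rfl fun j _ => (hXcard2 j).symm
  · refine (hcB.trans hprod.symm).trans ?_
    exact Finset.prod_congr rfl fun j _ => (hXcard2 j).symm
  · -- classes
    have h2 : Cohom (L ≃ₐ[F] L) L (fun g h => inflC L cA.a g h ^ (∑ j, k j))
        (fun g h => ∏ j, (c j).a g h) := by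
      have h3 : ∀ S : Finset J, Cohom (L ≃ₐ[F] L) L
          (fun g h => inflC L cA.a g h ^ (∑ j ∈ S, k j)) (fun g h => ∏ j ∈ S, (c j).a g h) := by
        intro S
        induction S using Finset.induction_on with
        | empty =>
          apply Cohom.of_eq
          intro g h
          simp
        | insert j S hj ih =>
          refine Cohom.trans (Cohom.of_eq fun g h => ?_)
            (((h1 j).mul ih).trans (Cohom.of_eq fun g h => ?_))
          · have hne : inflC L cA.a g h ≠ 0 := by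
              unfold inflC
              simpa using cA.a_ne _ _
            rw [Finset.sum_insert hj, zpow_add₀ hne]
            congr 1
            unfold inflC
            rw [map_zpow₀]
          · rw [Finset.prod_insert hj]
      exact h3 Finset.univ
    refine Cohom.trans ?_ h2
    have h4 := Cohom.zpow_congr (G := L ≃ₐ[F] L) (L := L) (a := inflC L cA.a) (n := n) (r := 1)
      (s := ∑ j, k j) (fun g h => by unfold inflC; simpa using cA.a_ne _ _) ?_ hksum
    · refine Cohom.trans (Cohom.of_eq fun g h => ?_) h4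
      rw [zpow_one]
      rfl
    · refine Cohom.trans (Cohom.of_eq fun g h => ?_) (hperL.trans (Cohom.of_eq fun g h => ?_))
      · unfold inflC; simp
      · unfold inflC; rw [map_zpow₀]
  · refine Cohom.trans (Cohom.of_eq fun g h => ?_) (hab'.infl (L := L))
    show inflC L cA.a g h ^ (r' : ℤ) = _
    unfold inflC
    rw [map_zpow₀]

end Pool.Agent.MP12f267
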