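import Mathlib
import Pool.Agent.Work.MP_12f267_ag.Interface

/-! Blocks INV and CYC. -/

open TensorProduct

namespace Pool.Agent.MP12f267

universe u

theorem stmt_INV : Stmt_INV.{u} := by
  rintro G L X _ _ _ _ c K _ _ _ _ v ⟨⟨hv, hp⟩, hgen, htr⟩
  refine ⟨fun x => (v x)⁻¹, ⟨fun x => inv_ne_zero (hv x), fun g => ?_⟩, ?_, htr⟩
  · obtain ⟨μ, hμ, h⟩ := hp g
    refine ⟨μ⁻¹, inv_ne_zero hμ, fun x => ?_⟩
    show algebraMap L K (c.c g x ^ (-1 : ℤ)) * g • (v x)⁻¹ = μ⁻¹ * (v (g • x))⁻¹
    rw [smul_inv'', zpow_neg_one, map_inv₀, ← mul_inv, ← mul_inv, h]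
  · rw [← hgen]
    unfold projField
    congr 1
    ext z
    constructor
    · rintro ⟨i, j, rfl⟩
      exact ⟨j, i, by rw [inv_div_inv]⟩
    · rintro ⟨i, j, rfl⟩
      exact ⟨j, i, by rw [inv_div_inv]⟩

section CYC

variable {G : Type u} {L : Type u} {X : Type u} [Group G] [Field L] [MulSemiringAction G L]
  [MulAction G X]

lemma perm_pow_comm (σ : Equiv.Perm X) (hσ : ∀ (g : G) (x : X), σ (g • x) = g • σ x) (g : G) (x : X)
    (j : ℕ) : (σ ^ j) (g • x) = g • (σ ^ j) x := by
  induction j generalizing x with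
  | zero => simp
  | succ j ih => rw [pow_succ, Equiv.Perm.mul_apply, Equiv.Perm.mul_apply, hσ, ih]

/-- The norm of a monomial module along a permutation commuting with `G`. -/
def Mono.nrm (c : Mono G L X) (r : ℕ) (σ : Equiv.Perm X)
    (hσ : ∀ (g : G) (x : X), σ (g • x) = g • σ x) : Mono G L X where
  c g x := ∏ j ∈ Finset.range r, c.c g ((σ ^ j) x)
  a g h := c.a g h ^ (r : ℤ)
  c_ne g x := Finset.prod_ne_zero_iff.mpr fun j _ => c.c_ne g _
  a_ne g h := zpow_ne_zero _ (c.a_ne g h)
  mul g h x := by
    have e : g • ∏ j ∈ Finset.range r, c.c h ((σ ^ j) x) =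
        ∏ j ∈ Finset.range r, g • c.c h ((σ ^ j) x) :=
      map_prod (MulSemiringAction.toRingHom G L g) _ _
    rw [e, ← Finset.prod_mul_distrib, zpow_natCast]
    have e2 : c.a g h ^ r = ∏ j ∈ Finset.range r, c.a g h := by simp
    rw [e2, ← Finset.prod_mul_distrib]
    refine Finset.prod_congr rfl fun j _ => ?_
    rw [perm_pow_comm σ hσ]
    exact c.mul g h _

end CYC

theorem stmt_CYC (hU : Stmt_UNIQM.{u}) : Stmt_CYC.{u} := by
  classical
  intro G L X _ _ _ _ _ _ _ _ c c' r σ hinf hσ htrans hr hcoh
  have hfin := Fintype.ofFinite X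
  have hmain : c.BirTo (c.nrm r σ hσ) := by
    rintro K _ _ _ _ v ⟨⟨hv, hp⟩, hgen, htr⟩
    refine ⟨fun x => ∏ j ∈ Finset.range r, v ((σ ^ j) x),
      ⟨fun x => Finset.prod_ne_zero_iff.mpr fun j _ => hv _, fun g => ?_⟩, ?_, htr⟩
    · obtain ⟨μ, hμ, h⟩ := hp g
      refine ⟨μ ^ r, pow_ne_zero _ hμ, fun x => ?_⟩
      show algebraMap L K (∏ j ∈ Finset.range r, c.c g ((σ ^ j) x)) *
        g • ∏ j ∈ Finset.range r, v ((σ ^ j) x) = _
      have e : g • ∏ j ∈ Finset.range r, v ((σ ^ j) x) =
          ∏ j ∈ Finset.range r, g • v ((σ ^ j) x) :=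
        map_prod (MulSemiringAction.toRingHom G K g) _ _
      have e2 : μ ^ r = ∏ j ∈ Finset.range r, μ := by simp
      rw [e, map_prod, ← Finset.prod_mul_distrib, e2, ← Finset.prod_mul_distrib]
      refine Finset.prod_congr rfl fun j _ => ?_
      rw [h, perm_pow_comm σ hσ]
    · set w : X → K := fun x => ∏ j ∈ Finset.range r, v ((σ ^ j) x) with hw
      have hwne : ∀ x, w x ≠ 0 := fun x => Finset.prod_ne_zero_iff.mpr fun j _ => hv _
      have hcyc : σ.IsCycleOn ((Finset.univ : Finset X) : Set X) := by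
        refine ⟨?_, fun x _ y _ => ?_⟩
        · rw [Finset.coe_univ]; exact Set.bijOn_univ.mpr σ.bijective
        · obtain ⟨k, hk⟩ := htrans x y
          exact ⟨k, hk⟩
      -- the basic step
      have hstep : ∀ x, v x / v ((σ ^ r) x) ∈ projField L w := by
        intro x
        have e : w x * v ((σ ^ r) x) = w (σ x) * v x := by
          simp only [hw]
          have h1 : ∏ j ∈ Finset.range r, v ((σ ^ j) (σ x)) =
              ∏ j ∈ Finset.range r, v ((σ ^ (j + 1)) x) := by
            refine Finset.prod_congr rfl fun j _ => ?_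
            rw [pow_succ, Equiv.Perm.mul_apply]
          rw [h1, ← Finset.prod_range_succ, Finset.prod_range_succ']
          simp
        have e2 : v x / v ((σ ^ r) x) = w x / w (σ x) := by
          rw [div_eq_div_iff (hv _) (hwne _), mul_comm, ← e]
        rw [e2]
        exact IntermediateField.subset_adjoin L _ ⟨x, σ x, rfl⟩
      have hstep2 : ∀ (k : ℕ) x, v x / v ((σ ^ (r * k)) x) ∈ projField L w := by
        intro k
        induction k with
        | zero => intro x; simpa using by rw [div_self (hv x)]; exact one_mem _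
        | succ k ih =>
          intro x
          have h1 := ih x
          have h2 := hstep ((σ ^ (r * k)) x)
          have e : v x / v ((σ ^ (r * (k + 1))) x) =
              v x / v ((σ ^ (r * k)) x) * (v ((σ ^ (r * k)) x) /
                v ((σ ^ r) ((σ ^ (r * k)) x))) := by
            rw [div_mul_div_cancel₀ (hv _), ← Equiv.Perm.mul_apply, ← pow_add]
            congr 3
            ring_nf
          rw [e]
          exact mul_mem h1 h2
      have hall : ∀ x y, v x / v y ∈ projField L w := by
        intro x y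
        obtain ⟨m, -, hm⟩ := hcyc.exists_pow_eq (Finset.mem_univ x) (Finset.mem_univ y)
        have hk : ∃ k, r * k ≡ m [MOD Finset.card (Finset.univ : Finset X)] := by
          rw [Nat.card_eq_fintype_card, ← Finset.card_univ] at hr
          by_cases hn : 1 < Finset.card (Finset.univ : Finset X)
          · obtain ⟨k, -, hk⟩ := Nat.exists_mul_mod_eq_one_of_coprime hr hn
            refine ⟨k * m, ?_⟩
            have : r * k ≡ 1 [MOD Finset.card (Finset.univ : Finset X)] := by
              unfold Nat.ModEq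
              rw [hk, Nat.mod_eq_of_lt hn]
            have h3 := this.mul_right m
            rwa [one_mul, mul_assoc] at h3
          · have h1 : Finset.card (Finset.univ : Finset X) = 1 := by
              have : 0 < Finset.card (Finset.univ : Finset X) := Finset.card_pos.mpr ⟨x, Finset.mem_univ x⟩
              omega
            refine ⟨0, ?_⟩
            rw [h1]
            exact Nat.modEq_one
        obtain ⟨k, hk⟩ := hk
        have h4 := (hcyc.pow_apply_eq_pow_apply (Finset.mem_univ x)).mpr hk
        have h5 := hstep2 k x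
        rwa [h4, hm] at h5
      rw [eq_top_iff, ← hgen]
      unfold projField
      rw [IntermediateField.adjoin_le_iff]
      rintro z ⟨i, j, rfl⟩
      exact hall i j
  have h2 : (c.nrm r σ hσ).BirTo c' := hU G L X X _ _ hinf rfl hcoh
  intro K _ _ _ _ v hvgen
  obtain ⟨v', hv'⟩ := hmain K v hvgen
  exact h2 K v' hv'

end Pool.Agent.MP12f267
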