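import Mathlib
import Pool.Agent.Work.MP_12f267_ag.Interface

/-! Block DBL: doubling for monomial modules of odd size. -/

open TensorProduct

namespace Pool.Agent.MP12f267

universe u

namespace Dbl

section Poly

variable {X : Type u} [Fintype X] [DecidableEq X]

/-- the matrix `M(κ, v)` -/
def Mm {R : Type u} [CommRing R] (κ : X → X → X → R) (v : X → R) : Matrix X X R :=
  Matrix.of fun x z => ∑ y, κ z x y * v y

/-- the matrix `N(κ, w)` -/
def Nm {R : Type u} [CommRing R] (κ : X → X → X → R) (w : X → R) : Matrix X X R :=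
  Matrix.of fun x y => ∑ z, κ z x y * w z

/-- the vector `w(κ, v)` -/
def W {R : Type u} [CommRing R] (x0 : X) (κ : X → X → X → R) (v : X → R) (z : X) : R :=
  (Mm κ v).adjugate z x0

/-- the polynomial `Q(κ, v)` -/
def Q {R : Type u} [CommRing R] (x0 : X) (κ : X → X → X → R) (v : X → R) : R :=
  (Nm κ (W x0 κ v)).adjugate x0 x0

variable {R S : Type u} [CommRing R] [CommRing S]

omit [DecidableEq X] in
lemma map_Mm (f : R →+* S) (κ : X → X → X → R) (v : X → R) :
    (Mm κ v).map f = Mm (fun z x y => f (κ z x y)) (fun y => f (v y)) := by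
  ext x z
  simp [Mm, map_sum, map_mul]

omit [DecidableEq X] in
lemma map_Nm (f : R →+* S) (κ : X → X → X → R) (w : X → R) :
    (Nm κ w).map f = Nm (fun z x y => f (κ z x y)) (fun y => f (w y)) := by
  ext x z
  simp [Nm, map_sum, map_mul]

lemma map_W (f : R →+* S) (x0 : X) (κ : X → X → X → R) (v : X → R) (z : X) :
    f (W x0 κ v z) = W x0 (fun z x y => f (κ z x y)) (fun y => f (v y)) z := by
  unfold W
  rw [← map_Mm]
  have h := RingHom.map_adjugate f (Mm κ v)
  have h2 := congrFun (congrFun h z) x0
  simpa using h2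

lemma map_Q (f : R →+* S) (x0 : X) (κ : X → X → X → R) (v : X → R) :
    f (Q x0 κ v) = Q x0 (fun z x y => f (κ z x y)) (fun y => f (v y)) := by
  unfold Q
  have h := RingHom.map_adjugate f (Nm κ (W x0 κ v))
  have h2 := congrFun (congrFun h x0) x0
  simp only [RingHom.mapMatrix_apply, Matrix.map_apply] at h2
  rw [h2, map_Nm]
  have : (fun y => f (W x0 κ v y)) = W x0 (fun z x y => f (κ z x y)) (fun y => f (v y)) := by
    funext z
    exact map_W f x0 κ v z
  rw [this]

end Poly

/-! ### a pairing of `X` minus a point -/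

lemma exists_pairing (X : Type u) [Finite X] (hX : Odd (Nat.card X)) (x0 : X) :
    ∃ (s : X → X) (b : X → Bool), (∀ x, s (s x) = x) ∧ s x0 = x0 ∧ ∀ x, x ≠ x0 → b (s x) = !b x := by
  classical
  have := Fintype.ofFinite X
  obtain ⟨m, hm⟩ := hX
  have hc : Fintype.card {x : X // x ≠ x0} = Fintype.card (Fin m × Bool) := by
    rw [Fintype.card_subtype_compl, Fintype.card_prod, Fintype.card_fin, Fintype.card_bool,
      Fintype.card_subtype_eq, ← Nat.card_eq_fintype_card, hm]
    omega
  let e := Fintype.equivOfCardEq hc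
  refine ⟨fun x => if h : x = x0 then x0 else (e.symm ((e ⟨x, h⟩).1, !(e ⟨x, h⟩).2)).1,
    fun x => if h : x = x0 then true else (e ⟨x, h⟩).2, ?_, ?_, ?_⟩
  · intro x
    by_cases h : x = x0
    · simp [h]
    · have h2 := (e.symm ((e ⟨x, h⟩).1, !(e ⟨x, h⟩).2)).2
      simp only [h, dite_false]
      rw [dif_neg h2]
      simp
  · simp
  · intro x h
    have h2 := (e.symm ((e ⟨x, h⟩).1, !(e ⟨x, h⟩).2)).2
    simp only [h, dite_false]
    rw [dif_neg h2]
    simp

section Special

variable {X : Type u} [Fintype X] [DecidableEq X] {R : Type u} [CommRing R]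

/-- the special tensor -/
def τ0 (x0 : X) (s : X → X) (b : X → Bool) (R : Type u) [CommRing R] (z x y : X) : R :=
  (if x ≠ x0 ∧ y = x0 ∧ x = z then 1 else 0) +
    (if z = x0 ∧ x ≠ x0 ∧ b x = true ∧ y = s x then 1 else 0)

/-- the special skew tensor -/
def κ0 (x0 : X) (s : X → X) (b : X → Bool) (R : Type u) [CommRing R] (z x y : X) : R :=
  τ0 x0 s b R z x y - τ0 x0 s b R z y x

variable (x0 : X) (s : X → X) (b : X → Bool) (hs : ∀ x, s (s x) = x) (hs0 : s x0 = x0)
  (hb : ∀ x, x ≠ x0 → b (s x) = !b x)

omit [Fintype X] [DecidableEq X] in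
include hs hs0 in
lemma s_ne {x : X} (hx : x ≠ x0) : s x ≠ x0 := by
  intro h
  apply hx
  rw [← hs x, h, hs0]

include hs hs0 in
lemma Mm_special : Mm (κ0 x0 s b R) (Pi.single x0 1) =
    Matrix.of fun x z => if x ≠ x0 ∧ x = z then (1 : R) else 0 := by
  ext x z
  simp only [Mm, Matrix.of_apply]
  rw [Finset.sum_eq_single x0]
  · simp only [Pi.single_eq_same, mul_one, κ0, τ0]
    by_cases hx : x = x0
    · subst hx
      simp
    · have h1 : ¬ x0 = s x := fun h => s_ne x0 s hs hs0 hx h.symm
      simp [hx, h1]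
  · intro y _ hy
    simp [hy]
  · simp

include hs hs0 in
lemma W_special (z : X) : W x0 (κ0 x0 s b R) (Pi.single x0 1) z = if z = x0 then 1 else 0 := by
  unfold W
  rw [Mm_special x0 s b hs hs0, Matrix.adjugate_apply]
  by_cases hz : z = x0
  · subst hz
    rw [if_pos rfl]
    rw [← Matrix.det_one (n := X) (R := R)]
    congr 1
    ext i j
    rw [Matrix.updateRow_apply]
    by_cases hi : i = z
    · subst hi
      simp [Matrix.one_apply, Pi.single_apply, eq_comm]
    · simp [hi, Matrix.one_apply]
  · rw [if_neg hz]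
    apply Matrix.det_zero_of_row_eq (i := x0) (j := z) (fun h => hz h.symm)
    ext j
    rw [Matrix.updateRow_self, Matrix.updateRow_ne hz]
    simp only [Pi.single_apply, Matrix.of_apply, ne_eq, hz, not_false_eq_true, true_and]
    by_cases h : j = z
    · simp [h]
    · have : ¬ z = j := fun h' => h h'.symm
      simp [h, this]

include hs hs0 hb in
lemma Q_special : IsUnit (Q x0 (κ0 x0 s b R) (Pi.single x0 1)) := by
  unfold Q
  have hW : W x0 (κ0 x0 s b R) (Pi.single x0 1) = Pi.single x0 1 := by
    ext z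
    rw [W_special x0 s b hs hs0]
    simp [Pi.single_apply]
  rw [hW, Matrix.adjugate_apply]
  set N := (Nm (κ0 x0 s b R) (Pi.single x0 1)).updateRow x0 (Pi.single x0 1) with hN
  have hNe : ∀ x y, N x y = if y = s x then (if x = x0 then 1 else if b x then 1 else -1) else 0 := by
    intro x y
    rw [hN, Matrix.updateRow_apply]
    by_cases hx : x = x0
    · subst hx
      simp [Pi.single_apply, hs0]
    · have h1 : s x ≠ x0 := s_ne x0 s hs hs0 hx
      simp only [hx, if_false, Nm, Matrix.of_apply]
      rw [Finset.sum_eq_single x0]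
      · simp only [Pi.single_eq_same, mul_one, κ0, τ0]
        by_cases hy : y = s x
        · have h2 : x = s y := by rw [hy, hs]
          have h3 := hb x hx
          rw [← hy] at h3 h1
          have h4 : ¬ x0 = x := fun h => hx h.symm
          have h5 : ¬ x0 = y := fun h => h1 h.symm
          rcases hbx : b x with _ | _
          · rw [hbx] at h3
            simp [hx, h1, h3, ← hy, ← h2]
          · rw [hbx] at h3
            simp [hx, h1, h3, ← hy, ← h2]
        · have h2 : ¬ x = s y := fun h => hy (by rw [h, hs])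
          have h4 : ¬ x0 = x := fun h => hx h.symm
          by_cases hyx : y = x0
          · subst hyx
            simp [hx, hy, h2]
          · have h5 : ¬ y = x0 := hyx
            simp [hy, h2, h5]
      · intro z _ hz
        simp [hz]
      · simp
  have hmul : N * N.transpose = 1 := by
    ext x y
    simp only [Matrix.mul_apply, Matrix.transpose_apply, hNe, Matrix.one_apply]
    rw [Finset.sum_eq_single (s x)]
    · by_cases hxy : x = y
      · subst hxy
        rw [if_pos rfl, if_pos rfl]
        split_ifs <;> simp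
      · have : ¬ s x = s y := fun h => hxy (by rw [← hs x, h, hs])
        simp [hxy, this]
    · intro t _ ht
      simp [ht]
    · simp
  have hdet := congrArg Matrix.det hmul
  rw [Matrix.det_mul, Matrix.det_one] at hdet
  exact IsUnit.of_mul_eq_one _ hdet

end Special

/-! ### linear algebra over a field -/

section Lin

variable {X K : Type u} [Fintype X] [DecidableEq X] [Field K]

lemma ker_line (M : Matrix X X K) (x0 z0 : X) (hadj : M.adjugate z0 x0 ≠ 0) (w u : X → K)
    (hw : M.mulVec w = 0) (hu : M.mulVec u = 0) (hw0 : w z0 ≠ 0) :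
    u = (u z0 / w z0) • w := by
  rw [Matrix.adjugate_apply] at hadj
  have h1 : (M.updateRow x0 (Pi.single z0 1)).mulVec (u - (u z0 / w z0) • w) = 0 := by
    have hM : M.mulVec (u - (u z0 / w z0) • w) = 0 := by
      rw [Matrix.mulVec_sub, Matrix.mulVec_smul, hw, hu]
      simp
    ext i
    by_cases hi : i = x0
    · subst hi
      simp [Matrix.mulVec, hw0]
    · have := congrFun hM i
      simp only [Matrix.mulVec] at this ⊢
      rw [Matrix.updateRow_ne hi]
      exact this
  have h2 := Matrix.eq_zero_of_mulVec_eq_zero hadj h1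
  exact sub_eq_zero.mp h2

lemma col_adj (M : Matrix X X K) (x0 : X) (hdet : M.det = 0) :
    M.mulVec (fun z => M.adjugate z x0) = 0 := by
  have h := Matrix.mul_adjugate M
  rw [hdet, zero_smul] at h
  ext i
  exact congrFun (congrFun h i) x0

variable (τ : X × X × X → K)

/-- skew part -/
def kap {R : Type u} [CommRing R] (τ : X × X × X → R) (z x y : X) : R := τ (z, x, y) - τ (z, y, x)

omit [DecidableEq X] in
lemma vecMul_Mm (v : X → K) : Matrix.vecMul v (Mm (kap τ) v) = 0 := by
  ext z
  simp only [Matrix.vecMul, dotProduct, Mm, Matrix.of_apply, kap, Pi.zero_apply]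
  simp only [sub_mul, Finset.sum_sub_distrib, mul_sub, Finset.mul_sum]
  rw [sub_eq_zero, Finset.sum_comm]
  refine Finset.sum_congr rfl fun x _ => Finset.sum_congr rfl fun y _ => ?_
  ring

omit [DecidableEq X] in
lemma mulVec_Nm (κ : X → X → X → K) (v w : X → K) :
    (Nm κ w).mulVec v = (Mm κ v).mulVec w := by
  ext x
  simp only [Matrix.mulVec, dotProduct, Nm, Mm, Matrix.of_apply, Finset.sum_mul]
  rw [Finset.sum_comm]
  refine Finset.sum_congr rfl fun y _ => Finset.sum_congr rfl fun z _ => ?_
  ring

end Lin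

/-! ### transcendence degree -/

section Tr

variable {L K : Type u} [Field L] [Field K] [Algebra L K]

lemma alg_of_top (s : Set K) (h : IntermediateField.adjoin L s = ⊤) :
    Algebra.IsAlgebraic (Algebra.adjoin L s) K := by
  constructor
  intro k
  have hk : k ∈ IntermediateField.adjoin L s := by rw [h]; trivial
  rw [IntermediateField.mem_adjoin_iff_div] at hk
  obtain ⟨r, hr, t, ht, rfl⟩ := hk
  by_cases ht0 : t = 0
  · rw [ht0, div_zero]
    exact isAlgebraic_zero
  · have h1 : IsAlgebraic (Algebra.adjoin L s) r := isAlgebraic_algebraMap (⟨r, hr⟩ : Algebra.adjoin L s)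
    have h2 : IsAlgebraic (Algebra.adjoin L s) t := isAlgebraic_algebraMap (⟨t, ht⟩ : Algebra.adjoin L s)
    rw [div_eq_mul_inv]
    exact h1.mul h2.inv

lemma algInd {J : Type u} [Finite J] (t : J → K) (h : IntermediateField.adjoin L (Set.range t) = ⊤)
    (hc : (Nat.card J : Cardinal) ≤ Algebra.trdeg L K) : AlgebraicIndependent L t := by
  have := alg_of_top _ h
  have h2 : Cardinal.mk J ≤ Algebra.trdeg L K := by
    rwa [← Nat.cast_card]
  exact (Algebra.IsAlgebraic.isTranscendenceBasis_of_le_trdeg_of_finite L t h2).1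

lemma coord_ne_zero {X : Type u} [Finite X] (w : X → K) (hw : w ≠ 0) (hp : projField L w = ⊤)
    (hc : Algebra.trdeg L K + 1 = (Nat.card X : Cardinal)) (z : X) : w z ≠ 0 := by
  classical
  have := Fintype.ofFinite X
  intro hz
  obtain ⟨z2, hz2⟩ := Function.ne_iff.mp hw
  have hz2 : w z2 ≠ 0 := hz2
  have hne : z ≠ z2 := fun h => hz2 (h ▸ hz)
  let s : Finset K := (((Finset.univ.erase z).erase z2).image fun x => w x / w z2)
  have hs : IntermediateField.adjoin L (s : Set K) = ⊤ := by
    rw [eq_top_iff, ← hp, projField, IntermediateField.adjoin_le_iff]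
    have key : ∀ i, w i / w z2 ∈ IntermediateField.adjoin L (s : Set K) := by
      intro i
      by_cases h1 : i = z
      · rw [h1, hz, zero_div]
        exact zero_mem _
      · by_cases h2 : i = z2
        · rw [h2, div_self hz2]
          exact one_mem _
        · apply IntermediateField.subset_adjoin
          simp only [s, Finset.coe_image, Set.mem_image, Finset.mem_coe, Finset.mem_erase,
            Finset.mem_univ]
          exact ⟨i, ⟨h2, h1, trivial⟩, rfl⟩
    rintro _ ⟨i, j, rfl⟩
    have : w i / w j = (w i / w z2) / (w j / w z2) := by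
      rw [div_div_div_cancel_right₀ hz2]
    rw [this]
    exact div_mem (key i) (key j)
  have := alg_of_top _ hs
  have h1 := Algebra.IsAlgebraic.trdeg_le_cardinalMk L (s : Set K)
  have h2 : Cardinal.mk (s : Set K) = (s.card : Cardinal) := by simp
  rw [h2] at h1
  have h3 : s.card ≤ Fintype.card X - 2 := by
    refine Finset.card_image_le.trans ?_
    rw [Finset.card_erase_of_mem, Finset.card_erase_of_mem (Finset.mem_univ _), Finset.card_univ]
    · omega
    · simp [hne.symm]
  have h4 : 2 ≤ Fintype.card X := by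
    have : ({z, z2} : Finset X).card ≤ Fintype.card X := Finset.card_le_univ _
    rwa [Finset.card_pair hne] at this
  have h5 : (Nat.card X : Cardinal) ≤ ((Fintype.card X - 2 : ℕ) : Cardinal) + 1 := by
    rw [← hc]
    gcongr
    exact h1.trans (by exact_mod_cast h3)
  rw [Nat.card_eq_fintype_card] at h5
  have h6 : Fintype.card X ≤ Fintype.card X - 2 + 1 := by exact_mod_cast h5
  omega

end Tr

/-! ### the semilinear action -/

section Act

variable {G L X : Type u} [Group G] [Field L] [MulSemiringAction G L] [MulAction G X]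

/-- the factor of the action -/
def fac (c : Mono G L X) (g : G) (t : X × X × X) : L :=
  c.c g t.2.1 * c.c g t.2.2 * (c.c g t.1 ^ 2)⁻¹

lemma fac_mul (c : Mono G L X) (g h : G) (t : X × X × X) :
    fac c g (h • t) * g • fac c h t = fac c (g * h) t := by
  obtain ⟨z, x, y⟩ := t
  simp only [fac, Prod.smul_mk, smul_mul', smul_inv'', smul_pow']
  have hx := c.mul g h x
  have hy := c.mul g h y
  have hz := c.mul g h z
  have n1 := c.c_ne g (h • z)
  have n2 := smul_ne_zero_field g (c.c_ne h z)
  have n3 := c.c_ne (g * h) z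
  have n4 := c.a_ne g h
  have e : c.c g (h • x) * c.c g (h • y) * (c.c g (h • z) ^ 2)⁻¹ *
      (g • c.c h x * g • c.c h y * ((g • c.c h z) ^ 2)⁻¹) =
      (c.c g (h • x) * g • c.c h x) * (c.c g (h • y) * g • c.c h y) *
        ((c.c g (h • z) * g • c.c h z) ^ 2)⁻¹ := by
    rw [mul_pow, mul_inv]; ring
  rw [e, hx, hy, hz]
  field_simp

lemma fac_one (c : Mono G L X) (t : X × X × X) : fac c 1 t = 1 := by
  have h : ∀ x, c.c 1 x = c.a 1 1 := by
    intro x
    have h1 := c.mul 1 1 x
    simp only [one_smul, mul_one] at h1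
    exact mul_right_cancel₀ (c.c_ne 1 x) h1
  unfold fac
  rw [h, h, h]
  have := c.a_ne 1 1
  field_simp

lemma fac_ne (c : Mono G L X) (g : G) (t : X × X × X) : fac c g t ≠ 0 :=
  mul_ne_zero (mul_ne_zero (c.c_ne _ _) (c.c_ne _ _)) (inv_ne_zero (pow_ne_zero _ (c.c_ne _ _)))

/-- A fixed tensor with nonvanishing `Q`. -/
lemma exists_fixed (hDENS : Stmt_DENS.{u}) [Finite G] [FaithfulSMul G L] [Fintype X] [DecidableEq X]
    (hinf : InfFix G L) (hodd : Odd (Nat.card X)) (x0 : X) (c : Mono G L X) :
    ∃ τ : X × X × X → L, (∀ (g : G) (t : X × X × X), τ (g • t) = fac c g t * g • τ t) ∧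
      Q x0 (kap τ) (Pi.single x0 1) ≠ 0 := by
  obtain ⟨s, b, hs, hs0, hb⟩ := exists_pairing X hodd x0
  let p : MvPolynomial (X × X × X) L :=
    Q x0 (kap fun t => MvPolynomial.X t) (Pi.single x0 1)
  have hp : ∀ τ : X × X × X → L, MvPolynomial.eval τ p = Q x0 (kap τ) (Pi.single x0 1) := by
    intro τ
    simp only [p]
    rw [map_Q]
    congr 1
    · funext z x y
      simp [kap]
    · funext y
      by_cases hy : y = x0
      · subst hy; simp
      · simp [hy]
  obtain ⟨τ, h1, h2⟩ := hDENS G L (X × X × X) (fun g τ t => fac c g (g⁻¹ • t) * g • τ (g⁻¹ • t)) hinf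
    (fun g x y => by
      funext t
      simp only [Pi.add_apply, smul_add, mul_add])
    (fun g k x => by
      funext t
      simp only [Pi.smul_apply, smul_eq_mul, smul_mul']
      ring)
    (fun g h x => by
      funext t
      simp only
      rw [smul_mul', ← mul_assoc, mul_inv_rev, mul_smul, ← fac_mul c g h (h⁻¹ • g⁻¹ • t), mul_smul g h]
      simp only [smul_inv_smul])
    (fun x => by
      funext t
      simp [fac_one])
    p (fun t => τ0 x0 s b L t.1 t.2.1 t.2.2)
    (by
      rw [hp]
      exact (Q_special (R := L) x0 s b hs hs0 hb).ne_zero)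
  refine ⟨τ, fun g t => ?_, by rwa [hp] at h2⟩
  have := congrFun (h1 g) (g • t)
  simp only [inv_smul_smul] at this
  exact this.symm

end Act

/-! ### nonvanishing at generic points -/

lemma Q_generic {L K X : Type u} [Field L] [Field K] [Algebra L K] [Fintype X] [DecidableEq X]
    (x0 : X) (κ : X → X → X → L) (hQ : Q x0 κ (Pi.single x0 1) ≠ 0) (v : X → K) (hv : v x0 = 1)
    (hp : projField L v = ⊤) (hc : Algebra.trdeg L K + 1 = (Nat.card X : Cardinal)) :
    Q x0 (fun z x y => algebraMap L K (κ z x y)) v ≠ 0 := by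
  let J := {x : X // x ≠ x0}
  let t : J → K := fun x => v x.1
  have htop : IntermediateField.adjoin L (Set.range t) = ⊤ := by
    rw [eq_top_iff, ← hp, projField, IntermediateField.adjoin_le_iff]
    have key : ∀ i, v i ∈ IntermediateField.adjoin L (Set.range t) := by
      intro i
      by_cases h1 : i = x0
      · rw [h1, hv]
        exact one_mem _
      · exact IntermediateField.subset_adjoin L _ ⟨⟨i, h1⟩, rfl⟩
    rintro _ ⟨i, j, rfl⟩
    exact div_mem (key i) (key j)
  have hJ : Nat.card J + 1 = Nat.card X := by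
    have h := Fintype.card_subtype_compl (fun x : X => x = x0)
    rw [Fintype.card_subtype_eq] at h
    have h3 : 0 < Fintype.card X := Fintype.card_pos_iff.mpr ⟨x0⟩
    have h2 : Nat.card J = Fintype.card {x : X // ¬ x = x0} := Nat.card_eq_fintype_card
    rw [h2, h, Nat.card_eq_fintype_card]
    omega
  have hle : (Nat.card J : Cardinal) ≤ Algebra.trdeg L K := by
    rw [← hJ] at hc
    push_cast at hc
    exact (Cardinal.add_one_inj.mp hc).ge
  have hind := algInd t htop hle
  let q : MvPolynomial J L := Q x0 (fun z x y => MvPolynomial.C (κ z x y))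
    (fun x => if h : x = x0 then 1 else MvPolynomial.X (⟨x, h⟩ : J))
  have hq : q ≠ 0 := by
    intro h0
    apply hQ
    have h1 := map_Q (MvPolynomial.eval (0 : J → L)) x0 (fun z x y => MvPolynomial.C (κ z x y))
      (fun x => if h : x = x0 then 1 else MvPolynomial.X (⟨x, h⟩ : J))
    change MvPolynomial.eval (0 : J → L) q = _ at h1
    rw [h0, map_zero] at h1
    rw [h1]
    congr 1
    · funext z x y
      simp
    · funext y
      by_cases hy : y = x0
      · subst hy; simp
      · simp [hy]
  have h2 := map_Q (MvPolynomial.aeval t : MvPolynomial J L →ₐ[L] K).toRingHom x0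
    (fun z x y => MvPolynomial.C (κ z x y))
    (fun x => if h : x = x0 then 1 else MvPolynomial.X (⟨x, h⟩ : J))
  change MvPolynomial.aeval t q = _ at h2
  have h3 : MvPolynomial.aeval t q ≠ 0 := by
    intro h0
    exact hq (hind.eq_zero_of_aeval_eq_zero q h0)
  rw [h2] at h3
  convert h3 using 2
  · funext x y
    simp
  · funext y
    by_cases hy : y = x0
    · subst hy; simp [hv]
    · simp [hy, t]

/-- Core of the construction, for normalised `v`. -/
lemma core {G L X K : Type u} [Group G] [Field L] [MulSemiringAction G L] [MulAction G X]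
    [Fintype X] [DecidableEq X] [Field K] [Algebra L K] [MulSemiringAction G K] [GField G L K]
    (c : Mono G L X) (x0 : X) (τ : X × X × X → L)
    (hτ : ∀ (g : G) (t : X × X × X), τ (g • t) = fac c g t * g • τ t) (v : X → K) (hv0 : v x0 = 1)
    (hQ : Q x0 (fun z x y => algebraMap L K (kap τ z x y)) v ≠ 0)
    (hv : ∀ g : G, ∃ m : K, m ≠ 0 ∧ ∀ x, g • v x = m * (algebraMap L K (c.c g x) * v (g • x)))
    (hp : projField L v = ⊤) (hc : Algebra.trdeg L K + 1 = (Nat.card X : Cardinal)) :
    ∃ w : X → K, (c.zpow 2).Gen K w := by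
  set κ : X → X → X → K := fun z x y => algebraMap L K (kap τ z x y) with hκ
  have hκ2 : κ = kap (fun t => algebraMap L K (τ t)) := by
    funext z x y
    simp [hκ, kap]
  set M := Mm κ v with hM
  set w := W x0 κ v with hw
  have hvne : v ≠ 0 := fun h => by
    have := congrFun h x0
    rw [hv0] at this
    exact one_ne_zero this
  -- w is in the kernel of M
  have hdet : M.det = 0 := by
    rw [← Matrix.exists_vecMul_eq_zero_iff]
    exact ⟨v, hvne, by rw [hM, hκ2]; exact vecMul_Mm _ v⟩
  have hMw : M.mulVec w = 0 := col_adj M x0 hdet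
  -- w ≠ 0
  have hw0 : w ≠ 0 := by
    intro h0
    apply hQ
    show (Nm κ w).adjugate x0 x0 = 0
    have hN : Nm κ w = 0 := by
      rw [h0]
      ext x y
      simp [Nm]
    rcases subsingleton_or_nontrivial X with hX | hX
    · exfalso
      have := congrFun h0 x0
      simp only [hw, W, Matrix.adjugate_subsingleton, Matrix.one_apply_eq, Pi.zero_apply] at this
      exact one_ne_zero this
    · rw [hN, Matrix.adjugate_zero]
      rfl
  obtain ⟨z0, hz0⟩ := Function.ne_iff.mp hw0
  have hz0 : w z0 ≠ 0 := hz0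
  -- normalised w
  let w' : X → K := fun z => w z / w z0
  have hN' : Nm κ w' = (w z0)⁻¹ • Nm κ w := by
    ext x y
    simp only [Nm, w', Matrix.of_apply, Matrix.smul_apply, smul_eq_mul, Finset.mul_sum]
    exact Finset.sum_congr rfl fun z _ => by ring
  have hQ' : (Nm κ w').adjugate x0 x0 ≠ 0 := by
    rw [hN', Matrix.adjugate_smul, Matrix.smul_apply, smul_eq_mul]
    exact mul_ne_zero (pow_ne_zero _ (inv_ne_zero hz0)) hQ
  have hNv : (Nm κ w').mulVec v = 0 := by
    rw [hN', Matrix.smul_mulVec, mulVec_Nm, ← hM, hMw, smul_zero]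
  have hNdet : (Nm κ w').det = 0 := by
    rw [← Matrix.exists_mulVec_eq_zero_iff]
    exact ⟨v, hvne, hNv⟩
  have hcol := ker_line (Nm κ w') x0 x0 hQ' v (fun z => (Nm κ w').adjugate z x0) hNv
    (col_adj _ x0 hNdet) (by rw [hv0]; exact one_ne_zero)
  have hvy : ∀ y, v y = (Nm κ w').adjugate y x0 / (Nm κ w').adjugate x0 x0 := by
    intro y
    have := congrFun hcol y
    simp only [hv0, div_one, Pi.smul_apply, smul_eq_mul] at this
    rw [this]
    field_simp
  -- generation
  have hgen : projField L w = ⊤ := by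
    set E := projField L w with hE
    have hwE : ∀ z, w' z ∈ E := fun z => IntermediateField.subset_adjoin L _ ⟨z, z0, rfl⟩
    let N'' : Matrix X X E := Nm (fun z x y => algebraMap L E (kap τ z x y)) (fun z => ⟨w' z, hwE z⟩)
    have hmap : N''.map (algebraMap E K) = Nm κ w' := by
      rw [map_Nm]
      rfl
    have hadj : ∀ y, (Nm κ w').adjugate y x0 ∈ E := by
      intro y
      have h := RingHom.map_adjugate (algebraMap E K) N''
      have h2 := congrFun (congrFun h y) x0
      simp only [RingHom.mapMatrix_apply, Matrix.map_apply] at h2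
      rw [hmap] at h2
      rw [← h2]
      exact (N''.adjugate y x0).2
    rw [eq_top_iff, ← hp]
    conv_lhs => rw [projField]
    rw [IntermediateField.adjoin_le_iff]
    rintro _ ⟨i, j, rfl⟩
    show v i / v j ∈ E
    rw [hvy i, hvy j]
    exact div_mem (div_mem (hadj i) (hadj x0)) (div_mem (hadj j) (hadj x0))
  have hcoord := coord_ne_zero w hw0 hgen hc
  refine ⟨w, ⟨hcoord, fun g => ?_⟩, hgen, hc⟩
  obtain ⟨m, hm, hv⟩ := hv g
  -- equivariance of κ
  have hκg : ∀ z x y, κ (g • z) (g • x) (g • y) * algebraMap L K (c.c g z ^ 2) =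
      algebraMap L K (c.c g x) * algebraMap L K (c.c g y) * g • κ z x y := by
    intro z x y
    simp only [hκ]
    rw [GField.smul_algebraMap, ← map_mul, ← map_mul, ← map_mul]
    congr 1
    have h1 := hτ g (z, x, y)
    have h2 := hτ g (z, y, x)
    simp only [Prod.smul_mk] at h1 h2
    unfold kap
    rw [h1, h2, smul_sub]
    simp only [fac]
    have := c.c_ne g z
    field_simp
  have hMg : ∀ x z, algebraMap L K (c.c g x) * g • M x z =
      m * algebraMap L K (c.c g z ^ 2) * M (g • x) (g • z) := by
    intro x z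
    simp only [hM, Mm, Matrix.of_apply]
    rw [Finset.smul_sum, Finset.mul_sum, Finset.mul_sum]
    refine Fintype.sum_equiv (MulAction.toPerm g) _ _ fun y => ?_
    rw [smul_mul', hv]
    simp only [MulAction.toPerm_apply]
    have := hκg z x y
    linear_combination (-m * v (g • y)) * this
  -- the transformed vector
  let w1 : X → K := fun z => algebraMap L K (c.c g (g⁻¹ • z) ^ 2) * g • w (g⁻¹ • z)
  have hMw1 : M.mulVec w1 = 0 := by
    ext x'
    obtain ⟨x, rfl⟩ : ∃ x, g • x = x' := ⟨g⁻¹ • x', smul_inv_smul g x'⟩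
    have h1 := congrArg (fun y => g • y) (congrFun hMw x)
    simp only [Matrix.mulVec, dotProduct, Pi.zero_apply, smul_zero, Finset.smul_sum, smul_mul'] at h1 ⊢
    have h2 : algebraMap L K (c.c g x) * ∑ z, g • M x z * g • w z = 0 := by rw [h1, mul_zero]
    rw [Finset.mul_sum] at h2
    rw [← Equiv.sum_comp (MulAction.toPerm g)]
    apply mul_left_cancel₀ hm
    rw [mul_zero, Finset.mul_sum, ← h2]
    refine Finset.sum_congr rfl fun z _ => ?_
    simp only [MulAction.toPerm_apply, w1, inv_smul_smul]
    linear_combination (-(g • w z)) * hMg x z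
  have hline := ker_line M x0 z0 hz0 w w1 hMw hMw1 hz0
  refine ⟨w1 z0 / w z0, ?_, fun x => ?_⟩
  · intro h0
    rw [h0, zero_smul] at hline
    have := congrFun hline (g • x0)
    simp only [w1, inv_smul_smul, Pi.zero_apply] at this
    have h3 : algebraMap L K (c.c g x0 ^ 2) ≠ 0 := by
      simpa using c.c_ne g x0
    have h4 : g • w x0 ≠ 0 := smul_ne_zero_field g (hcoord x0)
    exact mul_ne_zero h3 h4 this
  · have := congrFun hline (g • x)
    simp only [w1, inv_smul_smul, Pi.smul_apply, smul_eq_mul] at this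
    show algebraMap L K (c.c g x ^ (2 : ℤ)) * g • w x = _
    rw [← this]
    norm_cast

end Dbl

theorem stmt_DBL (hDENS : Stmt_DENS.{u}) : Stmt_DBL.{u} := by
  intro G L X _ _ _ _ _ _ _ c hinf hodd K _ _ _ _ v hv
  classical
  have := Fintype.ofFinite X
  obtain ⟨⟨hv0, hvμ⟩, hproj, htr⟩ := hv
  have hpos : 0 < Nat.card X := hodd.pos
  have hne : Nonempty X := (Nat.card_pos_iff.mp hpos).1
  obtain ⟨x0⟩ := hne
  obtain ⟨τ, hτ, hQ⟩ := Dbl.exists_fixed hDENS hinf hodd x0 c
  let v' : X → K := fun x => v x / v x0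
  have hp' : projField L v' = ⊤ := by
    rw [← hproj]
    unfold projField
    congr 1
    ext y
    constructor
    · rintro ⟨i, j, rfl⟩
      exact ⟨i, j, by simp only [v']; rw [div_div_div_cancel_right₀ (hv0 x0)]⟩
    · rintro ⟨i, j, rfl⟩
      exact ⟨i, j, by simp only [v']; rw [div_div_div_cancel_right₀ (hv0 x0)]⟩
  have hv1 : v' x0 = 1 := div_self (hv0 x0)
  refine Dbl.core c x0 τ hτ v' hv1 (Dbl.Q_generic x0 (Dbl.kap τ) hQ v' hv1 hp' htr) (fun g => ?_) hp' htr
  obtain ⟨μ, hμ, h⟩ := hvμ g
  have key : ∀ x, g • v x = μ * algebraMap L K (c.c g x) * v (g • x) := by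
    intro x
    have h1 := h x
    have h2 : algebraMap L K (c.c g x) ≠ 0 := by simpa using c.c_ne g x
    have h3 : (c.zpow (-1)).c g x = (c.c g x)⁻¹ := by
      show c.c g x ^ (-1 : ℤ) = _
      simp
    rw [h3, map_inv₀] at h1
    field_simp at h1
    linear_combination h1
  have hc0 : algebraMap L K (c.c g x0) ≠ 0 := by simpa using c.c_ne g x0
  have hvg : v (g • x0) ≠ 0 := hv0 _
  refine ⟨v x0 / (algebraMap L K (c.c g x0) * v (g • x0)), div_ne_zero (hv0 x0) (mul_ne_zero hc0 hvg),
    fun x => ?_⟩
  simp only [v']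
  rw [smul_div_field, key x, key x0]
  have := hv0 x0
  field_simp

end Pool.Agent.MP12f267
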