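import Mathlib

/-! Matrices with separable characteristic polynomial and the determinant of the traces of the
powers. -/

open Polynomial Matrix

namespace Pool.Agent.MP12f267

section Disc

variable {R : Type*} [CommRing R] {ι : Type*} [Fintype ι] [DecidableEq ι]

/-- The matrix of the traces of the powers. -/
def traceMat (n : ℕ) (M : Matrix ι ι R) : Matrix (Fin n) (Fin n) R :=
  Matrix.of fun i j => (M ^ ((i : ℕ) + (j : ℕ))).trace

/-- The determinant of the matrix of the traces of the powers. -/
def traceDisc (n : ℕ) (M : Matrix ι ι R) : R := (traceMat n M).det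

theorem map_traceDisc {S : Type*} [CommRing S] (f : R →+* S) (n : ℕ) (M : Matrix ι ι R) :
    f (traceDisc n M) = traceDisc n (M.map f) := by
  rw [traceDisc, traceDisc, RingHom.map_det]
  congr 1
  ext i j
  simp only [traceMat, RingHom.mapMatrix_apply, Matrix.map_apply, Matrix.of_apply]
  rw [← RingHom.mapMatrix_apply, ← map_pow, RingHom.mapMatrix_apply, Matrix.trace, Matrix.trace,
    map_sum]
  rfl

variable {K : Type*} [Field K]

/-- A nonzero polynomial of degree less than `n` whose value is nilpotent gives a zero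
discriminant. -/
theorem traceDisc_eq_zero (n : ℕ) (M : Matrix ι ι K) (r : K[X]) (hr : r ≠ 0)
    (hd : r.natDegree < n) (hn : IsNilpotent (aeval M r)) : traceDisc n M = 0 := by
  rw [traceDisc, ← Matrix.exists_mulVec_eq_zero_iff]
  refine ⟨fun j => r.coeff j, ?_, ?_⟩
  · intro h
    apply hr
    ext k
    by_cases hk : k < n
    · exact congrFun h ⟨k, hk⟩
    · rw [coeff_zero]
      exact coeff_eq_zero_of_natDegree_lt (by omega)
  · ext i
    simp only [Matrix.mulVec, dotProduct, traceMat, Matrix.of_apply, Pi.zero_apply]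
    have h1 : ∑ j : Fin n, (M ^ ((i : ℕ) + (j : ℕ))).trace * r.coeff j =
        (M ^ (i : ℕ) * aeval M r).trace := by
      rw [aeval_eq_sum_range' hd, Finset.mul_sum, Matrix.trace_sum,
        ← Fin.sum_univ_eq_sum_range (fun j => (M ^ (i : ℕ) * r.coeff j • M ^ j).trace)]
      refine Finset.sum_congr rfl fun j _ => ?_
      rw [Matrix.mul_smul, Matrix.trace_smul, ← pow_add, smul_eq_mul, mul_comm]
    rw [h1]
    have h2 : IsNilpotent (M ^ (i : ℕ) * aeval M r) := by
      have hc : Commute (M ^ (i : ℕ)) (aeval M r) := by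
        have h3 : M ^ (i : ℕ) = aeval M ((X : K[X]) ^ (i : ℕ)) := by simp
        rw [h3]
        exact (Polynomial.commute_X_pow r i).symm.map (aeval M) |>.symm
      exact hc.isNilpotent_mul_left hn
    exact (Matrix.isNilpotent_trace_of_isNilpotent h2).eq_zero

theorem traceDisc_minpoly (M : Matrix ι ι K) (h : traceDisc (Fintype.card ι) M ≠ 0) :
    minpoly K M = M.charpoly := by
  have hint : IsIntegral K M := Algebra.IsIntegral.isIntegral M
  have hdvd : minpoly K M ∣ M.charpoly := minpoly.dvd K M (Matrix.aeval_self_charpoly M)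
  refine (Polynomial.eq_of_monic_of_dvd_of_natDegree_le (minpoly.monic hint)
    (Matrix.charpoly_monic M) hdvd ?_).symm
  rw [Matrix.charpoly_natDegree_eq_dim]
  by_contra hlt
  push Not at hlt
  exact h (traceDisc_eq_zero _ M (minpoly K M) (minpoly.ne_zero hint) hlt
    (by rw [minpoly.aeval]; exact IsNilpotent.zero))

theorem traceDisc_separable (M : Matrix ι ι K) (h : traceDisc (Fintype.card ι) M ≠ 0) :
    M.charpoly.Separable := by
  let Ω := AlgebraicClosure K
  let f : K →+* Ω := algebraMap K Ω
  rw [← Polynomial.separable_map f, ← Matrix.charpoly_map]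
  have h' : traceDisc (Fintype.card ι) (M.map f) ≠ 0 := by
    rw [← map_traceDisc]
    intro h0
    exact h (by rwa [map_eq_zero] at h0)
  rw [PerfectField.separable_iff_squarefree]
  intro q hq
  by_contra hu
  obtain ⟨r, hr⟩ := hq
  have hχ : (M.map f).charpoly ≠ 0 := (Matrix.charpoly_monic _).ne_zero
  have hq0 : q ≠ 0 := by
    rintro rfl
    exact hχ (by rw [hr]; simp)
  have hr0 : r ≠ 0 := by
    rintro rfl
    exact hχ (by rw [hr]; simp)
  have hqd : 0 < q.natDegree := by
    rw [Nat.pos_iff_ne_zero]
    intro h0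
    exact hu (Polynomial.isUnit_iff_degree_eq_zero.mpr
      (by rw [Polynomial.degree_eq_natDegree hq0, h0]; rfl))
  refine h' (traceDisc_eq_zero _ _ (q * r) (mul_ne_zero hq0 hr0) ?_ ?_)
  · have h1 := Matrix.charpoly_natDegree_eq_dim (M.map f)
    rw [hr, mul_assoc, Polynomial.natDegree_mul hq0 (mul_ne_zero hq0 hr0)] at h1
    omega
  · refine ⟨2, ?_⟩
    rw [← map_pow]
    have h2 : (q * r) ^ 2 = (M.map f).charpoly * r := by rw [hr]; ring
    rw [h2, map_mul, Matrix.aeval_self_charpoly, zero_mul]

theorem traceDisc_diagonal (d : ι → K) (hd : Function.Injective d) :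
    traceDisc (Fintype.card ι) (Matrix.diagonal d) ≠ 0 := by
  let e : ι ≃ Fin (Fintype.card ι) := Fintype.equivFin ι
  have h1 : traceMat (Fintype.card ι) (Matrix.diagonal d) =
      (Matrix.vandermonde (d ∘ e.symm))ᵀ * Matrix.vandermonde (d ∘ e.symm) := by
    ext i j
    simp only [traceMat, Matrix.of_apply, Matrix.mul_apply, Matrix.transpose_apply,
      Matrix.vandermonde_apply, Matrix.diagonal_pow, Matrix.trace_diagonal, Pi.pow_apply,
      Function.comp]
    rw [← e.symm.sum_comp]
    refine Finset.sum_congr rfl fun k _ => ?_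
    rw [pow_add]
  rw [traceDisc, h1, Matrix.det_mul, Matrix.det_transpose]
  have h2 : (Matrix.vandermonde (d ∘ e.symm)).det ≠ 0 :=
    Matrix.det_vandermonde_ne_zero_iff.mpr (hd.comp e.symm.injective)
  exact mul_ne_zero h2 h2

/-- The discriminant of a linear combination of matrices is a polynomial in the coefficients. -/
theorem exists_traceDisc_poly {κ : Type*} [Fintype κ] (n : ℕ) (B : κ → Matrix ι ι K) :
    ∃ p : MvPolynomial κ K, ∀ s : κ → K, MvPolynomial.eval s p =
      traceDisc n (∑ k, s k • B k) := by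
  refine ⟨traceDisc n (∑ k, (MvPolynomial.X k : MvPolynomial κ K) • (B k).map MvPolynomial.C),
    fun s => ?_⟩
  rw [map_traceDisc]
  congr 1
  ext i j
  rw [Matrix.map_apply, Matrix.sum_apply, Matrix.sum_apply, map_sum]
  refine Finset.sum_congr rfl fun k _ => ?_
  simp

end Disc

end Pool.Agent.MP12f267
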