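import Mathlib
import Pool.Agent.Work.MP_12f267_ag.MatAct
import Pool.Agent.Work.MP_12f267_ag.DENS
import Pool.Agent.Work.MP_12f267_ag.DISC

/-! Block ENLA: every projective module becomes monomial over a larger Galois extension. -/

open TensorProduct Polynomial

namespace Pool.Agent.MP12f267

universe u

section Conj

variable {G L ι : Type u} [Group G] [Field L] [MulSemiringAction G L] [Fintype ι] [DecidableEq ι]

/-- The semilinear action on matrices. -/
noncomputable def PMod.conj (M : PMod G L ι) (g : G) (X : Matrix ι ι L) : Matrix ι ι L :=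
  M.P g * X.map (fun x => g • x) * (M.P g)⁻¹

theorem PMod.conj_add (M : PMod G L ι) (g : G) (X Y : Matrix ι ι L) :
    M.conj g (X + Y) = M.conj g X + M.conj g Y := by
  rw [PMod.conj, ma_add, Matrix.mul_add, Matrix.add_mul]
  rfl

theorem PMod.conj_smul (M : PMod G L ι) (g : G) (c : L) (X : Matrix ι ι L) :
    M.conj g (c • X) = (g • c) • M.conj g X := by
  rw [PMod.conj, ma_smul, Matrix.mul_smul, Matrix.smul_mul]
  rfl

theorem PMod.conj_conj (M : PMod G L ι) (g h : G) (X : Matrix ι ι L) :
    M.conj g (M.conj h X) = M.conj (g * h) X := by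
  have hg := M.isUnit_det g
  have hh := M.isUnit_det h
  have hgh := M.isUnit_det (g * h)
  have h1 : ((M.P h)⁻¹).map (fun x => g • x) * (M.P g)⁻¹ = (M.a g h)⁻¹ • (M.P (g * h))⁻¹ := by
    rw [ma_inv g _ hh, ← Matrix.mul_inv_rev, M.mul, ma_smul_inv _ (M.a_ne g h) _ hgh]
  have h2 : M.conj g (M.conj h X) = (M.P g * (M.P h).map (fun x => g • x)) *
      X.map (fun x => (g * h) • x) * (((M.P h)⁻¹).map (fun x => g • x) * (M.P g)⁻¹) := by
    rw [PMod.conj, PMod.conj, ma_mul, ma_mul, ma_map]
    simp only [Matrix.mul_assoc]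
  rw [h2, h1, M.mul, Matrix.mul_smul, Matrix.smul_mul, Matrix.smul_mul, smul_smul,
    inv_mul_cancel₀ (M.a_ne g h), one_smul, PMod.conj]

theorem PMod.conj_one (M : PMod G L ι) (X : Matrix ι ι L) : M.conj 1 X = X := by
  have h1 := M.P_one
  have h2 : M.P 1 * X = X * M.P 1 := by
    rw [h1, Matrix.smul_mul, Matrix.mul_smul, Matrix.one_mul, Matrix.mul_one]
  rw [PMod.conj, ma_one_smul, h2, Matrix.mul_nonsing_inv_cancel_right _ _ (M.isUnit_det 1)]

/-- A matrix with given discriminant condition commuting with the action. -/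
theorem PMod.exists_fixed [Finite G] [FaithfulSMul G L] (M : PMod G L ι) (hinf : InfFix G L) :
    ∃ f : Matrix ι ι L, (∀ g, M.P g * f.map (fun x => g • x) = f * M.P g) ∧
      traceDisc (Fintype.card ι) f ≠ 0 := by
  have hLinf : Infinite L := by
    by_contra hcon
    rw [not_infinite_iff_finite] at hcon
    exact hinf (Set.toFinite _)
  let toM : (ι × ι → L) → Matrix ι ι L := fun x => Matrix.of fun i j => x (i, j)
  let ofM : Matrix ι ι L → (ι × ι → L) := fun X ij => X ij.1 ij.2
  have hto : ∀ X, toM (ofM X) = X := fun X => rfl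
  have hof : ∀ x, ofM (toM x) = x := fun x => rfl
  have hto_add : ∀ x y, toM (x + y) = toM x + toM y := fun x y => rfl
  have hto_smul : ∀ (c : L) x, toM (c • x) = c • toM x := fun c x => rfl
  have hof_add : ∀ X Y, ofM (X + Y) = ofM X + ofM Y := fun x y => rfl
  have hof_smul : ∀ (c : L) X, ofM (c • X) = c • ofM X := fun c X => rfl
  let B : ι × ι → Matrix ι ι L := fun ij => Matrix.single ij.1 ij.2 1
  have hB : ∀ x : ι × ι → L, ∑ k, x k • B k = toM x := by
    intro x
    rw [Matrix.matrix_eq_sum_single (toM x), Fintype.sum_prod_type]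
    refine Finset.sum_congr rfl fun i _ => Finset.sum_congr rfl fun j _ => ?_
    simp [B, toM, Matrix.smul_single]
  obtain ⟨p, hp⟩ := exists_traceDisc_poly (K := L) (Fintype.card ι) B
  let d : ι → L := fun i => Infinite.natEmbedding L (Fintype.equivFin ι i)
  have hd : Function.Injective d := fun i j h =>
    (Fintype.equivFin ι).injective (Fin.ext ((Infinite.natEmbedding L).injective h))
  obtain ⟨x, hx1, hx2⟩ := stmt_DENS G L (ι × ι) (fun g x => ofM (M.conj g (toM x))) hinf
    (fun g x y => by rw [hto_add, M.conj_add, hof_add])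
    (fun g c x => by rw [hto_smul, M.conj_smul, hof_smul])
    (fun g h x => by rw [hto, M.conj_conj])
    (fun x => by rw [M.conj_one, hof]) p (ofM (Matrix.diagonal d))
    (by
      rw [hp, hB, hto]
      exact traceDisc_diagonal d hd)
  refine ⟨toM x, fun g => ?_, ?_⟩
  · have h1 := congrArg toM (hx1 g)
    rw [hto] at h1
    have h2 : M.P g * (toM x).map (fun x => g • x) * (M.P g)⁻¹ * M.P g = toM x * M.P g := by
      rw [← PMod.conj, h1]
    rwa [Matrix.nonsing_inv_mul_cancel_right _ _ (M.isUnit_det g)] at h2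
  · rw [hp, hB] at hx2
    exact hx2

/-- A matrix commuting with the action whose eigenvalues are distinct and in the field makes the
module monomial. -/
theorem PMod.exists_mono (M : PMod G L ι) (f : Matrix ι ι L)
    (hf : ∀ g, M.P g * f.map (fun x => g • x) = f * M.P g)
    (X : Type u) [MulAction G X] [Fintype X] (μ : X → L) (hμ : Function.Injective μ)
    (hμg : ∀ (g : G) (x : X), μ (g • x) = g • μ x) (hcard : Fintype.card X = Fintype.card ι)
    (e : X → ι → L) (he : ∀ x, e x ≠ 0) (hfe : ∀ x, f.mulVec (e x) = μ x • e x) :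
    ∃ c : Mono G L X, c.a = M.a := by
  classical
  -- eigenvectors form a basis
  have hev : ∀ x, Module.End.HasEigenvector (Matrix.toLin' f) (μ x) (e x) := by
    intro x
    rw [Module.End.hasEigenvector_iff]
    refine ⟨?_, he x⟩
    rw [Module.End.mem_eigenspace_iff, Matrix.toLin'_apply]
    exact hfe x
  have hli : LinearIndependent L e :=
    Module.End.eigenvectors_linearIndependent' (Matrix.toLin' f) μ hμ e hev
  have hcard' : Fintype.card X = Module.finrank L (ι → L) := by
    rw [hcard, Module.finrank_fintype_fun_eq_card]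
  let b := basisOfLinearIndependentOfCardEqFinrank' e hli hcard'
  have hb : ∀ x, b x = e x := fun x => by
    simp [b]
  -- eigenspaces are lines
  have hline : ∀ (x : X) (v : ι → L), f.mulVec v = μ x • v → ∃ r : L, v = r • e x := by
    intro x v hv
    refine ⟨b.repr v x, ?_⟩
    have h1 : v = ∑ y, b.repr v y • e y := by
      conv_lhs => rw [← b.sum_repr v]
      simp only [hb]
    have h2 : ∀ y, y ≠ x → b.repr v y = 0 := by
      have h3 : ∑ y, (b.repr v y * (μ y - μ x)) • b y = 0 := by
        have h4 : f.mulVec v = ∑ y, (b.repr v y * μ y) • e y := by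
          conv_lhs => rw [h1]
          rw [← Matrix.toLin'_apply, map_sum]
          refine Finset.sum_congr rfl fun y _ => ?_
          rw [map_smul, Matrix.toLin'_apply, hfe, smul_smul]
        have h5 : μ x • v = ∑ y, (b.repr v y * μ x) • e y := by
          conv_lhs => rw [h1]
          rw [Finset.smul_sum]
          refine Finset.sum_congr rfl fun y _ => ?_
          rw [smul_smul, mul_comm]
        have h6 : ∑ y, (b.repr v y * (μ y - μ x)) • b y = f.mulVec v - μ x • v := by
          rw [h4, h5, ← Finset.sum_sub_distrib]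
          refine Finset.sum_congr rfl fun y _ => ?_
          rw [hb, mul_sub, sub_smul]
        rw [h6, hv, sub_self]
      have h7 := Fintype.linearIndependent_iff.mp b.linearIndependent _ h3
      intro y hy
      have h8 := h7 y
      rcases mul_eq_zero.mp h8 with h9 | h9
      · exact h9
      · exact absurd (hμ (sub_eq_zero.mp h9)) hy
    conv_lhs => rw [h1]
    rw [Finset.sum_eq_single x]
    · intro y _ hy
      rw [h2 y hy, zero_smul]
    · intro h
      exact absurd (Finset.mem_univ x) h
  have hgv : ∀ (g : G) (N : Matrix ι ι L) (v : ι → L),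
      (fun i => g • (N.mulVec v) i) = (N.map (fun x => g • x)).mulVec (fun i => g • v i) := by
    intro g N v
    ext i
    simp only [Matrix.mulVec, dotProduct, Matrix.map_apply]
    rw [Finset.smul_sum]
    refine Finset.sum_congr rfl fun j _ => ?_
    rw [smul_mul']
  have hex : ∀ (g : G) (x : X), ∃ r : L, (M.P g).mulVec (fun i => g • e x i) = r • e (g • x) := by
    intro g x
    apply hline
    rw [Matrix.mulVec_mulVec, ← hf, ← Matrix.mulVec_mulVec, ← hgv, hfe, hμg]
    have h1 : (fun i => g • (μ x • e x) i) = (g • μ x) • fun i => g • e x i := by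
      ext i
      simp [smul_mul']
    rw [h1, Matrix.mulVec_smul]
  choose r hr using hex
  have hr0 : ∀ g x, r g x ≠ 0 := by
    intro g x h0
    have h1 := hr g x
    rw [h0, zero_smul] at h1
    have h2 := Matrix.eq_zero_of_mulVec_eq_zero (M.det_ne g) h1
    apply he x
    ext i
    have h3 := congrFun h2 i
    simp only [Pi.zero_apply, smul_eq_zero_iff_eq] at h3
    exact h3
  refine ⟨⟨r, M.a, hr0, M.a_ne, fun g h x => ?_⟩, rfl⟩
  -- cocycle relation
  have h1 : (M.P g).mulVec (fun i => g • ((M.P h).mulVec (fun i => h • e x i)) i) =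
      M.a g h • (M.P (g * h)).mulVec (fun i => (g * h) • e x i) := by
    rw [hgv, Matrix.mulVec_mulVec, M.mul, Matrix.smul_mulVec]
    congr 2
    ext i
    rw [mul_smul]
  rw [hr h x, hr (g * h) x] at h1
  have h2 : (fun i => g • (r h x • e (h • x)) i) = (g • r h x) • fun i => g • e (h • x) i := by
    ext i
    simp [smul_mul']
  rw [h2, Matrix.mulVec_smul, hr g (h • x), smul_smul, smul_smul, smul_smul] at h1
  have h3 : (g • r h x * r g (h • x) - M.a g h * r (g * h) x) • e ((g * h) • x) = 0 := by
    rw [sub_smul, h1, sub_self]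
  rcases smul_eq_zero.mp h3 with h4 | h4
  · rw [mul_comm (r g (h • x))]
    exact sub_eq_zero.mp h4
  · exact absurd h4 (he _)

end Conj

theorem stmt_ENLA : Stmt_ENLA.{u} := by
  intro F L₀ ι _ _ _ _ _ _ _ _ _ M
  have hinf : InfFix (L₀ ≃ₐ[F] L₀) L₀ := by
    refine Set.Infinite.mono ?_ (Set.infinite_range_of_injective (algebraMap F L₀).injective)
    rintro _ ⟨x, rfl⟩ g
    exact g.commutes x
  obtain ⟨f, hf, hdisc⟩ := M.exists_fixed hinf
  have hsep : f.charpoly.Separable := traceDisc_separable f hdisc
  -- the characteristic polynomial is defined over F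
  have hfix : ∀ g : L₀ ≃ₐ[F] L₀, f.charpoly.map (g : L₀ →+* L₀) = f.charpoly := by
    intro g
    rw [← Matrix.charpoly_map]
    have hu := M.isUnit_det g
    have h1 : f = M.P g * f.map (fun x => g • x) * (M.P g)⁻¹ := by
      rw [hf, Matrix.mul_nonsing_inv_cancel_right _ _ hu]
    have h2 : f.map (g : L₀ →+* L₀) = f.map (fun x => g • x) := rfl
    rw [h2]
    conv_rhs => rw [h1]
    rw [Matrix.charpoly_mul_comm, Matrix.nonsing_inv_mul_cancel_left _ _ hu]
  obtain ⟨χ, hχ⟩ : ∃ χ : F[X], χ.map (algebraMap F L₀) = f.charpoly := by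
    have h1 : f.charpoly ∈ Polynomial.lifts (algebraMap F L₀) := by
      rw [Polynomial.lifts_iff_coeff_lifts]
      intro k
      rw [IsGalois.mem_range_algebraMap_iff_fixed]
      intro g
      conv_rhs => rw [← hfix g]
      rw [Polynomial.coeff_map]
      rfl
    rwa [Polynomial.mem_lifts] at h1
  have hχsep : χ.Separable := by
    rw [← Polynomial.separable_map (algebraMap F L₀), hχ]
    exact hsep
  refine ⟨χ, hχsep, ?_⟩
  intro L _ _ _ _ _ _ hsplit
  classical
  let f' : Matrix ι ι L := f.map (algebraMap L₀ L)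
  have hχ' : f'.charpoly = χ.map (algebraMap F L) := by
    change (f.map (algebraMap L₀ L)).charpoly = _
    rw [Matrix.charpoly_map, ← hχ, Polynomial.map_map, ← IsScalarTower.algebraMap_eq]
  let X := Roots F L χ
  have hχ0 : χ ≠ 0 := hχsep.ne_zero
  have hequiv : X ≃ χ.rootSet L := by
    refine Equiv.subtypeEquivRight fun x => ?_
    rw [Polynomial.mem_rootSet]
    exact ⟨fun h => ⟨hχ0, h⟩, fun h => h.2⟩
  have hXfin : Finite X := Finite.of_equiv _ hequiv.symm
  let _ : Fintype X := Fintype.ofFinite X
  have hXcard : Fintype.card X = Fintype.card ι := by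
    rw [Fintype.card_congr hequiv, Polynomial.card_rootSet_eq_natDegree hχsep hsplit,
      ← Polynomial.natDegree_map (algebraMap F L), ← hχ', Matrix.charpoly_natDegree_eq_dim]
  -- eigenvectors
  have hex : ∀ x : X, ∃ v : ι → L, v ≠ 0 ∧ f'.mulVec v = x.1 • v := by
    intro x
    have h1 : (Matrix.scalar ι x.1 - f').det = 0 := by
      rw [← Matrix.eval_charpoly, hχ', Polynomial.eval_map_algebraMap]
      exact x.2
    obtain ⟨v, hv, h2⟩ := Matrix.exists_mulVec_eq_zero_iff.mpr h1
    refine ⟨v, hv, ?_⟩
    rw [Matrix.sub_mulVec, sub_eq_zero] at h2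
    rw [← h2]
    ext i
    simp [Matrix.scalar_apply, Matrix.mulVec_diagonal]
  choose e he hfe using hex
  have hcomm : ∀ g : L ≃ₐ[F] L, (M.inflGal L).P g * f'.map (fun x => g • x) =
      f' * (M.inflGal L).P g := by
    intro g
    have h1 := hf (AlgEquiv.restrictNormalHom L₀ g)
    have h2 := congrArg (fun N : Matrix ι ι L₀ => N.map (algebraMap L₀ L)) h1
    simp only [Matrix.map_mul] at h2
    have h3 : (f.map fun x => (AlgEquiv.restrictNormalHom L₀ g) • x).map (algebraMap L₀ L) =
        f'.map (fun x => g • x) := by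
      ext i j
      simp only [Matrix.map_apply, f']
      exact AlgEquiv.restrictNormal_commutes g L₀ (f i j)
    rw [h3] at h2
    exact h2
  obtain ⟨c, hc⟩ := (M.inflGal L).exists_mono f' hcomm X (fun x => x.1) Subtype.val_injective
    (fun g x => rfl) hXcard e he hfe
  refine ⟨X, inferInstance, hXfin, c, ?_, ?_⟩
  · rw [Nat.card_eq_fintype_card, hXcard]
  · rw [hc]
    exact Cohom.refl _

end Pool.Agent.MP12f267
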