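import Mathlib
import Pool.Agent.Work.MP_12f267_ag.MatAct
import Pool.Agent.Work.MP_12f267_ag.Sub

/-! Block EX (helper80): existence of the function field. -/

open TensorProduct

namespace Pool.Agent.MP12f267

universe u

section Ex

variable {G : Type u} {L : Type u} {ι : Type u} [Group G] [Field L] [MulSemiringAction G L]
  [Fintype ι] [DecidableEq ι]

/-- The semilinear substitution `x_j ↦ ∑ A_{ji} x_i`. -/
noncomputable def Phi (g : G) (A : Matrix ι ι L) : MvPolynomial ι L →+* MvPolynomial ι L :=
  MvPolynomial.eval₂Hom (MvPolynomial.C.comp (MulSemiringAction.toRingHom G L g))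
    (fun j => ∑ i, MvPolynomial.C (A j i) * MvPolynomial.X i)

omit [DecidableEq ι] in
lemma Phi_C (g : G) (A : Matrix ι ι L) (c : L) :
    Phi g A (MvPolynomial.C c) = MvPolynomial.C (g • c) := by
  unfold Phi
  rw [MvPolynomial.eval₂Hom_C]
  rfl

omit [DecidableEq ι] in
lemma Phi_X (g : G) (A : Matrix ι ι L) (j : ι) :
    Phi g A (MvPolynomial.X j) = ∑ i, MvPolynomial.C (A j i) * MvPolynomial.X i := by
  unfold Phi
  rw [MvPolynomial.eval₂Hom_X']

omit [DecidableEq ι] in
lemma Phi_comp (g h : G) (A B : Matrix ι ι L) :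
    (Phi g A).comp (Phi h B) = Phi (g * h) (B.map (fun x => g • x) * A) := by
  apply MvPolynomial.ringHom_ext
  · intro c
    rw [RingHom.comp_apply, Phi_C, Phi_C, Phi_C, mul_smul]
  · intro j
    rw [RingHom.comp_apply, Phi_X, Phi_X, map_sum]
    simp only [map_mul, Phi_C, Phi_X, Matrix.mul_apply, Matrix.map_apply, map_sum,
      Finset.mul_sum, Finset.sum_mul]
    rw [Finset.sum_comm]
    refine Finset.sum_congr rfl fun k _ => Finset.sum_congr rfl fun i _ => ?_
    ring

lemma Phi_one : Phi (1 : G) (1 : Matrix ι ι L) = RingHom.id _ := by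
  apply MvPolynomial.ringHom_ext
  · intro c
    rw [Phi_C, one_smul, RingHom.id_apply]
  · intro j
    rw [Phi_X, RingHom.id_apply, Finset.sum_eq_single j]
    · simp
    · intro b _ hb
      simp [Matrix.one_apply_ne hb.symm]
    · intro h
      exact absurd (Finset.mem_univ _) h

lemma Phi_injective (g : G) (A : Matrix ι ι L) (hA : IsUnit A.det) :
    Function.Injective (Phi g A) := by
  have h : (Phi g⁻¹ (A⁻¹.map (fun x => g⁻¹ • x))).comp (Phi g A) = RingHom.id _ := by
    rw [Phi_comp, inv_mul_cancel, ← ma_mul, Matrix.mul_nonsing_inv _ hA, ma_one, Phi_one]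
  intro p q hpq
  have h1 := congrArg (fun φ : MvPolynomial ι L →+* MvPolynomial ι L => φ p) h
  have h2 := congrArg (fun φ : MvPolynomial ι L →+* MvPolynomial ι L => φ q) h
  simp only [RingHom.comp_apply, RingHom.id_apply] at h1 h2
  rw [← h1, ← h2, hpq]

variable (ι L) in
/-- The field of rational functions. -/
abbrev RF := FractionRing (MvPolynomial ι L)

omit [DecidableEq ι] [Fintype ι] in
variable (ι L) in
/-- The coordinates. -/
noncomputable def xx (j : ι) : RF L ι := algebraMap (MvPolynomial ι L) (RF L ι) (MvPolynomial.X j)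

/-- The extension to the field of rational functions. -/
noncomputable def FF (g : G) (A : Matrix ι ι L) (hA : IsUnit A.det) : RF L ι →+* RF L ι :=
  IsFractionRing.map (Phi_injective g A hA)

lemma FF_alg (g : G) (A : Matrix ι ι L) (hA : IsUnit A.det) (p : MvPolynomial ι L) :
    FF g A hA (algebraMap _ _ p) = algebraMap _ _ (Phi g A p) := by
  unfold FF IsFractionRing.map
  exact IsLocalization.map_eq _ p

lemma FF_C (g : G) (A : Matrix ι ι L) (hA : IsUnit A.det) (c : L) :
    FF g A hA (algebraMap L (RF L ι) c) = algebraMap L (RF L ι) (g • c) := by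
  rw [IsScalarTower.algebraMap_apply L (MvPolynomial ι L) (RF L ι), FF_alg,
    IsScalarTower.algebraMap_apply L (MvPolynomial ι L) (RF L ι) (g • c)]
  congr 1
  exact Phi_C g A c

lemma FF_x (g : G) (A : Matrix ι ι L) (hA : IsUnit A.det) (j : ι) :
    FF g A hA (xx L ι j) = ∑ i, algebraMap L (RF L ι) (A j i) * xx L ι i := by
  unfold xx
  rw [FF_alg, Phi_X, map_sum]
  refine Finset.sum_congr rfl fun i _ => ?_
  rw [map_mul]
  rfl

omit [DecidableEq ι] [Fintype ι] in
lemma xx_ne_zero (j : ι) : xx L ι j ≠ 0 := by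
  unfold xx
  rw [Ne, FaithfulSMul.algebraMap_eq_zero_iff]
  exact MvPolynomial.X_ne_zero j

omit [DecidableEq ι] [Fintype ι] in
lemma xx_algInd : AlgebraicIndependent L (xx L ι) := by
  have h := (MvPolynomial.algebraicIndependent_X ι L).map'
    (f := (IsScalarTower.toAlgHom L (MvPolynomial ι L) (RF L ι)))
    (IsFractionRing.injective (MvPolynomial ι L) (RF L ι))
  exact h

omit [DecidableEq ι] [Fintype ι] in
/-- A subfield containing the coordinates is everything. -/
lemma eq_top_of_xx (E : IntermediateField L (RF L ι)) (h : ∀ j, xx L ι j ∈ E) : E = ⊤ := by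
  have hp : ∀ p : MvPolynomial ι L, algebraMap _ (RF L ι) p ∈ E := by
    intro p
    induction p using MvPolynomial.induction_on with
    | C c =>
      have : algebraMap (MvPolynomial ι L) (RF L ι) (MvPolynomial.C c) =
          algebraMap L (RF L ι) c := by
        rw [IsScalarTower.algebraMap_apply L (MvPolynomial ι L) (RF L ι)]
        rfl
      rw [this]
      exact E.algebraMap_mem c
    | add p q hp hq =>
      rw [map_add]
      exact E.add_mem hp hq
    | mul_X p j hp =>
      rw [map_mul]
      exact E.mul_mem hp (h j)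
  rw [eq_top_iff]
  intro z _
  obtain ⟨p, q, _, rfl⟩ := IsFractionRing.div_surjective (A := MvPolynomial ι L) z
  exact E.div_mem (hp p) (hp q)

omit [DecidableEq ι] [Fintype ι] in
lemma projField_xx_trdeg [Finite ι] [Nonempty ι] :
    Algebra.trdeg L (projField L (xx L ι)) + 1 = (Nat.card ι : Cardinal) := by
  classical
  have := Fintype.ofFinite ι
  obtain ⟨i₀⟩ : Nonempty ι := inferInstance
  -- the family of the ratios and one coordinate
  let s : ι → RF L ι := fun i => if i = i₀ then xx L ι i₀ else xx L ι i / xx L ι i₀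
  have hs : AlgebraicIndependent L s := by
    apply algInd_of_adjoin_eq_top
    · apply eq_top_of_xx
      intro j
      have h0 : xx L ι i₀ ∈ IntermediateField.adjoin L (Set.range s) :=
        IntermediateField.subset_adjoin _ _ ⟨i₀, by simp [s]⟩
      by_cases hj : j = i₀
      · rw [hj]
        exact h0
      · have h1 : xx L ι j / xx L ι i₀ ∈ IntermediateField.adjoin L (Set.range s) :=
          IntermediateField.subset_adjoin _ _ ⟨j, by simp [s, hj]⟩
        have h2 := IntermediateField.mul_mem _ h1 h0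
        rwa [div_mul_cancel₀ _ (xx_ne_zero i₀)] at h2
    · exact xx_algInd.cardinalMk_le_trdeg
  let σ : Type u := {i : ι // i ≠ i₀}
  let y : σ → RF L ι := fun i => xx L ι i.1 / xx L ι i₀
  have hy : AlgebraicIndependent L y := by
    have h := hs.comp (fun i : σ => i.1) Subtype.val_injective
    have h2 : s ∘ (fun i : σ => i.1) = y := by
      funext i
      simp [s, y, i.2]
    rwa [h2] at h
  have hadj : projField L (xx L ι) = IntermediateField.adjoin L (Set.range y) := by
    have hmem : ∀ i, xx L ι i / xx L ι i₀ ∈ IntermediateField.adjoin L (Set.range y) := by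
      intro i
      by_cases hi : i = i₀
      · rw [hi, div_self (xx_ne_zero i₀)]
        exact IntermediateField.one_mem _
      · exact IntermediateField.subset_adjoin _ _ ⟨⟨i, hi⟩, rfl⟩
    apply le_antisymm
    · apply IntermediateField.adjoin_le_iff.2
      rintro _ ⟨i, j, rfl⟩
      have h := IntermediateField.div_mem _ (hmem i) (hmem j)
      rwa [div_div_div_cancel_right₀ (xx_ne_zero i₀)] at h
    · apply IntermediateField.adjoin_le_iff.2
      rintro _ ⟨i, rfl⟩
      exact IntermediateField.subset_adjoin _ _ ⟨i.1, i₀, rfl⟩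
  rw [hadj, trdeg_adjoin_of_algInd y hy]
  have hcard : Fintype.card σ + 1 = Fintype.card ι := by
    have h1 : Fintype.card σ = Fintype.card ι - 1 := by
      rw [Fintype.card_subtype_compl, Fintype.card_subtype_eq]
    have h2 : 0 < Fintype.card ι := Fintype.card_pos
    omega
  rw [Cardinal.mk_fintype, Nat.card_eq_fintype_card, ← hcard]
  push_cast
  rfl

end Ex

theorem stmt_EX : Stmt_EX.{u} := by
  classical
  intro G L ι _ _ _ _ _ _ M
  obtain ⟨i₀⟩ : Nonempty ι := inferInstance
  -- the semilinear maps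
  have hQ : ∀ g, IsUnit ((M.P g)⁻¹).det := fun g => by
    rw [Matrix.isUnit_nonsing_inv_det_iff]
    exact M.isUnit_det g
  let F : G → RF L ι →+* RF L ι := fun g => FF g (M.P g)⁻¹ (hQ g)
  have hFC : ∀ g c, F g (algebraMap L (RF L ι) c) = algebraMap L (RF L ι) (g • c) :=
    fun g c => FF_C g _ _ c
  have hFx : ∀ g j, F g (xx L ι j) = ∑ i, algebraMap L (RF L ι) ((M.P g)⁻¹ j i) * xx L ι i :=
    fun g j => FF_x g _ _ j
  have hFne : ∀ g z, z ≠ 0 → F g z ≠ 0 := fun g z hz h0 => hz ((F g).injective (by
    rw [h0, map_zero]))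
  let K : IntermediateField L (RF L ι) := projField L (xx L ι)
  have hratio : ∀ i j, xx L ι i / xx L ι j ∈ K := fun i j =>
    IntermediateField.subset_adjoin _ _ ⟨i, j, rfl⟩
  -- stability
  have hK : ∀ g, ∀ z ∈ K, F g z ∈ K := by
    intro g z hz
    have hz' : z ∈ IntermediateField.adjoin L {z | ∃ i j, z = xx L ι i / xx L ι j} := hz
    induction hz' using IntermediateField.adjoin_induction with
    | mem x hx =>
      obtain ⟨i, j, rfl⟩ := hx
      have hmem : ∀ i, F g (xx L ι i) / xx L ι i₀ ∈ K := by
        intro i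
        rw [hFx, Finset.sum_div]
        refine K.sum_mem fun k _ => ?_
        rw [mul_div_assoc]
        exact K.mul_mem (K.algebraMap_mem _) (hratio k i₀)
      rw [map_div₀]
      have h := K.div_mem (hmem i) (hmem j)
      rwa [div_div_div_cancel_right₀ (xx_ne_zero i₀)] at h
    | algebraMap c =>
      rw [hFC]
      exact K.algebraMap_mem _
    | add x y hx hy h1 h2 =>
      rw [map_add]
      exact K.add_mem (h1 hx) (h2 hy)
    | inv x hx h1 =>
      rw [map_inv₀]
      exact K.inv_mem (h1 hx)
    | mul x y hx hy h1 h2 =>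
      rw [map_mul]
      exact K.mul_mem (h1 hx) (h2 hy)
  -- two semilinear maps that agree up to a scalar on the coordinates agree on `K`
  have hext : ∀ (φ ψ : RF L ι →+* RF L ι) (c : L), c ≠ 0 →
      (∀ l, φ (algebraMap L (RF L ι) l) = ψ (algebraMap L (RF L ι) l)) →
      (∀ j, φ (xx L ι j) = algebraMap L (RF L ι) c * ψ (xx L ι j)) →
      ∀ z ∈ K, φ z = ψ z := by
    intro φ ψ c hc h1 h2 z hz
    have hc' : algebraMap L (RF L ι) c ≠ 0 := by
      rw [Ne, FaithfulSMul.algebraMap_eq_zero_iff]
      exact hc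
    have hz' : z ∈ IntermediateField.adjoin L {z | ∃ i j, z = xx L ι i / xx L ι j} := hz
    induction hz' using IntermediateField.adjoin_induction with
    | mem x hx =>
      obtain ⟨i, j, rfl⟩ := hx
      rw [map_div₀, map_div₀, h2, h2, mul_div_mul_left _ _ hc']
    | algebraMap c => exact h1 c
    | add x y hx hy h3 h4 => rw [map_add, map_add, h3 hx, h4 hy]
    | inv x hx h3 => rw [map_inv₀, map_inv₀, h3 hx]
    | mul x y hx hy h3 h4 => rw [map_mul, map_mul, h3 hx, h4 hy]
  have hF1 : ∀ z ∈ K, F 1 z = z := by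
    have h := hext (F 1) (RingHom.id _) (M.a 1 1)⁻¹ (inv_ne_zero (M.a_ne 1 1))
      (fun l => by rw [hFC, one_smul, RingHom.id_apply]) (fun j => by
        rw [hFx, M.P_one, ma_smul_inv _ (M.a_ne 1 1) _ (by simp), inv_one,
          Finset.sum_eq_single j]
        · simp
        · intro b _ hb
          simp [Matrix.one_apply_ne hb.symm]
        · intro h
          exact absurd (Finset.mem_univ _) h)
    exact h
  have hFmul : ∀ g h, ∀ z ∈ K, F (g * h) z = F g (F h z) := by
    intro g h z hz
    symm
    refine hext ((F g).comp (F h)) (F (g * h)) (M.a g h)⁻¹ (inv_ne_zero (M.a_ne g h))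
      (fun l => by rw [RingHom.comp_apply, hFC, hFC, hFC, mul_smul]) (fun j => ?_) z hz
    rw [RingHom.comp_apply, hFx, hFx, map_sum]
    simp only [map_mul, hFC, hFx]
    have hmat : ((M.P h)⁻¹).map (fun x => g • x) * (M.P g)⁻¹ =
        (M.a g h)⁻¹ • (M.P (g * h))⁻¹ := by
      rw [ma_inv g _ (M.isUnit_det h), ← Matrix.mul_inv_rev, M.mul]
      exact ma_smul_inv _ (M.a_ne g h) _ (M.isUnit_det _)
    have hent : ∀ k, (M.a g h)⁻¹ * (M.P (g * h))⁻¹ j k =
        ∑ i, (g • (M.P h)⁻¹ j i) * (M.P g)⁻¹ i k := by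
      intro k
      have := congrFun (congrFun hmat j) k
      rw [Matrix.mul_apply, Matrix.smul_apply, smul_eq_mul] at this
      exact this.symm
    rw [Finset.mul_sum]
    have h2 : ∀ k, algebraMap L (RF L ι) (M.a g h)⁻¹ *
        (algebraMap L (RF L ι) ((M.P (g * h))⁻¹ j k) * xx L ι k) =
        ∑ i, algebraMap L (RF L ι) (g • (M.P h)⁻¹ j i) *
          (algebraMap L (RF L ι) ((M.P g)⁻¹ i k) * xx L ι k) := by
      intro k
      rw [← mul_assoc, ← map_mul, hent, map_sum, Finset.sum_mul]
      refine Finset.sum_congr rfl fun i _ => ?_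
      rw [map_mul, mul_assoc]
    rw [Finset.sum_congr rfl fun k _ => h2 k, Finset.sum_comm]
    refine Finset.sum_congr rfl fun i _ => ?_
    rw [Finset.mul_sum]
  -- the action
  let act : MulSemiringAction G K := {
    smul := fun g z => ⟨F g (z : RF L ι), hK g z z.2⟩
    one_smul := fun z => Subtype.ext (hF1 z z.2)
    mul_smul := fun g h z => Subtype.ext (hFmul g h z z.2)
    smul_zero := fun g => Subtype.ext (map_zero (F g))
    smul_add := fun g x y => Subtype.ext (map_add (F g) _ _)
    smul_one := fun g => Subtype.ext (map_one (F g))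
    smul_mul := fun g x y => Subtype.ext (map_mul (F g) _ _) }
  have hact : ∀ (g : G) (z : K), ((g • z : K) : RF L ι) = F g (z : RF L ι) := fun g z => rfl
  have hG : GField G L K := ⟨fun g l => Subtype.ext (hFC g l)⟩
  let x : ι → K := fun i => ⟨xx L ι i / xx L ι i₀, hratio i i₀⟩
  have hxi : ∀ i, (x i : RF L ι) = xx L ι i / xx L ι i₀ := fun i => rfl
  refine ⟨K, inferInstance, inferInstance, act, hG, x, ⟨?_, ?_⟩, ?_, ?_⟩
  · intro h0
    have h1 := congrArg (fun z : K => (z : RF L ι)) (congrFun h0 i₀)
    simp only [hxi, Pi.zero_apply, ZeroMemClass.coe_zero] at h1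
    exact div_ne_zero (xx_ne_zero i₀) (xx_ne_zero i₀) h1
  · intro g
    have hne : F g (xx L ι i₀) ≠ 0 := hFne g _ (xx_ne_zero i₀)
    have hmem : xx L ι i₀ / F g (xx L ι i₀) ∈ K := by
      have h1 : F g (xx L ι i₀) / xx L ι i₀ ∈ K := by
        rw [hFx, Finset.sum_div]
        refine K.sum_mem fun k _ => ?_
        rw [mul_div_assoc]
        exact K.mul_mem (K.algebraMap_mem _) (hratio k i₀)
      have h2 := K.inv_mem h1
      rwa [inv_div] at h2
    refine ⟨⟨_, hmem⟩, ?_, ?_⟩
    · intro h0
      have h1 := congrArg (fun z : K => (z : RF L ι)) h0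
      exact div_ne_zero (xx_ne_zero i₀) hne h1
    · funext i
      apply Subtype.ext
      rw [Pi.smul_apply, smul_eq_mul]
      show ((((M.P g).map (algebraMap L K)).mulVec (fun i => g • x i) i : K) : RF L ι) =
        xx L ι i₀ / F g (xx L ι i₀) * (xx L ι i / xx L ι i₀)
      rw [Matrix.mulVec, dotProduct]
      have hcoe : ((∑ j, ((M.P g).map (algebraMap L K)) i j * g • x j : K) : RF L ι) =
          ∑ j, algebraMap L (RF L ι) (M.P g i j) * (F g (xx L ι j) / F g (xx L ι i₀)) := by
        rw [AddSubmonoidClass.coe_finsetSum]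
        refine Finset.sum_congr rfl fun j _ => ?_
        rw [MulMemClass.coe_mul, hact, hxi, map_div₀]
        rfl
      rw [hcoe]
      have hsum : ∑ j, algebraMap L (RF L ι) (M.P g i j) * F g (xx L ι j) = xx L ι i := by
        simp only [hFx, Finset.mul_sum]
        rw [Finset.sum_comm]
        have h3 : ∀ k, ∑ j, algebraMap L (RF L ι) (M.P g i j) *
            (algebraMap L (RF L ι) ((M.P g)⁻¹ j k) * xx L ι k) =
            algebraMap L (RF L ι) ((1 : Matrix ι ι L) i k) * xx L ι k := by
          intro k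
          rw [← Matrix.mul_nonsing_inv _ (M.isUnit_det g), Matrix.mul_apply, map_sum,
            Finset.sum_mul]
          refine Finset.sum_congr rfl fun j _ => ?_
          rw [map_mul, mul_assoc]
        rw [Finset.sum_congr rfl fun k _ => h3 k, Finset.sum_eq_single i]
        · simp
        · intro b _ hb
          simp [Matrix.one_apply_ne hb.symm]
        · intro h
          exact absurd (Finset.mem_univ _) h
      have h4 : ∑ j, algebraMap L (RF L ι) (M.P g i j) * (F g (xx L ι j) / F g (xx L ι i₀)) =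
          (∑ j, algebraMap L (RF L ι) (M.P g i j) * F g (xx L ι j)) / F g (xx L ι i₀) := by
        rw [Finset.sum_div]
        refine Finset.sum_congr rfl fun j _ => ?_
        rw [mul_div_assoc]
      rw [h4, hsum]
      have h5 := xx_ne_zero (L := L) i₀
      field_simp
  · show projField L x = ⊤
    refine (congrArg (IntermediateField.adjoin L) ?_).trans
      (adjoin_in_adjoin (L := L) {z | ∃ i j, z = xx L ι i / xx L ι j})
    ext z
    have hdiv : ∀ i j, ((x i / x j : K) : RF L ι) = xx L ι i / xx L ι j := by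
      intro i j
      show (x i : RF L ι) / (x j : RF L ι) = _
      rw [hxi, hxi, div_div_div_cancel_right₀ (xx_ne_zero i₀)]
    constructor
    · rintro ⟨i, j, rfl⟩
      exact ⟨i, j, hdiv i j⟩
    · rintro ⟨i, j, h⟩
      exact ⟨i, j, Subtype.ext (h.trans (hdiv i j).symm)⟩
  · rw [← Nat.card_eq_fintype_card]
    exact projField_xx_trdeg

end Pool.Agent.MP12f267
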