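import Mathlib
import Pool.Agent.Work.MP_12f267_ag.Interface
import Pool.Agent.Work.MP_12f267_ag.Sub

/-! Block FIB, part A: fields of the fibres, stability, transcendence degrees. -/

open TensorProduct Cardinal

namespace Pool.Agent.MP12f267

universe u

section Defs

variable (L : Type u) {X Y K : Type u} [Field L] [Field K] [Algebra L K] (π : X → Y)

/-- The field generated by the ratios inside a fibre. -/
def fibField (v : X → K) (y : Y) : IntermediateField L K :=
  IntermediateField.adjoin L {z | ∃ i j : X, π i = y ∧ π j = y ∧ z = v i / v j}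

/-- The field generated by the ratios inside all fibres. -/
def blockField (v : X → K) : IntermediateField L K :=
  IntermediateField.adjoin L {z | ∃ i j : X, π i = π j ∧ z = v i / v j}

lemma ratio_mem_fibField (v : X → K) {i j : X} {y : Y} (hi : π i = y) (hj : π j = y) :
    v i / v j ∈ fibField L π v y :=
  IntermediateField.subset_adjoin _ _ ⟨i, j, hi, hj, rfl⟩

lemma fibField_le_blockField (v : X → K) (y : Y) : fibField L π v y ≤ blockField L π v := by
  apply IntermediateField.adjoin.mono
  rintro z ⟨i, j, hi, hj, rfl⟩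
  exact ⟨i, j, hi.trans hj.symm, rfl⟩

lemma ratio_mem_blockField (v : X → K) {i j : X} (hij : π i = π j) :
    v i / v j ∈ blockField L π v :=
  IntermediateField.subset_adjoin _ _ ⟨i, j, hij, rfl⟩

end Defs

section FibA

variable {G L X Y K : Type u} [Group G] [Field L] [MulSemiringAction G L] [MulAction G X]
  [MulAction G Y] [Field K] [Algebra L K] [MulSemiringAction G K] [GField G L K]
  (π : X →[G] Y)

/-- The basic formula: ratios are moved to ratios. -/
lemma smul_ratio {c : Mono G L X} {v : X → K} (hv : c.IsPt K v) (g : G) (i j : X) :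
    g • (v i / v j) = algebraMap L K (c.c g j / c.c g i) * (v (g • i) / v (g • j)) := by
  obtain ⟨hv0, hv1⟩ := hv
  obtain ⟨μ, hμ, h⟩ := hv1 g
  have hi := h i
  have hj := h j
  have ci : algebraMap L K (c.c g i) ≠ 0 := by simpa using c.c_ne g i
  have cj : algebraMap L K (c.c g j) ≠ 0 := by simpa using c.c_ne g j
  have gi : g • v i ≠ 0 := smul_ne_zero_field g (hv0 i)
  have gj : g • v j ≠ 0 := smul_ne_zero_field g (hv0 j)
  have vi := hv0 (g • i)
  have vj := hv0 (g • j)
  rw [smul_div_field, map_div₀]
  field_simp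
  have e : (μ * v (g • i)) * (algebraMap L K (c.c g j) * g • v j) =
      (algebraMap L K (c.c g i) * g • v i) * (μ * v (g • j)) := by rw [hi, hj]
  have e2 : μ * (algebraMap L K (c.c g i) * g • v i * v (g • j)) =
      μ * (g • v j * algebraMap L K (c.c g j) * v (g • i)) := by linear_combination -e
  have := mul_left_cancel₀ hμ e2
  linear_combination this

lemma fib_smul_mem {c : Mono G L X} {v : X → K} (hv : c.IsPt K v) (g : G) (y : Y) :
    ∀ z ∈ fibField L π v y, g • z ∈ fibField L π v (g • y) := by
  apply smul_mem_of_adjoin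
  rintro z ⟨i, j, hi, hj, rfl⟩
  rw [smul_ratio hv]
  exact IntermediateField.mul_mem _ (IntermediateField.algebraMap_mem _ _)
    (ratio_mem_fibField L π v (by rw [map_smul, hi]) (by rw [map_smul, hj]))

lemma block_smul_mem {c : Mono G L X} {v : X → K} (hv : c.IsPt K v) (g : G) :
    ∀ z ∈ blockField L π v, g • z ∈ blockField L π v := by
  apply smul_mem_of_adjoin
  rintro z ⟨i, j, hij, rfl⟩
  rw [smul_ratio hv]
  refine IntermediateField.mul_mem _ (IntermediateField.algebraMap_mem _ _) ?_
  exact IntermediateField.subset_adjoin _ _ ⟨g • i, g • j, by rw [map_smul, map_smul, hij], rfl⟩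

end FibA

section TrdegA

variable {L X Y K : Type u} [Field L] [Field K] [Algebra L K] [Finite X] [Finite Y]
  (π : X → Y) (r : Y → X) (hr : ∀ y, π (r y) = y)

include hr in
omit [Finite Y] in
/-- A count: the points different from the representatives of their fibres. -/
lemma card_nonrep : Nat.card {x : X // x ≠ r (π x)} + Nat.card Y = Nat.card X := by
  classical
  have h1 : Nat.card Y = Nat.card {x : X // x = r (π x)} := by
    apply Nat.card_congr
    exact
      { toFun := fun y => ⟨r y, by rw [hr]⟩
        invFun := fun x => π x.1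
        left_inv := fun y => hr y
        right_inv := fun x => Subtype.ext x.2.symm }
  rw [h1, add_comm, ← Nat.card_sum]
  exact Nat.card_congr (Equiv.sumCompl fun x => x = r (π x))

include hr in
omit [Finite Y] in
lemma card_fib_nonrep (y : Y) :
    Nat.card {x : {x : X // x ≠ r (π x)} // π x.1 = y} + 1 = Nat.card {x : X // π x = y} := by
  classical
  have h1 : Nat.card {x : {x : X // x ≠ r (π x)} // π x.1 = y} =
      Nat.card {x : {x : X // π x = y} // ¬ x.1 = r y} := by
    apply Nat.card_congr
    exact
      { toFun := fun x => ⟨⟨x.1.1, x.2⟩, fun h => x.1.2 (by rw [x.2]; exact h)⟩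
        invFun := fun x => ⟨⟨x.1.1, fun h => x.2 (by rw [x.1.2] at h; exact h)⟩, x.1.2⟩
        left_inv := fun x => rfl
        right_inv := fun x => rfl }
  have h2 : 1 = Nat.card {x : {x : X // π x = y} // x.1 = r y} := by
    have : Unique {x : {x : X // π x = y} // x.1 = r y} :=
      { default := ⟨⟨r y, hr y⟩, rfl⟩
        uniq := fun x => Subtype.ext (Subtype.ext x.2) }
    simp
  rw [h1]
  conv_lhs => rw [h2]
  rw [add_comm, ← Nat.card_sum]
  exact Nat.card_congr (Equiv.sumCompl fun x : {x : X // π x = y} => x.1 = r y)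

/-- The family of ratios adapted to the fibration. -/
def famA (v : X → K) (y₀ : Y) : {x : X // x ≠ r (π x)} ⊕ {y : Y // y ≠ y₀} → K :=
  Sum.elim (fun x => v x.1 / v (r (π x.1))) (fun y => v (r y.1) / v (r y₀))

omit [Finite X] [Finite Y] in
lemma famA_adjoin (v : X → K) (hv0 : ∀ x, v x ≠ 0) (hgen : projField L v = ⊤) (y₀ : Y) :
    IntermediateField.adjoin L (Set.range (famA π r v y₀)) = ⊤ := by
  rw [eq_top_iff, ← hgen]
  set E := IntermediateField.adjoin L (Set.range (famA π r v y₀)) with hE
  have h1 : ∀ x, v x / v (r (π x)) ∈ E := by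
    intro x
    by_cases hx : x = r (π x)
    · rw [← hx, div_self (hv0 x)]
      exact E.one_mem
    · exact IntermediateField.subset_adjoin _ _ ⟨Sum.inl ⟨x, hx⟩, rfl⟩
  have h2 : ∀ y, v (r y) / v (r y₀) ∈ E := by
    intro y
    by_cases hy : y = y₀
    · rw [hy, div_self (hv0 _)]
      exact E.one_mem
    · exact IntermediateField.subset_adjoin _ _ ⟨Sum.inr ⟨y, hy⟩, rfl⟩
  have h3 : ∀ x, v x / v (r y₀) ∈ E := by
    intro x
    have e : v x / v (r y₀) = (v x / v (r (π x))) * (v (r (π x)) / v (r y₀)) := by
      have := hv0 (r (π x))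
      have := hv0 (r y₀)
      field_simp
    rw [e]
    exact E.mul_mem (h1 x) (h2 _)
  apply IntermediateField.adjoin_le_iff.mpr
  rintro z ⟨i, j, rfl⟩
  have e : v i / v j = (v i / v (r y₀)) / (v j / v (r y₀)) := by
    have := hv0 (r y₀)
    have := hv0 j
    field_simp
  rw [e]
  exact E.div_mem (h3 i) (h3 j)

include hr in
lemma famA_algInd (v : X → K) (hv0 : ∀ x, v x ≠ 0) (hgen : projField L v = ⊤)
    (htr : Algebra.trdeg L K + 1 = (Nat.card X : Cardinal)) (y₀ : Y) :
    AlgebraicIndependent L (famA π r v y₀) := by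
  classical
  apply algInd_of_adjoin_eq_top _ (famA_adjoin π r v hv0 hgen y₀)
  have h1 := card_nonrep π r hr
  have h2 : Nat.card {y : Y // ¬ y = y₀} + 1 = Nat.card Y := by
    have h3 : 1 = Nat.card {y : Y // y = y₀} := by simp
    conv_lhs => rw [h3]
    rw [add_comm, ← Nat.card_sum]
    exact Nat.card_congr (Equiv.sumCompl fun y : Y => y = y₀)
  have h4 : Nat.card ({x : X // x ≠ r (π x)} ⊕ {y : Y // y ≠ y₀}) + 1 = Nat.card X := by
    rw [Nat.card_sum, ← h1, ← h2]
    ring
  have h5 : (#({x : X // x ≠ r (π x)} ⊕ {y : Y // y ≠ y₀}) : Cardinal) + 1 =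
      Algebra.trdeg L K + 1 := by
    rw [htr, ← h4, ← Nat.cast_card]
    push_cast
    rfl
  exact (Cardinal.add_one_inj.mp h5).le

include hr in
lemma trdeg_fib (v : X → K) (hv0 : ∀ x, v x ≠ 0) (hgen : projField L v = ⊤)
    (htr : Algebra.trdeg L K + 1 = (Nat.card X : Cardinal)) (y : Y) :
    Algebra.trdeg L (fibField L π v y) + 1 = (Nat.card {x : X // π x = y} : Cardinal) := by
  have hind := famA_algInd π r hr v hv0 hgen htr y
  let s : {x : {x : X // x ≠ r (π x)} // π x.1 = y} → K := fun x => v x.1.1 / v (r (π x.1.1))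
  have hs : AlgebraicIndependent L s :=
    hind.comp (fun x : {x : {x : X // x ≠ r (π x)} // π x.1 = y} => Sum.inl x.1)
      (Sum.inl_injective.comp Subtype.val_injective)
  have hE : IntermediateField.adjoin L (Set.range s) = fibField L π v y := by
    apply le_antisymm
    · apply IntermediateField.adjoin_le_iff.mpr
      rintro z ⟨x, rfl⟩
      exact ratio_mem_fibField L π v x.2 (by rw [hr, x.2])
    · apply IntermediateField.adjoin_le_iff.mpr
      rintro z ⟨i, j, hi, hj, rfl⟩
      have h1 : ∀ x, π x = y → v x / v (r y) ∈ IntermediateField.adjoin L (Set.range s) := by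
        intro x hx
        by_cases hx2 : x = r (π x)
        · rw [hx] at hx2
          rw [← hx2, div_self (hv0 x)]
          exact IntermediateField.one_mem _
        · refine IntermediateField.subset_adjoin _ _ ⟨⟨⟨x, hx2⟩, hx⟩, ?_⟩
          simp [s, hx]
      have e : v i / v j = (v i / v (r y)) / (v j / v (r y)) := by
        have := hv0 (r y)
        have := hv0 j
        field_simp
      rw [e]
      exact IntermediateField.div_mem _ (h1 i hi) (h1 j hj)
  rw [← hE, trdeg_adjoin_of_algInd s hs, ← card_fib_nonrep π r hr y, ← Nat.cast_card]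
  push_cast
  rfl

include hr in
lemma trdeg_block (v : X → K) (hv0 : ∀ x, v x ≠ 0) (hgen : projField L v = ⊤)
    (htr : Algebra.trdeg L K + 1 = (Nat.card X : Cardinal)) (y₀ : Y) :
    Algebra.trdeg L (blockField L π v) = (Nat.card {x : X // x ≠ r (π x)} : Cardinal) := by
  have hind := famA_algInd π r hr v hv0 hgen htr y₀
  let s : {x : X // x ≠ r (π x)} → K := fun x => v x.1 / v (r (π x.1))
  have hs : AlgebraicIndependent L s := hind.comp Sum.inl Sum.inl_injective
  have hE : IntermediateField.adjoin L (Set.range s) = blockField L π v := by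
    apply le_antisymm
    · apply IntermediateField.adjoin_le_iff.mpr
      rintro z ⟨x, rfl⟩
      exact ratio_mem_blockField L π v (by rw [hr])
    · apply IntermediateField.adjoin_le_iff.mpr
      rintro z ⟨i, j, hij, rfl⟩
      have h1 : ∀ x, v x / v (r (π x)) ∈ IntermediateField.adjoin L (Set.range s) := by
        intro x
        by_cases hx2 : x = r (π x)
        · rw [← hx2, div_self (hv0 x)]
          exact IntermediateField.one_mem _
        · exact IntermediateField.subset_adjoin _ _ ⟨⟨x, hx2⟩, rfl⟩
      have e : v i / v j = (v i / v (r (π i))) / (v j / v (r (π j))) := by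
        have := hv0 (r (π i))
        have := hv0 j
        rw [← hij]
        field_simp
      rw [e]
      exact IntermediateField.div_mem _ (h1 i) (h1 j)
  rw [← hE, trdeg_adjoin_of_algInd s hs, ← Nat.cast_card]

include hr in
lemma trdeg_top (v : X → K) (hv0 : ∀ x, v x ≠ 0) (hgen : projField L v = ⊤)
    (htr : Algebra.trdeg L K + 1 = (Nat.card X : Cardinal)) (y₀ : Y) :
    Algebra.trdeg (blockField L π v) K + 1 = (Nat.card Y : Cardinal) := by
  have h1 := trdeg_block π r hr v hv0 hgen htr y₀
  have h2 := _root_.trdeg_add_eq L (blockField L π v) (A := K)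
  rw [h1] at h2
  have h3 := card_nonrep π r hr
  rw [← h2, ← h3, add_assoc] at htr
  push_cast at htr
  exact Cardinal.eq_of_add_eq_add_left htr (Cardinal.natCast_lt_aleph0)

end TrdegA

end Pool.Agent.MP12f267
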