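import Mathlib
import Pool.Agent.Work.MP_12f267_ag.FibA

/-! Block FIB, part B: generic points in fibres and their equivariant extension. -/

open TensorProduct Cardinal

namespace Pool.Agent.MP12f267

universe u

section FibB

variable {G L X Y K : Type u} [Group G] [Field L] [MulSemiringAction G L] [MulAction G X]
  [MulAction G Y] [Field K] [Algebra L K] [MulSemiringAction G K] [GField G L K]
  (π : X →[G] Y)

lemma gField_restrict (N : Subgroup G) : GField N L K :=
  ⟨fun g l => GField.smul_algebraMap (g : G) l⟩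

/-- A local generic point: generic for the fibre over `y`, in the language of total functions. -/
def LocGen (c' : Mono G L X) (v : X → K) (y : Y) (w : X → K) : Prop :=
  (∀ x, π x = y → w x ≠ 0) ∧ (∀ x, π x = y → w x ∈ fibField L π v y) ∧
  (∀ h : G, h • y = y → ∃ μ : K, μ ≠ 0 ∧ μ ∈ fibField L π v y ∧
    ∀ x, π x = y → algebraMap L K (c'.c h x) * h • w x = μ * w (h • x)) ∧
  fibField L π v y ≤ fibField L π w y

lemma locGen_of_birTo [Finite X] [Finite Y] (c c' : Mono G L X) (r : Y → X)
    (hr : ∀ y, π (r y) = y) (y : Y) (hbir : (c.fib π y).BirTo (c'.fib π y)) (v : X → K)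
    (hv : c.Gen K v) : ∃ w : X → K, LocGen π c' v y w := by
  classical
  obtain ⟨hpt, hgen, htr⟩ := hv
  have hpt' := hpt
  obtain ⟨hv0, hv1⟩ := hpt'
  let E := fibField L π v y
  have hE : ∀ (g : MulAction.stabilizer G y) (z : K), z ∈ E → g • z ∈ E := by
    intro g z hz
    have h1 := fib_smul_mem π hpt (g : G) y z hz
    have h2 : (g : G) • y = y := g.2
    rw [h2] at h1
    exact h1
  have : GField (MulAction.stabilizer G y) L K := gField_restrict _
  letI := stabAct E hE
  have := stabAct_gField E hE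
  let u : Fib π y → E := fun x => ⟨v x.1 / v (r y), ratio_mem_fibField L π v x.2 (hr y)⟩
  have hu : (c.fib π y).Gen E u := by
    refine ⟨⟨fun x => ?_, fun g => ?_⟩, ?_, ?_⟩
    · intro h
      have h2 : v x.1 / v (r y) = 0 := congrArg Subtype.val h
      exact div_ne_zero (hv0 _) (hv0 _) h2
    · have hgy : (g : G) • y = y := g.2
      have hm : v (r y) / v ((g : G) • r y) ∈ E :=
        ratio_mem_fibField L π v (hr y) (by rw [map_smul, hr, hgy])
      refine ⟨algebraMap L E (c.c g (r y)) * ⟨_, hm⟩, ?_, ?_⟩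
      · refine mul_ne_zero (by simpa using c.c_ne g (r y)) ?_
        intro h
        have h2 : v (r y) / v ((g : G) • r y) = 0 := congrArg Subtype.val h
        exact div_ne_zero (hv0 _) (hv0 _) h2
      · intro x
        apply Subtype.ext
        show algebraMap L K (c.c g x.1) * (g : G) • (v x.1 / v (r y)) =
          algebraMap L K (c.c g (r y)) * (v (r y) / v ((g : G) • r y)) *
            (v ((g : G) • x.1) / v (r y))
        rw [smul_ratio hpt, map_div₀]
        have h1 : algebraMap L K (c.c g x.1) ≠ 0 := by simpa using c.c_ne g x.1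
        have h2 := hv0 (r y)
        have h3 := hv0 ((g : G) • r y)
        field_simp
    · refine Eq.trans ?_
        (adjoin_in_adjoin (L := L) {z : K | ∃ i j : X, π i = y ∧ π j = y ∧ z = v i / v j})
      unfold projField
      congr 1
      ext z
      constructor
      · rintro ⟨i, j, rfl⟩
        refine ⟨i.1, j.1, i.2, j.2, ?_⟩
        show v i.1 / v (r y) / (v j.1 / v (r y)) = v i.1 / v j.1
        have h2 := hv0 (r y)
        have h3 := hv0 j.1
        field_simp
      · rintro ⟨i, j, hi, hj, hz⟩
        refine ⟨⟨i, hi⟩, ⟨j, hj⟩, Subtype.ext ?_⟩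
        rw [hz]
        show v i / v j = v i / v (r y) / (v j / v (r y))
        have h2 := hv0 (r y)
        have h3 := hv0 j
        field_simp
    · exact trdeg_fib π r hr v hv0 hgen htr y
  obtain ⟨w0, ⟨⟨hw0, hw1⟩, hw2, -⟩⟩ := hbir E u hu
  refine ⟨fun x => if hx : π x = y then (w0 ⟨x, hx⟩ : K) else 0, ?_, ?_, ?_, ?_⟩
  · intro x hx h
    simp only [hx, dif_pos] at h
    exact hw0 ⟨x, hx⟩ (Subtype.ext h)
  · intro x hx
    simp only [hx, dif_pos]
    exact (w0 ⟨x, hx⟩).2
  · intro h hh
    obtain ⟨μ, hμ, hμ2⟩ := hw1 ⟨h, hh⟩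
    refine ⟨μ, fun e => hμ (Subtype.ext e), μ.2, ?_⟩
    intro x hx
    have hx2 : π (h • x) = y := by rw [map_smul, hx, hh]
    simp only [hx, hx2, dif_pos]
    have := congrArg Subtype.val (hμ2 ⟨x, hx⟩)
    exact this
  · have h1 : (projField L w0).map E.val = E := by
      rw [hw2, ← AlgHom.fieldRange_eq_map, IntermediateField.fieldRange_val]
    have h2 : (projField L w0).map E.val ≤ fibField L π
        (fun x => if hx : π x = y then (w0 ⟨x, hx⟩ : K) else 0) y := by
      unfold projField
      rw [IntermediateField.adjoin_map]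
      apply IntermediateField.adjoin_le_iff.mpr
      rintro _ ⟨_, ⟨i, j, rfl⟩, rfl⟩
      have h3 := ratio_mem_fibField L π
        (fun x => if hx : π x = y then (w0 ⟨x, hx⟩ : K) else 0) i.2 j.2
      have hi : π i.1 = y := i.2
      have hj : π j.1 = y := j.2
      simp only [hi, hj, dif_pos] at h3
      exact h3
    rw [h1] at h2
    exact h2

/-- Global local-generic family: the relation along the fibres. -/
def GlobGen (c' : Mono G L X) (v : X → K) (w : X → K) : Prop :=
  (∀ x, w x ≠ 0) ∧ (∀ x, w x ∈ fibField L π v (π x)) ∧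
  (∀ (h : G) (y : Y), ∃ μ : K, μ ≠ 0 ∧ μ ∈ fibField L π v (h • y) ∧
    ∀ x, π x = y → algebraMap L K (c'.c h x) * h • w x = μ * w (h • x)) ∧
  ∀ y, fibField L π v y ≤ fibField L π w y

lemma globGen_of_locGen (c c' : Mono G L X) (v : X → K)
    (hpt : c.IsPt K v) (hloc : ∀ y, ∃ w : X → K, LocGen π c' v y w) :
    ∃ w : X → K, GlobGen π c' v w := by
  classical
  choose w0 hw0 using hloc
  -- representatives of the orbits
  let o : Y → Y := fun y => (Quotient.mk (MulAction.orbitRel G Y) y).out
  have ho : ∀ y, ∃ g : G, g • o y = y := by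
    intro y
    have h1 : (MulAction.orbitRel G Y).r y (o y) := by
      exact (MulAction.orbitRel G Y).symm (Quotient.mk_out (s := MulAction.orbitRel G Y) y)
    obtain ⟨g, hg⟩ := h1
    exact ⟨g, hg⟩
  have ho2 : ∀ (h : G) (y : Y), o (h • y) = o y := by
    intro h y
    have : Quotient.mk (MulAction.orbitRel G Y) (h • y) = Quotient.mk (MulAction.orbitRel G Y) y :=
      Quotient.sound ⟨h, rfl⟩
    simp only [o, this]
  choose γ hγ using ho
  have hγ' : ∀ y, (γ y)⁻¹ • y = o y := fun y => by
    rw [inv_smul_eq_iff, hγ]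
  let w : X → K := fun x => algebraMap L K (c'.c (γ (π x)) ((γ (π x))⁻¹ • x)) *
    (γ (π x)) • w0 (o (π x)) ((γ (π x))⁻¹ • x)
  have hwdef : ∀ x, w x = algebraMap L K (c'.c (γ (π x)) ((γ (π x))⁻¹ • x)) *
    (γ (π x)) • w0 (o (π x)) ((γ (π x))⁻¹ • x) := fun x => rfl
  have hπ : ∀ x, π ((γ (π x))⁻¹ • x) = o (π x) := fun x => by rw [map_smul, hγ']
  have hmem : ∀ x, w x ∈ fibField L π v (π x) := by
    intro x
    rw [hwdef]
    refine IntermediateField.mul_mem _ (IntermediateField.algebraMap_mem _ _) ?_
    have h1 := fib_smul_mem π hpt (γ (π x)) (o (π x)) _ ((hw0 (o (π x))).2.1 _ (hπ x))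
    rwa [hγ] at h1
  have hne : ∀ x, w x ≠ 0 := by
    intro x
    rw [hwdef]
    exact mul_ne_zero (by simpa using c'.c_ne _ _)
      (smul_ne_zero_field _ ((hw0 (o (π x))).1 _ (hπ x)))
  refine ⟨w, hne, hmem, ?_, ?_⟩
  · intro h y
    set g := γ y with hg
    set g' := γ (h • y) with hg'
    set n := g'⁻¹ * h * g with hn
    have hno : n • o y = o y := by
      rw [hn, mul_smul, mul_smul, hg, hγ, hg', hγ', ho2]
    obtain ⟨μ, hμ, hμm, hμr⟩ := (hw0 (o y)).2.2.1 n hno
    have hgn : g' * n = h * g := by rw [hn]; group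
    refine ⟨algebraMap L K (c'.a h g / c'.a g' n) * g' • μ, ?_, ?_, ?_⟩
    · refine mul_ne_zero ?_ (smul_ne_zero_field _ hμ)
      simpa using ⟨c'.a_ne _ _, c'.a_ne _ _⟩
    · refine IntermediateField.mul_mem _ (IntermediateField.algebraMap_mem _ _) ?_
      have h1 := fib_smul_mem π hpt g' (o y) μ hμm
      have h2 : g' • o y = h • y := by rw [← ho2 h y, hg', hγ]
      rwa [h2] at h1
    · intro x hx
      have hz : π (g⁻¹ • x) = o y := by rw [map_smul, hx, hg, hγ']
      have hrel := hμr (g⁻¹ • x) hz
      rw [hwdef x, hwdef (h • x), hx]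
      have hx2 : π (h • x) = h • y := by rw [map_smul, hx]
      rw [hx2, ← hg, ← hg', ho2]
      have hz2 : g'⁻¹ • h • x = n • g⁻¹ • x := by
        rw [hn, smul_smul, smul_smul]
        congr 1
        group
      rw [hz2]
      set z := g⁻¹ • x with hzdef
      have hxz : x = g • z := by rw [hzdef]; simp
      have hrel' := congrArg (fun t => g' • t) hrel
      simp only [smul_mul'] at hrel'
      rw [GField.smul_algebraMap] at hrel'
      have m1 := c'.mul h g z
      have m2 := c'.mul g' n z
      rw [hgn] at m2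
      rw [← hxz] at m1
      have m1' := congrArg (algebraMap L K) m1
      have m2' := congrArg (algebraMap L K) m2
      simp only [map_mul] at m1' m2'
      rw [smul_mul', GField.smul_algebraMap]
      have hsm : h • g • w0 (o y) z = g' • n • w0 (o y) z := by
        rw [smul_smul, smul_smul, hgn]
      rw [hsm]
      have ha1 : algebraMap L K (c'.a g' n) ≠ 0 := by simpa using c'.a_ne g' n
      rw [map_div₀]
      field_simp
      linear_combination (g' • n • w0 (o y) z) * algebraMap L K (c'.a g' n) * m1' -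
        algebraMap L K (c'.a h g) * (g' • n • w0 (o y) z) * m2' +
        algebraMap L K (c'.a h g) * algebraMap L K (c'.c g' (n • z)) * hrel'
  · intro y
    have key : ∀ t ∈ fibField L π (w0 (o y)) (o y), γ y • t ∈ fibField L π w y := by
      apply smul_mem_of_adjoin
      rintro t ⟨i, j, hi, hj, rfl⟩
      have e : ∀ z, π z = o y → γ y • w0 (o y) z =
          algebraMap L K (c'.c (γ y) z)⁻¹ * w (γ y • z) := by
        intro z hz
        have h1 : π (γ y • z) = y := by rw [map_smul, hz, hγ]
        rw [hwdef, h1, inv_smul_smul, map_inv₀]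
        have : algebraMap L K (c'.c (γ y) z) ≠ 0 := by simpa using c'.c_ne _ _
        field_simp
      rw [smul_div_field, e i hi, e j hj, mul_div_mul_comm, ← map_div₀]
      exact IntermediateField.mul_mem _ (IntermediateField.algebraMap_mem _ _)
        (ratio_mem_fibField L π w (by rw [map_smul, hi, hγ]) (by rw [map_smul, hj, hγ]))
    intro t ht
    have h1 := fib_smul_mem π hpt (γ y)⁻¹ y t ht
    rw [hγ'] at h1
    have h2 := key _ ((hw0 (o y)).2.2.2 h1)
    rwa [smul_inv_smul] at h2

end FibB

end Pool.Agent.MP12f267
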