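import Mathlib
import Pool.Agent.Work.MP_12f267_ag.FibB

/-! Block FIB: fibrations of monomial modules. -/

open TensorProduct Cardinal

namespace Pool.Agent.MP12f267

universe u

section Build

variable {G L X Y K : Type u} [Group G] [Field L] [MulSemiringAction G L] [MulAction G X]
  [MulAction G Y] [Field K] [Algebra L K] [MulSemiringAction G K] [GField G L K]
  (π : X →[G] Y)

/-- A function on `X` with a relation along the fibres gives a monomial module on `Y`. -/
lemma build (M : IntermediateField L K) [MulSemiringAction G M] [GField G M K] [GField G L M]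
    (c : Mono G L X) (r : Y → X) (hr : ∀ y, π (r y) = y) (w : X → K) (hw : ∀ x, w x ≠ 0)
    (hrel : ∀ (h : G) (y : Y), ∃ μ : K, μ ≠ 0 ∧ μ ∈ M ∧
      ∀ x, π x = y → algebraMap L K (c.c h x) * h • w x = μ * w (h • x)) :
    ∃ R : Mono G M Y, (∀ g h, R.a g h = algebraMap L M (c.a g h)) ∧
      ∀ (h : G) (x : X), algebraMap L K (c.c h x) * h • w x = (R.c h (π x) : K) * w (h • x) := by
  choose lam hlam0 hlamM hlamr using hrel
  have key : ∀ (g h : G) (y : Y), lam g (h • y) * g • lam h y =
      algebraMap L K (c.a g h) * lam (g * h) y := by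
    intro g h y
    have h1 := hlamr h y (r y) (hr y)
    have h2 := hlamr g (h • y) (h • r y) (by rw [map_smul, hr])
    have h3 := hlamr (g * h) y (r y) (hr y)
    have h4 := congrArg (algebraMap L K) (c.mul g h (r y))
    have h5 := congrArg (fun t => g • t) h1
    simp only [smul_mul'] at h5
    rw [GField.smul_algebraMap] at h5
    simp only [map_mul] at h4
    rw [mul_smul, mul_smul] at h3
    have hne : w (g • h • r y) ≠ 0 := hw _
    have hne2 : g • w (h • r y) ≠ 0 := smul_ne_zero_field _ (hw _)
    apply mul_right_cancel₀ hne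
    apply mul_right_cancel₀ hne2
    -- lam g (hy) * g lam h y * w(ghr) * g w(hr)
    linear_combination (-(g • lam h y) * g • w (h • r y)) * h2 -
      (algebraMap L K (c.c g (h • r y)) * g • w (h • r y)) * h5 +
      (g • h • w (r y) * g • w (h • r y)) * h4 +
      (algebraMap L K (c.a g h) * g • w (h • r y)) * h3
  refine ⟨⟨fun h y => ⟨lam h y, hlamM h y⟩, fun g h => algebraMap L M (c.a g h), ?_, ?_, ?_⟩,
    fun _ _ => rfl, ?_⟩
  · intro g x h
    exact hlam0 g x (congrArg Subtype.val h)
  · intro g h
    simpa using c.a_ne g h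
  · intro g h y
    apply (algebraMap M K).injective
    rw [map_mul, map_mul, ← GField.smul_algebraMap, ← IsScalarTower.algebraMap_apply L M K]
    exact key g h y
  · intro h x
    exact hlamr h (π x) x rfl

end Build

theorem stmt_FIB : Stmt_FIB.{u} := by
  intro G L X Y _ _ _ _ _ _ _ π c c' hπ hfib hbase K _ _ _ _ v hv
  classical
  obtain ⟨r, hr⟩ := hπ.hasRightInverse
  replace hr : ∀ y, π (r y) = y := hr
  have hv' := hv
  obtain ⟨hpt, hgen, htr⟩ := hv'
  have hpt' := hpt
  obtain ⟨hv0, hv1⟩ := hpt'
  by_cases hYe : IsEmpty Y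
  · -- degenerate case
    have hX : IsEmpty X := ⟨fun x => hYe.false (π x)⟩
    refine ⟨v, ⟨hv0, fun g => ⟨1, one_ne_zero, fun x => (hX.false x).elim⟩⟩, hgen, htr⟩
  obtain ⟨y₀⟩ := not_isEmpty_iff.mp hYe
  obtain ⟨w, hw0, hwm, hwr, hwle⟩ := globGen_of_locGen π c c' v hpt
    (fun y => locGen_of_birTo π c c' r hr y (hfib y) v hv)
  let M := blockField L π v
  have hM : ∀ (g : G) (z : K), z ∈ M → g • z ∈ M := fun g => block_smul_mem π hpt g
  letI := stabAct M hM
  have := stabAct_gField M hM
  have := stabAct_gField_top M hM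
  obtain ⟨R, hRa, hRr⟩ := build π M c r hr (fun x => v x / v (r (π x)))
    (fun x => div_ne_zero (hv0 _) (hv0 _)) (by
      intro h y
      refine ⟨algebraMap L K (c.c h (r y)) * (v (r (h • y)) / v (h • r y)), ?_, ?_, ?_⟩
      · exact mul_ne_zero (by simpa using c.c_ne h (r y)) (div_ne_zero (hv0 _) (hv0 _))
      · refine IntermediateField.mul_mem _ (IntermediateField.algebraMap_mem _ _) ?_
        exact ratio_mem_blockField L π v (by rw [map_smul, hr, hr])
      · intro x hx
        have hx2 : π (h • x) = h • y := by rw [map_smul, hx]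
        simp only [hx, hx2]
        rw [smul_ratio hpt, map_div₀]
        have h1 : algebraMap L K (c.c h x) ≠ 0 := by simpa using c.c_ne h x
        have h2 := hv0 (r (h • y))
        have h3 := hv0 (h • r y)
        field_simp)
  obtain ⟨R', hRa', hRr'⟩ := build π M c' r hr w hw0 (by
      intro h y
      obtain ⟨μ, hμ, hμm, hμr⟩ := hwr h y
      exact ⟨μ, hμ, fibField_le_blockField L π v _ hμm, hμr⟩)
  have hs : R.Gen K (fun y => v (r y)) := by
    refine ⟨⟨fun y => hv0 _, fun g => ?_⟩, ?_, trdeg_top π r hr v hv0 hgen htr y₀⟩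
    · obtain ⟨μ, hμ, h⟩ := hv1 g
      refine ⟨μ, hμ, fun y => ?_⟩
      have h1 := hRr g (r y)
      have h2 := h (r y)
      simp only [hr, map_smul] at h1
      rw [div_self (hv0 _)] at h1
      have e1 : g • (1 : K) = 1 := smul_one g
      rw [e1, mul_one] at h1
      have e2 := hv0 (r (g • y))
      have e3 := hv0 (g • r y)
      show (R.c g y : K) * g • v (r y) = μ * v (r (g • y))
      rw [h1] at h2
      field_simp at h2
      linear_combination h2
    · rw [eq_top_iff]
      intro z _
      have hz : z ∈ projField L v := by rw [hgen]; exact IntermediateField.mem_top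
      have hle : projField L v ≤
          (projField M (fun y => v (r y))).restrictScalars L := by
        apply IntermediateField.adjoin_le_iff.mpr
        rintro _ ⟨i, j, rfl⟩
        show v i / v j ∈ projField M (fun y => v (r y))
        have e : v i / v j = (v i / v (r (π i))) * (v (r (π i)) / v (r (π j))) *
            (v (r (π j)) / v j) := by
          have := hv0 (r (π i))
          have := hv0 (r (π j))
          have := hv0 j
          field_simp
        rw [e]
        refine IntermediateField.mul_mem _ (IntermediateField.mul_mem _ ?_ ?_) ?_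
        · exact IntermediateField.algebraMap_mem _
            (⟨_, ratio_mem_blockField L π v (by rw [hr])⟩ : M)
        · exact IntermediateField.subset_adjoin _ _ ⟨π i, π j, rfl⟩
        · exact IntermediateField.algebraMap_mem _
            (⟨_, ratio_mem_blockField L π v (by rw [hr])⟩ : M)
      exact hle hz
  obtain ⟨s', ⟨⟨hs0, hs1⟩, hs2, -⟩⟩ := hbase M R R' (Cohom.of_eq fun g h => (hRa g h).symm)
    (Cohom.of_eq fun g h => (hRa' g h).symm) K (fun y => v (r y)) hs
  refine ⟨fun x => s' (π x) * w x, ⟨fun x => mul_ne_zero (hs0 _) (hw0 _), fun g => ?_⟩, ?_, htr⟩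
  · obtain ⟨μ, hμ, h⟩ := hs1 g
    refine ⟨μ, hμ, fun x => ?_⟩
    have h1 := hRr' g x
    have h2 : (R'.c g (π x) : K) * g • s' (π x) = μ * s' (g • π x) := h (π x)
    show algebraMap L K (c'.c g x) * g • (s' (π x) * w x) = μ * (s' (π (g • x)) * w (g • x))
    rw [smul_mul', map_smul]
    linear_combination (g • s' (π x)) * h1 + w (g • x) * h2
  · set E := projField L (fun x => s' (π x) * w x) with hE
    have h1 : ∀ y, fibField L π v y ≤ E := by
      intro y
      refine (hwle y).trans ?_
      apply IntermediateField.adjoin_le_iff.mpr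
      rintro _ ⟨i, j, hi, hj, rfl⟩
      refine IntermediateField.subset_adjoin _ _ ⟨i, j, ?_⟩
      simp only [hi, hj]
      have := hs0 y
      have := hw0 j
      field_simp
    have h2 : M ≤ E := by
      apply IntermediateField.adjoin_le_iff.mpr
      rintro _ ⟨i, j, hij, rfl⟩
      exact h1 (π j) (ratio_mem_fibField L π v hij rfl)
    have hwE : ∀ x, w x ∈ E := fun x => h1 _ (hwm x)
    have h3 : ∀ y y', s' y / s' y' ∈ E := by
      intro y y'
      have e : s' y / s' y' = (s' (π (r y)) * w (r y)) / (s' (π (r y')) * w (r y')) *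
          (w (r y') / w (r y)) := by
        have := hs0 y'
        have := hw0 (r y)
        have := hw0 (r y')
        rw [hr, hr]
        field_simp
      rw [e]
      exact IntermediateField.mul_mem _ (IntermediateField.subset_adjoin _ _ ⟨r y, r y', rfl⟩)
        (IntermediateField.div_mem _ (hwE _) (hwE _))
    rw [eq_top_iff]
    intro z _
    have hz : z ∈ projField M s' := by rw [hs2]; exact IntermediateField.mem_top
    unfold projField at hz
    induction hz using IntermediateField.adjoin_induction with
    | mem x hx =>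
      obtain ⟨i, j, rfl⟩ := hx
      exact h3 i j
    | algebraMap x => exact h2 x.2
    | add x y _ _ hx hy => exact E.add_mem (hx trivial) (hy trivial)
    | inv x _ hx => exact E.inv_mem (hx trivial)
    | mul x y _ _ hx hy => exact E.mul_mem (hx trivial) (hy trivial)

end Pool.Agent.MP12f267
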