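import Mathlib
import Pool.Agent.Work.MP_12f267_ag.CMP
import Pool.Agent.Work.MP_12f267_ag.Sub

/-! Block FIN (helper4): the fixed field of a field with a generic point is the function field. -/

open TensorProduct

namespace Pool.Agent.MP12f267

universe u

namespace FinBlock

section Basics

variable {F L A ι K : Type u} [Field F] [Field L] [Algebra F L]
  [Ring A] [Algebra F A]
  [Field K] [Algebra L K] [Algebra F K] [IsScalarTower F L K]
  [MulSemiringAction (L ≃ₐ[F] L) K] [GField (L ≃ₐ[F] L) L K]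

lemma smul_algF (g : L ≃ₐ[F] L) (r : F) : g • algebraMap F K r = algebraMap F K r := by
  rw [IsScalarTower.algebraMap_apply F L K, GField.smul_algebraMap]
  congr 1
  exact g.commutes r

/-- The action on `K` as homomorphisms of `F`-algebras. -/
noncomputable def actK (g : L ≃ₐ[F] L) : K →ₐ[F] K :=
  { MulSemiringAction.toRingHom (L ≃ₐ[F] L) K g with commutes' := smul_algF g }

lemma actK_apply (g : L ≃ₐ[F] L) (z : K) : actK (F := F) g z = g • z := rfl

/-- The semilinear action on `K ⊗ A`. -/
noncomputable def sigK (g : L ≃ₐ[F] L) : K ⊗[F] A →ₐ[F] K ⊗[F] A :=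
  Algebra.TensorProduct.map (actK g) (AlgHom.id F A)

lemma sigK_tmul (g : L ≃ₐ[F] L) (c : K) (a : A) :
    sigK g (c ⊗ₜ[F] a) = (g • c) ⊗ₜ[F] a := by
  simp [sigK, actK_apply]

lemma sigK_smul (g : L ≃ₐ[F] L) (c : K) (x : K ⊗[F] A) :
    sigK g (c • x) = (g • c) • sigK g x := by
  induction x using TensorProduct.induction_on with
  | zero => simp
  | tmul a b =>
    rw [TensorProduct.smul_tmul', smul_eq_mul, sigK_tmul, sigK_tmul, smul_mul',
      TensorProduct.smul_tmul', smul_eq_mul]
  | add x y hx hy => rw [smul_add, map_add, hx, hy, map_add, smul_add]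

lemma sigK_mul (g h : L ≃ₐ[F] L) (x : K ⊗[F] A) : sigK g (sigK h x) = sigK (g * h) x := by
  induction x using TensorProduct.induction_on with
  | zero => simp
  | tmul a b => rw [sigK_tmul, sigK_tmul, sigK_tmul, mul_smul]
  | add x y hx hy => rw [map_add, map_add, hx, hy, map_add]

lemma sigK_one (x : K ⊗[F] A) : sigK (1 : L ≃ₐ[F] L) x = x := by
  induction x using TensorProduct.induction_on with
  | zero => simp
  | tmul a b => rw [sigK_tmul, one_smul]
  | add x y hx hy => rw [map_add, hx, hy]

section Incl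

variable {k : Type u} [Field k] [Algebra F k] [Algebra k K] [IsScalarTower F k K]

variable (F k A K) in
/-- The inclusion of `k ⊗ A` in `K ⊗ A`. -/
noncomputable def incl : k ⊗[F] A →ₐ[F] K ⊗[F] A :=
  Algebra.TensorProduct.map (IsScalarTower.toAlgHom F k K) (AlgHom.id F A)

omit [IsScalarTower F L K] [MulSemiringAction (L ≃ₐ[F] L) K] [GField (L ≃ₐ[F] L) L K] in
lemma incl_tmul (c : k) (a : A) : incl F A K k (c ⊗ₜ[F] a) = (algebraMap k K c) ⊗ₜ[F] a := by
  simp [incl]

omit [IsScalarTower F L K] [MulSemiringAction (L ≃ₐ[F] L) K] [GField (L ≃ₐ[F] L) L K] in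
lemma incl_smul (c : k) (y : k ⊗[F] A) :
    incl F A K k (c • y) = (algebraMap k K c) • incl F A K k y := by
  induction y using TensorProduct.induction_on with
  | zero => simp
  | tmul a b =>
    rw [TensorProduct.smul_tmul', incl_tmul, incl_tmul, TensorProduct.smul_tmul', smul_eq_mul,
      smul_eq_mul, map_mul]
  | add x y hx hy => rw [smul_add, map_add, hx, hy, map_add, smul_add]

lemma fixed_of_sig [FiniteDimensional F A]
    (hk : ∀ z : K, (∀ g : L ≃ₐ[F] L, g • z = z) → ∃ c : k, algebraMap k K c = z)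
    (z : K ⊗[F] A)
    (hz : ∀ g : L ≃ₐ[F] L, sigK g z = z) : ∃ y, z = incl F A K k y := by
  let b := Module.finBasis F A
  let B := Algebra.TensorProduct.basis K b
  have hB : ∀ i, B i = (1 : K) ⊗ₜ[F] b i := fun i => Algebra.TensorProduct.basis_apply b i
  have hrepr : ∀ i, ∃ c : k, algebraMap k K c = B.repr z i := by
    intro i
    apply hk
    intro g
    have h1 : sigK g z = ∑ j, (g • B.repr z j) • B j := by
      conv_lhs => rw [← B.sum_repr z]
      rw [map_sum]
      refine Finset.sum_congr rfl fun j _ => ?_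
      rw [sigK_smul, hB, sigK_tmul, smul_one]
    rw [hz g] at h1
    have h2 := congrArg (fun w => B.repr w i) h1
    simp only [map_sum, map_smul, Finsupp.coe_finsetSum, Finset.sum_apply, Finsupp.smul_apply,
      B.repr_self, smul_eq_mul] at h2
    rw [Finset.sum_eq_single i] at h2
    · rw [Finsupp.single_eq_same, mul_one] at h2
      exact h2.symm
    · intro j _ hj
      rw [Finsupp.single_eq_of_ne (by simpa using hj.symm), mul_zero]
    · simp
  choose c hc using hrepr
  refine ⟨∑ i, c i ⊗ₜ[F] b i, ?_⟩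
  rw [map_sum]
  conv_lhs => rw [← B.sum_repr z]
  refine Finset.sum_congr rfl fun j _ => ?_
  rw [incl_tmul, hB, TensorProduct.smul_tmul', smul_eq_mul, mul_one, hc]

end Incl

end Basics

section Theta

variable {F L A ι K : Type u} [Field F] [Field L] [Algebra F L]
  [Ring A] [Algebra F A] [FiniteDimensional F A] [Fintype ι] [DecidableEq ι]
  [Field K] [Algebra L K] [Algebra F K] [IsScalarTower F L K]
  [MulSemiringAction (L ≃ₐ[F] L) K] [GField (L ≃ₐ[F] L) L K]

/-- The base change of the model to `K`. -/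
noncomputable def θK (K : Type u) [Field K] [Algebra L K] [Algebra F K] [IsScalarTower F L K]
    (θ : A →ₐ[F] Matrix ι ι L) : A →ₐ[F] Matrix ι ι K :=
  ((IsScalarTower.toAlgHom F L K).mapMatrix).comp θ

omit [FiniteDimensional F A] in
lemma θK_apply (θ : A →ₐ[F] Matrix ι ι L) (a : A) :
    θK K θ a = (θ a).map (algebraMap L K) := rfl

omit [FiniteDimensional F A] in
lemma θK_span (θ : A →ₐ[F] Matrix ι ι L) (h : Submodule.span L (Set.range θ) = ⊤) :
    Submodule.span K (Set.range (θK K θ)) = ⊤ := by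
  have h1 : ∀ Y : Matrix ι ι L, Y.map (algebraMap L K) ∈ Submodule.span K (Set.range (θK K θ)) := by
    intro Y
    have hY : Y ∈ Submodule.span L (Set.range θ) := by rw [h]; trivial
    induction hY using Submodule.span_induction with
    | mem x hx =>
      obtain ⟨a, rfl⟩ := hx
      exact Submodule.subset_span ⟨a, rfl⟩
    | zero =>
      rw [Matrix.map_zero _ (map_zero _)]
      exact Submodule.zero_mem _
    | add x y _ _ hx hy =>
      rw [Matrix.map_add _ (map_add _)]
      exact Submodule.add_mem _ hx hy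
    | smul c x _ hx =>
      have : (c • x).map (algebraMap L K) = (algebraMap L K c) • x.map (algebraMap L K) := by
        ext i j
        simp
      rw [this]
      exact Submodule.smul_mem _ _ hx
  rw [eq_top_iff]
  intro X _
  rw [Matrix.matrix_eq_sum_single X]
  refine Submodule.sum_mem _ fun i _ => Submodule.sum_mem _ fun j _ => ?_
  have : Matrix.single i j (X i j) = (X i j) • (Matrix.single i j (1 : L)).map (algebraMap L K) := by
    ext k l
    by_cases h : i = k ∧ j = l
    · obtain ⟨rfl, rfl⟩ := h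
      simp
    · simp [Matrix.single, h]
  rw [this]
  exact Submodule.smul_mem _ _ (h1 _)

/-- The model over `K`, as an isomorphism. -/
lemma exists_Theta (M : PMod (L ≃ₐ[F] L) L ι) (m : Model F L A M) :
    ∃ Θ : (K ⊗[F] A) ≃ₐ[K] Matrix ι ι K,
      (∀ (c : K) (a : A), Θ (c ⊗ₜ[F] a) = c • (m.θ a).map (algebraMap L K)) ∧
      ∀ (g : L ≃ₐ[F] L) (z : K ⊗[F] A),
        Θ (sigK g z) * (M.P g).map (algebraMap L K) =
          (M.P g).map (algebraMap L K) * (Θ z).map (fun x => g • x) := by
  obtain ⟨Θ, hΘ⟩ := CmpBlock.exists_equiv (θK K m.θ) (θK_span m.θ m.span) m.dim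
  refine ⟨Θ, hΘ, ?_⟩
  intro g z
  have hcomm : ∀ a : A, (m.θ a).map (algebraMap L K) * (M.P g).map (algebraMap L K) =
      (M.P g).map (algebraMap L K) * ((m.θ a).map (algebraMap L K)).map (fun x => g • x) := by
    intro a
    rw [← Matrix.map_mul, m.comm, Matrix.map_mul]
    congr 1
    ext i j
    simp only [Matrix.map_apply]
    rw [GField.smul_algebraMap]
  induction z using TensorProduct.induction_on with
  | zero =>
    rw [map_zero, map_zero, Matrix.map_zero _ (smul_zero g), Matrix.zero_mul, Matrix.mul_zero]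
  | tmul c a =>
    rw [sigK_tmul, hΘ, hΘ, θK_apply]
    have : (c • (m.θ a).map (algebraMap L K)).map (fun x => g • x) =
        (g • c) • ((m.θ a).map (algebraMap L K)).map (fun x => g • x) := by
      ext i j
      simp [smul_mul']
    rw [this, Matrix.smul_mul, Matrix.mul_smul, hcomm]
  | add x y hx hy =>
    rw [map_add, map_add, map_add, Matrix.add_mul, hx, hy, ← Matrix.mul_add]
    congr 1
    ext i j
    simp [smul_add]

end Theta

section Ideal

variable {F L A ι K : Type u} [Field F] [Field L] [Algebra F L] [FiniteDimensional F L]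
  [Ring A] [Algebra F A] [FiniteDimensional F A] [Fintype ι] [DecidableEq ι]
  [Field K] [Algebra L K] [Algebra F K] [IsScalarTower F L K]
  [MulSemiringAction (L ≃ₐ[F] L) K] [GField (L ≃ₐ[F] L) L K]

/-- Column matrices `x ξᵀ`. -/
def colMap (x : ι → K) : (ι → K) →ₗ[K] Matrix ι ι K where
  toFun ξ := Matrix.vecMulVec x ξ
  map_add' ξ η := Matrix.vecMulVec_add x ξ η
  map_smul' c ξ := by
    ext i j
    simp [Matrix.vecMulVec_apply, mul_left_comm]

omit [FiniteDimensional F L] [FiniteDimensional F A] in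
lemma colMap_inj {x : ι → K} (hx : x ≠ 0) : Function.Injective (colMap x) := by
  intro ξ η h
  obtain ⟨i, hi⟩ : ∃ i, x i ≠ 0 := by
    by_contra hcon
    push Not at hcon
    exact hx (funext hcon)
  ext j
  have := congrFun (congrFun h i) j
  simp only [colMap, LinearMap.coe_mk, AddHom.coe_mk, Matrix.vecMulVec_apply] at this
  exact mul_left_cancel₀ hi this

/-- The ideal of `K ⊗ A` attached to the point `x`. -/
noncomputable def bigJ (Θ : (K ⊗[F] A) ≃ₐ[K] Matrix ι ι K) (x : ι → K) :
    Submodule K (K ⊗[F] A) :=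
  LinearMap.range (Θ.symm.toLinearMap ∘ₗ colMap x)

lemma mem_bigJ (Θ : (K ⊗[F] A) ≃ₐ[K] Matrix ι ι K) (x : ι → K) (z : K ⊗[F] A) :
    z ∈ bigJ Θ x ↔ ∃ ξ, Θ z = Matrix.vecMulVec x ξ := by
  constructor
  · rintro ⟨ξ, rfl⟩
    refine ⟨ξ, ?_⟩
    simp only [LinearMap.comp_apply, AlgEquiv.toLinearMap_apply, AlgEquiv.apply_symm_apply]
    rfl
  · rintro ⟨ξ, h⟩
    refine ⟨ξ, ?_⟩
    simp only [LinearMap.comp_apply, AlgEquiv.toLinearMap_apply]
    change Θ.symm (Matrix.vecMulVec x ξ) = z
    rw [← h, AlgEquiv.symm_apply_apply]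

lemma finrank_bigJ (Θ : (K ⊗[F] A) ≃ₐ[K] Matrix ι ι K) {x : ι → K} (hx : x ≠ 0) :
    Module.finrank K (bigJ Θ x) = Fintype.card ι := by
  rw [bigJ, LinearMap.finrank_range_of_inj]
  · exact Module.finrank_fintype_fun_eq_card K
  · rw [LinearMap.coe_comp]
    exact Θ.symm.injective.comp (colMap_inj hx)

lemma bigJ_mul (Θ : (K ⊗[F] A) ≃ₐ[K] Matrix ι ι K) {x : ι → K} {z : K ⊗[F] A}
    (hz : z ∈ bigJ Θ x) (w : K ⊗[F] A) : z * w ∈ bigJ Θ x := by
  rw [mem_bigJ] at hz ⊢
  obtain ⟨ξ, h⟩ := hz
  refine ⟨Matrix.vecMul ξ (Θ w), ?_⟩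
  rw [map_mul, h, Matrix.vecMulVec_mul]

lemma bigJ_sig {M : PMod (L ≃ₐ[F] L) L ι} {Θ : (K ⊗[F] A) ≃ₐ[K] Matrix ι ι K}
    (hΘ : ∀ (g : L ≃ₐ[F] L) (z : K ⊗[F] A),
        Θ (sigK g z) * (M.P g).map (algebraMap L K) =
          (M.P g).map (algebraMap L K) * (Θ z).map (fun x => g • x)) {x : ι → K}
    (hx : M.IsPt K x) (g : L ≃ₐ[F] L) {z : K ⊗[F] A} (hz : z ∈ bigJ Θ x) :
    sigK g z ∈ bigJ Θ x := by
  rw [mem_bigJ] at hz ⊢
  obtain ⟨ξ, h⟩ := hz
  obtain ⟨μ, hμ, hμx⟩ := hx.2 g
  have hdet : ((M.P g).map (algebraMap L K)).det ≠ 0 := by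
    have h1 := M.det_ne g
    rw [← RingHom.mapMatrix_apply, ← RingHom.map_det]
    simpa using h1
  have hPQ := Matrix.mul_nonsing_inv _ hdet.isUnit
  set P := (M.P g).map (algebraMap L K) with hP
  have h2 := hΘ g z
  have h3 : (Matrix.vecMulVec x ξ).map (fun x => g • x) =
      Matrix.vecMulVec (fun i => g • x i) (fun i => g • ξ i) := by
    ext i j
    simp [Matrix.vecMulVec_apply, smul_mul']
  rw [h, h3, Matrix.mul_vecMulVec, hμx] at h2
  refine ⟨μ • Matrix.vecMul (fun i => g • ξ i) P⁻¹, ?_⟩
  calc Θ (sigK g z) = Θ (sigK g z) * (P * P⁻¹) := by rw [hPQ, Matrix.mul_one]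
    _ = Matrix.vecMulVec (μ • x) (fun i => g • ξ i) * P⁻¹ := by rw [← Matrix.mul_assoc, h2]
    _ = Matrix.vecMulVec x (μ • Matrix.vecMul (fun i => g • ξ i) P⁻¹) := by
      rw [Matrix.vecMulVec_mul]
      ext i j
      simp only [Matrix.vecMulVec_apply, Pi.smul_apply, smul_eq_mul]
      ring

section Small

variable {k : Type u} [Field k] [Algebra F k] [Algebra k K] [IsScalarTower F k K]

variable (k) in
/-- The ideal of `k ⊗ A`. -/
noncomputable def smallI (Θ : (K ⊗[F] A) ≃ₐ[K] Matrix ι ι K) (x : ι → K) :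
    Submodule k (k ⊗[F] A) where
  carrier := {y | incl F A K k y ∈ bigJ Θ x}
  add_mem' {a b} ha hb := by
    simp only [Set.mem_ofPred_eq] at ha hb ⊢
    rw [map_add]
    exact Submodule.add_mem _ ha hb
  zero_mem' := by
    simp only [Set.mem_ofPred_eq]
    rw [map_zero]
    exact Submodule.zero_mem _
  smul_mem' c y hy := by
    simp only [Set.mem_ofPred_eq] at hy ⊢
    rw [incl_smul]
    exact Submodule.smul_mem _ _ hy

lemma mem_smallI (Θ : (K ⊗[F] A) ≃ₐ[K] Matrix ι ι K) (x : ι → K)
    (y : k ⊗[F] A) : y ∈ smallI k Θ x ↔ incl F A K k y ∈ bigJ Θ x := Iff.rfl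

end Small

end Ideal

section Indep

variable {F k K A : Type u} [Field F] [Field k] [Field K] [Ring A] [Algebra F k] [Algebra k K]
  [Algebra F K] [IsScalarTower F k K] [Algebra F A]

lemma cancel_one_tmul (y : k ⊗[F] A) :
    TensorProduct.AlgebraTensorModule.cancelBaseChange F k K K A ((1 : K) ⊗ₜ[k] y) =
      Algebra.TensorProduct.map (IsScalarTower.toAlgHom F k K) (AlgHom.id F A) y := by
  induction y using TensorProduct.induction_on with
  | zero => rw [TensorProduct.tmul_zero, map_zero, map_zero]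
  | tmul a b =>
    rw [TensorProduct.AlgebraTensorModule.cancelBaseChange_tmul, Algebra.TensorProduct.map_tmul]
    congr 1
    rw [Algebra.smul_def, mul_one]
    rfl
  | add x y hx hy => rw [TensorProduct.tmul_add, map_add, hx, hy, map_add]

lemma indep_baseChange {m : ℕ} {v : Fin m → k ⊗[F] A} (hv : LinearIndependent k v) :
    LinearIndependent K (fun j =>
      Algebra.TensorProduct.map (IsScalarTower.toAlgHom F k K) (AlgHom.id F A) (v j)) := by
  have h1 := Module.Flat.linearIndependent_one_tmul (S := K) hv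
  have h2 := h1.map' (TensorProduct.AlgebraTensorModule.cancelBaseChange F
    k K K A).toLinearMap (LinearEquiv.ker _)
  have h3 : (fun j =>
      Algebra.TensorProduct.map (IsScalarTower.toAlgHom F k K) (AlgHom.id F A) (v j)) =
      (⇑(TensorProduct.AlgebraTensorModule.cancelBaseChange F k K K A).toLinearMap ∘
        fun x => (1 : K) ⊗ₜ[k] v x) := by
    funext j
    exact (cancel_one_tmul (v j)).symm
  rw [h3]
  exact h2

end Indep

section Finrank

variable {F L A ι K : Type u} [Field F] [Field L] [Algebra F L] [FiniteDimensional F L]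
  [Ring A] [Algebra F A] [FiniteDimensional F A] [Fintype ι] [DecidableEq ι]
  [Field K] [Algebra L K] [Algebra F K] [IsScalarTower F L K]
  [MulSemiringAction (L ≃ₐ[F] L) K] [GField (L ≃ₐ[F] L) L K]
  {k : Type u} [Field k] [Algebra F k] [Algebra k K] [IsScalarTower F k K]

lemma finrank_smallI (hD : Stmt_DESC.{u}) {M : PMod (L ≃ₐ[F] L) L ι}
    {Θ : (K ⊗[F] A) ≃ₐ[K] Matrix ι ι K}
    (hΘ : ∀ (g : L ≃ₐ[F] L) (z : K ⊗[F] A),
        Θ (sigK g z) * (M.P g).map (algebraMap L K) =
          (M.P g).map (algebraMap L K) * (Θ z).map (fun x => g • x)) {x : ι → K}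
    (hx : M.IsPt K x)
    (hk : ∀ z : K, (∀ g : L ≃ₐ[F] L, g • z = z) → ∃ c : k, algebraMap k K c = z) :
    Module.finrank k (smallI k Θ x) = Fintype.card ι := by
  classical
  have hfaith : FaithfulSMul (L ≃ₐ[F] L) K := by
    have : FaithfulSMul (L ≃ₐ[F] L) L := inferInstance
    exact faithful_of_gField (L ≃ₐ[F] L) L K
  have hfin : Finite (L ≃ₐ[F] L) := inferInstance
  -- descent on J
  have hfd : FiniteDimensional K (bigJ Θ x) := inferInstance
  have hdesc := hD (L ≃ₐ[F] L) K (bigJ Θ x)
    (fun g z => ⟨sigK g z.1, bigJ_sig hΘ hx g z.2⟩)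
    (fun g y z => Subtype.ext (map_add _ _ _))
    (fun g c z => Subtype.ext (sigK_smul g c z.1))
    (fun g h z => Subtype.ext (sigK_mul g h z.1))
    (fun z => Subtype.ext (sigK_one z.1))
  have hIfd : FiniteDimensional k (smallI k Θ x) := inferInstance
  let b := Module.finBasis k (smallI k Θ x)
  let v : Fin (Module.finrank k (smallI k Θ x)) → k ⊗[F] A := fun j => (b j : _)
  have hv : LinearIndependent k v :=
    b.linearIndependent.map' (smallI k Θ x).subtype (Submodule.ker_subtype _)
  have hw : LinearIndependent K (fun j => incl F A K k (v j)) := indep_baseChange hv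
  have hspan : Submodule.span K (Set.range fun j => incl F A K k (v j)) = bigJ Θ x := by
    apply le_antisymm
    · rw [Submodule.span_le]
      rintro _ ⟨j, rfl⟩
      exact (b j).2
    · intro z hz
      have key : ∀ y : bigJ Θ x, y ∈
          Submodule.span K {y : bigJ Θ x | ∀ g : L ≃ₐ[F] L,
            (⟨sigK g y.1, bigJ_sig hΘ hx g y.2⟩ : bigJ Θ x) = y} →
          y.1 ∈ Submodule.span K (Set.range fun j => incl F A K k (v j)) := by
        intro y hy
        induction hy using Submodule.span_induction with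
        | mem y hy =>
          obtain ⟨w, hw⟩ := fixed_of_sig hk y.1 (fun g => congrArg Subtype.val (hy g))
          have hwI : w ∈ smallI k Θ x := by
            rw [mem_smallI, ← hw]
            exact y.2
          rw [hw]
          have h2 := b.sum_repr ⟨w, hwI⟩
          have h3 : w = ∑ j, (b.repr ⟨w, hwI⟩ j) • v j := by
            have := congrArg Subtype.val h2
            rw [Submodule.coe_sum] at this
            simpa using this.symm
          rw [h3, map_sum]
          refine Submodule.sum_mem _ fun j _ => ?_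
          rw [incl_smul]
          exact Submodule.smul_mem _ _ (Submodule.subset_span ⟨j, rfl⟩)
        | zero => exact Submodule.zero_mem _
        | add y z _ _ hy hz => exact Submodule.add_mem _ hy hz
        | smul c y _ hy => exact Submodule.smul_mem _ _ hy
      refine key ⟨z, hz⟩ ?_
      rw [hdesc]
      trivial
  have h4 := finrank_span_eq_card hw
  rw [hspan, finrank_bigJ Θ hx.1, Fintype.card_fin] at h4
  exact h4.symm

end Finrank

section DefField

variable {F L A ι K : Type u} [Field F] [Field L] [Algebra F L] [FiniteDimensional F L]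
  [Ring A] [Algebra F A] [FiniteDimensional F A] [Fintype ι] [DecidableEq ι]
  [Field K] [Algebra L K] [Algebra F K] [IsScalarTower F L K]
  [MulSemiringAction (L ≃ₐ[F] L) K] [GField (L ≃ₐ[F] L) L K]
  {k : Type u} [Field k] [Algebra F k] [Algebra k K] [IsScalarTower F k K]

/-- If `K` is generated over `E` by `L`, the elements with `G`-invariant multiples lie in `E`. -/
lemma mem_of_fixed [IsGalois F L] (E : IntermediateField F K)
    (hE : ∀ (g : L ≃ₐ[F] L) (z : K), z ∈ E → g • z = z)
    (hN : IntermediateField.adjoin E (Set.range (algebraMap L K)) = ⊤) (z : K)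
    (hz : ∀ g : L ≃ₐ[F] L, g • z = z) : z ∈ E := by
  classical
  have hspan : ∀ w : K, w ∈ Submodule.span E (Set.range (algebraMap L K)) := by
    intro w
    have halg : ∀ y ∈ Set.range (algebraMap L K), IsAlgebraic E y := by
      rintro _ ⟨l, rfl⟩
      have h1 : IsAlgebraic F l := Algebra.IsAlgebraic.isAlgebraic l
      have h2 : IsAlgebraic F (algebraMap L K l) := h1.algebraMap
      exact h2.tower_top E
    have h1 := IntermediateField.adjoin_toSubalgebra_of_isAlgebraic halg
    have h2 : w ∈ (IntermediateField.adjoin E (Set.range (algebraMap L K))).toSubalgebra := by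
      rw [IntermediateField.mem_toSubalgebra, hN]
      exact IntermediateField.mem_top
    rw [h1, ← Subalgebra.mem_toSubmodule, Algebra.adjoin_eq_span] at h2
    have h3 : (Submonoid.closure (Set.range (algebraMap L K)) : Set K) =
        Set.range (algebraMap L K) := by
      have : Set.range (algebraMap L K) = (MonoidHom.mrange (algebraMap L K : L →* K) : Set K) := rfl
      rw [this, Submonoid.closure_eq]
    rw [h3] at h2
    exact h2
  have htr : ∀ w : K, ∑ g : L ≃ₐ[F] L, g • w ∈ E := by
    intro w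
    have hw := hspan w
    induction hw using Submodule.span_induction with
    | mem y hy =>
      obtain ⟨l, rfl⟩ := hy
      have : ∑ g : L ≃ₐ[F] L, g • algebraMap L K l = algebraMap F K (Algebra.trace F L l) := by
        rw [IsScalarTower.algebraMap_apply F L K, trace_eq_sum_automorphisms, map_sum]
        exact Finset.sum_congr rfl fun g _ => GField.smul_algebraMap g l
      rw [this]
      exact E.algebraMap_mem _
    | zero => simp
    | add y z _ _ hy hz =>
      simp only [smul_add, Finset.sum_add_distrib]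
      exact E.add_mem hy hz
    | smul c y _ hy =>
      have : ∑ g : L ≃ₐ[F] L, g • (c • y) = (c : K) * ∑ g : L ≃ₐ[F] L, g • y := by
        rw [Finset.mul_sum]
        refine Finset.sum_congr rfl fun g _ => ?_
        have : c • y = (c : K) * y := rfl
        rw [this, smul_mul', hE g c c.2]
      rw [this]
      exact E.mul_mem c.2 hy
  obtain ⟨l, hl⟩ := Algebra.trace_surjective F L 1
  have h1 := htr (z * algebraMap L K l)
  have h2 : ∑ g : L ≃ₐ[F] L, g • (z * algebraMap L K l) = z := by
    have h3 : ∀ g : L ≃ₐ[F] L, g • (z * algebraMap L K l) = z * algebraMap L K (g l) := by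
      intro g
      rw [smul_mul', hz g, GField.smul_algebraMap]
      rfl
    rw [Finset.sum_congr rfl fun g _ => h3 g, ← Finset.mul_sum, ← map_sum,
      ← trace_eq_sum_automorphisms, hl, map_one, map_one, mul_one]
  rw [h2] at h1
  exact h1

lemma defined_top [IsGalois F L] {M : PMod (L ≃ₐ[F] L) L ι} (m : Model F L A M)
    {Θ : (K ⊗[F] A) ≃ₐ[K] Matrix ι ι K}
    (hΘ : ∀ (c : K) (a : A), Θ (c ⊗ₜ[F] a) = c • (m.θ a).map (algebraMap L K)) {x : ι → K}
    (hgen : projField L x = ⊤)
    (hkfix : ∀ (g : L ≃ₐ[F] L) (c : k), g • algebraMap k K c = algebraMap k K c)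
    (hne : smallI k Θ x ≠ ⊥) (E : IntermediateField F k)
    (hE : DefinedOver F A k (smallI k Θ x) E) : E = ⊤ := by
  obtain ⟨y₀, hy₀I, hy₀⟩ : ∃ y₀ : E ⊗[F] A,
      Algebra.TensorProduct.map E.val (AlgHom.id F A) y₀ ∈ smallI k Θ x ∧
      Algebra.TensorProduct.map E.val (AlgHom.id F A) y₀ ≠ 0 := by
    by_contra hcon
    push Not at hcon
    apply hne
    rw [DefinedOver] at hE
    rw [← hE, Submodule.span_eq_bot]
    rintro w ⟨hw, y, rfl⟩
    exact hcon y hw
  set x₀ := Algebra.TensorProduct.map E.val (AlgHom.id F A) y₀ with hx₀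
  have hz₀ : incl F A K k x₀ ≠ 0 := by
    have h1 : LinearIndependent k (fun _ : Fin 1 => x₀) := by
      rw [linearIndependent_unique_iff]
      exact hy₀
    have h2 : LinearIndependent K (fun _ : Fin 1 => incl F A K k x₀) := indep_baseChange h1
    exact h2.ne_zero 0
  let E' : IntermediateField F K := E.map (IsScalarTower.toAlgHom F k K)
  have hE' : ∀ e : E, algebraMap k K (e : k) ∈ E' := fun e => ⟨e, e.2, rfl⟩
  let N := IntermediateField.adjoin E' (Set.range (algebraMap L K))
  have hLN : ∀ l : L, algebraMap L K l ∈ N := fun l =>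
    IntermediateField.subset_adjoin _ _ ⟨l, rfl⟩
  have hEN : ∀ e : E, algebraMap k K (e : k) ∈ N := fun e =>
    N.algebraMap_mem ⟨_, hE' e⟩
  have hent : ∀ (y : E ⊗[F] A) (i j : ι),
      Θ (incl F A K k (Algebra.TensorProduct.map E.val (AlgHom.id F A) y)) i j ∈ N := by
    intro y i j
    induction y using TensorProduct.induction_on with
    | zero =>
      simp only [map_zero]
      exact N.zero_mem
    | tmul e a =>
      rw [Algebra.TensorProduct.map_tmul, incl_tmul, hΘ]
      exact N.mul_mem (hEN e) (hLN _)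
    | add y z hy hz =>
      simp only [map_add, Matrix.add_apply]
      exact N.add_mem hy hz
  obtain ⟨ξ, hξ⟩ := (mem_bigJ Θ x _).mp hy₀I
  obtain ⟨j, hj⟩ : ∃ j, ξ j ≠ 0 := by
    by_contra hcon
    push Not at hcon
    apply hz₀
    have h1 : ξ = 0 := funext hcon
    rw [h1] at hξ
    have h2 : Θ (incl F A K k x₀) = 0 := by
      rw [hξ]
      ext i l
      simp [Matrix.vecMulVec_apply]
    exact (map_eq_zero_iff Θ Θ.injective).mp h2
  have hxN : ∀ i, x i * ξ j ∈ N := by
    intro i
    have h1 := hent y₀ i j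
    rw [← hx₀, hξ, Matrix.vecMulVec_apply] at h1
    exact h1
  have hratio : ∀ i i', x i / x i' ∈ N := by
    intro i i'
    have h1 : x i / x i' = (x i * ξ j) / (x i' * ξ j) := by
      rw [mul_div_mul_right _ _ hj]
    rw [h1]
    exact N.div_mem (hxN i) (hxN i')
  let N' : IntermediateField L K :=
    { N.toSubfield with
      algebraMap_mem' := hLN }
  have hN' : N' = ⊤ := by
    rw [eq_top_iff, ← hgen, projField, IntermediateField.adjoin_le_iff]
    rintro _ ⟨i, i', rfl⟩
    exact hratio i i'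
  have hN : N = ⊤ := by
    rw [eq_top_iff]
    intro w _
    have : w ∈ N' := by rw [hN']; exact IntermediateField.mem_top
    exact this
  rw [eq_top_iff]
  intro c _
  have hc := mem_of_fixed (L := L) E' (by
    rintro g _ ⟨e, he, rfl⟩
    exact hkfix g e) hN (algebraMap k K c) (fun g => hkfix g c)
  obtain ⟨e, he, h⟩ := hc
  have : e = c := (algebraMap k K).injective h
  rw [← this]
  exact he

end DefField

section Trdeg

variable {F L K : Type u} [Field F] [Field L] [Algebra F L] [FiniteDimensional F L]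
  [Field K] [Algebra L K] [Algebra F K] [IsScalarTower F L K]
  [MulSemiringAction (L ≃ₐ[F] L) K] [GField (L ≃ₐ[F] L) L K]
  {k : Type u} [Field k] [Algebra F k] [Algebra k K] [IsScalarTower F k K]

lemma trdeg_fixed (hkfix : ∀ (g : L ≃ₐ[F] L) (c : k), g • algebraMap k K c = algebraMap k K c)
    (hk : ∀ z : K, (∀ g : L ≃ₐ[F] L, g • z = z) → ∃ c : k, algebraMap k K c = z) :
    Algebra.trdeg F k = Algebra.trdeg L K := by
  have h1 := _root_.trdeg_add_eq F k (A := K)
  have h2 := _root_.trdeg_add_eq F L (A := K)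
  have : Algebra.trdeg F L = 0 := trdeg_eq_zero
  rw [this, zero_add] at h2
  have hcomm : SMulCommClass (L ≃ₐ[F] L) k K := by
    constructor
    intro g c z
    rw [Algebra.smul_def, Algebra.smul_def, smul_mul', hkfix]
  have hinv : Algebra.IsInvariant k K (L ≃ₐ[F] L) := ⟨hk⟩
  have hint : Algebra.IsIntegral k K := Algebra.IsInvariant.isIntegral k K (L ≃ₐ[F] L)
  have : Algebra.trdeg k K = 0 := trdeg_eq_zero
  rw [this, add_zero] at h1
  rw [h1, h2]

end Trdeg

end FinBlock

/-- Block FIN, from block DESC. -/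
theorem stmt_FIN (hD : Stmt_DESC.{u}) : Stmt_FIN.{u} := by
  intro F L A ι K _ _ _ _ _ _ _ _ _ _ _ M _ _ _ _ _ _ x hm hx
  obtain ⟨m⟩ := hm
  obtain ⟨Θ, hΘ1, hΘ2⟩ := FinBlock.exists_Theta (K := K) M m
  have hkfix : ∀ (g : L ≃ₐ[F] L) (c : fixedIF F L K),
      g • algebraMap (fixedIF F L K) K c = algebraMap (fixedIF F L K) K c := fun g c => c.2 g
  have hk : ∀ z : K, (∀ g : L ≃ₐ[F] L, g • z = z) →
      ∃ c : fixedIF F L K, algebraMap (fixedIF F L K) K c = z := fun z hz => ⟨⟨z, hz⟩, rfl⟩
  have hfr := FinBlock.finrank_smallI (k := fixedIF F L K) hD hΘ2 hx.1 hk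
  refine ⟨Fintype.card ι, FinBlock.smallI (fixedIF F L K) Θ x, m.dim, ?_, hfr, ?_, ?_⟩
  · intro y hy w
    rw [FinBlock.mem_smallI] at hy ⊢
    rw [map_mul]
    exact FinBlock.bigJ_mul Θ hy _
  · intro E hE
    refine FinBlock.defined_top m hΘ1 hx.2.1 hkfix ?_ E hE
    intro h0
    rw [h0, finrank_bot] at hfr
    exact absurd hfr.symm Fintype.card_ne_zero
  · rw [FinBlock.trdeg_fixed hkfix hk]
    exact hx.2.2

end Pool.Agent.MP12f267
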