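import Mathlib
import Pool.Agent.Work.MP_12f267_ag.Interface

/-! Block SIMPLE: base change of a central simple algebra is simple. -/

open TensorProduct

namespace Pool.Agent.MP12f267

universe u

section

variable {F K A : Type u} [Field F] [Field K] [Algebra F K] [Ring A] [Algebra F A]

theorem simple_coord_left {J : Type u} [DecidableEq J] (b : Module.Basis J F K) (a : A)
    (x : K ⊗[F] A) (j : J) :
    TensorProduct.equivFinsuppOfBasisLeft b ((1 ⊗ₜ[F] a) * x) j =
      a * TensorProduct.equivFinsuppOfBasisLeft b x j := by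
  induction x using TensorProduct.induction_on with
  | zero => simp
  | tmul k c =>
    simp only [Algebra.TensorProduct.tmul_mul_tmul, one_mul,
      TensorProduct.equivFinsuppOfBasisLeft_apply_tmul_apply, mul_smul_comm]
  | add x y hx hy =>
    rw [mul_add, map_add, map_add, Finsupp.add_apply, Finsupp.add_apply, hx, hy, mul_add]

theorem simple_coord_right {J : Type u} [DecidableEq J] (b : Module.Basis J F K) (a : A)
    (x : K ⊗[F] A) (j : J) :
    TensorProduct.equivFinsuppOfBasisLeft b (x * (1 ⊗ₜ[F] a)) j =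
      TensorProduct.equivFinsuppOfBasisLeft b x j * a := by
  induction x using TensorProduct.induction_on with
  | zero => simp
  | tmul k c =>
    simp only [Algebra.TensorProduct.tmul_mul_tmul, mul_one,
      TensorProduct.equivFinsuppOfBasisLeft_apply_tmul_apply, smul_mul_assoc]
  | add x y hx hy =>
    rw [add_mul, map_add, map_add, Finsupp.add_apply, Finsupp.add_apply, hx, hy, add_mul]

/-- The two-sided ideal of elements `sum b x c`. -/
theorem exists_sum_mul_mul [IsSimpleRing A] (x : A) (hx : x ≠ 0) :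
    ∃ (m : ℕ) (p q : Fin m → A), ∑ i, p i * x * q i = 1 := by
  have h1 : (1 : A) ∈ TwoSidedIdeal.span ({x} : Set A) :=
    IsSimpleRing.one_mem_of_ne_zero_mem _ hx (TwoSidedIdeal.subset_span rfl)
  let S : TwoSidedIdeal A := TwoSidedIdeal.mk'
    {y | ∃ (m : ℕ) (p q : Fin m → A), ∑ i, p i * x * q i = y}
    ⟨0, Fin.elim0, Fin.elim0, by simp⟩
    (by
      rintro y z ⟨m, p, q, rfl⟩ ⟨m', p', q', rfl⟩
      refine ⟨m + m', Fin.append p p', Fin.append q q', ?_⟩
      rw [Fin.sum_univ_add]
      simp)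
    (by
      rintro y ⟨m, p, q, rfl⟩
      exact ⟨m, fun i => - p i, q, by simp [Finset.sum_neg_distrib]⟩)
    (by
      rintro z y ⟨m, p, q, rfl⟩
      exact ⟨m, fun i => z * p i, q, by simp [Finset.mul_sum, mul_assoc]⟩)
    (by
      rintro y z ⟨m, p, q, rfl⟩
      exact ⟨m, p, fun i => q i * z, by simp [Finset.sum_mul, mul_assoc]⟩)
  have hS : TwoSidedIdeal.span ({x} : Set A) ≤ S := by
    rw [TwoSidedIdeal.span_le]
    rintro y rfl
    show y ∈ S
    rw [TwoSidedIdeal.mem_mk']
    exact ⟨1, fun _ => 1, fun _ => 1, by simp⟩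
  have h2 := hS h1
  rw [TwoSidedIdeal.mem_mk'] at h2
  exact h2

end

theorem stmt_SIMPLE : Stmt_SIMPLE.{u} := by
  intro F K A _ _ _ _ _ _ _ _
  classical
  let b := Module.Basis.ofVectorSpace F K
  let e := TensorProduct.equivFinsuppOfBasisLeft (N := A) b
  have hnt : Nontrivial (K ⊗[F] A) := by
    have : Function.Injective (Algebra.TensorProduct.includeLeft : K →ₐ[F] K ⊗[F] A) :=
      Algebra.TensorProduct.includeLeft_injective (S := F) (FaithfulSMul.algebraMap_injective F A)
    exact this.nontrivial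
  refine IsSimpleRing.of_eq_bot_or_eq_top fun I => ?_
  by_contra hI
  push Not at hI
  obtain ⟨hbot, htop⟩ := hI
  obtain ⟨x0, hx0, hx0'⟩ : ∃ x ∈ I, x ≠ 0 := by
    by_contra hcon
    push Not at hcon
    exact hbot (le_bot_iff.mp fun x hx => by rw [TwoSidedIdeal.mem_bot]; exact hcon x hx)
  -- an element with minimal support
  have hex : ∃ s : ℕ, ∃ x ∈ I, x ≠ 0 ∧ (e x).support.card = s := ⟨_, x0, hx0, hx0', rfl⟩
  obtain ⟨x, hxI, hx, hxs⟩ := Nat.find_spec hex
  have hmin : ∀ y ∈ I, (e y).support.card < (e x).support.card → y = 0 := by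
    intro y hy hlt
    by_contra hy0
    exact Nat.find_min hex (by rw [← hxs]; exact hlt) ⟨y, hy, hy0, rfl⟩
  have hex0 : e x ≠ 0 := by
    intro h
    exact hx (e.injective (by rw [h, map_zero]))
  obtain ⟨j0, hj0⟩ : ∃ j0, e x j0 ≠ 0 := by
    by_contra hcon
    push Not at hcon
    exact hex0 (Finsupp.ext hcon)
  obtain ⟨m, p, q, hpq⟩ := exists_sum_mul_mul (e x j0) hj0
  let y : K ⊗[F] A := ∑ i, (1 ⊗ₜ[F] p i) * x * (1 ⊗ₜ[F] q i)
  have hyI : y ∈ I := I.finsetSum_mem _ _ fun i _ => I.mul_mem_right _ _ (I.mul_mem_left _ _ hxI)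
  have hey : ∀ j, e y j = ∑ i, p i * e x j * q i := by
    intro j
    have : e y = ∑ i, e ((1 ⊗ₜ[F] p i) * x * (1 ⊗ₜ[F] q i)) := map_sum e _ _
    rw [this, Finsupp.finsetSum_apply]
    refine Finset.sum_congr rfl fun i _ => ?_
    rw [simple_coord_right, simple_coord_left]
  have hyj0 : e y j0 = 1 := by rw [hey, hpq]
  have hsupp : (e y).support ⊆ (e x).support := by
    intro j hj
    rw [Finsupp.mem_support_iff] at hj ⊢
    intro h
    apply hj
    rw [hey, h]
    simp
  -- all coordinates of y are central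
  have hcomm : ∀ a : A, (1 ⊗ₜ[F] a) * y - y * (1 ⊗ₜ[F] a) = 0 := by
    intro a
    refine hmin _ (I.sub_mem (I.mul_mem_left _ _ hyI) (I.mul_mem_right _ _ hyI)) ?_
    have hsub : (e ((1 ⊗ₜ[F] a) * y - y * (1 ⊗ₜ[F] a))).support ⊆ (e x).support.erase j0 := by
      intro j hj
      rw [Finsupp.mem_support_iff, map_sub, Finsupp.sub_apply, simple_coord_left,
        simple_coord_right] at hj
      rw [Finset.mem_erase]
      refine ⟨?_, ?_⟩
      · rintro rfl
        apply hj
        change a * e y j - e y j * a = 0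
        rw [hyj0]
        simp
      · apply hsupp
        rw [Finsupp.mem_support_iff]
        intro h
        apply hj
        change a * e y j - e y j * a = 0
        rw [h]
        simp
    refine lt_of_le_of_lt (Finset.card_le_card hsub) ?_
    refine Finset.card_erase_lt_of_mem ?_
    rw [Finsupp.mem_support_iff]
    exact hj0
  have hcent : ∀ j, ∃ r : F, algebraMap F A r = e y j := by
    intro j
    have hc : e y j ∈ Subalgebra.center F A := by
      rw [Subalgebra.mem_center_iff]
      intro a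
      have h1 := congrArg (fun z => e z j) (hcomm a)
      simp only [map_sub, Finsupp.sub_apply, map_zero, Finsupp.zero_apply] at h1
      have h2 : e ((1 ⊗ₜ[F] a) * y) j = a * e y j := simple_coord_left b a y j
      have h3 : e (y * (1 ⊗ₜ[F] a)) j = e y j * a := simple_coord_right b a y j
      rw [h2, h3, sub_eq_zero] at h1
      exact h1
    have h4 := Algebra.IsCentral.out (K := F) (D := A) hc
    rw [Algebra.mem_bot] at h4
    exact h4
  choose r hr using hcent
  -- y = k ⊗ 1
  have hyk : y = (∑ j ∈ (e y).support, r j • b j) ⊗ₜ[F] (1 : A) := by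
    have h5 : y = ∑ j ∈ (e y).support, b j ⊗ₜ[F] (e y j) := by
      conv_lhs => rw [← e.symm_apply_apply y]
      rw [TensorProduct.equivFinsuppOfBasisLeft_symm_apply, Finsupp.sum]
    rw [TensorProduct.sum_tmul]
    refine h5.trans (Finset.sum_congr rfl fun j _ => ?_)
    rw [TensorProduct.smul_tmul, ← hr, Algebra.algebraMap_eq_smul_one]
  obtain ⟨k, hk⟩ : ∃ k : K, y = k ⊗ₜ[F] (1 : A) := ⟨_, hyk⟩
  have hk0 : k ≠ 0 := by
    intro h
    rw [h, TensorProduct.zero_tmul] at hk
    rw [hk, map_zero, Finsupp.zero_apply] at hyj0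
    have : Nontrivial A := inferInstance
    exact zero_ne_one hyj0
  apply htop
  rw [← TwoSidedIdeal.one_mem_iff]
  have h7 : (k⁻¹ ⊗ₜ[F] (1 : A)) * y = 1 := by
    rw [hk, Algebra.TensorProduct.tmul_mul_tmul, inv_mul_cancel₀ hk0, one_mul,
      Algebra.TensorProduct.one_def]
  rw [← h7]
  exact I.mul_mem_left _ y hyI

end Pool.Agent.MP12f267
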