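import Mathlib
import Pool.Agent.Work.MP_12f267_ag.SIMPLE
import Pool.Agent.Work.MP_12f267_ag.DISC

/-! Block SEP: a separable element of full degree. -/

open TensorProduct Polynomial

namespace Pool.Agent.MP12f267

universe u

theorem stmt_SEP : Stmt_SEP.{u} := by
  intro F A _ _ _ _ _ _ _ n hn
  classical
  let Ω := AlgebraicClosure F
  have hsimple : IsSimpleRing (Ω ⊗[F] A) := stmt_SIMPLE F Ω A
  obtain ⟨m, hm, ⟨e⟩⟩ := IsSimpleRing.exists_algEquiv_matrix_of_isAlgClosed Ω (Ω ⊗[F] A)
  have hfr : m = n := by
    have h1 : Module.finrank Ω (Ω ⊗[F] A) = Module.finrank F A := Module.finrank_baseChange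
    have h2 : Module.finrank Ω (Ω ⊗[F] A) = Module.finrank Ω (Matrix (Fin m) (Fin m) Ω) :=
      e.toLinearEquiv.finrank_eq
    rw [Module.finrank_matrix, Fintype.card_fin, Module.finrank_self, mul_one] at h2
    have h3 : m * m = n * n := by rw [← h2, h1, hn, sq]
    exact Nat.mul_self_inj.mp h3
  subst hfr
  let b := Module.finBasis F A
  let θ : A → Matrix (Fin m) (Fin m) Ω := fun a => e (1 ⊗ₜ[F] a)
  have hθ : ∀ (p : F[X]) (a : A), aeval (θ a) (p.map (algebraMap F Ω)) = θ (aeval a p) := by
    intro p a
    let θ' : A →ₐ[F] Matrix (Fin m) (Fin m) Ω :=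
      (e.toAlgHom.restrictScalars F).comp Algebra.TensorProduct.includeRight
    have h1 : ∀ a, θ a = θ' a := fun a => rfl
    rw [h1, h1, ← Polynomial.aeval_algHom_apply, Polynomial.aeval_map_algebraMap]
  -- the discriminant polynomial
  obtain ⟨p, hp⟩ := exists_traceDisc_poly (K := Ω) m (fun k => θ (b k))
  have hp0 : p ≠ 0 := by
    rintro rfl
    let d : Fin m → Ω := fun i => Infinite.natEmbedding Ω i
    have hd : Function.Injective d := fun i j h =>
      Fin.ext ((Infinite.natEmbedding Ω).injective h)
    have h1 := traceDisc_diagonal d hd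
    rw [Fintype.card_fin] at h1
    let bΩ := Algebra.TensorProduct.basis Ω b
    let x := e.symm (Matrix.diagonal d)
    have h2 : Matrix.diagonal d = ∑ k, bΩ.repr x k • θ (b k) := by
      have h3 : x = ∑ k, bΩ.repr x k • bΩ k := (bΩ.sum_repr x).symm
      have h4 : Matrix.diagonal d = e x := (e.apply_symm_apply _).symm
      rw [h4]
      conv_lhs => rw [h3]
      rw [map_sum]
      refine Finset.sum_congr rfl fun k _ => ?_
      rw [map_smul, Algebra.TensorProduct.basis_apply]
    have h5 := hp (fun k => bΩ.repr x k)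
    rw [← h2] at h5
    apply h1
    rw [← h5]
    simp
  obtain ⟨t, ht⟩ : ∃ t : Fin (Module.finrank F A) → F,
      MvPolynomial.eval (fun k => algebraMap F Ω (t k)) p ≠ 0 := by
    by_contra hcon
    push Not at hcon
    apply hp0
    refine MvPolynomial.funext_set (fun _ => Set.range (algebraMap F Ω)) ?_ ?_
    · intro i
      exact Set.infinite_range_of_injective (algebraMap F Ω).injective
    · intro x hx
      choose t ht using fun k => hx k (Set.mem_univ k)
      have : x = fun k => algebraMap F Ω (t k) := funext fun k => (ht k).symm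
      rw [this, hcon t, map_zero]
  let f : A := ∑ k, t k • b k
  have hf : traceDisc m (θ f) ≠ 0 := by
    have h1 : θ f = ∑ k, algebraMap F Ω (t k) • θ (b k) := by
      change e (1 ⊗ₜ[F] ∑ k, t k • b k) = _
      rw [TensorProduct.tmul_sum, map_sum]
      refine Finset.sum_congr rfl fun k _ => ?_
      rw [← map_smul e, TensorProduct.tmul_smul, algebraMap_smul]
    rw [h1, ← hp]
    exact ht
  have hcard : Fintype.card (Fin m) = m := Fintype.card_fin m
  have hmin : minpoly Ω (θ f) = (θ f).charpoly := traceDisc_minpoly _ (by rwa [hcard])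
  have hsep : (θ f).charpoly.Separable := traceDisc_separable _ (by rwa [hcard])
  have hdeg : (θ f).charpoly.natDegree = m := by
    rw [Matrix.charpoly_natDegree_eq_dim, hcard]
  have hint : IsIntegral F f := Algebra.IsIntegral.isIntegral f
  have hdvd : (θ f).charpoly ∣ (minpoly F f).map (algebraMap F Ω) := by
    rw [← hmin]
    refine minpoly.dvd Ω _ ?_
    rw [hθ, minpoly.aeval]
    change e (1 ⊗ₜ[F] 0) = 0
    rw [TensorProduct.tmul_zero, map_zero]
  have hle : (minpoly F f).natDegree ≤ m := by
    by_contra hlt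
    push Not at hlt
    have h1 : LinearIndependent F fun i : Fin (minpoly F f).natDegree => f ^ (i : ℕ) :=
      linearIndependent_pow f
    have h2 := Module.Flat.linearIndependent_one_tmul (S := Ω) h1
    have h3 : LinearIndependent Ω fun i : Fin (minpoly F f).natDegree => (θ f) ^ (i : ℕ) := by
      have h4 := h2.map' e.toLinearEquiv.toLinearMap (LinearEquiv.ker _)
      have h4' : (fun i : Fin (minpoly F f).natDegree => (θ f) ^ (i : ℕ)) =
          (e.toLinearEquiv.toLinearMap ∘ fun i : Fin (minpoly F f).natDegree =>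
            (1 : Ω) ⊗ₜ[F] (f ^ (i : ℕ))) := by
        ext1 i
        change (e (1 ⊗ₜ[F] f)) ^ (i : ℕ) = e (1 ⊗ₜ[F] (f ^ (i : ℕ)))
        rw [← map_pow, Algebra.TensorProduct.tmul_pow, one_pow]
      rw [h4']
      exact h4
    rw [Fintype.linearIndependent_iff] at h3
    have h5 : ∑ i : Fin (minpoly F f).natDegree, (θ f).charpoly.coeff i • (θ f) ^ (i : ℕ) = 0 := by
      have h6 := Polynomial.aeval_eq_sum_range' (p := (θ f).charpoly)
        (n := (minpoly F f).natDegree) (by rw [hdeg]; exact hlt) (θ f)
      rw [Matrix.aeval_self_charpoly,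
        ← Fin.sum_univ_eq_sum_range (fun i => (θ f).charpoly.coeff i • (θ f) ^ i)] at h6
      exact h6.symm
    have h7 := h3 (fun i => (θ f).charpoly.coeff i) h5 ⟨m, hlt⟩
    have h8 : (θ f).charpoly.coeff m = 1 := by
      have := (Matrix.charpoly_monic (θ f)).coeff_natDegree
      rwa [hdeg] at this
    exact one_ne_zero (h8.symm.trans h7)
  have hmonic : ((minpoly F f).map (algebraMap F Ω)).Monic := (minpoly.monic hint).map _
  have heq : (θ f).charpoly = (minpoly F f).map (algebraMap F Ω) := by
    refine (Polynomial.eq_of_monic_of_dvd_of_natDegree_le (Matrix.charpoly_monic _) hmonic hdvd ?_).symm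
    rw [Polynomial.natDegree_map, hdeg]
    exact hle
  refine ⟨f, ?_, ?_⟩
  · rw [← Polynomial.separable_map (algebraMap F Ω), ← heq]
    exact hsep
  · rw [← Polynomial.natDegree_map (algebraMap F Ω), ← heq, hdeg]

end Pool.Agent.MP12f267
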