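import Mathlib
import Pool.Agent.Work.MP_12f267_ag.MatAct

/-! Block SUB (helper80): dimensions of modules may be subtracted. Uses DENS. -/

open TensorProduct

namespace Pool.Agent.MP12f267

universe u

theorem stmt_SUB (hDENS : Stmt_DENS.{u}) : Stmt_SUB.{u} := by
  classical
  intro G L _ _ _ _ _ a d e hinf ha hM hN
  rw [hasMod_iff ha] at hM hN ⊢
  obtain ⟨ι, _, _, M₀, hd, hM₀⟩ := hM
  obtain ⟨κ, _, _, N, he, hNa⟩ := hN
  let δ : Type u := ULift.{u} (Fin d)
  have hcard : Fintype.card ι = Fintype.card (κ ⊕ δ) := by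
    rw [Fintype.card_sum, hd, he, Fintype.card_ulift, Fintype.card_fin, add_comm]
  let M : PMod G L (κ ⊕ δ) := M₀.reindex (Fintype.equivOfCardEq hcard)
  have hMa : M.a = a := hM₀
  -- the semilinear action on the matrices
  let toM : ((κ ⊕ δ) × κ → L) → Matrix (κ ⊕ δ) κ L := fun x => Matrix.of fun i j => x (i, j)
  let ofM : Matrix (κ ⊕ δ) κ L → ((κ ⊕ δ) × κ → L) := fun T p => T p.1 p.2
  have hto : ∀ T, toM (ofM T) = T := fun T => rfl
  have hof : ∀ x, ofM (toM x) = x := fun x => rfl
  let r : G → Matrix (κ ⊕ δ) κ L → Matrix (κ ⊕ δ) κ L :=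
    fun g T => M.P g * T.map (fun x => g • x) * (N.P g)⁻¹
  have hNu : ∀ g, IsUnit (N.P g).det := fun g => N.isUnit_det g
  have hr_mul : ∀ g h T, r g (r h T) = r (g * h) T := by
    intro g h T
    show M.P g * (M.P h * T.map (fun x => h • x) * (N.P h)⁻¹).map (fun x => g • x) * (N.P g)⁻¹ =
      M.P (g * h) * T.map (fun x => (g * h) • x) * (N.P (g * h))⁻¹
    rw [ma_mul, ma_mul, ma_map, ma_inv g _ (hNu h)]
    have h1 := M.mul g h
    have h2 := N.mul g h
    rw [hMa] at h1
    rw [hNa] at h2
    have h3 : ((N.P h).map (fun x => g • x))⁻¹ * (N.P g)⁻¹ =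
        (a g h)⁻¹ • (N.P (g * h))⁻¹ := by
      rw [← Matrix.mul_inv_rev, h2]
      exact ma_smul_inv _ (ha g h) _ (hNu _)
    calc M.P g * ((M.P h).map (fun x => g • x) * T.map (fun x => (g * h) • x) *
          ((N.P h).map (fun x => g • x))⁻¹) * (N.P g)⁻¹
        = (M.P g * (M.P h).map (fun x => g • x)) * T.map (fun x => (g * h) • x) *
          (((N.P h).map (fun x => g • x))⁻¹ * (N.P g)⁻¹) := by
            simp only [Matrix.mul_assoc]
      _ = _ := by
        rw [h1, h3, Matrix.smul_mul, Matrix.smul_mul, Matrix.mul_smul, smul_smul,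
          mul_inv_cancel₀ (ha g h), one_smul]
  have hr_one : ∀ T, r 1 T = T := by
    intro T
    show M.P 1 * T.map (fun x => (1 : G) • x) * (N.P 1)⁻¹ = T
    rw [ma_one_smul, M.P_one, N.P_one, hMa, hNa,
      ma_smul_inv _ (ha 1 1) _ (by simp), inv_one, Matrix.smul_mul, Matrix.one_mul,
      Matrix.smul_mul, Matrix.mul_smul, Matrix.mul_one, smul_smul, mul_inv_cancel₀ (ha 1 1),
      one_smul]
  have hr_add : ∀ g S T, r g (S + T) = r g S + r g T := by
    intro g S T
    show M.P g * (S + T).map (fun x => g • x) * (N.P g)⁻¹ = _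
    rw [ma_add, Matrix.mul_add, Matrix.add_mul]
  have hr_smul : ∀ g (c : L) T, r g (c • T) = (g • c) • r g T := by
    intro g c T
    show M.P g * (c • T).map (fun x => g • x) * (N.P g)⁻¹ = _
    rw [ma_smul, Matrix.mul_smul, Matrix.smul_mul]
  -- a fixed matrix with invertible upper part
  let p : MvPolynomial ((κ ⊕ δ) × κ) L :=
    (Matrix.of fun i j : κ => (MvPolynomial.X (Sum.inl i, j) : MvPolynomial ((κ ⊕ δ) × κ) L)).det
  have hp : ∀ x, MvPolynomial.eval x p = (Matrix.of fun i j : κ => x (Sum.inl i, j)).det := by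
    intro x
    show MvPolynomial.eval x (Matrix.det _) = _
    rw [RingHom.map_det]
    congr 1
    ext i j
    simp
  let J : Matrix (κ ⊕ δ) κ L := Matrix.of fun i j => if i = Sum.inl j then 1 else 0
  obtain ⟨x, hx, hpx⟩ := hDENS G L ((κ ⊕ δ) × κ) (fun g x => ofM (r g (toM x))) hinf
    (fun g x y => congrArg ofM (hr_add g (toM x) (toM y)))
    (fun g c x => congrArg ofM (hr_smul g c (toM x)))
    (fun g h x => congrArg ofM (hr_mul g h (toM x)))
    (fun x => congrArg ofM (hr_one (toM x))) p (ofM J) (by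
      rw [hp]
      have : (Matrix.of fun i j : κ => ofM J (Sum.inl i, j)) = 1 := by
        ext i j
        simp [ofM, J, Matrix.one_apply]
      rw [this, Matrix.det_one]
      exact one_ne_zero)
  set T : Matrix (κ ⊕ δ) κ L := toM x with hT
  have hTr : ∀ g, r g T = T := fun g => congrArg toM (hx g)
  have hTdet : (Matrix.of fun i j : κ => T (Sum.inl i) j).det ≠ 0 := by
    rw [hp] at hpx
    exact hpx
  have hTfix : ∀ g, M.P g * T.map (fun x => g • x) = T * N.P g := by
    intro g
    have h1 : M.P g * T.map (fun x => g • x) * (N.P g)⁻¹ * N.P g = T * N.P g := by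
      rw [show M.P g * T.map (fun x => g • x) * (N.P g)⁻¹ = T from hTr g]
    rwa [Matrix.nonsing_inv_mul_cancel_right _ _ (hNu g)] at h1
  -- completion to an invertible matrix
  let S : Matrix (κ ⊕ δ) (κ ⊕ δ) L :=
    Matrix.fromBlocks (Matrix.of fun i j : κ => T (Sum.inl i) j) 0
      (Matrix.of fun (i : δ) (j : κ) => T (Sum.inr i) j) 1
  have hSdet : S.det ≠ 0 := by
    show (Matrix.fromBlocks _ _ _ _).det ≠ 0
    rw [Matrix.det_fromBlocks_zero₁₂, Matrix.det_one, mul_one]
    exact hTdet
  have hSu : IsUnit S.det := isUnit_iff_ne_zero.2 hSdet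
  have hSJ : S * J = T := by
    ext i j
    simp only [Matrix.mul_apply, J, Matrix.of_apply]
    rw [Finset.sum_eq_single (Sum.inl j)]
    · rcases i with i | i
      · simp [S]
      · simp [S]
    · intro b _ hb
      simp [hb]
    · intro h
      exact absurd (Finset.mem_univ _) h
  have hJ : ∀ g : G, J.map (fun x => g • x) = J := by
    intro g
    ext i j
    simp only [Matrix.map_apply, J, Matrix.of_apply]
    split_ifs <;> simp
  let R : G → Matrix (κ ⊕ δ) (κ ⊕ δ) L := fun g => S⁻¹ * M.P g * S.map (fun x => g • x)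
  have hRJ : ∀ g, R g * J = J * N.P g := by
    intro g
    have h1 : S.map (fun x => g • x) * J = T.map (fun x => g • x) := by
      rw [← hSJ, ma_mul, hJ]
    calc R g * J = S⁻¹ * (M.P g * (S.map (fun x => g • x) * J)) := by
          simp only [R, Matrix.mul_assoc]
      _ = S⁻¹ * (S * (J * N.P g)) := by rw [h1, hTfix, ← hSJ, Matrix.mul_assoc]
      _ = J * N.P g := by rw [← Matrix.mul_assoc, Matrix.nonsing_inv_mul _ hSu, Matrix.one_mul]
  have hRmul : ∀ g h, R g * (R h).map (fun x => g • x) = a g h • R (g * h) := by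
    intro g h
    show S⁻¹ * M.P g * S.map (fun x => g • x) *
      (S⁻¹ * M.P h * S.map (fun x => h • x)).map (fun x => g • x) = _
    have h0 : IsUnit (S.map (fun x => g • x)).det := by
      rw [ma_det]
      exact isUnit_iff_ne_zero.2 (smul_ne_zero_field g hSdet)
    rw [ma_mul, ma_mul, ma_map, ma_inv g _ hSu]
    have h1 := M.mul g h
    rw [hMa] at h1
    calc S⁻¹ * M.P g * S.map (fun x => g • x) * ((S.map (fun x => g • x))⁻¹ *
          (M.P h).map (fun x => g • x) * S.map (fun x => (g * h) • x))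
        = S⁻¹ * M.P g * (S.map (fun x => g • x) * (S.map (fun x => g • x))⁻¹) *
          (M.P h).map (fun x => g • x) * S.map (fun x => (g * h) • x) := by
            simp only [Matrix.mul_assoc]
      _ = S⁻¹ * (M.P g * (M.P h).map (fun x => g • x)) * S.map (fun x => (g * h) • x) := by
            rw [Matrix.mul_nonsing_inv _ h0, Matrix.mul_one]
            simp only [Matrix.mul_assoc]
      _ = _ := by
            rw [h1, Matrix.mul_smul, Matrix.smul_mul]
  have hcol : ∀ g (i : κ ⊕ δ) (j : κ), R g i (Sum.inl j) = (J * N.P g) i j := by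
    intro g i j
    rw [← hRJ]
    simp [Matrix.mul_apply, J]
  have h21 : ∀ g (i : δ) (j : κ), R g (Sum.inr i) (Sum.inl j) = 0 := by
    intro g i j
    rw [hcol]
    simp [Matrix.mul_apply, J]
  have h11 : ∀ g (i j : κ), R g (Sum.inl i) (Sum.inl j) = N.P g i j := by
    intro g i j
    rw [hcol]
    simp [Matrix.mul_apply, J]
  have hRdet : ∀ g, (R g).det ≠ 0 := by
    intro g
    show (S⁻¹ * M.P g * S.map (fun x => g • x)).det ≠ 0
    rw [Matrix.det_mul, Matrix.det_mul, ma_det]
    refine mul_ne_zero (mul_ne_zero ?_ (M.det_ne g)) (smul_ne_zero_field g hSdet)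
    rw [Matrix.det_nonsing_inv, Ring.inverse_eq_inv']
    exact inv_ne_zero hSdet
  refine ⟨δ, inferInstance, inferInstance, ⟨fun g => (R g).toBlocks₂₂, a, ha, ?_, ?_⟩, ?_, rfl⟩
  · intro g h0
    apply hRdet g
    have hblk : R g = Matrix.fromBlocks (N.P g) (R g).toBlocks₁₂ 0 (R g).toBlocks₂₂ := by
      ext i j
      rcases i with i | i <;> rcases j with j | j
      · simp [h11]
      · simp [Matrix.toBlocks₁₂]
      · simp [h21]
      · simp [Matrix.toBlocks₂₂]
    rw [hblk, Matrix.det_fromBlocks_zero₂₁, h0, mul_zero]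
  · intro g h
    ext i j
    have h1 := congrFun (congrFun (hRmul g h) (Sum.inr i)) (Sum.inr j)
    rw [Matrix.mul_apply, Fintype.sum_sum_type] at h1
    simp only [h21, zero_mul, Finset.sum_const_zero, zero_add] at h1
    exact h1
  · rw [Fintype.card_ulift, Fintype.card_fin]

end Pool.Agent.MP12f267
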