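import Mathlib
import Pool.Agent.Work.MP_12f267_ag.Interface
import Pool.Agent.Work.MP_12f267_ag.NIL

/-! Block TOWF: towers of fields give towers of `G`-sets. -/

open TensorProduct

namespace Pool.Agent.MP12f267

universe u

namespace Tow

/-! ### `G`-sets -/

lemma goodStep_transport {r : ℕ} {G Y G' Y' : Type u} [Group G] [MulAction G Y] [Group G']
    [MulAction G' Y'] (e : Y ≃ Y') (h : ∀ g' : G', ∃ g : G, ∀ y, e (g • y) = g' • e y)
    (hY : GoodStep r G Y) : GoodStep r G' Y' := by
  obtain ⟨h1, h2, h3, h4⟩ := hY
  refine ⟨Finite.of_equiv Y e, ⟨e h2.some⟩, ?_, ?_⟩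
  · rwa [← Nat.card_congr e]
  · rw [← Nat.card_congr e]
    refine h4.imp id ?_
    rintro ⟨σ, hσ, ht⟩
    refine ⟨(e.symm.trans σ).trans e, fun g' y' => ?_, fun y y' => ?_⟩
    · obtain ⟨g, hg⟩ := h g'
      obtain ⟨y, rfl⟩ := e.surjective y'
      simp only [Equiv.trans_apply, Equiv.symm_apply_apply]
      rw [← hg, Equiv.symm_apply_apply, hσ, hg]
    · obtain ⟨k, hk⟩ := ht (e.symm y) (e.symm y')
      refine ⟨k, ?_⟩
      have key : ((e.symm.trans σ).trans e) ^ k = (e.symm.trans (σ ^ k)).trans e := by
        have := map_zpow (Equiv.permCongrHom e) σ k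
        exact this.symm
      rw [key]
      simp [hk]

/-- A good step over the top of a tower. -/
lemma hasTower_ext {r : ℕ} {G Y : Type u} [Group G] [MulAction G Y] (hY : HasTower r G Y) :
    ∀ (X : Type u) [MulAction G X] (π : X →[G] Y),
      (∀ y, GoodStep r (MulAction.stabilizer G y) (Fib π y)) → HasTower r G X := by
  induction hY with
  | point G Y h h' =>
    intro X _ π hπ
    obtain ⟨y0⟩ := h'
    have hall : ∀ x : X, π x = y0 := fun x => Subsingleton.elim _ _
    let e : Fib π y0 ≃ X :=
      { toFun := fun x => x.1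
        invFun := fun x => ⟨x, hall x⟩
        left_inv := fun x => rfl
        right_inv := fun x => rfl }
    have hX : GoodStep r G X := goodStep_transport e
      (fun g' => ⟨⟨g', Subsingleton.elim _ _⟩, fun y => rfl⟩) (hπ y0)
    refine HasTower.step G X X (MulActionHom.id G) hX fun y => ?_
    refine HasTower.point _ _ ⟨?_⟩ ⟨⟨y, rfl⟩⟩
    rintro ⟨a, ha⟩ ⟨b, hb⟩
    exact Subtype.ext (ha.trans hb.symm)
  | step G Y Z πZ hZ h ih =>
    intro X _ π hπ
    refine HasTower.step G X Z (πZ.comp π) hZ fun z => ?_
    let π' : Fib (πZ.comp π) z →[MulAction.stabilizer G z] Fib πZ z :=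
      { toFun := fun x => ⟨π x.1, x.2⟩
        map_smul' := fun g x => Subtype.ext (map_smul π (g : G) x.1) }
    refine ih z (Fib (πZ.comp π) z) π' fun y => ?_
    let e : Fib π y.1 ≃ Fib π' y :=
      { toFun := fun x => ⟨⟨x.1, by
            show πZ (π x.1) = z
            rw [x.2]
            exact y.2⟩, Subtype.ext x.2⟩
        invFun := fun x => ⟨x.1.1, congrArg Subtype.val x.2⟩
        left_inv := fun x => rfl
        right_inv := fun x => rfl }
    refine goodStep_transport e (fun g' => ⟨⟨g'.1.1, ?_⟩, fun y => rfl⟩) (hπ y.1)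
    exact congrArg Subtype.val g'.2

/-- Transport of towers along bijections. -/
lemma hasTower_congr {r : ℕ} {G Y X : Type u} [Group G] [MulAction G Y] [MulAction G X]
    (hY : HasTower r G Y) (π : X →[G] Y) (hπ : Function.Bijective π) : HasTower r G X := by
  refine hasTower_ext hY X π fun y => ?_
  obtain ⟨x, hx⟩ := hπ.2 y
  have hs : Subsingleton (Fib π y) := ⟨fun a b => Subtype.ext (hπ.1 (a.2.trans b.2.symm))⟩
  have hn : Nonempty (Fib π y) := ⟨⟨x, hx⟩⟩
  have hc : Nat.card (Fib π y) = 1 := Nat.card_eq_one_iff_unique.mpr ⟨hs, hn⟩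
  refine ⟨inferInstance, hn, ?_, Or.inl ?_⟩
  · rw [hc]
    exact Nat.coprime_one_right r
  · rw [hc]
    intro r _
    exact ⟨0, Or.inl (by simp)⟩

/-! ### embeddings -/

/-- Embeddings of `M` into `L`. -/
def Emb (F M L : Type u) [Field F] [Field M] [Field L] [Algebra F M] [Algebra F L] : Type u :=
  M →ₐ[F] L

instance (F M L : Type u) [Field F] [Field M] [Field L] [Algebra F M] [Algebra F L] :
    MulAction (L ≃ₐ[F] L) (Emb F M L) where
  smul g z := (g : L →ₐ[F] L).comp z
  one_smul _ := rfl
  mul_smul _ _ _ := rfl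

/-- The underlying homomorphism. -/
def Emb.hom {F M L : Type u} [Field F] [Field M] [Field L] [Algebra F M] [Algebra F L]
    (z : Emb F M L) : M →ₐ[F] L := z

lemma Emb.ext {F M L : Type u} [Field F] [Field M] [Field L] [Algebra F M] [Algebra F L]
    {z z' : Emb F M L} (h : ∀ x, z.hom x = z'.hom x) : z = z' :=
  AlgHom.ext (φ₁ := z.hom) (φ₂ := z'.hom) h

section Emb

variable {F L : Type u} [Field F] [Field L] [Algebra F L] [FiniteDimensional F L]
  [IsGalois F L]

lemma emb_pretransitive (M : Type u) [Field M] [Algebra F M] :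
    MulAction.IsPretransitive (L ≃ₐ[F] L) (Emb F M L) := by
  constructor
  intro z z'
  let : Algebra M L := z.hom.toRingHom.toAlgebra
  have : IsScalarTower F M L := IsScalarTower.of_algebraMap_eq fun x => (z.hom.commutes x).symm
  let g : L →ₐ[F] L := z'.hom.liftNormal L
  have hg : ∀ x : M, g (z.hom x) = z'.hom x := fun x => AlgHom.liftNormal_commutes z'.hom L x
  exact ⟨AlgEquiv.ofBijective g (Algebra.IsAlgebraic.algHom_bijective g), Emb.ext hg⟩

variable {E : Type u} [Field E] [Algebra F E] [FiniteDimensional F E] [Algebra.IsSeparable F E]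

omit [FiniteDimensional F L] [IsGalois F L] in
lemma card_emb (hs : ∀ s : E, ((minpoly F s).map (algebraMap F L)).Splits)
    (M : IntermediateField F E) : Nat.card (Emb F M L) = Module.finrank F M := by
  refine AlgHom.natCard_of_splits F M L fun x => ?_
  have : minpoly F x = minpoly F (x : E) := (minpoly.algHom_eq M.val M.val.injective x).symm
  rw [this]
  exact hs _

/-- Restriction of embeddings. -/
def res (L : Type u) [Field L] [Algebra F L] {M M' : IntermediateField F E} (h : M ≤ M') :
    Emb F M' L →[L ≃ₐ[F] L] Emb F M L where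
  toFun z := (z.hom).comp (IntermediateField.inclusion h)
  map_smul' _ _ := rfl

/-- The two forms of the larger field. -/
def ιE {M M' : IntermediateField F E} (h : M ≤ M') :
    M' ≃ₐ[F] (IntermediateField.extendScalars h) where
  toFun x := ⟨x.1, x.2⟩
  invFun x := ⟨x.1, x.2⟩
  left_inv _ := rfl
  right_inv _ := rfl
  map_mul' _ _ := rfl
  map_add' _ _ := rfl
  commutes' _ := rfl

omit [FiniteDimensional F L] [IsGalois F L] [FiniteDimensional F E] in
lemma nonempty_emb (hs : ∀ s : E, ((minpoly F s).map (algebraMap F L)).Splits)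
    (M : IntermediateField F E) : Nonempty (Emb F M L) := by
  obtain ⟨φ⟩ := IntermediateField.nonempty_algHom_of_splits (F := F) (E := E) (K := L)
    (fun s => ⟨Algebra.IsIntegral.isIntegral s, hs s⟩)
  exact ⟨φ.comp M.val⟩

section Fibre

variable (hs : ∀ s : E, ((minpoly F s).map (algebraMap F L)).Splits) {M M' : IntermediateField F E}
  (h : M ≤ M') (y : Emb F M L)

include hs in
lemma card_fibre : Nat.card (Fib (res L h) y) =
    Module.finrank M (IntermediateField.extendScalars h) := by
  have := emb_pretransitive (F := F) (L := L) M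
  have := emb_pretransitive (F := F) (L := L) M'
  have := nonempty_emb hs M'
  have h1 := card_fib (res L h) y
  rw [card_emb hs, card_emb hs] at h1
  have h2 := Module.finrank_mul_finrank F M (IntermediateField.extendScalars h)
  have h3 : Module.finrank F (IntermediateField.extendScalars h) = Module.finrank F M' :=
    ((ιE h).toLinearEquiv.finrank_eq).symm
  have h4 : 0 < Module.finrank F M := Module.finrank_pos
  apply Nat.eq_of_mul_eq_mul_left h4
  rw [h2, h3, ← h1, mul_comm]

omit [FiniteDimensional F L] [IsGalois F L] [Algebra F L] [Field L] [Algebra.IsSeparable F E] in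
lemma finrank_step_dvd : Module.finrank M (IntermediateField.extendScalars h) ∣
    Module.finrank F E := by
  have h2 := Module.finrank_mul_finrank F M (IntermediateField.extendScalars h)
  have h3 : Module.finrank F (IntermediateField.extendScalars h) = Module.finrank F M' :=
    ((ιE h).toLinearEquiv.finrank_eq).symm
  have h4 := Module.finrank_mul_finrank F M' E
  rw [← h4, ← h3, ← h2]
  exact ⟨Module.finrank F M * Module.finrank M' E, by ring⟩

/-- The conjugated automorphism. -/
def conv {M M' : IntermediateField F E} (h : M ≤ M')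
    (τ : IntermediateField.extendScalars h ≃ₐ[M] IntermediateField.extendScalars h) :
    M' →ₐ[F] M' :=
  ((ιE h).symm : IntermediateField.extendScalars h →ₐ[F] M').comp
    (((τ.restrictScalars F : IntermediateField.extendScalars h ≃ₐ[F]
      IntermediateField.extendScalars h) : IntermediateField.extendScalars h →ₐ[F]
        IntermediateField.extendScalars h).comp (ιE h : M' →ₐ[F] IntermediateField.extendScalars h))

/-- Composition with automorphisms of the fibre. -/
def act {M M' : IntermediateField F E} (h : M ≤ M') (y : Emb F M L)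
    (τ : IntermediateField.extendScalars h ≃ₐ[M] IntermediateField.extendScalars h)
    (z : Fib (res L h) y) : Fib (res L h) y :=
  ⟨z.1.hom.comp (conv h τ), by
    conv_rhs => rw [← z.2]
    refine Emb.ext fun x => ?_
    show z.1.hom (conv h τ (IntermediateField.inclusion h x)) = z.1.hom (IntermediateField.inclusion h x)
    congr 1
    have := τ.commutes x
    exact Subtype.ext (congrArg (fun w : IntermediateField.extendScalars h => (w : E)) this)⟩

omit [FiniteDimensional F L] [IsGalois F L] [FiniteDimensional F E]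
  [Algebra.IsSeparable F E] in
lemma act_hom (τ : IntermediateField.extendScalars h ≃ₐ[M] IntermediateField.extendScalars h)
    (z : Fib (res L h) y) (x : M') : (act h y τ z).1.hom x = z.1.hom (conv h τ x) := rfl

omit [FiniteDimensional F L] [IsGalois F L] [FiniteDimensional F E]
  [Algebra.IsSeparable F E] in
lemma act_mul (τ τ' : IntermediateField.extendScalars h ≃ₐ[M] IntermediateField.extendScalars h)
    (z : Fib (res L h) y) : act h y (τ * τ') z = act h y τ' (act h y τ z) := rfl

omit [FiniteDimensional F L] [IsGalois F L] [FiniteDimensional F E]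
  [Algebra.IsSeparable F E] in
lemma act_one (z : Fib (res L h) y) : act h y 1 z = z := rfl

/-- The action of the Galois group on the fibre. -/
def ρ : (IntermediateField.extendScalars h ≃ₐ[M] IntermediateField.extendScalars h) →*
    Equiv.Perm (Fib (res L h) y) where
  toFun τ :=
    { toFun := act h y τ⁻¹
      invFun := act h y τ
      left_inv := fun z => by rw [← act_mul, inv_mul_cancel, act_one]
      right_inv := fun z => by rw [← act_mul, mul_inv_cancel, act_one] }
  map_one' := by
    ext z
    rw [Equiv.coe_fn_mk, inv_one, act_one]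
    rfl
  map_mul' τ τ' := by
    ext z
    rw [Equiv.coe_fn_mk, mul_inv_rev, act_mul]
    rfl

include hs in
lemma goodStep_fibre (r : ℕ) (hr : r.Coprime (Module.finrank M (IntermediateField.extendScalars h)))
    (hg : GoodDegree (Module.finrank M (IntermediateField.extendScalars h)) ∨
    (IsGalois M (IntermediateField.extendScalars h) ∧
      IsCyclic (IntermediateField.extendScalars h ≃ₐ[M] IntermediateField.extendScalars h))) :
    GoodStep r (MulAction.stabilizer (L ≃ₐ[F] L) y) (Fib (res L h) y) := by
  have := emb_pretransitive (F := F) (L := L) M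
  have := nonempty_emb hs M'
  have hcard := card_fibre hs h y
  have hpos : 0 < Nat.card (Fib (res L h) y) := by
    rw [hcard]
    exact Module.finrank_pos
  refine ⟨(Nat.card_pos_iff.mp hpos).2, fib_nonempty _ y, ?_, ?_⟩
  · rwa [hcard]
  rw [hcard]
  refine hg.imp id ?_
  rintro ⟨hgal, ⟨τ, hτ⟩⟩
  refine ⟨ρ h y τ, fun g z => rfl, fun z z' => ?_⟩
  have hinj : Function.Injective fun σ => ρ h y σ z := by
    intro σ σ' hσ
    have h1 : ∀ x, z.1.hom (conv h σ⁻¹ x) = z.1.hom (conv h σ'⁻¹ x) := fun x =>
      congrArg (fun w : Fib (res L h) y => w.1.hom x) hσ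
    have h2 : σ⁻¹ = σ'⁻¹ := by
      ext x
      have := z.1.hom.injective (h1 ((ιE h).symm x))
      exact congrArg (fun w : M' => (w : E)) this
    exact inv_injective h2
  have hfin : Finite (Fib (res L h) y) := (Nat.card_pos_iff.mp hpos).2
  have hbij := hinj.bijective_of_nat_card_le (by
    rw [hcard, IsGalois.card_aut_eq_finrank])
  obtain ⟨σ, hσ⟩ := hbij.2 z'
  obtain ⟨k, hk⟩ := Subgroup.mem_zpowers_iff.mp (hτ σ)
  refine ⟨k, ?_⟩
  rw [← map_zpow, hk]
  exact hσ

end Fibre

end Emb

end Tow

theorem stmt_TOWF : Stmt_TOWF.{u} := by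
  intro F E L _ _ _ _ _ _ _ _ _ α r hα hsp htow hr
  -- all minimal polynomials split
  have hint : IsIntegral F α := Algebra.IsIntegral.isIntegral α
  obtain ⟨j⟩ := IntermediateField.nonempty_algHom_of_adjoin_splits (F := F) (E := E) (K := L)
    (S := {α}) (fun s hs => by
      rw [Set.mem_singleton_iff] at hs
      subst hs
      exact ⟨hint, hsp⟩) hα
  have hs : ∀ s : E, ((minpoly F s).map (algebraMap F L)).Splits := by
    intro s
    rw [← minpoly.algHom_eq j j.injective s]
    exact Normal.splits inferInstance (j s)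
  obtain ⟨k, M, h0, hk, hM⟩ := htow
  have main : ∀ i, i ≤ k → HasTower r (L ≃ₐ[F] L) (Tow.Emb F (M i) L) := by
    intro i
    induction i with
    | zero =>
      intro _
      refine HasTower.point _ _ ⟨fun z z' => Tow.Emb.ext fun x => ?_⟩ (Tow.nonempty_emb hs _)
      have hx : (x : E) ∈ (⊥ : IntermediateField F E) := by
        rw [← h0]
        exact x.2
      obtain ⟨c, hc⟩ := IntermediateField.mem_bot.mp hx
      have : x = algebraMap F (M 0) c := Subtype.ext hc.symm
      rw [this, AlgHom.commutes, AlgHom.commutes]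
    | succ i ih =>
      intro hi
      obtain ⟨h, hg⟩ := hM i hi
      refine Tow.hasTower_ext (ih (by omega)) _ (Tow.res L h) fun y => ?_
      refine Tow.goodStep_fibre hs h y r ?_ hg
      exact Nat.Coprime.coprime_dvd_right (Tow.finrank_step_dvd h) hr
  have hfin := main k le_rfl
  rw [hk] at hfin
  -- the bijection with the roots
  have hαt : ∀ x : Roots F L (minpoly F α), ∃ φ : E →ₐ[F] L, φ α = x.1 := fun x =>
    IntermediateField.exists_algHom_of_splits_of_aeval
      (fun s => ⟨Algebra.IsIntegral.isIntegral s, hs s⟩) x.2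
  have hext : ∀ φ ψ : E →ₐ[F] L, φ α = ψ α → φ = ψ := by
    intro φ ψ h
    have h1 : (⊤ : IntermediateField F E) ≤ Subalgebra.toIntermediateField (AlgHom.equalizer φ ψ)
        (by
          intro x hx
          rw [AlgHom.mem_equalizer] at hx ⊢
          rw [map_inv₀, map_inv₀, hx]) := by
      rw [← hα, IntermediateField.adjoin_le_iff]
      rintro _ rfl
      exact h
    ext x
    have h2 : x ∈ (⊤ : IntermediateField F E) := trivial
    exact h1 h2
  choose φ hφ using hαt
  let π : Roots F L (minpoly F α) →[L ≃ₐ[F] L] Tow.Emb F (⊤ : IntermediateField F E) L :=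
    { toFun := fun x => (φ x).comp (⊤ : IntermediateField F E).val
      map_smul' := fun g x => by
        have : φ (g • x) = (g : L →ₐ[F] L).comp (φ x) := by
          apply hext
          rw [hφ]
          show g x.1 = g (φ x α)
          rw [hφ]
        show (φ (g • x)).comp _ = ((g : L →ₐ[F] L).comp ((φ x).comp _))
        rw [this]
        rfl }
  refine Tow.hasTower_congr hfin π ⟨fun a b hab => ?_, fun z => ?_⟩
  · have h1 : φ a α = φ b α :=
      congrArg (fun w : Tow.Emb F (⊤ : IntermediateField F E) L => w.hom ⟨α, trivial⟩) hab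
    rw [hφ, hφ] at h1
    exact Subtype.ext h1
  · let ψ : E →ₐ[F] L := z.hom.comp (IntermediateField.topEquiv.symm : E ≃ₐ[F] _)
    have hψ : Polynomial.aeval (ψ α) (minpoly F α) = 0 := by
      rw [Polynomial.aeval_algHom_apply, minpoly.aeval, map_zero]
    refine ⟨⟨ψ α, hψ⟩, ?_⟩
    have : φ ⟨ψ α, hψ⟩ = ψ := hext _ _ (hφ _)
    show (φ ⟨ψ α, hψ⟩).comp _ = z
    rw [this]
    refine Tow.Emb.ext fun x => ?_
    rfl

end Pool.Agent.MP12f267
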