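import Mathlib
import Pool.Agent.Work.MP_12f267_ag.AsmA
import Pool.Agent.Work.MP_12f267_ag.AsmB
import Pool.Agent.Work.MP_12f267_ag.AsmP
import Pool.Agent.Work.MP_12f267_ag.CYC
import Pool.Agent.Work.MP_12f267_ag.DBL
import Pool.Agent.Work.MP_12f267_ag.FIB
import Pool.Agent.Work.MP_12f267_ag.SUB
import Pool.Agent.Work.MP_12f267_ag.EX
import Pool.Agent.Work.MP_12f267_ag.SEP
import Pool.Agent.Work.MP_12f267_ag.SIMPLE
import Pool.Agent.Work.MP_12f267_ag.MODEL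
import Pool.Agent.Work.MP_12f267_ag.CMP
import Pool.Agent.Work.MP_12f267_ag.FIN
import Pool.Agent.Work.MP_12f267_ag.TOWF
import Pool.Agent.Work.MP_12f267_ag.ENLA

/-! The theorems. -/

open TensorProduct

namespace Pool.Agent.MP12f267

universe u

theorem fin_GD : Stmt_GD.{u} := stmt_GD stmt_INV (stmt_DBL stmt_DENS) stmt_UNIQM stmt_DIMM

theorem fin_TOW : Stmt_TOW.{u} :=
  stmt_TOW fin_GD (stmt_CYC stmt_UNIQM) stmt_FIB stmt_UNIQM stmt_DIMM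

theorem theoremA : Stmt_THMA.{u} :=
  thmA stmt_EX (stmt_FIN stmt_DESC) stmt_SEP (stmt_MODEL stmt_SIMPLE) stmt_BRAUER stmt_ENLA
    fin_GD stmt_FIB (stmt_SUB stmt_DENS)

theorem theoremP : Stmt_THMP.{u} :=
  thmP stmt_EX (stmt_FIN stmt_DESC) stmt_SEP (stmt_MODEL stmt_SIMPLE) stmt_BRAUER stmt_ENLA
    (stmt_PRODP (stmt_GDP stmt_INV (stmt_DBL stmt_DENS) stmt_UNIQM) stmt_FIB stmt_UNIQM stmt_DIMM)
    (stmt_SUB stmt_DENS)

theorem theoremB : Stmt_THMB2.{u} :=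
  thmB stmt_EX (stmt_FIN stmt_DESC) stmt_SEP (stmt_MODEL stmt_SIMPLE) stmt_BRAUER
    (stmt_CMP stmt_ISOCOH) fin_TOW (stmt_SUM (stmt_SUB stmt_DENS)) stmt_TOWF

theorem theoremC : Stmt_THMC.{u} :=
  thmC stmt_EX (stmt_FIN stmt_DESC) stmt_SEP (stmt_MODEL stmt_SIMPLE) stmt_BRAUER
    (stmt_CMP stmt_ISOCOH) fin_TOW (stmt_SUM (stmt_SUB stmt_DENS)) stmt_NIL

end Pool.Agent.MP12f267
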