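import Mathlib
import Pool.Agent.Work.MP_12f267_ag.Interface

/-! Block MODEL (helper4): a separable element of full degree gives a monomial model. -/

open TensorProduct

namespace Pool.Agent.MP12f267

universe u

namespace ModelBlock

/-! ### Matrix units from idempotents in a simple ring -/

lemma simple_ne {B : Type*} [Ring B] [IsSimpleRing B] {x y : B} (hx : x ≠ 0) (hy : y ≠ 0) :
    ∃ b : B, x * b * y ≠ 0 := by
  by_contra hcon
  push Not at hcon
  let I : TwoSidedIdeal B := TwoSidedIdeal.mk' {z | ∀ b, x * b * z = 0}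
    (fun b => by simp)
    (fun {a c} ha hc b => by
      simp only [Set.mem_ofPred_eq] at ha hc
      rw [mul_add, ha, hc, add_zero])
    (fun {a} ha b => by
      simp only [Set.mem_ofPred_eq] at ha
      rw [mul_neg, ha, neg_zero])
    (fun {a c} hc b => by
      simp only [Set.mem_ofPred_eq] at hc
      rw [← mul_assoc, mul_assoc x b a, hc])
    (fun {a c} ha b => by
      simp only [Set.mem_ofPred_eq] at ha
      rw [← mul_assoc, ha, zero_mul])
  have hyI : y ∈ I := by
    rw [TwoSidedIdeal.mem_mk']
    exact hcon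
  have hI : I = ⊤ := by
    rcases eq_bot_or_eq_top I with h | h
    · exfalso
      rw [h] at hyI
      exact hy hyI
    · exact h
  have h1 : (1 : B) ∈ I := by rw [hI]; trivial
  rw [TwoSidedIdeal.mem_mk'] at h1
  have := h1 1
  simp at this
  exact hx this

/-- A complete system of nonzero orthogonal idempotents. -/
structure Idem {B ι : Type*} [Ring B] [Fintype ι] (e : ι → B) : Prop where
  ne : ∀ i, e i ≠ 0
  sq : ∀ i, e i * e i = e i
  orth : ∀ i j, i ≠ j → e i * e j = 0
  sum : ∑ i, e i = 1

section

variable {L B ι : Type*} [Field L] [Ring B] [Algebra L B] [IsSimpleRing B] [Fintype ι]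
  [DecidableEq ι] {e : ι → B}

lemma line (he : Idem e) (hd : Module.finrank L B = Fintype.card ι ^ 2) (i j : ι) :
    ∃ x : B, x ≠ 0 ∧ e i * x * e j = x ∧ ∀ b : B, ∃ c : L, e i * b * e j = c • x := by
  have hx : ∀ p : ι × ι, ∃ b : B, e p.1 * b * e p.2 ≠ 0 := fun p => simple_ne (he.ne _) (he.ne _)
  choose b hb using hx
  let x : ι × ι → B := fun p => e p.1 * b p * e p.2
  have hx1 : ∀ p, e p.1 * x p * e p.2 = x p := by
    intro p
    simp only [x]
    rw [← mul_assoc, ← mul_assoc, he.sq, mul_assoc _ (e p.2) (e p.2), he.sq]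
  have key : ∀ (g : ι × ι → L) (p : ι × ι), e p.1 * (∑ q, g q • x q) * e p.2 = g p • x p := by
    intro g p
    rw [Finset.mul_sum, Finset.sum_mul, Finset.sum_eq_single p]
    · rw [mul_smul_comm, smul_mul_assoc, hx1]
    · intro q _ hq
      rw [mul_smul_comm, smul_mul_assoc]
      simp only [x]
      by_cases h1 : p.1 = q.1
      · have h2 : q.2 ≠ p.2 := by
          intro h2
          exact hq (Prod.ext h1.symm h2)
        rw [← mul_assoc, ← mul_assoc, mul_assoc _ (e q.2) (e p.2), he.orth _ _ h2]
        simp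
      · rw [← mul_assoc, ← mul_assoc, he.orth _ _ h1]
        simp
    · simp
  have hli : LinearIndependent L x := by
    rw [Fintype.linearIndependent_iff]
    intro g hg p
    have := key g p
    rw [hg] at this
    simp only [mul_zero, zero_mul] at this
    rcases smul_eq_zero.mp this.symm with h | h
    · exact h
    · exact absurd h (hb p)
  have hspan : Submodule.span L (Set.range x) = ⊤ := by
    by_cases hι : Nonempty ι
    · have hpos : 0 < Module.finrank L B := by
        rw [hd]
        exact pow_pos Fintype.card_pos 2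
      have : FiniteDimensional L B := Module.finite_of_finrank_pos hpos
      refine hli.span_eq_top_of_card_eq_finrank' ?_
      rw [hd, Fintype.card_prod, sq]
    · exfalso
      have : IsEmpty ι := not_nonempty_iff.mp hι
      have h1 := he.sum
      simp at h1
  refine ⟨x (i, j), hb (i, j), hx1 (i, j), fun y => ?_⟩
  have hy : y ∈ Submodule.span L (Set.range x) := by rw [hspan]; trivial
  rw [Submodule.mem_span_range_iff_exists_fun] at hy
  obtain ⟨g, rfl⟩ := hy
  exact ⟨g (i, j), key g (i, j)⟩

lemma units (he : Idem e) (hd : Module.finrank L B = Fintype.card ι ^ 2) (o : ι) :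
    ∃ s t : ι → B, (∀ i, e i * t i = t i) ∧ (∀ i, t i * e o = t i) ∧ (∀ i, e o * s i = s i) ∧
      (∀ i, s i * e i = s i) ∧ (∀ i, s i * t i = e o) ∧ (∀ i, t i * s i = e i) := by
  have h : ∀ i, ∃ s t : B, e i * t = t ∧ t * e o = t ∧ e o * s = s ∧ s * e i = s ∧
      s * t = e o ∧ t * s = e i := by
    intro i
    obtain ⟨t, ht0, ht, -⟩ := line (L := L) he hd i o
    have ht1 : e i * t = t := by
      conv_lhs => rw [← ht, ← mul_assoc, ← mul_assoc, he.sq]
      exact ht
    have ht2 : t * e o = t := by
      conv_lhs => rw [← ht, mul_assoc _ (e o) (e o), he.sq]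
      exact ht
    -- find b with t * b * t ≠ 0
    obtain ⟨b, hb⟩ := simple_ne ht0 ht0
    -- s' = e o * b * e i
    obtain ⟨s', hs'⟩ : ∃ s', s' = e o * b * e i := ⟨_, rfl⟩
    have hs1 : e o * s' = s' := by rw [hs', ← mul_assoc, ← mul_assoc, he.sq]
    have hs2 : s' * e i = s' := by rw [hs', mul_assoc _ (e i) (e i), he.sq]
    have hst : t * s' * t ≠ 0 := by
      have : t * s' * t = t * b * t := by
        rw [hs']
        calc t * (e o * b * e i) * t = (t * e o) * b * (e i * t) := by noncomm_ring
          _ = t * b * t := by rw [ht1, ht2]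
      rwa [this]
    obtain ⟨x, hx0, -, hx⟩ := line (L := L) he hd o o
    obtain ⟨c1, hc1⟩ := hx (s' * t)
    obtain ⟨c2, hc2⟩ := hx 1
    have hst1 : s' * t = c1 • x := by
      rw [← hc1, ← mul_assoc, hs1, mul_assoc, ht2]
    have heo : e o = c2 • x := by
      rw [← hc2, mul_one, he.sq]
    have hc2' : c2 ≠ 0 := by
      intro h0
      rw [h0, zero_smul] at heo
      exact he.ne o heo
    have hc1' : c1 ≠ 0 := by
      intro h0
      rw [h0, zero_smul] at hst1
      apply hst
      rw [mul_assoc, hst1, mul_zero]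
    have hst2 : s' * t = (c1 / c2) • e o := by
      rw [hst1, heo, smul_smul, div_mul_cancel₀ _ hc2']
    set l : L := c1 / c2 with hl
    have hl0 : l ≠ 0 := div_ne_zero hc1' hc2'
    -- t * s' in e i B e i
    obtain ⟨y, hy0, -, hy⟩ := line (L := L) he hd i i
    obtain ⟨d1, hd1⟩ := hy (t * s')
    obtain ⟨d2, hd2⟩ := hy 1
    have hts1 : t * s' = d1 • y := by
      rw [← hd1, ← mul_assoc, ht1, mul_assoc, hs2]
    have hei : e i = d2 • y := by
      rw [← hd2, mul_one, he.sq]
    have hd2' : d2 ≠ 0 := by
      intro h0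
      rw [h0, zero_smul] at hei
      exact he.ne i hei
    have hts2 : t * s' = (d1 / d2) • e i := by
      rw [hts1, hei, smul_smul, div_mul_cancel₀ _ hd2']
    set m : L := d1 / d2 with hm
    -- t * s' * t computed in two ways
    have hlm : l = m := by
      have h1 : t * s' * t = l • t := by rw [mul_assoc, hst2, mul_smul_comm, ht2]
      have h2 : t * s' * t = m • t := by rw [hts2, smul_mul_assoc, ht1]
      have h3 : (l - m) • t = 0 := by rw [sub_smul, ← h1, ← h2, sub_self]
      rcases smul_eq_zero.mp h3 with h | h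
      · exact sub_eq_zero.mp h
      · exact absurd h ht0
    refine ⟨l⁻¹ • s', t, ht1, ht2, ?_, ?_, ?_, ?_⟩
    · rw [mul_smul_comm, hs1]
    · rw [smul_mul_assoc, hs2]
    · rw [smul_mul_assoc, hst2, smul_smul, inv_mul_cancel₀ hl0, one_smul]
    · rw [mul_smul_comm, hts2, ← hlm, smul_smul, inv_mul_cancel₀ hl0, one_smul]
  choose s t h1 h2 h3 h4 h5 h6 using h
  exact ⟨s, t, h1, h2, h3, h4, h5, h6⟩

lemma functional (he : Idem e) (hd : Module.finrank L B = Fintype.card ι ^ 2) (o : ι) :
    ∃ ε : B →ₗ[L] L, ∀ b, e o * b * e o = ε b • e o := by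
  obtain ⟨x, hx0, -, hx⟩ := line (L := L) he hd o o
  obtain ⟨c2, hc2⟩ := hx 1
  have heo : e o = c2 • x := by
    rw [← hc2, mul_one, he.sq]
  have hc2' : c2 ≠ 0 := by
    intro h0
    rw [h0, zero_smul] at heo
    exact he.ne o heo
  have h : ∀ b, ∃ c : L, e o * b * e o = c • e o := by
    intro b
    obtain ⟨c, hc⟩ := hx b
    refine ⟨c / c2, ?_⟩
    rw [hc, heo, smul_smul, div_mul_cancel₀ _ hc2']
  choose f hf using h
  have hinj : ∀ c d : L, c • e o = d • e o → c = d := by
    intro c d hcd
    have : (c - d) • e o = 0 := by rw [sub_smul, hcd, sub_self]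
    rcases smul_eq_zero.mp this with h | h
    · exact sub_eq_zero.mp h
    · exact absurd h (he.ne o)
  refine ⟨{ toFun := f, map_add' := ?_, map_smul' := ?_ }, hf⟩
  · intro a b
    apply hinj
    rw [← hf, mul_add, add_mul, hf, hf, add_smul]
  · intro c b
    apply hinj
    rw [← hf, mul_smul_comm, smul_mul_assoc, hf, smul_smul, RingHom.id_apply, smul_eq_mul]

end

/-! ### The idempotents of a separable element of full degree -/

section

open Polynomial

variable {F A L : Type u} [Field F] [Ring A] [Algebra F A] [Field L] [Algebra F L]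

lemma card_roots {p : F[X]} (hp : p.Separable) (hs : (p.map (algebraMap F L)).Splits)
    [Fintype (Roots F L p)] : Fintype.card (Roots F L p) = p.natDegree := by
  classical
  rw [← Polynomial.card_rootSet_eq_natDegree (K := L) hp hs]
  refine Fintype.card_congr (α := Roots F L p) (β := p.rootSet L)
    (Equiv.subtypeEquivRight fun x => ?_)
  rw [Polynomial.mem_rootSet]
  exact ⟨fun h => ⟨hp.ne_zero, h⟩, fun h => h.2⟩

/-- The element `1 ⊗ f`. -/
def fL (L : Type u) [Field L] [Algebra F L] (f : A) : L ⊗[F] A := (1 : L) ⊗ₜ[F] f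

lemma aeval_fL_map (f : A) (P : F[X]) :
    aeval (fL (F := F) L f) (P.map (algebraMap F L)) = (1 : L) ⊗ₜ[F] (aeval f P) := by
  rw [aeval_map_algebraMap]
  have : fL (F := F) L f = (Algebra.TensorProduct.includeRight : A →ₐ[F] L ⊗[F] A) f := rfl
  rw [this, aeval_algHom_apply]
  rfl

lemma fL_indep (f : A) {P : L[X]} (hP : P.degree < ((minpoly F f).natDegree : ℕ))
    (h : aeval (fL (F := F) L f) P = 0) : P = 0 := by
  by_contra h0
  have hli := Module.Flat.linearIndependent_one_tmul (S := L) (linearIndependent_pow (K := F) f)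
  rw [Fintype.linearIndependent_iff] at hli
  have hnd : P.natDegree < (minpoly F f).natDegree := by
    rw [natDegree_lt_iff_degree_lt h0]
    exact hP
  rw [Polynomial.aeval_eq_sum_range' hnd, ← Fin.sum_univ_eq_sum_range
    (fun i => P.coeff i • fL (F := F) L f ^ i)] at h
  have hc := hli (fun i => P.coeff i) (by
      rw [← h]
      refine Finset.sum_congr rfl fun i _ => ?_
      rw [fL, Algebra.TensorProduct.tmul_pow, one_pow])
  apply h0
  ext i
  rw [coeff_zero]
  by_cases hi : i < (minpoly F f).natDegree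
  · exact hc ⟨i, hi⟩
  · exact coeff_eq_zero_of_degree_lt (lt_of_lt_of_le hP (by exact_mod_cast not_lt.mp hi))

lemma vanish (f : A) (hp : (minpoly F f).Separable)
    (hs : ((minpoly F f).map (algebraMap F L)).Splits) {P : L[X]}
    (h : ∀ α : Roots F L (minpoly F f), P.eval α.1 = 0) : aeval (fL (F := F) L f) P = 0 := by
  classical
  have hfin : Finite (Roots F L (minpoly F f)) := by
    have : Finite ((minpoly F f).rootSet L) := inferInstance
    refine Finite.of_injective (β := (minpoly F f).rootSet L)
      (fun x => ⟨x.1, by rw [Polynomial.mem_rootSet]; exact ⟨hp.ne_zero, x.2⟩⟩) ?_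
    intro x y hxy
    apply Subtype.ext
    exact congrArg (fun z => z.1) hxy
  have := Fintype.ofFinite (Roots F L (minpoly F f))
  set q := (minpoly F f).map (algebraMap F L) with hq
  have hm : (minpoly F f).Monic := by
    refine minpoly.monic ?_
    by_contra hint
    rw [minpoly.eq_zero hint] at hp
    exact hp.ne_zero rfl
  have hqm : q.Monic := hm.map _
  have hr : P %ₘ q = 0 := by
    refine Polynomial.eq_zero_of_degree_lt_of_eval_index_eq_zero (s := Finset.univ)
      (v := fun α : Roots F L (minpoly F f) => α.1) (fun x _ y _ hxy => Subtype.ext hxy) ?_ ?_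
    · rw [Finset.card_univ, card_roots hp hs]
      have := Polynomial.degree_modByMonic_lt P hqm
      rwa [hq, degree_map, degree_eq_natDegree hm.ne_zero, ← hq] at this
    · intro α _
      have h1 := Polynomial.modByMonic_add_div P q
      have h2 : q.eval α.1 = 0 := by
        rw [hq, eval_map, ← aeval_def]
        exact α.2
      have h3 := congrArg (eval α.1) h1
      rw [eval_add, eval_mul, h2, zero_mul, add_zero, h] at h3
      exact h3
  have h1 := Polynomial.modByMonic_add_div P q
  rw [← h1, hr, zero_add, map_mul, hq, aeval_fL_map, minpoly.aeval, TensorProduct.tmul_zero,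
    zero_mul]

/-- The semilinear action of the Galois group on `L ⊗ A`. -/
noncomputable def sig (g : L ≃ₐ[F] L) : L ⊗[F] A →ₐ[F] L ⊗[F] A :=
  Algebra.TensorProduct.map (g : L →ₐ[F] L) (AlgHom.id F A)

lemma sig_smul (g : L ≃ₐ[F] L) (c : L) (x : L ⊗[F] A) :
    sig g (c • x) = (g • c) • sig g x := by
  induction x using TensorProduct.induction_on with
  | zero => simp
  | tmul a b =>
    rw [TensorProduct.smul_tmul']
    simp only [sig, Algebra.TensorProduct.map_tmul, TensorProduct.smul_tmul', smul_eq_mul]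
    simp
  | add x y hx hy => rw [smul_add, map_add, hx, hy, map_add, smul_add]

lemma sig_tmul (g : L ≃ₐ[F] L) (b : A) : sig g ((1 : L) ⊗ₜ[F] b) = (1 : L) ⊗ₜ[F] b := by
  simp [sig]

lemma sig_mul (g h : L ≃ₐ[F] L) (x : L ⊗[F] A) : sig g (sig h x) = sig (g * h) x := by
  induction x using TensorProduct.induction_on with
  | zero => simp
  | tmul a b => simp [sig]
  | add x y hx hy => rw [map_add, map_add, hx, hy, map_add]

lemma sig_ne (g : L ≃ₐ[F] L) {x : L ⊗[F] A} (hx : x ≠ 0) : sig g x ≠ 0 := by
  intro h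
  apply hx
  have h1 : sig (g⁻¹ * g) x = 0 := by rw [← sig_mul, h, map_zero]
  rw [inv_mul_cancel] at h1
  have h2 : sig (1 : L ≃ₐ[F] L) x = x := by
    clear h1 h hx
    induction x using TensorProduct.induction_on with
    | zero => simp
    | tmul a b => simp [sig]
    | add x y hx hy => rw [map_add, hx, hy]
  rw [← h2, h1]

lemma sig_aeval (g : L ≃ₐ[F] L) (f : A) (P : L[X]) :
    sig g (aeval (fL (F := F) L f) P) = aeval (fL (F := F) L f) (P.map (g : L →+* L)) := by
  have h := Polynomial.hom_eval₂ P (algebraMap L (L ⊗[F] A))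
    ((sig (A := A) g : L ⊗[F] A →ₐ[F] L ⊗[F] A) : L ⊗[F] A →+* L ⊗[F] A)
    (fL (F := F) L f)
  have h1 : ((sig (A := A) g : L ⊗[F] A →ₐ[F] L ⊗[F] A) : L ⊗[F] A →+* L ⊗[F] A).comp
      (algebraMap L (L ⊗[F] A)) = (algebraMap L (L ⊗[F] A)).comp (g : L →+* L) := by
    refine RingHom.ext fun c => ?_
    have := sig_smul g c (1 : L ⊗[F] A)
    rw [map_one, ← Algebra.algebraMap_eq_smul_one, ← Algebra.algebraMap_eq_smul_one] at this
    exact this
  have h2 : ((sig (A := A) g : L ⊗[F] A →ₐ[F] L ⊗[F] A) : L ⊗[F] A →+* L ⊗[F] A)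
      (fL (F := F) L f) = fL (F := F) L f := sig_tmul g f
  rw [h1, h2] at h
  rw [aeval_def, aeval_def, eval₂_map]
  exact h

lemma exists_idem (f : A) (hn : 0 < (minpoly F f).natDegree) (hp : (minpoly F f).Separable)
    (hs : ((minpoly F f).map (algebraMap F L)).Splits)
    [Fintype (Roots F L (minpoly F f))] [DecidableEq (Roots F L (minpoly F f))] :
    ∃ e : Roots F L (minpoly F f) → L ⊗[F] A, Idem e ∧
      ∀ (g : L ≃ₐ[F] L) (α : Roots F L (minpoly F f)), sig g (e α) = e (g • α) := by
  have hinj : Set.InjOn (fun α : Roots F L (minpoly F f) => α.1)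
      (Finset.univ : Finset (Roots F L (minpoly F f))) := fun x _ y _ hxy => Subtype.ext hxy
  have hcard := card_roots (L := L) hp hs
  have hne : (Finset.univ : Finset (Roots F L (minpoly F f))).Nonempty := by
    rw [← Finset.card_pos, Finset.card_univ, hcard]
    exact hn
  let E : Roots F L (minpoly F f) → L[X] := fun α =>
    Lagrange.basis Finset.univ (fun α : Roots F L (minpoly F f) => α.1) α
  have hself : ∀ α, (E α).eval α.1 = 1 := fun α =>
    Lagrange.eval_basis_self hinj (Finset.mem_univ α)
  have hother : ∀ α β, α ≠ β → (E α).eval β.1 = 0 := fun α β h =>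
    Lagrange.eval_basis_of_ne (v := fun α : Roots F L (minpoly F f) => α.1) h (Finset.mem_univ β)
  have hsum : ∑ α, E α = 1 := Lagrange.sum_basis hinj hne
  refine ⟨fun α => aeval (fL (F := F) L f) (E α), ⟨?_, ?_, ?_, ?_⟩, ?_⟩
  · intro α h
    have h0 : E α ≠ 0 := Lagrange.basis_ne_zero hinj (Finset.mem_univ α)
    apply h0
    refine fL_indep f ?_ h
    have := Lagrange.degree_basis hinj (Finset.mem_univ α)
    change (E α).degree = _ at this
    rw [this, Finset.card_univ, hcard]
    exact_mod_cast Nat.sub_lt hn one_pos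
  · intro α
    rw [← map_mul, ← sub_eq_zero, ← map_sub]
    refine vanish f hp hs fun β => ?_
    rw [eval_sub, eval_mul]
    by_cases h : α = β
    · subst h
      rw [hself]; ring
    · rw [hother α β h]; ring
  · intro α β hαβ
    rw [← map_mul]
    refine vanish f hp hs fun γ => ?_
    rw [eval_mul]
    by_cases h : α = γ
    · have h2 : β ≠ γ := fun h2 => hαβ (h.trans h2.symm)
      rw [hother β γ h2, mul_zero]
    · rw [hother α γ h, zero_mul]
  · rw [← map_sum, hsum, map_one]
  · intro g α
    rw [sig_aeval, ← sub_eq_zero, ← map_sub]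
    refine vanish f hp hs fun β => ?_
    have hβ : β.1 = g (g⁻¹ • β).1 := by
      change β.1 = g (g⁻¹ β.1)
      exact (AlgEquiv.apply_symm_apply g β.1).symm
    have h1 : ((E α).map (g : L →+* L)).eval β.1 = g ((E α).eval (g⁻¹ • β).1) := by
      rw [hβ]
      exact Polynomial.eval_map_apply (g : L →+* L) (g⁻¹ • β).1
    rw [eval_sub, h1]
    by_cases h : α = g⁻¹ • β
    · have h2 : g • α = β := by rw [h, smul_inv_smul]
      rw [← h, h2, hself, hself, map_one, sub_self]
    · have h2 : g • α ≠ β := fun h2 => h (by rw [← h2, inv_smul_smul])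
      rw [hother _ _ h, hother _ _ h2, map_zero, sub_self]

/-! ### The model -/

section Final

lemma main [FiniteDimensional F A] (hS : IsSimpleRing (L ⊗[F] A)) (n : ℕ) (f : A) (hn : 0 < n)
    (hdim : Module.finrank F A = n ^ 2) (hp : (minpoly F f).Separable)
    (hdeg : (minpoly F f).natDegree = n) (hs : ((minpoly F f).map (algebraMap F L)).Splits)
    [Fintype (Roots F L (minpoly F f))] [DecidableEq (Roots F L (minpoly F f))] :
    ∃ c : Mono (L ≃ₐ[F] L) L (Roots F L (minpoly F f)), Nonempty (Model F L A c.toPMod) := by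
  have hn' : 0 < (minpoly F f).natDegree := by rw [hdeg]; exact hn
  obtain ⟨e, he, hge⟩ := exists_idem f hn' hp hs
  have hcard := card_roots (L := L) hp hs
  rw [hdeg] at hcard
  have hd : Module.finrank L (L ⊗[F] A) = Fintype.card (Roots F L (minpoly F f)) ^ 2 := by
    rw [Module.finrank_baseChange, hdim, hcard]
  have hne : Nonempty (Roots F L (minpoly F f)) := by
    rw [← Fintype.card_pos_iff, hcard]; exact hn
  obtain ⟨o⟩ := hne
  obtain ⟨s, t, ht1, ht2, hs1, hs2, hst, hts⟩ := units (L := L) he hd o
  obtain ⟨ε, hε⟩ := functional (L := L) he hd o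
  -- basic facts
  have hκ : ∀ c d : L, c • e o = d • e o → c = d := by
    intro c d hcd
    have : (c - d) • e o = 0 := by rw [sub_smul, hcd, sub_self]
    rcases smul_eq_zero.mp this with h | h
    · exact sub_eq_zero.mp h
    · exact absurd h (he.ne o)
  have hE : ∀ y, e o * y = y → y * e o = y → y = ε y • e o := by
    intro y h1 h2
    rw [← hε, h1, h2]
  have hε1 : ε (e o) = 1 := by
    apply hκ
    rw [← hE (e o) (he.sq o) (he.sq o), one_smul]
  have hst0 : ∀ i j, i ≠ j → s i * t j = 0 := by
    intro i j hij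
    rw [← hs2 i, ← ht1 j, mul_assoc, ← mul_assoc (e i), he.orth i j hij, zero_mul, mul_zero]
  have hsum : ∑ i, t i * s i = 1 := by
    rw [← he.sum]
    exact Finset.sum_congr rfl fun i _ => hts i
  have ht0 : ∀ i, t i ≠ 0 := by
    intro i h0
    have := hts i
    rw [h0, zero_mul] at this
    exact he.ne i this.symm
  have hΘE : ∀ (i j) (x : L ⊗[F] A), s i * x * t j = ε (s i * x * t j) • e o := by
    intro i j x
    apply hE
    · rw [← mul_assoc, ← mul_assoc, hs1]
    · rw [mul_assoc, ht2]
  have hee : ∀ c d : L, (c • e o) * (d • e o) = (c * d) • e o := by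
    intro c d
    rw [smul_mul_smul_comm, he.sq]
  -- the isomorphism
  let Θl : (L ⊗[F] A) →ₗ[L] Matrix (Roots F L (minpoly F f)) (Roots F L (minpoly F f)) L :=
    { toFun := fun x => Matrix.of fun i j => ε (s i * x * t j)
      map_add' := fun x y => by
        ext i j
        simp [mul_add, add_mul]
      map_smul' := fun c x => by
        ext i j
        simp }
  have hΘ : ∀ x i j, Θl x i j = ε (s i * x * t j) := fun x i j => rfl
  have hΘ1 : Θl 1 = 1 := by
    ext i j
    rw [hΘ, mul_one, Matrix.one_apply]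
    by_cases h : i = j
    · subst h
      rw [hst, hε1, if_pos rfl]
    · rw [hst0 i j h, map_zero, if_neg h]
  have hΘm : ∀ x y, Θl (x * y) = Θl x * Θl y := by
    intro x y
    ext i j
    rw [Matrix.mul_apply]
    apply hκ
    rw [hΘ, ← hΘE, Finset.sum_smul]
    have : ∀ k ∈ (Finset.univ : Finset (Roots F L (minpoly F f))),
        (Θl x i k * Θl y k j) • e o = (s i * x) * (t k * s k) * (y * t j) := by
      intro k _
      rw [← hee, hΘ, hΘ, ← hΘE, ← hΘE]
      noncomm_ring
    rw [Finset.sum_congr rfl this, ← Finset.sum_mul, ← Finset.mul_sum, hsum]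
    noncomm_ring
  let Θ : (L ⊗[F] A) →ₐ[L] Matrix (Roots F L (minpoly F f)) (Roots F L (minpoly F f)) L :=
    AlgHom.ofLinearMap Θl hΘ1 hΘm
  let θ : A →ₐ[F] Matrix (Roots F L (minpoly F f)) (Roots F L (minpoly F f)) L :=
    (Θ.restrictScalars F).comp Algebra.TensorProduct.includeRight
  have hθ : ∀ b i j, θ b i j = ε (s i * ((1 : L) ⊗ₜ[F] b) * t j) := fun b i j => rfl
  -- the monomial module
  have hkey : ∀ (g : L ≃ₐ[F] L) (x : Roots F L (minpoly F f)),
      sig g (t x) * t (g • o) = ε (s (g • x) * sig g (t x) * t (g • o)) • t (g • x) := by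
    intro g x
    have h1 : t (g • x) * (s (g • x) * sig g (t x) * t (g • o)) = sig g (t x) * t (g • o) := by
      have h2 : t (g • x) * (s (g • x) * sig g (t x) * t (g • o)) =
          (t (g • x) * s (g • x)) * sig g (t x) * t (g • o) := by noncomm_ring
      rw [h2, hts, ← hge, ← map_mul, ht1]
    rw [← h1, hΘE]
    rw [mul_smul_comm, ht2, map_smul, hε1, smul_eq_mul, mul_one]
  have hcne : ∀ (g : L ≃ₐ[F] L) (x : Roots F L (minpoly F f)),
      ε (s (g • x) * sig g (t x) * t (g • o)) ≠ 0 := by
    intro g x h0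
    have h1 := hkey g x
    rw [h0, zero_smul] at h1
    have h2 : sig g (s x) * (sig g (t x) * t (g • o)) = t (g • o) := by
      rw [← mul_assoc, ← map_mul, hst, hge, ht1]
    rw [h1, mul_zero] at h2
    exact ht0 _ h2.symm
  have hcanc : ∀ (c d : L) (i : Roots F L (minpoly F f)), c • t i = d • t i → c = d := by
    intro c d i hcd
    have : (c - d) • t i = 0 := by rw [sub_smul, hcd, sub_self]
    rcases smul_eq_zero.mp this with h | h
    · exact sub_eq_zero.mp h
    · exact absurd h (ht0 i)
  let c : Mono (L ≃ₐ[F] L) L (Roots F L (minpoly F f)) :=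
    { c := fun g x => ε (s (g • x) * sig g (t x) * t (g • o))
      a := fun g h => ε (s (g • h • o) * sig g (t (h • o)) * t (g • o))
      c_ne := hcne
      a_ne := fun g h => hcne g (h • o)
      mul := by
        intro g h x
        apply hcanc _ _ ((g * h) • x)
        have h1 : sig g (sig h (t x) * t (h • o)) * t (g • o) =
            (ε (s (g • h • x) * sig g (t (h • x)) * t (g • o)) *
              (g • ε (s (h • x) * sig h (t x) * t (h • o)))) • t ((g * h) • x) := by
          rw [mul_smul g h x, hkey h x, sig_smul, smul_mul_assoc, hkey g (h • x)]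
          exact (smul_smul _ _ _).trans (by rw [mul_comm])
        have h2 : sig g (sig h (t x) * t (h • o)) * t (g • o) =
            (ε (s (g • h • o) * sig g (t (h • o)) * t (g • o)) *
              ε (s ((g * h) • x) * sig (g * h) (t x) * t ((g * h) • o))) • t ((g * h) • x) := by
          rw [map_mul, sig_mul, mul_assoc, hkey g (h • o), mul_smul_comm, ← mul_smul g h o,
            hkey (g * h) x, smul_smul]
        rw [← h1, ← h2] }
  refine ⟨c, ⟨⟨θ, ?_, ?_, ?_⟩⟩⟩
  · -- span
    rw [eq_top_iff]
    intro M _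
    have hmem : ∀ x, Θl x ∈ Submodule.span L (Set.range θ) := by
      intro x
      induction x using TensorProduct.induction_on with
      | zero => rw [map_zero]; exact Submodule.zero_mem _
      | tmul a b =>
        have : a ⊗ₜ[F] b = a • ((1 : L) ⊗ₜ[F] b) := by
          rw [TensorProduct.smul_tmul', smul_eq_mul, mul_one]
        rw [this, map_smul]
        exact Submodule.smul_mem _ _ (Submodule.subset_span ⟨b, rfl⟩)
      | add x y hx hy => rw [map_add]; exact Submodule.add_mem _ hx hy
    have hM : Θl (∑ i, ∑ j, M i j • (t i * s j)) = M := by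
      ext k l
      rw [hΘ]
      apply hκ
      rw [← hΘE, Finset.mul_sum, Finset.sum_mul, Finset.sum_eq_single k]
      · rw [Finset.mul_sum, Finset.sum_mul, Finset.sum_eq_single l]
        · rw [mul_smul_comm, smul_mul_assoc]
          have : s k * (t k * s l) * t l = (s k * t k) * (s l * t l) := by noncomm_ring
          rw [this, hst, hst, he.sq]
        · intro j _ hj
          rw [mul_smul_comm, smul_mul_assoc, mul_assoc, mul_assoc, hst0 j l hj]
          simp
        · simp
      · intro i _ hi
        rw [Finset.mul_sum, Finset.sum_mul]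
        refine Finset.sum_eq_zero fun j _ => ?_
        rw [mul_smul_comm, smul_mul_assoc, ← mul_assoc, hst0 k i (Ne.symm hi)]
        simp
      · simp
    rw [← hM]
    exact hmem _
  · rw [hdim, hcard]
  · -- commutation
    intro g b
    ext i x
    rw [Matrix.mul_apply, Matrix.mul_apply]
    rw [Finset.sum_eq_single (g • x), Finset.sum_eq_single (g⁻¹ • i)]
    · simp only [Mono.toPMod, Matrix.of_apply, Matrix.map_apply, smul_inv_smul, if_true]
      rw [hθ, hθ]
      obtain ⟨k, hk⟩ : ∃ k, i = g • k := ⟨g⁻¹ • i, (smul_inv_smul g i).symm⟩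
      subst hk
      rw [inv_smul_smul]
      change ε (s (g • k) * ((1 : L) ⊗ₜ[F] b) * t (g • x)) *
          ε (s (g • x) * sig g (t x) * t (g • o)) =
        ε (s (g • k) * sig g (t k) * t (g • o)) *
          g (ε (s k * ((1 : L) ⊗ₜ[F] b) * t x))
      apply hκ
      have h1 : s (g • k) * ((1 : L) ⊗ₜ[F] b) * (sig g (t x) * t (g • o)) =
          (ε (s (g • k) * ((1 : L) ⊗ₜ[F] b) * t (g • x)) *
          ε (s (g • x) * sig g (t x) * t (g • o))) • e o := by
        rw [hkey g x, mul_smul_comm]
        conv_lhs => rw [hΘE (g • k) (g • x) ((1 : L) ⊗ₜ[F] b)]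
        exact (smul_smul _ _ _).trans (by rw [mul_comm])
      have h2 : s (g • k) * ((1 : L) ⊗ₜ[F] b) * (sig g (t x) * t (g • o)) =
          (ε (s (g • k) * sig g (t k) * t (g • o)) *
          g (ε (s k * ((1 : L) ⊗ₜ[F] b) * t x))) • e o := by
        have h3 : s (g • k) * ((1 : L) ⊗ₜ[F] b) * (sig g (t x) * t (g • o)) =
            s (g • k) * (sig g (t k * (s k * ((1 : L) ⊗ₜ[F] b) * t x)) * t (g • o)) := by
          have h4 : t k * (s k * ((1 : L) ⊗ₜ[F] b) * t x) =
              e k * ((1 : L) ⊗ₜ[F] b) * t x := by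
            rw [← mul_assoc, ← mul_assoc, hts]
          rw [h4, map_mul, map_mul, hge, sig_tmul]
          have h5 : s (g • k) * (e (g • k) * ((1 : L) ⊗ₜ[F] b) * sig g (t x) * t (g • o)) =
            (s (g • k) * e (g • k)) * ((1 : L) ⊗ₜ[F] b) * (sig g (t x) * t (g • o)) := by
            noncomm_ring
          rw [h5, hs2]
        rw [h3]
        conv_lhs => rw [hΘE k x ((1 : L) ⊗ₜ[F] b)]
        rw [mul_smul_comm, ht2, sig_smul, smul_mul_assoc, hkey g k, mul_smul_comm, mul_smul_comm,
          hst]
        exact (smul_smul _ _ _).trans (by rw [mul_comm]; rfl)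
      rw [← h1, ← h2]
    · intro y _ hy
      simp only [Mono.toPMod, Matrix.of_apply]
      rw [if_neg, zero_mul]
      intro h
      exact hy (by rw [h, inv_smul_smul])
    · simp
    · intro y _ hy
      simp only [Mono.toPMod, Matrix.of_apply]
      rw [if_neg hy, mul_zero]
    · simp

end Final

end

end ModelBlock

/-- Block MODEL, from block SIMPLE. -/
theorem stmt_MODEL (hS : Stmt_SIMPLE.{u}) : Stmt_MODEL.{u} := by
  intro F A L _ _ _ _ _ _ _ _ _ _ n f hn hdim hp hdeg hs _ _
  exact ModelBlock.main (hS F L A) n f hn hdim hp hdeg hs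

end Pool.Agent.MP12f267
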