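import Mathlib
import Pool.Agent.Work.MP_12f267_ag.Statement

/-! Small good degrees and periods. -/

namespace Pool.Agent.MP12f267

instance (m r j : ℕ) : Decidable ((m : ℤ) ∣ (r : ℤ) - 2 ^ j ∨ (m : ℤ) ∣ (r : ℤ) + 2 ^ j) := inferInstance

/-- A finite check of the condition. -/
lemma goodDegree_of_check (m : ℕ) (hm : 0 < m)
    (h : ∀ r < m, r.Coprime m → ∃ j < m, (m : ℤ) ∣ (r : ℤ) - 2 ^ j ∨ (m : ℤ) ∣ (r : ℤ) + 2 ^ j) :
    GoodDegree m := by
  intro r hr
  have h1 : (r % m).Coprime m := by
    rw [Nat.Coprime, ← Nat.gcd_rec, Nat.gcd_comm]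
    exact hr
  obtain ⟨j, -, hj⟩ := h (r % m) (Nat.mod_lt _ hm) h1
  have h2 : (r : ℤ) = m * (r / m : ℕ) + (r % m : ℕ) := by
    exact_mod_cast (Nat.div_add_mod r m).symm
  refine ⟨j, hj.imp (fun hj => ?_) (fun hj => ?_)⟩
  · have : (r : ℤ) - 2 ^ j = m * (r / m : ℕ) + (((r % m : ℕ) : ℤ) - 2 ^ j) := by
      rw [h2]; push_cast; ring
    rw [this]
    exact dvd_add (Dvd.intro _ rfl) hj
  · have : (r : ℤ) + 2 ^ j = m * (r / m : ℕ) + (((r % m : ℕ) : ℤ) + 2 ^ j) := by
      rw [h2]; push_cast; ring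
    rw [this]
    exact dvd_add (Dvd.intro _ rfl) hj

lemma goodDegree_small : ∀ q ∈ [1, 2, 3, 4, 5, 7, 9, 11, 13, 19, 23, 25, 27, 29],
    GoodDegree q := by
  intro q hq
  simp only [List.mem_cons, List.not_mem_nil, or_false] at hq
  rcases hq with rfl | rfl | rfl | rfl | rfl | rfl | rfl | rfl | rfl | rfl | rfl | rfl | rfl | rfl
    <;> exact goodDegree_of_check _ (by norm_num) (by decide +kernel)

/-- All `m ≤ 30` except `8, 16, 17, 24` are good periods. -/
lemma goodPeriod_small (m : ℕ) (h0 : 0 < m) (h30 : m ≤ 30) (h8 : m ≠ 8) (h16 : m ≠ 16)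
    (h17 : m ≠ 17) (h24 : m ≠ 24) : GoodPeriod m := by
  intro p e hp hdvd hnd
  clear hnd
  apply goodDegree_small
  have hq0 : 0 < p ^ e := pow_pos hp.pos e
  have hqm : p ^ e ≤ m := Nat.le_of_dvd h0 hdvd
  have key : ∀ a b : ℕ, a.Prime → b.Prime → a ≠ b → a ∣ p ^ e → b ∣ p ^ e → False := by
    intro a b ha hb hab h1 h2
    have h3 := (Nat.prime_dvd_prime_iff_eq ha hp).mp (ha.dvd_of_dvd_pow h1)
    have h4 := (Nat.prime_dvd_prime_iff_eq hb hp).mp (hb.dvd_of_dvd_pow h2)
    exact hab (h3.trans h4.symm)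
  generalize p ^ e = q at *
  have hq30 : q ≤ 30 := hqm.trans h30
  have hm8 : q = 8 → False := by
    intro h
    clear key
    subst h
    omega
  have hm16 : q = 16 → False := by
    intro h
    clear key
    subst h
    omega
  have hm17 : q = 17 → False := by
    intro h
    clear key
    subst h
    omega
  have k23 := key 2 3 Nat.prime_two Nat.prime_three (by norm_num)
  have k25 := key 2 5 Nat.prime_two Nat.prime_five (by norm_num)
  have k27 := key 2 7 Nat.prime_two (by norm_num) (by norm_num)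
  have k35 := key 3 5 Nat.prime_three Nat.prime_five (by norm_num)
  have k37 := key 3 7 Nat.prime_three (by norm_num) (by norm_num)
  have k211 := key 2 11 Nat.prime_two (by norm_num) (by norm_num)
  have k213 := key 2 13 Nat.prime_two (by norm_num) (by norm_num)
  clear key hdvd hqm h30 h8 h16 h17 h24 h0
  interval_cases q
  · simp
  · simp
  · simp
  · simp
  · simp
  · exact (k23 (by norm_num) (by norm_num)).elim
  · simp
  · exact (hm8 rfl).elim
  · simp
  · exact (k25 (by norm_num) (by norm_num)).elim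
  · simp
  · exact (k23 (by norm_num) (by norm_num)).elim
  · simp
  · exact (k27 (by norm_num) (by norm_num)).elim
  · exact (k35 (by norm_num) (by norm_num)).elim
  · exact (hm16 rfl).elim
  · exact (hm17 rfl).elim
  · exact (k23 (by norm_num) (by norm_num)).elim
  · simp
  · exact (k25 (by norm_num) (by norm_num)).elim
  · exact (k37 (by norm_num) (by norm_num)).elim
  · exact (k211 (by norm_num) (by norm_num)).elim
  · simp
  · exact (k23 (by norm_num) (by norm_num)).elim
  · simp
  · exact (k213 (by norm_num) (by norm_num)).elim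
  · simp
  · exact (k27 (by norm_num) (by norm_num)).elim
  · simp
  · exact (k23 (by norm_num) (by norm_num)).elim

end Pool.Agent.MP12f267
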